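import Pool.Agent.Helper71.SG.LX

open Complex Set Filter Topology Matrix ComplexConjugate
open scoped ENNReal NNReal Nat

noncomputable section

namespace Pool.SG

/-- The operator norm of `g` in `SU(1, 1)`. -/
def NN (g : SLR) : ℝ := ‖al g‖ + ‖be g‖

/-- The weight. -/
def ww (M : ℕ) (g : GG) : ℝ := max (NN g.2) (NN g.1 ^ M)

theorem NN_mul (g h : SLR) : NN (g * h) ≤ NN g * NN h := by
  unfold NN
  have h1 : ‖al (g * h)‖ ≤ ‖al g‖ * ‖al h‖ + ‖be g‖ * ‖be h‖ := by
    rw [al_mul]
    refine (norm_add_le _ _).trans ?_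
    rw [norm_mul, norm_mul, RCLike.norm_conj]
  have h2 : ‖be (g * h)‖ ≤ ‖al g‖ * ‖be h‖ + ‖be g‖ * ‖al h‖ := by
    rw [be_mul]
    refine (norm_add_le _ _).trans ?_
    rw [norm_mul, norm_mul, RCLike.norm_conj]
  calc _ ≤ (‖al g‖ * ‖al h‖ + ‖be g‖ * ‖be h‖) + (‖al g‖ * ‖be h‖ + ‖be g‖ * ‖al h‖) :=
        add_le_add h1 h2
    _ = _ := by ring

theorem one_le_NN (g : SLR) : 1 ≤ NN g := by
  have h1 := one_le_al g
  have h2 := norm_nonneg (be g)
  unfold NN
  linarith

lemma continuous_NN : Continuous NN := by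
  unfold NN
  exact (continuous_al.norm).add continuous_be.norm

theorem ww_isWeight (M : ℕ) : IsWeight (ww M) where
  pos g := lt_of_lt_of_le (lt_of_lt_of_le one_pos (one_le_NN g.2)) (le_max_left _ _)
  mul_le g h := by
    have hg2 := one_le_NN g.2
    have hh2 := one_le_NN h.2
    have hg1 := one_le_NN g.1
    have hh1 := one_le_NN h.1
    have hgw : 0 ≤ ww M g := (zero_le_one.trans hg2).trans (le_max_left _ _)
    unfold ww
    apply max_le
    · refine (NN_mul g.2 h.2).trans ?_
      exact mul_le_mul (le_max_left _ _) (le_max_left _ _) (by linarith) hgw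
    · have h1 : NN (g * h).1 ^ M ≤ (NN g.1 * NN h.1) ^ M :=
        pow_le_pow_left₀ (zero_le_one.trans (one_le_NN _)) (NN_mul g.1 h.1) M
      rw [mul_pow] at h1
      refine h1.trans ?_
      exact mul_le_mul (le_max_right _ _) (le_max_right _ _) (by positivity) hgw
  locBdd g := by
    have hc : Continuous (ww M) := by
      unfold ww
      exact (continuous_NN.comp continuous_snd).max ((continuous_NN.comp continuous_fst).pow M)
    refine ⟨ww M g + 1, ?_⟩
    filter_upwards [(hc.tendsto g).eventually (gt_mem_nhds (lt_add_one (ww M g)))] with h hh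
    exact hh.le

end Pool.SG
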