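import Pool.Agent.Helper71.SG.TRB
import Pool.Agent.Helper71.SG.WG1

open Complex Set Filter Topology Matrix ComplexConjugate
open scoped ENNReal NNReal Nat

noncomputable section

namespace Pool.SG

/-- The open unit disc. -/
abbrev BetaD : Type := {z : ℂ // ‖z‖ < 1}

lemma beta_one_sub (z : BetaD) : 0 < 1 - ‖z.1‖ ^ 2 ∧ 1 - ‖z.1‖ ^ 2 ≤ 1 := by
  have h1 := z.2
  have h2 := norm_nonneg z.1
  constructor
  · nlinarith
  · nlinarith [sq_nonneg ‖z.1‖]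

/-- Evaluation at a point. -/
def betaEv (z : ℂ) : AA →ₗ[ℂ] ℂ × ℂ where
  toFun F := (F : ℂ → ℂ × ℂ) z
  map_add' _ _ := rfl
  map_smul' _ _ := rfl

/-- The seminorm at a point of the disc. -/
def betaPt (β : ℝ) (z : BetaD) : Seminorm ℂ AA :=
  let b : ℝ≥0 := ⟨(1 - ‖z.1‖ ^ 2) ^ β, Real.rpow_nonneg (beta_one_sub z).1.le β⟩
  b • (normSeminorm ℂ (ℂ × ℂ)).comp (betaEv z.1)

lemma betaPt_apply (β : ℝ) (z : BetaD) (F : AA) :
    betaPt β z F = (1 - ‖z.1‖ ^ 2) ^ β * ‖(F : ℂ → ℂ × ℂ) z.1‖ := rfl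

lemma beta_exists_sup (β : ℝ) (hβ : 0 ≤ β) : ∃ S : Seminorm ℂ AA,
    (∀ (z : BetaD) (F : AA), (1 - ‖z.1‖ ^ 2) ^ β * ‖(F : ℂ → ℂ × ℂ) z.1‖ ≤ S F) ∧
      ∀ (F : AA) (c : ℝ), (∀ z : BetaD, (1 - ‖z.1‖ ^ 2) ^ β * ‖(F : ℂ → ℂ × ℂ) z.1‖ ≤ c) → S F ≤ c := by
  have hbd : ∀ F : AA, ∃ K, ∀ z : BetaD, betaPt β z F ≤ K := by
    intro F
    obtain ⟨R, hR, E, K, hE, hK, h⟩ := exists_bdd_ext F
    refine ⟨K, fun z => ?_⟩
    rw [betaPt_apply, hE.2 z.1 z.2.le]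
    have h1 : ‖E z.1‖ ≤ K := h z.1 (z.2.trans hR)
    have h2 : (1 - ‖z.1‖ ^ 2) ^ β ≤ 1 :=
      Real.rpow_le_one (beta_one_sub z).1.le (beta_one_sub z).2 hβ
    have h3 : 0 ≤ (1 - ‖z.1‖ ^ 2) ^ β := Real.rpow_nonneg (beta_one_sub z).1.le β
    nlinarith [norm_nonneg (E z.1)]
  choose B hB using hbd
  have hb : BddAbove ((fun q : Seminorm ℂ AA => (q : AA → ℝ)) '' range (betaPt β)) := by
    refine ⟨B, ?_⟩
    rintro _ ⟨_, ⟨i, rfl⟩, rfl⟩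
    exact fun x => hB x i
  have hS := Seminorm.coe_sSup_eq' hb
  have hb' : ∀ x, BddAbove
      (range fun q : range (betaPt β) => ((q : Seminorm ℂ AA) : AA → ℝ) x) := by
    intro x
    refine ⟨B x, ?_⟩
    rintro _ ⟨⟨_, i, rfl⟩, rfl⟩
    exact hB x i
  refine ⟨sSup (range (betaPt β)), ?_, ?_⟩
  · intro i x
    rw [hS, iSup_apply]
    exact le_ciSup (hb' x) ⟨betaPt β i, i, rfl⟩
  · intro x c hc
    rw [hS, iSup_apply]
    have : Nonempty (range (betaPt β)) := ⟨⟨betaPt β ⟨0, by simp⟩, _, rfl⟩⟩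
    refine ciSup_le ?_
    rintro ⟨_, i, rfl⟩
    exact hc i

/-- Exponential decay beats powers. -/
lemma beta_exp_bound (β : ℝ) (hβ : 0 ≤ β) : ∃ C, 0 < C ∧ ∀ s : ℝ, 0 ≤ s →
    s ^ β * Real.exp (-(s / 2)) ≤ C := by
  obtain ⟨k, hk⟩ := exists_nat_ge β
  refine ⟨1 + 2 ^ k * (k ! : ℝ), by positivity, fun s hs => ?_⟩
  have h1 : s ^ β ≤ 1 + s ^ k := by
    rcases le_total s 1 with h | h
    · have : s ^ β ≤ 1 := Real.rpow_le_one hs h hβ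
      have : 0 ≤ s ^ k := by positivity
      linarith
    · have h2 : s ^ β ≤ s ^ (k : ℝ) := Real.rpow_le_rpow_of_exponent_le h hk
      rw [Real.rpow_natCast] at h2
      linarith
  have h3 : (s / 2) ^ k / (k ! : ℝ) ≤ Real.exp (s / 2) :=
    Real.pow_div_factorial_le_exp (s / 2) (by positivity) k
  have hk0 : (0 : ℝ) < (k ! : ℝ) := by exact_mod_cast Nat.factorial_pos k
  have h4 : s ^ k ≤ 2 ^ k * (k ! : ℝ) * Real.exp (s / 2) := by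
    rw [div_le_iff₀ hk0, div_pow, div_le_iff₀ (by positivity)] at h3
    linarith
  have h5 : 1 ≤ Real.exp (s / 2) := Real.one_le_exp (by positivity)
  have h6 : Real.exp (s / 2) * Real.exp (-(s / 2)) = 1 := by
    rw [← Real.exp_add]
    simp
  have h7 : 0 < Real.exp (-(s / 2)) := Real.exp_pos _
  calc s ^ β * Real.exp (-(s / 2))
      ≤ ((1 + 2 ^ k * (k ! : ℝ)) * Real.exp (s / 2)) * Real.exp (-(s / 2)) := by
        refine mul_le_mul_of_nonneg_right ?_ h7.le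
        nlinarith
    _ = 1 + 2 ^ k * (k ! : ℝ) := by rw [mul_assoc, h6, mul_one]

lemma beta_upper (β : ℝ) (hβ : 0 ≤ β) : ∃ C, 0 < C ∧ ∀ (n : ℕ) (z : BetaD),
    (1 - ‖z.1‖ ^ 2) ^ β * ‖z.1‖ ^ n ≤ C * ((n : ℝ) + 1) ^ (-β) := by
  obtain ⟨C, hC, h⟩ := beta_exp_bound β hβ
  refine ⟨C * Real.exp (1 / 2), by positivity, fun n z => ?_⟩
  obtain ⟨hy0, hy1⟩ := beta_one_sub z
  set y := 1 - ‖z.1‖ ^ 2 with hy
  have hn : (0 : ℝ) < (n : ℝ) + 1 := by positivity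
  have h1 : ‖z.1‖ ≤ Real.exp (-(y / 2)) := by
    have h2 : ‖z.1‖ ^ 2 ≤ Real.exp (-(y / 2)) ^ 2 := by
      rw [← Real.exp_nat_mul]
      have h3 := Real.add_one_le_exp (-y)
      have h4 : ((2 : ℕ) : ℝ) * -(y / 2) = -y := by push_cast; ring
      rw [h4]
      linarith
    exact le_of_sq_le_sq h2 (Real.exp_pos _).le
  have h5 : ‖z.1‖ ^ n ≤ Real.exp (-(((n : ℝ) + 1) * y / 2)) * Real.exp (1 / 2) := by
    calc ‖z.1‖ ^ n ≤ Real.exp (-(y / 2)) ^ n := by gcongr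
      _ = Real.exp (-(n * y / 2)) := by
        rw [← Real.exp_nat_mul]
        congr 1
        ring
      _ ≤ Real.exp (-(((n : ℝ) + 1) * y / 2) + 1 / 2) := by
        apply Real.exp_le_exp.2
        linarith
      _ = _ := Real.exp_add _ _
  have h6 := h (((n : ℝ) + 1) * y) (by positivity)
  have h7 : y ^ β = ((n : ℝ) + 1) ^ (-β) * (((n : ℝ) + 1) * y) ^ β := by
    rw [Real.mul_rpow hn.le hy0.le, ← mul_assoc, ← Real.rpow_add hn]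
    simp
  have h8 : 0 ≤ ((n : ℝ) + 1) ^ (-β) := Real.rpow_nonneg hn.le _
  have h9 : 0 ≤ y ^ β := Real.rpow_nonneg hy0.le _
  calc y ^ β * ‖z.1‖ ^ n
      ≤ y ^ β * (Real.exp (-(((n : ℝ) + 1) * y / 2)) * Real.exp (1 / 2)) := by gcongr
    _ = ((n : ℝ) + 1) ^ (-β) * Real.exp (1 / 2) *
        ((((n : ℝ) + 1) * y) ^ β * Real.exp (-(((n : ℝ) + 1) * y / 2))) := by
        rw [h7]
        ring
    _ ≤ ((n : ℝ) + 1) ^ (-β) * Real.exp (1 / 2) * C := by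
        refine mul_le_mul_of_nonneg_left h6 ?_
        positivity
    _ = _ := by ring

lemma beta_lower (β : ℝ) (hβ : 0 ≤ β) : ∃ c, 0 < c ∧ ∀ n : ℕ, ∃ z : BetaD,
    c * ((n : ℝ) + 1) ^ (-β) ≤ (1 - ‖z.1‖ ^ 2) ^ β * ‖z.1‖ ^ n := by
  refine ⟨(2 : ℝ) ^ (-β) * (Real.exp 1)⁻¹, by positivity, fun n => ?_⟩
  have hn : (0 : ℝ) < (n : ℝ) + 1 := by positivity
  set x : ℝ := ((n : ℝ) + 1) / ((n : ℝ) + 2) with hx
  have hx0 : 0 < x := by positivity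
  have hx1 : x < 1 := by
    rw [hx, div_lt_one (by positivity)]
    linarith
  have hxn : ‖(x : ℂ)‖ = x := by
    rw [Complex.norm_real, Real.norm_of_nonneg hx0.le]
  refine ⟨⟨(x : ℂ), by rw [hxn]; exact hx1⟩, ?_⟩
  simp only [hxn]
  have h1 : 1 / (2 * ((n : ℝ) + 1)) ≤ 1 - x ^ 2 := by
    have h2 : 1 - x = 1 / ((n : ℝ) + 2) := by
      rw [hx]
      field_simp
      ring
    have h3 : 1 / (2 * ((n : ℝ) + 1)) ≤ 1 / ((n : ℝ) + 2) := by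
      apply one_div_le_one_div_of_le (by positivity)
      linarith [(Nat.cast_nonneg n : (0 : ℝ) ≤ n)]
    nlinarith
  have h4 : (2 : ℝ) ^ (-β) * ((n : ℝ) + 1) ^ (-β) ≤ (1 - x ^ 2) ^ β := by
    have h5 := Real.rpow_le_rpow (by positivity) h1 hβ
    refine le_trans (le_of_eq ?_) h5
    rw [← Real.mul_rpow (by norm_num) hn.le, one_div, Real.inv_rpow (by positivity),
      Real.rpow_neg (by positivity)]
  have h6 : (Real.exp 1)⁻¹ ≤ x ^ n := by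
    have h7 : x⁻¹ ^ n ≤ Real.exp 1 := by
      have h8 : x⁻¹ = 1 + 1 / ((n : ℝ) + 1) := by
        rw [hx]
        field_simp
        ring
      have h9 : x⁻¹ ≤ Real.exp (1 / ((n : ℝ) + 1)) := by
        rw [h8]
        have := Real.add_one_le_exp (1 / ((n : ℝ) + 1))
        linarith
      calc x⁻¹ ^ n ≤ Real.exp (1 / ((n : ℝ) + 1)) ^ n := by gcongr
        _ = Real.exp (n * (1 / ((n : ℝ) + 1))) := by rw [← Real.exp_nat_mul]
        _ ≤ Real.exp 1 := by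
          apply Real.exp_le_exp.2
          rw [mul_one_div, div_le_one hn]
          linarith
    rw [inv_pow] at h7
    have := inv_anti₀ (by positivity) h7
    rwa [inv_inv] at this
  calc (2 : ℝ) ^ (-β) * (Real.exp 1)⁻¹ * ((n : ℝ) + 1) ^ (-β)
      = ((2 : ℝ) ^ (-β) * ((n : ℝ) + 1) ^ (-β)) * (Real.exp 1)⁻¹ := by ring
    _ ≤ (1 - x ^ 2) ^ β * x ^ n :=
        mul_le_mul h4 h6 (by positivity) (Real.rpow_nonneg (by nlinarith) _)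

/-- The sup norm with weight `(1 - |z| ^ 2) ^ β`. -/
theorem exists_beta (β : ℝ) (hβ : 1 / 2 ≤ β) : ∃ P : Seminorm ℂ AA, Tame P ∧
    (∀ g F, P (TT g F) ≤ NN g.1 ^ (2 * β - 1) * NN g.2 * P F) ∧
    (∀ f : VV, P (inc f) = 0 → f = 0) ∧
    (∃ C, 0 < C ∧ ∀ (n : ℕ) (u : ℂ × ℂ), P (inc (mono n u)) ≤ C * ((n : ℝ) + 1) ^ (-β) * ‖u‖) ∧
    ∃ c, 0 < c ∧ ∀ (n : ℕ) (u : ℂ × ℂ), c * ((n : ℝ) + 1) ^ (-β) * ‖u‖ ≤ P (inc (mono n u)) := by
  have hβ0 : 0 ≤ β := by linarith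
  obtain ⟨S, hS1, hS2⟩ := beta_exists_sup β hβ0
  refine ⟨S, ?_, ?_, ?_, ?_, ?_⟩
  · intro R hR
    refine ⟨1, zero_le_one, fun F E K hE hK => ?_⟩
    rw [one_mul]
    refine hS2 F K fun z => ?_
    rw [hE.2 z.1 z.2.le]
    have h1 : ‖E z.1‖ ≤ K := hK z.1 (z.2.trans hR)
    have h2 : (1 - ‖z.1‖ ^ 2) ^ β ≤ 1 :=
      Real.rpow_le_one (beta_one_sub z).1.le (beta_one_sub z).2 hβ0
    have h3 : 0 ≤ (1 - ‖z.1‖ ^ 2) ^ β := Real.rpow_nonneg (beta_one_sub z).1.le β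
    nlinarith [norm_nonneg (E z.1)]
  · intro g F
    refine hS2 _ _ fun z => ?_
    have hj := jf_ne_zero g.1 z.2.le
    have hj0 : 0 < ‖jf g.1 z.1‖ := norm_pos_iff.2 hj
    have hid := one_sub_norm_mob g.1 hj
    obtain ⟨hz0, hz1⟩ := beta_one_sub z
    have hm0 : 0 < 1 - ‖mob g.1 z.1‖ ^ 2 := by
      rw [hid]
      positivity
    have hm1 : ‖mob g.1 z.1‖ < 1 := by nlinarith [norm_nonneg (mob g.1 z.1)]
    have hz : 1 - ‖z.1‖ ^ 2 = (1 - ‖mob g.1 z.1‖ ^ 2) * ‖jf g.1 z.1‖ ^ 2 := by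
      rw [hid]
      field_simp
    have hjN : ‖jf g.1 z.1‖ ≤ NN g.1 := by
      rw [jf, NN]
      refine (norm_sub_le _ _).trans ?_
      rw [norm_mul, RCLike.norm_conj]
      have := z.2
      nlinarith [norm_nonneg (be g.1), norm_nonneg z.1]
    have hN2 : 0 ≤ NN g.2 := by rw [NN]; positivity
    have hN1 : 0 ≤ NN g.1 := by rw [NN]; positivity
    have e1 : (1 - ‖z.1‖ ^ 2) ^ β =
        (1 - ‖mob g.1 z.1‖ ^ 2) ^ β * ‖jf g.1 z.1‖ ^ (2 * β) := by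
      rw [hz, Real.mul_rpow hm0.le (by positivity), ← Real.rpow_natCast ‖jf g.1 z.1‖ 2,
        ← Real.rpow_mul hj0.le]
      norm_num
    have e2 : ‖(TT g F : ℂ → ℂ × ℂ) z.1‖ ≤
        ‖jf g.1 z.1‖⁻¹ * (NN g.2 * ‖(F : ℂ → ℂ × ℂ) (mob g.1 z.1)‖) := by
      rw [TT_apply g F z.2.le, norm_smul, norm_inv]
      refine mul_le_mul_of_nonneg_left ?_ (by positivity)
      exact norm_m2_le _ _
    have e3 : ‖jf g.1 z.1‖ ^ (2 * β) * ‖jf g.1 z.1‖⁻¹ = ‖jf g.1 z.1‖ ^ (2 * β - 1) := by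
      rw [Real.rpow_sub_one hj0.ne']
      rfl
    have e4 : ‖jf g.1 z.1‖ ^ (2 * β - 1) ≤ NN g.1 ^ (2 * β - 1) :=
      Real.rpow_le_rpow hj0.le hjN (by linarith)
    have e5 := hS1 ⟨mob g.1 z.1, hm1⟩ F
    simp only at e5
    have e6 : 0 ≤ (1 - ‖mob g.1 z.1‖ ^ 2) ^ β := Real.rpow_nonneg hm0.le β
    calc (1 - ‖z.1‖ ^ 2) ^ β * ‖(TT g F : ℂ → ℂ × ℂ) z.1‖
        ≤ ((1 - ‖mob g.1 z.1‖ ^ 2) ^ β * ‖jf g.1 z.1‖ ^ (2 * β)) *
          (‖jf g.1 z.1‖⁻¹ * (NN g.2 * ‖(F : ℂ → ℂ × ℂ) (mob g.1 z.1)‖)) := by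
          rw [← e1]
          exact mul_le_mul_of_nonneg_left e2 (Real.rpow_nonneg hz0.le _)
      _ = (‖jf g.1 z.1‖ ^ (2 * β) * ‖jf g.1 z.1‖⁻¹) * NN g.2 *
          ((1 - ‖mob g.1 z.1‖ ^ 2) ^ β * ‖(F : ℂ → ℂ × ℂ) (mob g.1 z.1)‖) := by ring
      _ ≤ NN g.1 ^ (2 * β - 1) * NN g.2 * S F := by
          rw [e3]
          gcongr
  · intro f hf
    have h1 : ∀ z : ℂ, ‖z‖ < 1 → evV f z = 0 := by
      intro z hz
      have h2 := hS1 ⟨z, hz⟩ (inc f)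
      rw [hf] at h2
      simp only at h2
      have h3 : 0 < (1 - ‖z‖ ^ 2) ^ β := Real.rpow_pos_of_pos (beta_one_sub ⟨z, hz⟩).1 β
      have h4 : ‖(inc f : ℂ → ℂ × ℂ) z‖ ≤ 0 := by
        by_contra hc
        push Not at hc
        nlinarith [mul_pos h3 hc]
      rw [inc_apply f hz.le] at h4
      exact norm_le_zero_iff.1 h4
    have hinf : Set.Infinite {z : ℂ | ‖z‖ < 1} := by
      have h2 : (Metric.ball (0 : ℂ) 1).Infinite :=
        infinite_of_mem_nhds (0 : ℂ) (Metric.ball_mem_nhds 0 one_pos)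
      refine h2.mono fun z hz => ?_
      simpa using hz
    have k1 : f.1 = 0 := by
      refine Polynomial.eq_zero_of_infinite_isRoot _ (hinf.mono fun z hz => ?_)
      exact congrArg Prod.fst (h1 z hz)
    have k2 : f.2 = 0 := by
      refine Polynomial.eq_zero_of_infinite_isRoot _ (hinf.mono fun z hz => ?_)
      exact congrArg Prod.snd (h1 z hz)
    exact Prod.ext k1 k2
  · obtain ⟨C, hC, h⟩ := beta_upper β hβ0
    refine ⟨C, hC, fun n u => ?_⟩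
    refine hS2 _ _ fun z => ?_
    rw [inc_apply _ z.2.le, evV_mono, norm_smul, norm_pow, ← mul_assoc]
    exact mul_le_mul_of_nonneg_right (h n z) (norm_nonneg _)
  · obtain ⟨c, hc, h⟩ := beta_lower β hβ0
    refine ⟨c, hc, fun n u => ?_⟩
    obtain ⟨z, hz⟩ := h n
    refine le_trans ?_ (hS1 z _)
    rw [inc_apply _ z.2.le, evV_mono, norm_smul, norm_pow, ← mul_assoc]
    exact mul_le_mul_of_nonneg_right hz (norm_nonneg _)

end Pool.SG
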