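import Pool.Agent.Helper71.SG.COEF

open Complex Set Filter Topology Matrix ComplexConjugate
open scoped ENNReal NNReal Nat

noncomputable section

namespace Pool.SG

/-- The coefficients of the image of `1 ⊗ u`. -/
theorem cf_TT_mono_zero (g : GG) (u : ℂ × ℂ) (n : ℕ) :
    cf n (TT g (inc (mono 0 u))) = (conj (be g.1) ^ n / al g.1 ^ (n + 1)) • m2 g.2 u := by
  refine cf_unique _ (fun n => (conj (be g.1) ^ n / al g.1 ^ (n + 1)) • m2 g.2 u) ?_ n
  intro z hz
  have ha := al_ne_zero g.1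
  have hj := jf_ne_zero g.1 hz.le
  rw [TT_apply _ _ hz.le, inc_apply _ (norm_mob_le g.1 hz.le), evV_mono, pow_zero, one_smul]
  have h1 : ‖conj (be g.1) * z / al g.1‖ < 1 := by
    rw [norm_div, norm_mul, RCLike.norm_conj, div_lt_one (norm_pos_iff.2 ha)]
    have h2 := be_lt_al g.1
    nlinarith [norm_nonneg (be g.1), norm_nonneg z]
  have h3 := ((hasSum_geometric_of_norm_lt_one h1).mul_left (al g.1)⁻¹).smul_const (m2 g.2 u)
  have h4 : (al g.1)⁻¹ * (1 - conj (be g.1) * z / al g.1)⁻¹ = (jf g.1 z)⁻¹ := by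
    rw [← mul_inv, jf]
    congr 1
    field_simp
  rw [h4] at h3
  refine h3.congr_fun ?_ |> fun h => h
  intro n
  rw [smul_smul]
  congr 1
  rw [div_pow, mul_pow, pow_succ]
  field_simp

/-- The value at the origin of the image of `z ^ n ⊗ u`. -/
theorem TT_mono_zero (g : GG) (u : ℂ × ℂ) (n : ℕ) :
    (TT g (inc (mono n u)) : ℂ → ℂ × ℂ) 0 =
      ((-be g.1) ^ n / al g.1 ^ (n + 1)) • m2 g.2 u := by
  have ha := al_ne_zero g.1
  have h0 : ‖(0 : ℂ)‖ ≤ 1 := by simp
  rw [TT_apply _ _ h0, inc_apply _ (norm_mob_le g.1 h0), evV_mono, m2_smul, smul_smul]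
  congr 1
  rw [mob, jf, mul_zero, mul_zero, zero_sub, sub_zero, div_pow, pow_succ]
  field_simp

end Pool.SG
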