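import Pool.Agent.Helper71.SG.PROJ
import Pool.Agent.Helper71.SG.LOW
import Pool.Agent.Helper71.SG.WG1

open Complex Set Filter Topology Matrix ComplexConjugate
open scoped ENNReal NNReal Nat

noncomputable section

namespace Pool.SG

lemma bnd_pow (n : ℕ) : ((n : ℝ) + 1) ^ n ≤ 4 * (n : ℝ) ^ n := by
  rcases Nat.eq_zero_or_pos n with h | h
  · subst h; norm_num
  have hn : (0 : ℝ) < n := by exact_mod_cast h
  have h1 : ((n : ℝ) + 1) = n * (1 / n + 1) := by field_simp; ring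
  have h2 : (1 / (n : ℝ) + 1) ^ n ≤ 4 := by
    calc (1 / (n : ℝ) + 1) ^ n ≤ (Real.exp (1 / n)) ^ n := by
          gcongr
          exact Real.add_one_le_exp _
      _ = Real.exp 1 := by
          rw [← Real.exp_nat_mul]
          congr 1
          field_simp
      _ ≤ 4 := by linarith [Real.exp_one_lt_d9]
  rw [h1, mul_pow]
  calc (n : ℝ) ^ n * (1 / n + 1) ^ n ≤ (n : ℝ) ^ n * 4 := by gcongr
    _ = _ := by ring

/-- The element used for the estimates. -/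
def bndG (M n : ℕ) : GG :=
  (hyp (Real.arsinh (Real.sqrt n)), hyp (M * Real.arsinh (Real.sqrt n)))

/-- The factor. -/
def bndL (n : ℕ) : ℝ := Real.sqrt n ^ n / Real.sqrt (n + 1) ^ (n + 1)

lemma bnd_cosh (n : ℕ) : Real.cosh (Real.arsinh (Real.sqrt n)) = Real.sqrt (n + 1) := by
  rw [Real.cosh_arsinh, Real.sq_sqrt (Nat.cast_nonneg _), add_comm]

lemma bndL_nonneg (n : ℕ) : 0 ≤ bndL n := by unfold bndL; positivity

lemma bndL_le (n : ℕ) : 1 ≤ 2 * Real.sqrt (n + 1) * bndL n := by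
  have ha : 0 < Real.sqrt ((n : ℝ) + 1) := Real.sqrt_pos.2 (by positivity)
  have h1 : Real.sqrt ((n : ℝ) + 1) ^ n ≤ 2 * Real.sqrt n ^ n := by
    rw [← pow_le_pow_iff_left₀ (by positivity) (by positivity) (two_ne_zero)]
    rw [mul_pow, ← pow_mul, ← pow_mul, mul_comm n 2, pow_mul, pow_mul,
      Real.sq_sqrt (by positivity), Real.sq_sqrt (by positivity)]
    have := bnd_pow n
    linarith
  unfold bndL
  rw [mul_div_assoc', le_div_iff₀ (by positivity), one_mul, pow_succ]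
  nlinarith

lemma bnd_norm_kappa (M n : ℕ) :
    ‖conj (be (bndG M n).1) ^ n / al (bndG M n).1 ^ (n + 1)‖ = bndL n := by
  have hs : 0 ≤ Real.sqrt n := Real.sqrt_nonneg _
  have ha : 0 ≤ Real.sqrt ((n : ℝ) + 1) := Real.sqrt_nonneg _
  simp only [bndG, be_hyp, al_hyp, Real.sinh_arsinh, bnd_cosh, norm_div, norm_pow,
    RCLike.norm_conj, Complex.norm_real, Real.norm_eq_abs, abs_of_nonneg hs, abs_of_nonneg ha]
  rfl

lemma bnd_norm_kappa' (M n : ℕ) :
    ‖(-be (bndG M n).1) ^ n / al (bndG M n).1 ^ (n + 1)‖ = bndL n := by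
  have hs : 0 ≤ Real.sqrt n := Real.sqrt_nonneg _
  have ha : 0 ≤ Real.sqrt ((n : ℝ) + 1) := Real.sqrt_nonneg _
  simp only [bndG, be_hyp, al_hyp, Real.sinh_arsinh, bnd_cosh, norm_div, norm_pow, norm_neg,
    Complex.norm_real, Real.norm_eq_abs, abs_of_nonneg hs, abs_of_nonneg ha]
  rfl

lemma bnd_NN_hyp {t : ℝ} (ht : 0 ≤ t) : NN (hyp t) = Real.exp t := by
  rw [NN, al_hyp, be_hyp, Complex.norm_real, Complex.norm_real, Real.norm_eq_abs,
    Real.norm_eq_abs, abs_of_pos (Real.cosh_pos t), abs_of_nonneg (Real.sinh_nonneg_iff.2 ht),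
    Real.cosh_add_sinh]

lemma bnd_ww (M n : ℕ) :
    ww M (bndG M n) ≤ 2 * Real.cosh (M * Real.arsinh (Real.sqrt n)) := by
  have ht : 0 ≤ Real.arsinh (Real.sqrt n) := Real.arsinh_nonneg_iff.2 (Real.sqrt_nonneg _)
  have hs : 0 ≤ (M : ℝ) * Real.arsinh (Real.sqrt n) := by positivity
  unfold ww bndG
  rw [bnd_NN_hyp hs, bnd_NN_hyp ht, ← Real.exp_nat_mul, max_self, ← Real.cosh_add_sinh]
  linarith [Real.sinh_lt_cosh ((M : ℝ) * Real.arsinh (Real.sqrt n))]

lemma bnd_NN_rot (θ : ℝ) : NN (rot θ) = 1 := by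
  rw [NN, al_rot, be_rot, Complex.norm_exp_ofReal_mul_I, norm_zero, add_zero]

lemma bnd_NN_one : NN 1 = 1 := by simp [NN]

/-- Bounds for the norms of `z ^ n ⊗ u` for the weight `ww M`. -/
theorem mono_bounds (M : ℕ) {P : Seminorm ℂ AA} (hP : Crit (ww M) P) :
    ∃ C, 0 < C ∧ ∀ (n : ℕ) (u : ℂ × ℂ), P (inc (mono n u)) ≤ C * Real.sqrt (n + 1) * ‖u‖ ∧
      ‖u‖ ≤ C * Real.sqrt (n + 1) * P (inc (mono n u)) := by
  obtain ⟨c, hc, hg⟩ := hP.grow
  have hW1 : ∀ θ F, P (TT (rot θ, 1) F) ≤ c * P F := by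
    intro θ F
    have h := hg (rot θ, 1) F
    have e : ww M (rot θ, 1) = 1 := by simp [ww, bnd_NN_rot, bnd_NN_one]
    rwa [e, mul_one] at h
  have hW2 : ∀ F, P (TT (1, rot (Real.pi / 2)) F) ≤ c * P F := by
    intro F
    have h := hg (1, rot (Real.pi / 2)) F
    have e : ww M (1, rot (Real.pi / 2)) = 1 := by simp [ww, bnd_NN_rot, bnd_NN_one]
    rwa [e, mul_one] at h
  have hsm : ∀ (n : ℕ) (a : ℂ) (u : ℂ × ℂ), P (inc (mono n (a • u))) = ‖a‖ * P (inc (mono n u)) := by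
    intro n a u
    rw [map_smul, map_smul, map_smul_eq_mul]
  have hnn : ∀ x, 0 ≤ P x := fun x => apply_nonneg P x
  -- the two key inequalities for a vector `e` and a component map
  have key : ∀ (n : ℕ) (e : ℂ × ℂ),
      (∀ (k : ℕ) (s : ℝ), Real.cosh s * P (inc (mono k e)) ≤
        (1 + c) / 2 * P (inc (mono k (m2 (hyp s) e)))) →
      bndL n * P (inc (mono n e)) ≤ (1 + c) * c ^ 2 * P (inc (mono 0 e)) ∧
      bndL n * P (inc (mono 0 e)) ≤ (1 + c) * c ^ 2 * P (inc (mono n e)) := by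
    intro n e he
    set s : ℝ := M * Real.arsinh (Real.sqrt n) with hs
    have hcs : 0 < Real.cosh s := Real.cosh_pos s
    have hww : ww M (bndG M n) ≤ 2 * Real.cosh s := bnd_ww M n
    have hL := bndL_nonneg n
    have hg2 : (bndG M n).2 = hyp s := rfl
    constructor
    · have h1 := hg (bndG M n) (inc (mono 0 e))
      have h2 := proj_le hP.tame hW1 n (TT (bndG M n) (inc (mono 0 e)))
      rw [cf_TT_mono_zero, hsm, bnd_norm_kappa, hg2] at h2
      have h3 := he n s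
      have h4 : bndL n * (Real.cosh s * P (inc (mono n e))) ≤
          (1 + c) / 2 * (bndL n * P (inc (mono n (m2 (hyp s) e)))) := by
        calc bndL n * (Real.cosh s * P (inc (mono n e))) ≤
            bndL n * ((1 + c) / 2 * P (inc (mono n (m2 (hyp s) e)))) := by gcongr
          _ = _ := by ring
      have h5 : P (TT (bndG M n) (inc (mono 0 e))) ≤ c * (2 * Real.cosh s) * P (inc (mono 0 e)) :=
        h1.trans (by gcongr)
      have h6 : Real.cosh s * (bndL n * P (inc (mono n e))) ≤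
          Real.cosh s * ((1 + c) * c ^ 2 * P (inc (mono 0 e))) := by
        calc Real.cosh s * (bndL n * P (inc (mono n e))) =
            bndL n * (Real.cosh s * P (inc (mono n e))) := by ring
          _ ≤ (1 + c) / 2 * (bndL n * P (inc (mono n (m2 (hyp s) e)))) := h4
          _ ≤ (1 + c) / 2 * (c * P (TT (bndG M n) (inc (mono 0 e)))) := by gcongr
          _ ≤ (1 + c) / 2 * (c * (c * (2 * Real.cosh s) * P (inc (mono 0 e)))) := by gcongr
          _ = _ := by ring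
      exact le_of_mul_le_mul_left h6 hcs
    · have h1 := hg (bndG M n) (inc (mono n e))
      have h2 := proj_le hP.tame hW1 0 (TT (bndG M n) (inc (mono n e)))
      rw [cf_zero, TT_mono_zero, hsm, bnd_norm_kappa', hg2] at h2
      have h3 := he 0 s
      have h4 : bndL n * (Real.cosh s * P (inc (mono 0 e))) ≤
          (1 + c) / 2 * (bndL n * P (inc (mono 0 (m2 (hyp s) e)))) := by
        calc bndL n * (Real.cosh s * P (inc (mono 0 e))) ≤
            bndL n * ((1 + c) / 2 * P (inc (mono 0 (m2 (hyp s) e)))) := by gcongr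
          _ = _ := by ring
      have h5 : P (TT (bndG M n) (inc (mono n e))) ≤ c * (2 * Real.cosh s) * P (inc (mono n e)) :=
        h1.trans (by gcongr)
      have h6 : Real.cosh s * (bndL n * P (inc (mono 0 e))) ≤
          Real.cosh s * ((1 + c) * c ^ 2 * P (inc (mono n e))) := by
        calc Real.cosh s * (bndL n * P (inc (mono 0 e))) =
            bndL n * (Real.cosh s * P (inc (mono 0 e))) := by ring
          _ ≤ (1 + c) / 2 * (bndL n * P (inc (mono 0 (m2 (hyp s) e)))) := h4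
          _ ≤ (1 + c) / 2 * (c * P (TT (bndG M n) (inc (mono n e)))) := by gcongr
          _ ≤ (1 + c) / 2 * (c * (c * (2 * Real.cosh s) * P (inc (mono n e)))) := by gcongr
          _ = _ := by ring
      exact le_of_mul_le_mul_left h6 hcs
  have he1 : ∀ (k : ℕ) (s : ℝ), Real.cosh s * P (inc (mono k ((1 : ℂ), (0 : ℂ)))) ≤
      (1 + c) / 2 * P (inc (mono k (m2 (hyp s) (1, 0)))) := by
    intro k s
    have h := (split_le hW2 k (m2 (hyp s) ((1 : ℂ), (0 : ℂ)))).1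
    have e : ((m2 (hyp s) ((1 : ℂ), (0 : ℂ))).1, (0 : ℂ)) = (Real.cosh s : ℂ) • ((1 : ℂ), (0 : ℂ)) := by
      simp [m2, al_hyp]
    rw [e, hsm, Complex.norm_real, Real.norm_eq_abs, abs_of_pos (Real.cosh_pos s)] at h
    exact h
  have he2 : ∀ (k : ℕ) (s : ℝ), Real.cosh s * P (inc (mono k ((0 : ℂ), (1 : ℂ)))) ≤
      (1 + c) / 2 * P (inc (mono k (m2 (hyp s) (0, 1)))) := by
    intro k s
    have h := (split_le hW2 k (m2 (hyp s) ((0 : ℂ), (1 : ℂ)))).2
    have e : ((0 : ℂ), (m2 (hyp s) ((0 : ℂ), (1 : ℂ))).2) = (Real.cosh s : ℂ) • ((0 : ℂ), (1 : ℂ)) := by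
      have h3 : conj (Real.cosh s : ℂ) = (Real.cosh s : ℂ) := Complex.conj_ofReal _
      rw [m2, al_hyp, h3]
      simp
    rw [e, hsm, Complex.norm_real, Real.norm_eq_abs, abs_of_pos (Real.cosh_pos s)] at h
    exact h
  have hq : ∀ e : ℂ × ℂ, e ≠ 0 → 0 < P (inc (mono 0 e)) := by
    intro e he
    refine lt_of_le_of_ne (hnn _) fun h => he ?_
    have h1 := hP.pos _ h.symm
    rw [mono_apply, Prod.mk_eq_zero, Polynomial.monomial_eq_zero_iff,
      Polynomial.monomial_eq_zero_iff] at h1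
    exact Prod.ext h1.1 h1.2
  have hq1 : 0 < P (inc (mono 0 ((1 : ℂ), (0 : ℂ)))) := hq _ (by simp)
  have hq2 : 0 < P (inc (mono 0 ((0 : ℂ), (1 : ℂ)))) := hq _ (by simp)
  set q1 := P (inc (mono 0 ((1 : ℂ), (0 : ℂ)))) with hq1d
  set q2 := P (inc (mono 0 ((0 : ℂ), (1 : ℂ)))) with hq2d
  refine ⟨2 * ((1 + c) * c ^ 2) * (q1 + q2) + (1 + c) ^ 2 * c ^ 2 * (1 / q1 + 1 / q2),
    by positivity, ?_⟩
  intro n u
  have ha : 0 < Real.sqrt ((n : ℝ) + 1) := Real.sqrt_pos.2 (by positivity)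
  obtain ⟨k11, k12⟩ := key n _ he1
  obtain ⟨k21, k22⟩ := key n _ he2
  have hL := bndL_le n
  set a := Real.sqrt ((n : ℝ) + 1) with had
  set p1 := P (inc (mono n ((1 : ℂ), (0 : ℂ)))) with hp1d
  set p2 := P (inc (mono n ((0 : ℂ), (1 : ℂ)))) with hp2d
  have hp1 : 0 ≤ p1 := hnn _
  have hp2 : 0 ≤ p2 := hnn _
  -- comparison from `bndL`
  have comp : ∀ x y : ℝ, 0 ≤ x → bndL n * x ≤ (1 + c) * c ^ 2 * y →
      x ≤ 2 * a * ((1 + c) * c ^ 2 * y) := by
    intro x y hx hxy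
    calc x = 1 * x := (one_mul x).symm
      _ ≤ (2 * a * bndL n) * x := by gcongr
      _ = 2 * a * (bndL n * x) := by ring
      _ ≤ _ := by gcongr
  have c11 := comp p1 q1 hp1 k11
  have c12 := comp q1 p1 hq1.le k12
  have c21 := comp p2 q2 hp2 k21
  have c22 := comp q2 p2 hq2.le k22
  have hu1 : ‖u.1‖ ≤ ‖u‖ := norm_fst_le u
  have hu2 : ‖u.2‖ ≤ ‖u‖ := norm_snd_le u
  have e1 : ((u.1 : ℂ), (0 : ℂ)) = u.1 • ((1 : ℂ), (0 : ℂ)) := by simp
  have e2 : ((0 : ℂ), (u.2 : ℂ)) = u.2 • ((0 : ℂ), (1 : ℂ)) := by simp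
  constructor
  · have hsum : u = u.1 • ((1 : ℂ), (0 : ℂ)) + u.2 • ((0 : ℂ), (1 : ℂ)) := by
      ext <;> simp
    have h1 : P (inc (mono n u)) ≤ ‖u.1‖ * p1 + ‖u.2‖ * p2 := by
      conv_lhs => rw [hsum]
      rw [map_add, map_add]
      refine (map_add_le_add P _ _).trans ?_
      rw [hsm, hsm]
    calc P (inc (mono n u)) ≤ ‖u.1‖ * p1 + ‖u.2‖ * p2 := h1
      _ ≤ ‖u‖ * (2 * a * ((1 + c) * c ^ 2 * q1)) + ‖u‖ * (2 * a * ((1 + c) * c ^ 2 * q2)) := by
          gcongr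
      _ = (2 * ((1 + c) * c ^ 2) * (q1 + q2)) * a * ‖u‖ := by ring
      _ ≤ (2 * ((1 + c) * c ^ 2) * (q1 + q2) + (1 + c) ^ 2 * c ^ 2 * (1 / q1 + 1 / q2)) * a *
          ‖u‖ := by
          have : 0 ≤ (1 + c) ^ 2 * c ^ 2 * (1 / q1 + 1 / q2) := by positivity
          gcongr
          linarith
  · have hsp := split_le hW2 n u
    rw [e1, hsm, e2, hsm] at hsp
    obtain ⟨s1, s2⟩ := hsp
    set p := P (inc (mono n u)) with hpd
    have hp : 0 ≤ p := hnn _
    have f1 : ‖u.1‖ * q1 ≤ (1 + c) ^ 2 * c ^ 2 * a * p := by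
      calc ‖u.1‖ * q1 ≤ ‖u.1‖ * (2 * a * ((1 + c) * c ^ 2 * p1)) := by gcongr
        _ = 2 * a * ((1 + c) * c ^ 2) * (‖u.1‖ * p1) := by ring
        _ ≤ 2 * a * ((1 + c) * c ^ 2) * ((1 + c) / 2 * p) := by gcongr
        _ = _ := by ring
    have f2 : ‖u.2‖ * q2 ≤ (1 + c) ^ 2 * c ^ 2 * a * p := by
      calc ‖u.2‖ * q2 ≤ ‖u.2‖ * (2 * a * ((1 + c) * c ^ 2 * p2)) := by gcongr
        _ = 2 * a * ((1 + c) * c ^ 2) * (‖u.2‖ * p2) := by ring
        _ ≤ 2 * a * ((1 + c) * c ^ 2) * ((1 + c) / 2 * p) := by gcongr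
        _ = _ := by ring
    have g1 : ‖u.1‖ ≤ (1 + c) ^ 2 * c ^ 2 * (1 / q1) * a * p := by
      rw [← le_div_iff₀ hq1] at f1
      calc ‖u.1‖ ≤ _ := f1
        _ = _ := by field_simp
    have g2 : ‖u.2‖ ≤ (1 + c) ^ 2 * c ^ 2 * (1 / q2) * a * p := by
      rw [← le_div_iff₀ hq2] at f2
      calc ‖u.2‖ ≤ _ := f2
        _ = _ := by field_simp
    have hA : 0 ≤ 2 * ((1 + c) * c ^ 2) * (q1 + q2) * a * p := by positivity
    have hB1 : 0 ≤ (1 + c) ^ 2 * c ^ 2 * (1 / q1) * a * p := by positivity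
    have hB2 : 0 ≤ (1 + c) ^ 2 * c ^ 2 * (1 / q2) * a * p := by positivity
    have hfin : (2 * ((1 + c) * c ^ 2) * (q1 + q2) + (1 + c) ^ 2 * c ^ 2 * (1 / q1 + 1 / q2)) *
        a * p = 2 * ((1 + c) * c ^ 2) * (q1 + q2) * a * p +
        (1 + c) ^ 2 * c ^ 2 * (1 / q1) * a * p + (1 + c) ^ 2 * c ^ 2 * (1 / q2) * a * p := by ring
    rw [hfin, Prod.norm_def]
    exact max_le (by linarith) (by linarith)

end Pool.SG
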