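import Pool.Agent.Helper71.SG.Defs

/-!
Coordinates on `SL(2, R)` as `SU(1, 1)`, the action on functions holomorphic near the closed disc.
-/

open Complex Set Filter Topology Matrix ComplexConjugate
open scoped ENNReal NNReal

noncomputable section

namespace Pool.SG

/-- The first coordinate of `g` as an element of `SU(1, 1)`. -/
def al (g : SLR) : ℂ :=
  ⟨((g : Mat2) 0 0 + (g : Mat2) 1 1) / 2, ((g : Mat2) 1 0 - (g : Mat2) 0 1) / 2⟩

/-- The second coordinate of `g` as an element of `SU(1, 1)`. -/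
def be (g : SLR) : ℂ :=
  ⟨((g : Mat2) 0 0 - (g : Mat2) 1 1) / 2, ((g : Mat2) 0 1 + (g : Mat2) 1 0) / 2⟩

lemma al_mul (g h : SLR) : al (g * h) = al g * al h + be g * conj (be h) := by
  apply Complex.ext
  · simp [al, be, Matrix.mul_apply, Fin.sum_univ_two]; ring
  · simp [al, be, Matrix.mul_apply, Fin.sum_univ_two]; ring

lemma be_mul (g h : SLR) : be (g * h) = al g * be h + be g * conj (al h) := by
  apply Complex.ext
  · simp [al, be, Matrix.mul_apply, Fin.sum_univ_two]; ring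
  · simp [al, be, Matrix.mul_apply, Fin.sum_univ_two]; ring

@[simp] lemma al_one : al 1 = 1 := by
  apply Complex.ext <;> simp [al]

@[simp] lemma be_one : be 1 = 0 := by
  apply Complex.ext <;> simp [be]

lemma normSq_al_sub (g : SLR) : ‖al g‖ ^ 2 - ‖be g‖ ^ 2 = 1 := by
  have hd : (g : Mat2) 0 0 * (g : Mat2) 1 1 - (g : Mat2) 0 1 * (g : Mat2) 1 0 = 1 := by
    have := g.2
    rwa [Matrix.det_fin_two] at this
  rw [Complex.sq_norm, Complex.sq_norm, Complex.normSq_apply, Complex.normSq_apply]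
  simp [al, be]
  linarith

lemma al_ne_zero (g : SLR) : al g ≠ 0 := by
  intro h
  have := normSq_al_sub g
  rw [h] at this
  simp at this
  nlinarith [sq_nonneg ‖be g‖]

lemma be_lt_al (g : SLR) : ‖be g‖ < ‖al g‖ := by
  have := normSq_al_sub g
  nlinarith [norm_nonneg (al g), norm_nonneg (be g)]

lemma one_le_al (g : SLR) : 1 ≤ ‖al g‖ := by
  have := normSq_al_sub g
  nlinarith [norm_nonneg (al g), sq_nonneg ‖be g‖]

lemma al_eq (g : SLR) : al g =
    ((((g : Mat2) 0 0 + (g : Mat2) 1 1) / 2 : ℝ) : ℂ) +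
      ((((g : Mat2) 1 0 - (g : Mat2) 0 1) / 2 : ℝ) : ℂ) * I := by
  apply Complex.ext <;> simp [al]

lemma be_eq (g : SLR) : be g =
    ((((g : Mat2) 0 0 - (g : Mat2) 1 1) / 2 : ℝ) : ℂ) +
      ((((g : Mat2) 0 1 + (g : Mat2) 1 0) / 2 : ℝ) : ℂ) * I := by
  apply Complex.ext <;> simp [be]

lemma continuous_entry (i j : Fin 2) : Continuous fun g : SLR => (g : Mat2) i j :=
  (continuous_apply j).comp ((continuous_apply i).comp continuous_subtype_val)

lemma continuous_al : Continuous al := by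
  have h00 := continuous_entry 0 0
  have h01 := continuous_entry 0 1
  have h10 := continuous_entry 1 0
  have h11 := continuous_entry 1 1
  have : al = fun g : SLR => ((((g : Mat2) 0 0 + (g : Mat2) 1 1) / 2 : ℝ) : ℂ) +
      ((((g : Mat2) 1 0 - (g : Mat2) 0 1) / 2 : ℝ) : ℂ) * I := funext al_eq
  rw [this]
  fun_prop

lemma continuous_be : Continuous be := by
  have h00 := continuous_entry 0 0
  have h01 := continuous_entry 0 1
  have h10 := continuous_entry 1 0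
  have h11 := continuous_entry 1 1
  have : be = fun g : SLR => ((((g : Mat2) 0 0 - (g : Mat2) 1 1) / 2 : ℝ) : ℂ) +
      ((((g : Mat2) 0 1 + (g : Mat2) 1 0) / 2 : ℝ) : ℂ) * I := funext be_eq
  rw [this]
  fun_prop

/-- The automorphy factor. -/
def jf (g : SLR) (z : ℂ) : ℂ := al g - conj (be g) * z

/-- The Moebius action of `g⁻¹`. -/
def mob (g : SLR) (z : ℂ) : ℂ := (conj (al g) * z - be g) / jf g z

lemma jf_ne_zero (g : SLR) {z : ℂ} (hz : ‖z‖ ≤ 1) : jf g z ≠ 0 := by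
  intro h
  have h1 : ‖al g‖ = ‖be g‖ * ‖z‖ := by
    have : al g = conj (be g) * z := by
      rw [jf] at h
      linear_combination h
    rw [this]
    simp
  have h2 := be_lt_al g
  nlinarith [norm_nonneg (be g), norm_nonneg z]

/-- The basic identity of the Moebius action. -/
lemma mob_identity (g : SLR) (z : ℂ) :
    ‖conj (al g) * z - be g‖ ^ 2 - ‖jf g z‖ ^ 2 = ‖z‖ ^ 2 - 1 := by
  have h := normSq_al_sub g
  rw [Complex.sq_norm, Complex.sq_norm, Complex.normSq_apply, Complex.normSq_apply] at h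
  rw [jf, Complex.sq_norm, Complex.sq_norm, Complex.sq_norm, Complex.normSq_apply,
    Complex.normSq_apply, Complex.normSq_apply]
  simp
  linear_combination (z.re * z.re + z.im * z.im - 1) * h

lemma norm_mob_le (g : SLR) {z : ℂ} (hz : ‖z‖ ≤ 1) : ‖mob g z‖ ≤ 1 := by
  have h1 := mob_identity g z
  have h2 : 0 < ‖jf g z‖ := norm_pos_iff.2 (jf_ne_zero g hz)
  rw [mob, norm_div, div_le_one h2]
  nlinarith [norm_nonneg (conj (al g) * z - be g), norm_nonneg z]

lemma one_sub_norm_mob (g : SLR) {z : ℂ} (hz : jf g z ≠ 0) :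
    1 - ‖mob g z‖ ^ 2 = (1 - ‖z‖ ^ 2) / ‖jf g z‖ ^ 2 := by
  have h1 := mob_identity g z
  have h2 : 0 < ‖jf g z‖ := norm_pos_iff.2 hz
  rw [mob, norm_div, div_pow, eq_div_iff (by positivity)]
  field_simp
  linarith

lemma jf_mul (g h : SLR) {z : ℂ} (hz : jf g z ≠ 0) :
    jf (g * h) z = jf g z * jf h (mob g z) := by
  have : jf g z * jf h (mob g z) = al h * jf g z - conj (be h) * (conj (al g) * z - be g) := by
    rw [mob, jf, jf]
    rw [jf] at hz
    field_simp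
  rw [this, jf, jf, al_mul, be_mul]
  simp only [map_add, map_mul, Complex.conj_conj]
  ring

lemma mob_mul (g h : SLR) {z : ℂ} (hz : jf g z ≠ 0) :
    mob (g * h) z = mob h (mob g z) := by
  have h1 : conj (al (g * h)) * z - be (g * h) =
      jf g z * (conj (al h) * mob g z - be h) := by
    have : jf g z * (conj (al h) * mob g z - be h) =
        conj (al h) * (conj (al g) * z - be g) - be h * jf g z := by
      rw [mob]
      rw [jf] at hz ⊢
      field_simp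
    rw [this, jf, al_mul, be_mul]
    simp only [map_add, map_mul, Complex.conj_conj]
    ring
  rw [mob, h1, jf_mul g h hz, mul_div_mul_left _ _ hz, ← mob]

@[simp] lemma jf_one (z : ℂ) : jf 1 z = 1 := by simp [jf]

@[simp] lemma mob_one (z : ℂ) : mob 1 z = z := by simp [mob]

/-- The action of `SL(2, R)` on `ℂ²`. -/
def m2 (g : SLR) (u : ℂ × ℂ) : ℂ × ℂ :=
  (al g * u.1 + be g * u.2, conj (be g) * u.1 + conj (al g) * u.2)

lemma m2_mul (g h : SLR) (u : ℂ × ℂ) : m2 (g * h) u = m2 g (m2 h u) := by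
  ext
  · simp only [m2, al_mul, be_mul]; ring
  · simp only [m2, al_mul, be_mul, map_add, map_mul, Complex.conj_conj]; ring

@[simp] lemma m2_one (u : ℂ × ℂ) : m2 1 u = u := by
  ext <;> simp [m2]

lemma m2_add (g : SLR) (u v : ℂ × ℂ) : m2 g (u + v) = m2 g u + m2 g v := by
  ext <;> simp [m2] <;> ring

lemma m2_smul (g : SLR) (c : ℂ) (u : ℂ × ℂ) : m2 g (c • u) = c • m2 g u := by
  ext <;> simp [m2] <;> ring

@[simp] lemma m2_zero (g : SLR) : m2 g 0 = 0 := by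
  ext <;> simp [m2]

lemma norm_m2_le (g : SLR) (u : ℂ × ℂ) : ‖m2 g u‖ ≤ (‖al g‖ + ‖be g‖) * ‖u‖ := by
  have h1 : ‖u.1‖ ≤ ‖u‖ := norm_fst_le u
  have h2 : ‖u.2‖ ≤ ‖u‖ := norm_snd_le u
  rw [m2, Prod.norm_def]
  apply max_le
  · calc ‖al g * u.1 + be g * u.2‖ ≤ ‖al g‖ * ‖u.1‖ + ‖be g‖ * ‖u.2‖ := by
          refine (norm_add_le _ _).trans ?_
          rw [norm_mul, norm_mul]
      _ ≤ ‖al g‖ * ‖u‖ + ‖be g‖ * ‖u‖ := by gcongr
      _ = _ := by ring
  · calc ‖conj (be g) * u.1 + conj (al g) * u.2‖ ≤ ‖be g‖ * ‖u.1‖ + ‖al g‖ * ‖u.2‖ := by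
          refine (norm_add_le _ _).trans ?_
          rw [norm_mul, norm_mul]
          simp
      _ ≤ ‖be g‖ * ‖u‖ + ‖al g‖ * ‖u‖ := by gcongr
      _ = _ := by ring

/-- The action of `g` on a function, without cut-off. -/
def ext (g : GG) (F : ℂ → ℂ × ℂ) (z : ℂ) : ℂ × ℂ := (jf g.1 z)⁻¹ • m2 g.2 (F (mob g.1 z))

/-- The action of `g` on a function on the closed disc (extended by zero). -/
def tr (g : GG) (F : ℂ → ℂ × ℂ) (z : ℂ) : ℂ × ℂ := if ‖z‖ ≤ 1 then ext g F z else 0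

/-- `E` is a holomorphic extension of `F` (a function on the closed disc) to the disc of
radius `R`. -/
def IsExt (R : ℝ) (E F : ℂ → ℂ × ℂ) : Prop :=
  DifferentiableOn ℂ E (Metric.ball 0 R) ∧ ∀ z, ‖z‖ ≤ 1 → F z = E z

/-- A uniform bound for the Moebius action near the closed disc. -/
lemma mob_unif (A R : ℝ) (hA : 1 ≤ A) (hR : 1 < R) :
    ∃ r, 1 < r ∧ r ≤ R ∧ ∀ g : SLR, ‖al g‖ ≤ A → ∀ z : ℂ, ‖z‖ < r →
      1 / (4 * A) ≤ ‖jf g z‖ ∧ ‖mob g z‖ < R := by
  -- choose r - 1 = min(R - 1, 1/(4 A^2), (R^2 - 1)/(48 A^2)) roughly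
  obtain ⟨e, he0, he1, he2, he3⟩ : ∃ e : ℝ, 0 < e ∧ e ≤ R - 1 ∧ e * (4 * A ^ 2) ≤ 1 ∧
      3 * e * (16 * A ^ 2) < R ^ 2 - 1 := by
    refine ⟨min (R - 1) (min (1 / (4 * A ^ 2)) ((R ^ 2 - 1) / (96 * A ^ 2))), ?_, ?_, ?_, ?_⟩
    · apply lt_min (by linarith)
      apply lt_min (by positivity)
      apply div_pos (by nlinarith) (by positivity)
    · exact min_le_left _ _
    · have : min (R - 1) (min (1 / (4 * A ^ 2)) ((R ^ 2 - 1) / (96 * A ^ 2))) ≤ 1 / (4 * A ^ 2) :=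
        (min_le_right _ _).trans (min_le_left _ _)
      calc _ ≤ 1 / (4 * A ^ 2) * (4 * A ^ 2) := by gcongr
        _ = 1 := by field_simp
    · have : min (R - 1) (min (1 / (4 * A ^ 2)) ((R ^ 2 - 1) / (96 * A ^ 2))) ≤
          (R ^ 2 - 1) / (96 * A ^ 2) := (min_le_right _ _).trans (min_le_right _ _)
      have h2 : (0:ℝ) < R ^ 2 - 1 := by nlinarith
      calc _ ≤ 3 * ((R ^ 2 - 1) / (96 * A ^ 2)) * (16 * A ^ 2) := by gcongr
        _ = (R ^ 2 - 1) / 2 := by field_simp; ring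
        _ < R ^ 2 - 1 := by linarith
  refine ⟨1 + e, by linarith, by linarith, ?_⟩
  intro g hg z hz
  have hab := normSq_al_sub g
  have hlt := be_lt_al g
  have ha1 := one_le_al g
  have hb0 := norm_nonneg (be g)
  have hz0 := norm_nonneg z
  have heR : e ≤ 1 := by nlinarith
  -- the gap |al| - |be| >= 1/(2A)
  have hgap : 1 ≤ (‖al g‖ - ‖be g‖) * (2 * A) := by
    have : (‖al g‖ - ‖be g‖) * (‖al g‖ + ‖be g‖) = 1 := by nlinarith
    nlinarith [sub_pos.2 hlt]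
  have hj : 1 / (4 * A) ≤ ‖jf g z‖ := by
    have h1 : ‖al g‖ - ‖be g‖ * ‖z‖ ≤ ‖jf g z‖ := by
      have := norm_sub_norm_le (al g) (conj (be g) * z)
      rw [norm_mul, RCLike.norm_conj] at this
      exact this
    have h2 : ‖be g‖ * ‖z‖ ≤ ‖be g‖ + A * e := by nlinarith
    have h3 : 1 / (2 * A) ≤ ‖al g‖ - ‖be g‖ := by
      rw [div_le_iff₀ (by positivity)]
      exact hgap
    have h4 : A * e ≤ 1 / (4 * A) := by
      rw [le_div_iff₀ (by positivity)]
      nlinarith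
    have h5 : 1 / (2 * A) = 1 / (4 * A) + 1 / (4 * A) := by field_simp; ring
    linarith
  refine ⟨hj, ?_⟩
  have hA0 : 0 < 1 / (4 * A) := by positivity
  have hj0 : 0 < ‖jf g z‖ := lt_of_lt_of_le hA0 hj
  have hjne : jf g z ≠ 0 := norm_pos_iff.1 hj0
  have hid := one_sub_norm_mob g hjne
  have h6 : 1 / (16 * A ^ 2) ≤ ‖jf g z‖ ^ 2 := by
    calc 1 / (16 * A ^ 2) = (1 / (4 * A)) ^ 2 := by field_simp; ring
      _ ≤ _ := by gcongr
  have h7 : ‖mob g z‖ ^ 2 < R ^ 2 := by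
    have h8 : ‖mob g z‖ ^ 2 = 1 + (‖z‖ ^ 2 - 1) / ‖jf g z‖ ^ 2 := by
      have : (‖z‖ ^ 2 - 1) / ‖jf g z‖ ^ 2 = - ((1 - ‖z‖ ^ 2) / ‖jf g z‖ ^ 2) := by ring
      rw [this, ← hid]; ring
    rw [h8]
    have h9 : ‖z‖ ^ 2 - 1 ≤ 3 * e := by nlinarith
    have h10 : (‖z‖ ^ 2 - 1) / ‖jf g z‖ ^ 2 ≤ 3 * e * (16 * A ^ 2) := by
      rw [div_le_iff₀ (by positivity)]
      have h11 : 1 ≤ 16 * A ^ 2 * ‖jf g z‖ ^ 2 := by
        rw [div_le_iff₀ (by positivity)] at h6
        linarith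
      calc ‖z‖ ^ 2 - 1 ≤ 3 * e := h9
        _ ≤ 3 * e * (16 * A ^ 2 * ‖jf g z‖ ^ 2) := by nlinarith
        _ = _ := by ring
    linarith
  nlinarith [norm_nonneg (mob g z)]

/-- Functions on the closed unit disc (extended by zero) with values in `ℂ²` that extend
holomorphically to a neighbourhood of the closed disc. -/
def AA : Submodule ℂ (ℂ → ℂ × ℂ) where
  carrier := {F | (∀ z, 1 < ‖z‖ → F z = 0) ∧ ∃ R > 1, ∃ E, IsExt R E F}
  add_mem' := by
    rintro F H ⟨hF, R, hR, E, hE⟩ ⟨hH, R', hR', E', hE'⟩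
    refine ⟨fun z hz => by simp [hF z hz, hH z hz], min R R', lt_min hR hR', E + E', ?_, ?_⟩
    · exact (hE.1.mono (Metric.ball_subset_ball (min_le_left _ _))).add
        (hE'.1.mono (Metric.ball_subset_ball (min_le_right _ _)))
    · intro z hz
      simp [hE.2 z hz, hE'.2 z hz]
  zero_mem' := ⟨fun _ _ => rfl, 2, by norm_num, 0, differentiableOn_const 0, fun _ _ => rfl⟩
  smul_mem' := by
    rintro c F ⟨hF, R, hR, E, hE⟩
    refine ⟨fun z hz => by simp [hF z hz], R, hR, c • E, hE.1.const_smul c, ?_⟩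
    intro z hz
    simp [hE.2 z hz]

lemma differentiable_m2 (g : SLR) : Differentiable ℂ (m2 g) := by
  unfold m2
  fun_prop

/-- The extension of `tr g F`. -/
lemma isExt_ext (g : GG) {R r : ℝ} {E F : ℂ → ℂ × ℂ} (h : IsExt R E F)
    (hr : ∀ z : ℂ, ‖z‖ < r → jf g.1 z ≠ 0 ∧ ‖mob g.1 z‖ < R) :
    IsExt r (ext g E) (tr g F) := by
  constructor
  · intro z hz
    have hz' : ‖z‖ < r := by simpa using hz
    obtain ⟨hj, hm⟩ := hr z hz'
    have h1 : DifferentiableAt ℂ (jf g.1) z := by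
      unfold jf
      fun_prop
    have h2 : DifferentiableAt ℂ (mob g.1) z := by
      unfold mob
      exact (DifferentiableAt.sub (by fun_prop) (by fun_prop)).div h1 hj
    have h3 : DifferentiableAt ℂ E (mob g.1 z) :=
      h.1.differentiableAt (Metric.isOpen_ball.mem_nhds (by simpa using hm))
    have h4 : DifferentiableAt ℂ (fun z => E (mob g.1 z)) z := h3.comp z h2
    have h5 : DifferentiableAt ℂ (fun z => m2 g.2 (E (mob g.1 z))) z :=
      (differentiable_m2 g.2 _).comp z h4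
    exact ((h1.inv hj).smul h5).differentiableWithinAt
  · intro z hz
    rw [tr, if_pos hz, ext, ext, h.2 _ (norm_mob_le g.1 hz)]

lemma tr_mem (g : GG) {F : ℂ → ℂ × ℂ} (hF : F ∈ AA) : tr g F ∈ AA := by
  obtain ⟨-, R, hR, E, hE⟩ := hF
  refine ⟨fun z hz => by rw [tr, if_neg (not_le.2 hz)], ?_⟩
  obtain ⟨r, hr1, -, hr⟩ := mob_unif ‖al g.1‖ R (one_le_al g.1) hR
  refine ⟨r, hr1, ext g E, isExt_ext g hE fun z hz => ?_⟩
  obtain ⟨h1, h2⟩ := hr g.1 le_rfl z hz
  have ha := one_le_al g.1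
  refine ⟨fun h => ?_, h2⟩
  rw [h, norm_zero] at h1
  have : 0 < 1 / (4 * ‖al g.1‖) := by positivity
  linarith

/-- The action of `g` on `AA`. -/
def TT (g : GG) : AA →ₗ[ℂ] AA where
  toFun F := ⟨tr g F, tr_mem g F.2⟩
  map_add' F H := by
    apply Subtype.ext
    funext z
    by_cases hz : ‖z‖ ≤ 1
    · simp [tr, ext, hz, m2_add]
    · simp [tr, hz]
  map_smul' c F := by
    apply Subtype.ext
    funext z
    by_cases hz : ‖z‖ ≤ 1
    · simp [tr, ext, hz, m2_smul, smul_comm c]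
    · simp [tr, hz]

lemma TT_apply (g : GG) (F : AA) {z : ℂ} (hz : ‖z‖ ≤ 1) :
    (TT g F : ℂ → ℂ × ℂ) z =
      (jf g.1 z)⁻¹ • m2 g.2 ((F : ℂ → ℂ × ℂ) (mob g.1 z)) := by
  show tr g F z = _
  rw [tr, if_pos hz, ext]

lemma AA_ext {F H : AA} (h : ∀ z : ℂ, ‖z‖ ≤ 1 → (F : ℂ → ℂ × ℂ) z = (H : ℂ → ℂ × ℂ) z) :
    F = H := by
  apply Subtype.ext
  funext z
  by_cases hz : ‖z‖ ≤ 1
  · exact h z hz
  · rw [F.2.1 z (not_le.1 hz), H.2.1 z (not_le.1 hz)]

lemma TT_mul (g h : GG) (F : AA) : TT (g * h) F = TT g (TT h F) := by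
  apply AA_ext
  intro z hz
  have hj := jf_ne_zero g.1 hz
  rw [TT_apply _ _ hz, TT_apply _ _ hz, TT_apply _ _ (norm_mob_le g.1 hz), Prod.fst_mul,
    Prod.snd_mul, jf_mul _ _ hj, mob_mul _ _ hj, m2_mul, m2_smul, smul_smul, mul_inv]

@[simp] lemma TT_one (F : AA) : TT 1 F = F := by
  apply AA_ext
  intro z hz
  rw [TT_apply _ _ hz]
  simp

end Pool.SG
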