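import Pool.Agent.Helper71.SG.EX2

open Complex Set Filter Topology Matrix ComplexConjugate
open scoped ENNReal NNReal Nat

noncomputable section

namespace Pool.SG

lemma mem_of_unip (S : Subgroup SLR) (h1 : ∀ x, upp x ∈ S) (h2 : ∀ x, low x ∈ S)
    (g : SLR) (hc : (g : Mat2) 1 0 ≠ 0) : g ∈ S := by
  have hd : (g : Mat2) 0 0 * (g : Mat2) 1 1 - (g : Mat2) 0 1 * (g : Mat2) 1 0 = 1 := by
    have := g.2
    rwa [Matrix.det_fin_two] at this
  have key : g = upp (((g : Mat2) 0 0 - 1) / (g : Mat2) 1 0) * low ((g : Mat2) 1 0) *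
      upp (((g : Mat2) 1 1 - 1) / (g : Mat2) 1 0) := by
    apply Subtype.ext
    rw [Matrix.SpecialLinearGroup.coe_mul, Matrix.SpecialLinearGroup.coe_mul]
    ext i j
    fin_cases i <;> fin_cases j
    · simp [upp, low, Matrix.mul_apply, Fin.sum_univ_two, hc]
    · simp [upp, low, Matrix.mul_apply, Fin.sum_univ_two, hc]
      field_simp
      linear_combination -hd
    · simp [upp, low, Matrix.mul_apply, Fin.sum_univ_two]
    · simp [upp, low, Matrix.mul_apply, Fin.sum_univ_two]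
      field_simp
      ring
  rw [key]
  exact S.mul_mem (S.mul_mem (h1 _) (h2 _)) (h1 _)

lemma unip_top (S : Subgroup SLR) (h1 : ∀ x, upp x ∈ S) (h2 : ∀ x, low x ∈ S) : S = ⊤ := by
  rw [eq_top_iff]
  intro g _
  by_cases hc : (g : Mat2) 1 0 = 0
  · have hd : (g : Mat2) 0 0 * (g : Mat2) 1 1 - (g : Mat2) 0 1 * (g : Mat2) 1 0 = 1 := by
      have := g.2
      rwa [Matrix.det_fin_two] at this
    have ha : (g : Mat2) 0 0 ≠ 0 := by
      intro h
      rw [h, hc] at hd
      simp at hd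
    have h3 : low 1 * g ∈ S := by
      refine mem_of_unip S h1 h2 _ ?_
      rw [Matrix.SpecialLinearGroup.coe_mul]
      simpa [low, Matrix.mul_apply, Fin.sum_univ_two, hc] using ha
    exact (S.mul_mem_cancel_left (h2 1)).1 h3
  · exact mem_of_unip S h1 h2 g hc

/-- `SL(2, R) x SL(2, R)` is generated by unipotents. -/
theorem closure_unip (H : Subgroup GG) (h1 : ∀ x, ((upp x, 1) : GG) ∈ H)
    (h2 : ∀ x, ((low x, 1) : GG) ∈ H) (h3 : ∀ x, ((1, upp x) : GG) ∈ H)
    (h4 : ∀ x, ((1, low x) : GG) ∈ H) : H = ⊤ := by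
  have e1 : H.comap (MonoidHom.inl SLR SLR) = ⊤ := unip_top _ h1 h2
  have e2 : H.comap (MonoidHom.inr SLR SLR) = ⊤ := unip_top _ h3 h4
  rw [eq_top_iff]
  rintro ⟨a, b⟩ -
  have ha : ((a, 1) : GG) ∈ H := by
    have : a ∈ H.comap (MonoidHom.inl SLR SLR) := by rw [e1]; trivial
    exact this
  have hb : ((1, b) : GG) ∈ H := by
    have : b ∈ H.comap (MonoidHom.inr SLR SLR) := by rw [e2]; trivial
    exact this
  have := H.mul_mem ha hb
  simpa using this

end Pool.SG
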