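import Pool.Agent.Helper71.SG.TAME

open Complex Set Filter Topology Matrix ComplexConjugate
open scoped ENNReal NNReal Nat

noncomputable section

namespace Pool.SG

variable {B : Type} [NormedAddCommGroup B] [NormedSpace ℂ B] [CompleteSpace B]

/-- Geometric bound for the terms of the extended series. -/
lemma hat_term_bound {ι : VV →ₗ[ℂ] B} {R R' C K : ℝ} (hR' : 0 < R') (hR : R' < R) (hC : 0 ≤ C)
    (h : ∀ (n : ℕ) (u : ℂ × ℂ), ‖ι (mono n u)‖ ≤ C * R' ^ n * ‖u‖)
    {F : AA} (hF : ∀ n, ‖cf n F‖ * R ^ n ≤ K) (n : ℕ) :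
    ‖ι (mono n (cf n F))‖ ≤ C * K * (R' / R) ^ n := by
  have hR0 : 0 < R := hR'.trans hR
  have h1 : ‖cf n F‖ ≤ K / R ^ n := by
    rw [le_div_iff₀ (pow_pos hR0 n)]
    exact hF n
  calc ‖ι (mono n (cf n F))‖ ≤ C * R' ^ n * ‖cf n F‖ := h n _
    _ ≤ C * R' ^ n * (K / R ^ n) := by
        apply mul_le_mul_of_nonneg_left h1
        positivity
    _ = C * K * (R' / R) ^ n := by
        rw [div_pow]
        ring

/-- Summability of the extended series. -/
lemma hat_summable {ι : VV →ₗ[ℂ] B}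
    (h : ∀ R > 1, ∃ C, 0 ≤ C ∧ ∀ (n : ℕ) (u : ℂ × ℂ), ‖ι (mono n u)‖ ≤ C * R ^ n * ‖u‖)
    (F : AA) : Summable fun n => ι (mono n (cf n F)) := by
  obtain ⟨R, hR, K, hK, hF⟩ := cf_decay F
  obtain ⟨C, hC, hC'⟩ := h ((1 + R) / 2) (by linarith)
  have hR' : (0 : ℝ) < (1 + R) / 2 := by linarith
  have hlt : (1 + R) / 2 < R := by linarith
  refine Summable.of_norm_bounded (g := fun n => C * K * ((1 + R) / 2 / R) ^ n) ?_ ?_
  · apply Summable.mul_left
    apply summable_geometric_of_lt_one (by positivity)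
    rw [div_lt_one (by linarith)]
    exact hlt
  · intro n
    exact hat_term_bound hR' hlt hC hC' hF n

lemma sum_mono_coeff (f : VV) {N : ℕ} (h1 : f.1.natDegree < N) (h2 : f.2.natDegree < N) :
    ∑ n ∈ Finset.range N, mono n (f.1.coeff n, f.2.coeff n) = f := by
  apply Prod.ext
  · rw [Prod.fst_sum]
    conv_rhs => rw [f.1.as_sum_range' N h1]
    rfl
  · rw [Prod.snd_sum]
    conv_rhs => rw [f.2.as_sum_range' N h2]
    rfl

/-- Extension of `ι` to `AA`. -/
theorem exists_hat {ι : VV →ₗ[ℂ] B}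
    (h : ∀ R > 1, ∃ C, 0 ≤ C ∧ ∀ (n : ℕ) (u : ℂ × ℂ), ‖ι (mono n u)‖ ≤ C * R ^ n * ‖u‖) :
    ∃ J : AA →ₗ[ℂ] B, (∀ f, J (inc f) = ι f) ∧ Tame ((normSeminorm ℂ B).comp J) := by
  refine ⟨{ toFun := fun F => ∑' n, ι (mono n (cf n F))
            map_add' := ?_
            map_smul' := ?_ }, ?_, ?_⟩
  · intro F H
    rw [← (hat_summable h F).tsum_add (hat_summable h H)]
    congr 1
    funext n
    rw [map_add, map_add, map_add]
  · intro c F
    rw [RingHom.id_apply, ← (hat_summable h F).tsum_const_smul c]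
    congr 1
    funext n
    rw [map_smul, map_smul, map_smul]
  · intro f
    show ∑' n, ι (mono n (cf n (inc f))) = ι f
    have h0 : ∀ n, f.1.natDegree + f.2.natDegree + 1 ≤ n → ι (mono n (cf n (inc f))) = 0 := by
      intro n hn
      rw [cf_inc, Polynomial.coeff_eq_zero_of_natDegree_lt (by omega),
        Polynomial.coeff_eq_zero_of_natDegree_lt (by omega)]
      rw [show ((0 : ℂ), (0 : ℂ)) = 0 from rfl, map_zero, map_zero]
    rw [tsum_eq_sum (s := Finset.range (f.1.natDegree + f.2.natDegree + 1))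
      (fun n hn => h0 n (by simpa using hn))]
    rw [← map_sum]
    congr 1
    refine Eq.trans ?_
      (sum_mono_coeff f (N := f.1.natDegree + f.2.natDegree + 1) (by omega) (by omega))
    apply Finset.sum_congr rfl
    intro n _
    rw [cf_inc]
  · intro R hR
    obtain ⟨C, hC, hC'⟩ := h ((1 + R) / 2) (by linarith)
    have hR' : (0 : ℝ) < (1 + R) / 2 := by linarith
    have hlt : (1 + R) / 2 < R := by linarith
    have hq0 : 0 ≤ (1 + R) / 2 / R := by positivity
    have hq1 : (1 + R) / 2 / R < 1 := by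
      rw [div_lt_one (by linarith)]
      exact hlt
    refine ⟨C * (1 - (1 + R) / 2 / R)⁻¹, mul_nonneg hC (inv_nonneg.2 (by linarith)), ?_⟩
    intro F E K hE hK
    have hb : ∀ n, ‖cf n F‖ * R ^ n ≤ K := cf_bound (by linarith) hE hK
    have hterm := hat_term_bound hR' hlt hC hC' hb
    have hgs : HasSum (fun n => C * K * ((1 + R) / 2 / R) ^ n)
        (C * K * (1 - (1 + R) / 2 / R)⁻¹) :=
      (hasSum_geometric_of_lt_one hq0 hq1).mul_left (C * K)
    show ‖∑' n, ι (mono n (cf n F))‖ ≤ _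
    have := tsum_of_norm_bounded hgs hterm
    calc ‖∑' n, ι (mono n (cf n F))‖ ≤ C * K * (1 - (1 + R) / 2 / R)⁻¹ := this
      _ = C * (1 - (1 + R) / 2 / R)⁻¹ * K := by ring

end Pool.SG
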