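import Pool.Agent.Helper71.SG.LX

open Complex Set Filter Topology Matrix ComplexConjugate
open scoped ENNReal NNReal Nat

noncomputable section

namespace Pool.SG

namespace ITBx

/-- The coefficient of `z ^ n`. -/
def vc (n : ℕ) : VV →ₗ[ℂ] ℂ × ℂ :=
  LinearMap.prod (Polynomial.lcoeff ℂ n ∘ₗ LinearMap.fst ℂ _ _)
    (Polynomial.lcoeff ℂ n ∘ₗ LinearMap.snd ℂ _ _)

lemma vc_apply (n : ℕ) (v : VV) : vc n v = (v.1.coeff n, v.2.coeff n) := rfl

lemma vc_mono (n k : ℕ) (u : ℂ × ℂ) : vc n (mono k u) = if k = n then u else 0 := by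
  rw [vc_apply, mono_apply]
  simp only [Polynomial.coeff_monomial]
  split_ifs <;> simp

lemma rep (v : VV) (M : ℕ) (h : ∀ n, M ≤ n → vc n v = 0) :
    v = ∑ n ∈ Finset.range M, mono n (vc n v) := by
  have key : ∀ m, vc m v = vc m (∑ n ∈ Finset.range M, mono n (vc n v)) := by
    intro m
    rw [map_sum]
    simp only [vc_mono]
    rw [Finset.sum_ite_eq' (Finset.range M) m (fun n => vc n v)]
    split_ifs with hm
    · rfl
    · exact h m (by simpa using hm)
  apply Prod.ext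
  · ext m
    exact (Prod.mk.inj (key m)).1
  · ext m
    exact (Prod.mk.inj (key m)).2

/-- The part of order zero. -/
def mm (X : gg) (k : ℕ) (u : ℂ × ℂ) : ℂ × ℂ :=
  (-(I * (th X.1 : ℂ)) * (2 * k + 1) * u.1 + I * (th X.2 : ℂ) * u.1 + bb X.2 * u.2,
    -(I * (th X.1 : ℂ)) * (2 * k + 1) * u.2 + conj (bb X.2) * u.1 - I * (th X.2 : ℂ) * u.2)

lemma D1_mono (X : slR) (k : ℕ) (a : ℂ) : D1 X (Polynomial.monomial k a) =
    Polynomial.monomial (k + 1) (conj (bb X) * (k + 1) * a) +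
    Polynomial.monomial k (-(I * (th X : ℂ)) * (2 * k + 1) * a) +
    Polynomial.monomial (k - 1) (-(k * bb X * a)) := by
  rw [D1_apply, c0, c1]
  cases k with
  | zero =>
    simp only [← Polynomial.C_mul_X_pow_eq_monomial, Polynomial.derivative_mul,
      Polynomial.derivative_C, Polynomial.derivative_X_pow, map_mul, map_add, map_neg, map_one,
      map_ofNat, map_natCast]
    simp
    ring
  | succ k =>
    simp only [← Polynomial.C_mul_X_pow_eq_monomial, Polynomial.derivative_mul,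
      Polynomial.derivative_C, Polynomial.derivative_X_pow, map_mul, map_add, map_neg, map_one,
      map_ofNat, map_natCast, Nat.add_sub_cancel]
    push_cast
    ring

lemma actV_mono (X : gg) (k : ℕ) (u : ℂ × ℂ) : actV X (mono k u) =
    mono (k + 1) ((conj (bb X.1) * (k + 1)) • u) + mono k (mm X k u) +
      mono (k - 1) (-((k * bb X.1) • u)) := by
  rw [actV_apply]
  simp only [mono_apply]
  rw [D1_mono, D1_mono]
  apply Prod.ext
  · simp only [Prod.fst_add, Prod.fst_neg, Prod.smul_fst, smul_eq_mul, mm,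
      Polynomial.smul_monomial, map_add, map_neg]
    abel
  · simp only [Prod.snd_add, Prod.snd_neg, Prod.smul_snd, smul_eq_mul, mm,
      Polynomial.smul_monomial, map_add, map_neg, map_sub]
    abel

lemma sum_mono (R : ℝ) (hR : 0 ≤ R) (M k : ℕ) (u : ℂ × ℂ) :
    ∑ n ∈ Finset.range M, ‖vc n (mono k u)‖ * R ^ n ≤ ‖u‖ * R ^ k := by
  have h1 : ∀ n, ‖vc n (mono k u)‖ * R ^ n = if k = n then ‖u‖ * R ^ k else 0 := by
    intro n
    rw [vc_mono]
    split_ifs with h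
    · rw [h]
    · simp
  simp only [h1]
  rw [Finset.sum_ite_eq (Finset.range M) k]
  split_ifs
  · exact le_rfl
  · positivity

lemma norm_mm (X : gg) (k : ℕ) (u : ℂ × ℂ) :
    ‖mm X k u‖ ≤ (2 * |th X.1| + |th X.2| + ‖bb X.2‖) * (k + 1) * ‖u‖ := by
  have h1 : ‖u.1‖ ≤ ‖u‖ := norm_fst_le u
  have h2 : ‖u.2‖ ≤ ‖u‖ := norm_snd_le u
  have hk : (0:ℝ) ≤ k := by positivity
  have hu : 0 ≤ ‖u‖ := norm_nonneg u
  have ht1 : 0 ≤ |th X.1| := abs_nonneg _
  have ht2 : 0 ≤ |th X.2| := abs_nonneg _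
  have hb : 0 ≤ ‖bb X.2‖ := norm_nonneg _
  have hk2 : ‖(2 * k + 1 : ℂ)‖ = 2 * k + 1 := by
    have : (2 * k + 1 : ℂ) = ((2 * k + 1 : ℕ) : ℂ) := by push_cast; ring
    rw [this, Complex.norm_natCast]
    push_cast; ring
  have key : ∀ x y : ℝ, x ≤ ‖u‖ → y ≤ ‖u‖ → |th X.1| * (2 * k + 1) * x + |th X.2| * x +
      ‖bb X.2‖ * y ≤ (2 * |th X.1| + |th X.2| + ‖bb X.2‖) * (k + 1) * ‖u‖ := by
    intro x y hx hy
    have e1 : |th X.1| * (2 * k + 1) * x ≤ |th X.1| * (2 * k + 1) * ‖u‖ := by gcongr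
    have e2 : |th X.2| * x ≤ |th X.2| * ‖u‖ := by gcongr
    have e3 : ‖bb X.2‖ * y ≤ ‖bb X.2‖ * ‖u‖ := by gcongr
    have e4 : 0 ≤ |th X.1| * ‖u‖ := by positivity
    have e5 : 0 ≤ |th X.2| * ‖u‖ * k := by positivity
    have e6 : 0 ≤ ‖bb X.2‖ * ‖u‖ * k := by positivity
    nlinarith
  rw [Prod.norm_def]
  apply max_le
  · calc ‖-(I * (th X.1 : ℂ)) * (2 * k + 1) * u.1 + I * (th X.2 : ℂ) * u.1 + bb X.2 * u.2‖
        ≤ |th X.1| * (2 * k + 1) * ‖u.1‖ + |th X.2| * ‖u.1‖ + ‖bb X.2‖ * ‖u.2‖ := by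
          refine (norm_add₃_le).trans ?_
          rw [norm_mul, norm_mul, norm_neg, norm_mul, norm_mul, norm_mul, norm_mul, hk2,
            Complex.norm_I, Complex.norm_real, Complex.norm_real, one_mul, one_mul,
            Real.norm_eq_abs, Real.norm_eq_abs]
      _ ≤ _ := key _ _ h1 h2
  · calc ‖-(I * (th X.1 : ℂ)) * (2 * k + 1) * u.2 + conj (bb X.2) * u.1 - I * (th X.2 : ℂ) * u.2‖
        = ‖-(I * (th X.1 : ℂ)) * (2 * k + 1) * u.2 + -(I * (th X.2 : ℂ)) * u.2 +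
            conj (bb X.2) * u.1‖ := by congr 1; ring
      _ ≤ |th X.1| * (2 * k + 1) * ‖u.2‖ + |th X.2| * ‖u.2‖ + ‖bb X.2‖ * ‖u.1‖ := by
          refine (norm_add₃_le).trans ?_
          rw [norm_mul, norm_mul, norm_neg, norm_mul, norm_mul, norm_neg, norm_mul, norm_mul, hk2,
            Complex.norm_I, Complex.norm_real, Complex.norm_real, one_mul, one_mul,
            Real.norm_eq_abs, Real.norm_eq_abs, RCLike.norm_conj]
      _ ≤ _ := key _ _ h2 h1

/-- The constant. -/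
def kap (X : gg) (R : ℝ) : ℝ :=
  ‖bb X.1‖ * R + (2 * |th X.1| + |th X.2| + ‖bb X.2‖) + ‖bb X.1‖ + 1

lemma one_step (X : gg) (R : ℝ) (hR : 1 ≤ R) (M k : ℕ) (u : ℂ × ℂ) :
    ∑ n ∈ Finset.range M, ‖vc n (actV X (mono k u))‖ * R ^ n ≤
      kap X R * (k + 1) * (‖u‖ * R ^ k) := by
  have hR0 : 0 ≤ R := by linarith
  rw [actV_mono]
  set a := (conj (bb X.1) * (k + 1)) • u with ha
  set b := mm X k u with hb
  set c := -((k * bb X.1) • u) with hc
  have h1 : ∀ n ∈ Finset.range M, ‖vc n (mono (k + 1) a + mono k b + mono (k - 1) c)‖ * R ^ n ≤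
      ‖vc n (mono (k + 1) a)‖ * R ^ n + ‖vc n (mono k b)‖ * R ^ n +
        ‖vc n (mono (k - 1) c)‖ * R ^ n := by
    intro n _
    rw [map_add, map_add, ← add_mul, ← add_mul]
    exact mul_le_mul_of_nonneg_right norm_add₃_le (by positivity)
  refine (Finset.sum_le_sum h1).trans ?_
  rw [Finset.sum_add_distrib, Finset.sum_add_distrib]
  have s1 := sum_mono R hR0 M (k + 1) a
  have s2 := sum_mono R hR0 M k b
  have s3 := sum_mono R hR0 M (k - 1) c
  have hu : 0 ≤ ‖u‖ := norm_nonneg u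
  have hk1 : ‖(k + 1 : ℂ)‖ = k + 1 := by
    have : (k + 1 : ℂ) = ((k + 1 : ℕ) : ℂ) := by push_cast; ring
    rw [this, Complex.norm_natCast]
    push_cast; ring
  have n1 : ‖a‖ = ‖bb X.1‖ * (k + 1) * ‖u‖ := by
    rw [ha, norm_smul, norm_mul, RCLike.norm_conj, hk1]
  have n2 := norm_mm X k u
  have n3 : ‖c‖ = k * ‖bb X.1‖ * ‖u‖ := by
    rw [hc, norm_neg, norm_smul, norm_mul, Complex.norm_natCast]
  have hbb : 0 ≤ ‖bb X.1‖ := norm_nonneg _
  have hk : (0:ℝ) ≤ k := by positivity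
  have t1 : ‖a‖ * R ^ (k + 1) = (‖bb X.1‖ * R) * (k + 1) * (‖u‖ * R ^ k) := by
    rw [n1]; ring
  have t2 : ‖b‖ * R ^ k ≤ (2 * |th X.1| + |th X.2| + ‖bb X.2‖) * (k + 1) * (‖u‖ * R ^ k) := by
    rw [← mul_assoc]
    exact mul_le_mul_of_nonneg_right n2 (by positivity)
  have t3 : ‖c‖ * R ^ (k - 1) ≤ ‖bb X.1‖ * (k + 1) * (‖u‖ * R ^ k) := by
    rw [n3]
    have e1 : R ^ (k - 1) ≤ R ^ k := pow_le_pow_right₀ hR (Nat.sub_le _ _)
    calc k * ‖bb X.1‖ * ‖u‖ * R ^ (k - 1) ≤ (k + 1) * ‖bb X.1‖ * ‖u‖ * R ^ k := by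
          gcongr
          linarith
      _ = _ := by ring
  have t4 : 0 ≤ (k + 1 : ℝ) * (‖u‖ * R ^ k) := by positivity
  calc _ ≤ (‖bb X.1‖ * R) * (k + 1) * (‖u‖ * R ^ k) +
        (2 * |th X.1| + |th X.2| + ‖bb X.2‖) * (k + 1) * (‖u‖ * R ^ k) +
        ‖bb X.1‖ * (k + 1) * (‖u‖ * R ^ k) := by linarith
    _ ≤ kap X R * (k + 1) * (‖u‖ * R ^ k) := by
        unfold kap
        nlinarith

lemma vc_actV_mono (X : gg) (k n : ℕ) (u : ℂ × ℂ) (h : k + 1 < n) :
    vc n (actV X (mono k u)) = 0 := by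
  rw [actV_mono, map_add, map_add, vc_mono, vc_mono, vc_mono, if_neg (by omega),
    if_neg (by omega), if_neg (by omega)]
  simp

lemma step (X : gg) (R : ℝ) (hR : 1 ≤ R) (v : VV) (D : ℕ) (hv : ∀ n, D + 1 ≤ n → vc n v = 0) :
    (∀ n, D + 2 ≤ n → vc n (actV X v) = 0) ∧
    ∑ n ∈ Finset.range (D + 2), ‖vc n (actV X v)‖ * R ^ n ≤
      kap X R * (D + 1) * ∑ n ∈ Finset.range (D + 1), ‖vc n v‖ * R ^ n := by
  have hR0 : 0 ≤ R := by linarith
  have hrep := rep v (D + 1) hv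
  have hact : actV X v = ∑ k ∈ Finset.range (D + 1), actV X (mono k (vc k v)) := by
    conv_lhs => rw [hrep]
    rw [map_sum]
  constructor
  · intro n hn
    rw [hact, map_sum]
    refine Finset.sum_eq_zero fun k hk => ?_
    exact vc_actV_mono X k n _ (by have := Finset.mem_range.1 hk; omega)
  · calc ∑ n ∈ Finset.range (D + 2), ‖vc n (actV X v)‖ * R ^ n
        ≤ ∑ n ∈ Finset.range (D + 2), ∑ k ∈ Finset.range (D + 1),
            ‖vc n (actV X (mono k (vc k v)))‖ * R ^ n := by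
          refine Finset.sum_le_sum fun n _ => ?_
          rw [← Finset.sum_mul, hact, map_sum]
          exact mul_le_mul_of_nonneg_right (norm_sum_le _ _) (by positivity)
      _ = ∑ k ∈ Finset.range (D + 1), ∑ n ∈ Finset.range (D + 2),
            ‖vc n (actV X (mono k (vc k v)))‖ * R ^ n := Finset.sum_comm
      _ ≤ ∑ k ∈ Finset.range (D + 1), kap X R * (D + 1) * (‖vc k v‖ * R ^ k) := by
          refine Finset.sum_le_sum fun k hk => (one_step X R hR (D + 2) k (vc k v)).trans ?_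
          have hk' : (k : ℝ) ≤ D := by
            exact_mod_cast Nat.lt_succ_iff.1 (Finset.mem_range.1 hk)
          have hkap : 0 ≤ kap X R := by unfold kap; positivity
          gcongr
      _ = _ := by rw [Finset.mul_sum]

end ITBx

open ITBx in
/-- Growth of the iterates of `actV X`. -/
theorem iter_bound (X : gg) (R : ℝ) (hR : 1 ≤ R) : ∃ κ, 0 < κ ∧ ∀ (d : ℕ) (u : ℂ × ℂ) (j : ℕ),
    ∃ (c : ℕ → ℂ × ℂ), (actV X)^[j] (mono d u) = ∑ n ∈ Finset.range (d + j + 1), mono n (c n) ∧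
      ∑ n ∈ Finset.range (d + j + 1), ‖c n‖ * R ^ n ≤
        κ ^ j * ((d + j)! : ℕ) / (d ! : ℕ) * R ^ d * ‖u‖ := by
  have hR0 : 0 ≤ R := by linarith
  have hkap : 0 < kap X R := by unfold kap; positivity
  refine ⟨kap X R, hkap, fun d u j => ?_⟩
  have key : ∀ j, (∀ n, d + j + 1 ≤ n → vc n ((actV X)^[j] (mono d u)) = 0) ∧
      ∑ n ∈ Finset.range (d + j + 1), ‖vc n ((actV X)^[j] (mono d u))‖ * R ^ n ≤
        kap X R ^ j * ((d + j)! : ℕ) / (d ! : ℕ) * R ^ d * ‖u‖ := by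
    intro j
    induction j with
    | zero =>
      constructor
      · intro n hn
        simp only [Function.iterate_zero, id_eq]
        rw [vc_mono, if_neg (by omega)]
      · simp only [Function.iterate_zero, id_eq, pow_zero, one_mul, Nat.add_zero]
        have hd : (0:ℝ) < (d ! : ℕ) := by exact_mod_cast Nat.factorial_pos d
        rw [div_self hd.ne', one_mul, mul_comm (R ^ d)]
        exact sum_mono R hR0 _ d u
    | succ j ih =>
      have hs := step X R hR ((actV X)^[j] (mono d u)) (d + j) ih.1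
      rw [Function.iterate_succ_apply']
      refine ⟨fun n hn => hs.1 n (by omega), ?_⟩
      have h1 := hs.2
      have h2 : d + (j + 1) + 1 = d + j + 2 := by ring
      rw [h2]
      refine h1.trans ?_
      have hd : (0:ℝ) < (d ! : ℕ) := by exact_mod_cast Nat.factorial_pos d
      calc kap X R * (((d + j : ℕ) : ℝ) + 1) *
            ∑ n ∈ Finset.range (d + j + 1), ‖vc n ((actV X)^[j] (mono d u))‖ * R ^ n
          ≤ kap X R * (((d + j : ℕ) : ℝ) + 1) *
            (kap X R ^ j * ((d + j)! : ℕ) / (d ! : ℕ) * R ^ d * ‖u‖) :=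
            mul_le_mul_of_nonneg_left ih.2 (by positivity)
        _ = kap X R ^ (j + 1) * ((d + (j + 1))! : ℕ) / (d ! : ℕ) * R ^ d * ‖u‖ := by
            have : (d + (j + 1))! = (d + j + 1) * (d + j)! := by
              rw [← Nat.factorial_succ]; rfl
            rw [this]
            push_cast
            ring
  obtain ⟨k1, k2⟩ := key j
  exact ⟨fun n => vc n ((actV X)^[j] (mono d u)), rep _ _ k1, k2⟩

end Pool.SG
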