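import Pool.Agent.Helper71.SG.DD
import Pool.Agent.Helper71.SG.ITB

open Complex Set Filter Topology Matrix ComplexConjugate
open scoped ENNReal NNReal Nat

noncomputable section

namespace Pool.SG

variable {B : Type} [NormedAddCommGroup B] [NormedSpace ℂ B] [CompleteSpace B]

namespace INT2x

/-- `g` intertwines. -/
def Good (π : GG →* (B →L[ℂ] B)) (J : AA →ₗ[ℂ] B) (g : GG) : Prop :=
  ∀ F, π g (J F) = J (TT g F)

omit [CompleteSpace B] in
lemma good_one {π : GG →* (B →L[ℂ] B)} {J : AA →ₗ[ℂ] B} : Good π J 1 := by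
  intro F
  rw [map_one, TT_one]
  rfl

omit [CompleteSpace B] in
lemma good_mul {π : GG →* (B →L[ℂ] B)} {J : AA →ₗ[ℂ] B} {g h : GG} (hg : Good π J g)
    (hh : Good π J h) : Good π J (g * h) := by
  intro F
  rw [map_mul, TT_mul, ← hg, ← hh]
  rfl

omit [CompleteSpace B] in
lemma good_inv {π : GG →* (B →L[ℂ] B)} {J : AA →ₗ[ℂ] B} {g h : GG} (hg : Good π J g)
    (hgh : h * g = 1) (hhg : g * h = 1) : Good π J h := by
  intro F
  have h1 := hg (TT h F)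
  rw [← TT_mul, hhg, TT_one] at h1
  rw [← h1]
  have h2 : π h (π g (J (TT h F))) = π (h * g) (J (TT h F)) := by
    rw [map_mul]; rfl
  rw [h2, hgh, map_one]
  rfl

omit [CompleteSpace B] in
lemma hasDerivAt_pow_div (n : ℕ) (x : ℝ) :
    HasDerivAt (fun s : ℝ => s ^ (n + 1) / ((n + 1)! : ℕ)) (x ^ n / (n ! : ℕ)) x := by
  have h1 := (hasDerivAt_pow (n + 1) x).div_const (((n + 1)! : ℕ) : ℝ)
  refine h1.congr_deriv ?_
  rw [Nat.factorial_succ]
  have hn : ((n ! : ℕ) : ℝ) ≠ 0 := by exact_mod_cast Nat.factorial_ne_zero n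
  have hn1 : ((n : ℝ) + 1) ≠ 0 := by positivity
  push_cast
  field_simp

omit [CompleteSpace B] in
lemma tay0 (a M : ℝ) (n : ℕ) : ∀ (G : ℕ → ℝ → B), (∀ j t, HasDerivAt (G j) (G (j + 1) t) t) →
    (∀ j, G j 0 = 0) → (∀ s : ℝ, 0 ≤ s → s ≤ a → ‖G n s‖ ≤ M) →
    ∀ s : ℝ, 0 ≤ s → s ≤ a → ‖G 0 s‖ ≤ M * (s ^ n / (n ! : ℕ)) := by
  induction n with
  | zero =>
    intro G _ _ hM s hs0 hs
    simpa using hM s hs0 hs
  | succ n ih =>
    intro G hG h0 hM s hs0 hs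
    have h := ih (fun j => G (j + 1)) (fun j t => hG (j + 1) t) (fun j => h0 (j + 1)) hM
    have hB : ∀ x : ℝ, HasDerivAt (fun s : ℝ => M * (s ^ (n + 1) / ((n + 1)! : ℕ)))
        (M * (x ^ n / (n ! : ℕ))) x := fun x => (hasDerivAt_pow_div n x).const_mul M
    have key := image_norm_le_of_norm_deriv_right_le_deriv_boundary' (a := 0) (b := a)
      (f := G 0) (f' := G 1)
      (B := fun s : ℝ => M * (s ^ (n + 1) / ((n + 1)! : ℕ)))
      (B' := fun x : ℝ => M * (x ^ n / (n ! : ℕ)))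
      (fun x _ => (hG 0 x).continuousAt.continuousWithinAt)
      (fun x _ => (hG 0 x).hasDerivWithinAt)
      (by simp [h0 0])
      (fun x _ => (hB x).continuousAt.continuousWithinAt)
      (fun x _ => (hB x).hasDerivWithinAt)
      (fun x hx => h x hx.1 hx.2.le)
    exact key (Set.mem_Icc.2 ⟨hs0, hs⟩)

lemma weight_bdd {w : GG → ℝ} (hw : IsWeight w) {γ : ℝ → GG} (hc : Continuous γ) :
    ∃ W, 0 < W ∧ ∀ s ∈ Set.Icc (0:ℝ) 1, w (γ s) ≤ W := by
  have h : ∃ W, ∀ s ∈ Set.Icc (0:ℝ) 1, w (γ s) ≤ W := by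
    apply isCompact_Icc.induction_on (p := fun S => ∃ W, ∀ s ∈ S, w (γ s) ≤ W)
    · exact ⟨0, fun s hs => absurd hs (Set.notMem_empty s)⟩
    · rintro S T hST ⟨W, hW⟩
      exact ⟨W, fun s hs => hW s (hST hs)⟩
    · rintro S T ⟨W, hW⟩ ⟨W', hW'⟩
      refine ⟨max W W', fun s hs => ?_⟩
      rcases hs with hs | hs
      · exact (hW s hs).trans (le_max_left _ _)
      · exact (hW' s hs).trans (le_max_right _ _)
    · intro x _
      obtain ⟨C, hC⟩ := hw.locBdd (γ x)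
      have h1 : ∀ᶠ s in 𝓝 x, w (γ s) ≤ C := hc.continuousAt.eventually hC
      exact ⟨{s | w (γ s) ≤ C}, mem_nhdsWithin_of_mem_nhds h1, C, fun s hs => hs⟩
  obtain ⟨W, hW⟩ := h
  exact ⟨max W 1, by positivity, fun s hs => (hW s hs).trans (le_max_left _ _)⟩

/-- The difference of the two sides. -/
def Dl (ι : VV →ₗ[ℂ] B) (π : GG →* (B →L[ℂ] B)) (J : AA →ₗ[ℂ] B) (g : GG) : VV →ₗ[ℂ] B :=
  (π g).toLinearMap ∘ₗ ι - J ∘ₗ TT g ∘ₗ inc

omit [CompleteSpace B] in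
lemma Dl_apply (ι : VV →ₗ[ℂ] B) (π : GG →* (B →L[ℂ] B)) (J : AA →ₗ[ℂ] B) (g : GG) (f : VV) :
    Dl ι π J g f = π g (ι f) - J (TT g (inc f)) := rfl

omit [CompleteSpace B] in
lemma bound {w : GG → ℝ} (hw : IsWeight w) {ι : VV →ₗ[ℂ] B} {π : GG →* (B →L[ℂ] B)}
    (h : Rlz w ι π) {J : AA →ₗ[ℂ] B} (hJ : ∀ f, J (inc f) = ι f)
    (hT : Tame ((normSeminorm ℂ B).comp J)) {γ : ℝ → GG} (hc : Continuous γ) :
    ∃ C, 0 ≤ C ∧ ∀ s : ℝ, 0 ≤ s → s ≤ 1 → ∀ (n : ℕ) (u : ℂ × ℂ),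
      ‖Dl ι π J (γ s) (mono n u)‖ ≤ C * (‖u‖ * 2 ^ n) := by
  obtain ⟨W, hW0, hW⟩ := weight_bdd hw hc
  obtain ⟨c, hc0, hgrow⟩ := h.grow
  obtain ⟨C2, hC20, hC2⟩ := tame_mono hT (R := 2) (by norm_num)
  have hc1 : Continuous fun s => al (γ s).1 := continuous_al.comp (continuous_fst.comp hc)
  have hc2 : Continuous fun s => al (γ s).2 := continuous_al.comp (continuous_snd.comp hc)
  obtain ⟨A1, hA1⟩ := (isCompact_Icc (a := (0:ℝ)) (b := 1)).exists_bound_of_continuousOn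
    hc1.continuousOn
  obtain ⟨A2, hA2⟩ := (isCompact_Icc (a := (0:ℝ)) (b := 1)).exists_bound_of_continuousOn
    hc2.continuousOn
  set A := max 1 (max A1 A2) with hA
  obtain ⟨r, hr1, -, hr⟩ := tr_bound A 2 (le_max_left _ _) (by norm_num)
  obtain ⟨Cr, hCr0, hCr⟩ := hT r hr1
  refine ⟨c * W * C2 + Cr * (8 * A ^ 2), by positivity, fun s hs0 hs1 n u => ?_⟩
  have hs : s ∈ Set.Icc (0:ℝ) 1 := ⟨hs0, hs1⟩
  have e1 : ‖π (γ s) (ι (mono n u))‖ ≤ c * W * C2 * (‖u‖ * 2 ^ n) := by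
    have h1 : ‖ι (mono n u)‖ ≤ C2 * 2 ^ n * ‖u‖ := by
      have := hC2 n u
      rw [← hJ]
      exact this
    calc ‖π (γ s) (ι (mono n u))‖ ≤ c * w (γ s) * ‖ι (mono n u)‖ := hgrow _ _
      _ ≤ c * W * (C2 * 2 ^ n * ‖u‖) := by
          have := hW s hs
          have hw0 := (hw.pos (γ s)).le
          gcongr
      _ = _ := by ring
  have e2 : ‖J (TT (γ s) (inc (mono n u)))‖ ≤ Cr * (8 * A ^ 2) * (‖u‖ * 2 ^ n) := by
    have h2 := hr (γ s) ((hA1 s hs).trans ((le_max_left _ _).trans (le_max_right _ _)))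
      ((hA2 s hs).trans ((le_max_right _ _).trans (le_max_right _ _)))
      (inc (mono n u)) (evV (mono n u)) (‖u‖ * 2 ^ n) (isExt_inc 2 _) (by
        intro z hz
        rw [evV_mono, norm_smul, norm_pow, mul_comm]
        gcongr)
    have h3 := hCr _ _ _ h2.1 h2.2
    calc ‖J (TT (γ s) (inc (mono n u)))‖ ≤ Cr * (8 * A ^ 2 * (‖u‖ * 2 ^ n)) := h3
      _ = _ := by ring
  rw [Dl_apply]
  calc ‖π (γ s) (ι (mono n u)) - J (TT (γ s) (inc (mono n u)))‖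
      ≤ ‖π (γ s) (ι (mono n u))‖ + ‖J (TT (γ s) (inc (mono n u)))‖ := norm_sub_le _ _
    _ ≤ c * W * C2 * (‖u‖ * 2 ^ n) + Cr * (8 * A ^ 2) * (‖u‖ * 2 ^ n) := add_le_add e1 e2
    _ = _ := by ring

lemma small {w : GG → ℝ} (hw : IsWeight w) {ι : VV →ₗ[ℂ] B} {π : GG →* (B →L[ℂ] B)}
    (h : Rlz w ι π) {J : AA →ₗ[ℂ] B} (hJ : ∀ f, J (inc f) = ι f)
    (hT : Tame ((normSeminorm ℂ B).comp J)) {X : gg} {γ : ℝ → GG} (hγ : IsExp X γ) :
    ∃ δ > 0, ∀ t : ℝ, 0 ≤ t → t ≤ δ → Good π J (γ t) := by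
  obtain ⟨κ, hκ, hit⟩ := iter_bound X 2 (by norm_num)
  obtain ⟨C, hC0, hC⟩ := bound hw h hJ hT (isExp_cont hγ)
  refine ⟨min 1 (1 / (2 * κ)), by positivity, fun t ht0 ht => ?_⟩
  have ht1 : t ≤ 1 := ht.trans (min_le_left _ _)
  have hκt : κ * t ≤ 1 / 2 := by
    have := ht.trans (min_le_right _ _)
    calc κ * t ≤ κ * (1 / (2 * κ)) := by gcongr
      _ = 1 / 2 := by field_simp
  have hκt0 : 0 ≤ κ * t := by positivity
  have hmono : ∀ (d : ℕ) (u : ℂ × ℂ), Dl ι π J (γ t) (mono d u) = 0 := by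
    intro d u
    set G : ℕ → ℝ → B := fun j s => Dl ι π J (γ s) ((actV X)^[j] (mono d u)) with hG
    have hG1 : ∀ j s, HasDerivAt (G j) (G (j + 1) s) s := by
      intro j s
      have := diff_deriv h hJ hT hγ ((actV X)^[j] (mono d u)) s
      simp only [hG, Dl_apply]
      rw [Function.iterate_succ_apply']
      exact this
    have hG0 : ∀ j, G j 0 = 0 := by
      intro j
      simp only [hG, Dl_apply]
      rw [isExp_zero hγ, map_one, TT_one, hJ]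
      exact sub_self _
    have hGb : ∀ (j : ℕ) (s : ℝ), 0 ≤ s → s ≤ t → ‖G j s‖ ≤
        C * (κ ^ j * ((d + j)! : ℕ) / (d ! : ℕ) * 2 ^ d * ‖u‖) := by
      intro j s hs0 hs
      obtain ⟨c, hc1, hc2⟩ := hit d u j
      simp only [hG]
      rw [hc1, map_sum]
      calc ‖∑ n ∈ Finset.range (d + j + 1), Dl ι π J (γ s) (mono n (c n))‖
          ≤ ∑ n ∈ Finset.range (d + j + 1), C * (‖c n‖ * 2 ^ n) :=
            (norm_sum_le _ _).trans (Finset.sum_le_sum fun n _ =>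
              hC s hs0 (hs.trans ht1) n (c n))
        _ = C * ∑ n ∈ Finset.range (d + j + 1), ‖c n‖ * 2 ^ n := by rw [Finset.mul_sum]
        _ ≤ _ := mul_le_mul_of_nonneg_left hc2 hC0
    have hle : ∀ j : ℕ, ‖G 0 t‖ ≤ C * 2 ^ d * ‖u‖ * (((j + d).choose d : ℕ) * (κ * t) ^ j) := by
      intro j
      refine (tay0 t _ j G hG1 hG0 (hGb j) t ht0 le_rfl).trans (le_of_eq ?_)
      have h1 := Nat.add_choose_mul_factorial_mul_factorial j d
      have h2 : (((j + d)! : ℕ) : ℝ) = ((j + d).choose d : ℕ) * (j ! : ℕ) * (d ! : ℕ) := by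
        exact_mod_cast h1.symm
      have hd : ((d ! : ℕ) : ℝ) ≠ 0 := by exact_mod_cast Nat.factorial_ne_zero d
      have hj : ((j ! : ℕ) : ℝ) ≠ 0 := by exact_mod_cast Nat.factorial_ne_zero j
      rw [add_comm d j, h2, mul_pow]
      field_simp
    have hsum : Summable (fun j : ℕ => (((j + d).choose d : ℕ) : ℝ) * (κ * t) ^ j) := by
      apply summable_choose_mul_geometric_of_norm_lt_one
      rw [Real.norm_of_nonneg hκt0]
      linarith
    have hlim := (hsum.tendsto_atTop_zero).const_mul (C * 2 ^ d * ‖u‖)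
    rw [mul_zero] at hlim
    have h0 : ‖G 0 t‖ ≤ 0 := ge_of_tendsto' hlim hle
    exact norm_le_zero_iff.1 h0
  apply inter_all h hJ hT (γ t)
  intro f
  have hN : ∃ N : ℕ, ∀ n, N ≤ n → ITBx.vc n f = 0 := by
    refine ⟨max f.1.natDegree f.2.natDegree + 1, fun n hn => ?_⟩
    rw [ITBx.vc_apply, Polynomial.coeff_eq_zero_of_natDegree_lt (by omega),
      Polynomial.coeff_eq_zero_of_natDegree_lt (by omega)]
    rfl
  obtain ⟨N, hN⟩ := hN
  have hrep := ITBx.rep f N hN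
  have h1 : Dl ι π J (γ t) f = 0 := by
    rw [hrep, map_sum]
    exact Finset.sum_eq_zero fun n _ => hmono n _
  rw [Dl_apply] at h1
  exact sub_eq_zero.1 h1

end INT2x

open INT2x in
/-- One-parameter subgroups intertwine. -/
theorem inter_exp {w : GG → ℝ} (hw : IsWeight w) {ι : VV →ₗ[ℂ] B} {π : GG →* (B →L[ℂ] B)}
    (h : Rlz w ι π) {J : AA →ₗ[ℂ] B} (hJ : ∀ f, J (inc f) = ι f)
    (hT : Tame ((normSeminorm ℂ B).comp J)) {X : gg} {γ : ℝ → GG} (hγ : IsExp X γ) (t : ℝ)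
    (F : AA) : π (γ t) (J F) = J (TT (γ t) F) := by
  obtain ⟨δ, hδ, hsm⟩ := small hw h hJ hT hγ
  have hmul : ∀ (s : ℝ) (k : ℕ), Good π J (γ s) → Good π J (γ (k * s)) := by
    intro s k hs
    induction k with
    | zero =>
      rw [Nat.cast_zero, zero_mul, isExp_zero hγ]
      exact good_one
    | succ k ih =>
      have : ((k + 1 : ℕ) : ℝ) * s = k * s + s := by push_cast; ring
      rw [this, isExp_add hγ]
      exact good_mul ih hs
  have hpos : ∀ t : ℝ, 0 ≤ t → Good π J (γ t) := by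
    intro t ht
    have hN : (0:ℝ) < (⌈t / δ⌉₊ + 1 : ℕ) := by positivity
    have h1 : t / (⌈t / δ⌉₊ + 1 : ℕ) ≤ δ := by
      rw [div_le_iff₀ hN]
      have h2 : t / δ ≤ (⌈t / δ⌉₊ + 1 : ℕ) := by
        push_cast
        linarith [Nat.le_ceil (t / δ)]
      rw [div_le_iff₀ hδ] at h2
      linarith
    have h3 := hmul (t / (⌈t / δ⌉₊ + 1 : ℕ)) (⌈t / δ⌉₊ + 1)
      (hsm _ (by positivity) h1)
    rwa [mul_div_cancel₀ _ hN.ne'] at h3
  rcases le_total 0 t with ht | ht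
  · exact hpos t ht F
  · have h1 := hpos (-t) (by linarith)
    exact good_inv h1 (by rw [← isExp_add hγ, add_neg_cancel, isExp_zero hγ])
      (by rw [← isExp_add hγ, neg_add_cancel, isExp_zero hγ]) F

end Pool.SG
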