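import Pool.Agent.Helper71.SG.Model0

open Complex Set Filter Topology Matrix ComplexConjugate
open scoped ENNReal NNReal Nat

noncomputable section

namespace Pool.SG

lemma kb_aux (g : SLR) (h : (g : Mat2) * (g : Mat2)ᵀ = 1) :
    (g : Mat2) 1 1 = (g : Mat2) 0 0 ∧ (g : Mat2) 0 1 = -(g : Mat2) 1 0 ∧
      (g : Mat2) 0 0 ^ 2 + (g : Mat2) 1 0 ^ 2 = 1 := by
  have hd : (g : Mat2) 0 0 * (g : Mat2) 1 1 - (g : Mat2) 0 1 * (g : Mat2) 1 0 = 1 := by
    have := g.2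
    rwa [Matrix.det_fin_two] at this
  have h00 := congrFun (congrFun h 0) 0
  have h11 := congrFun (congrFun h 1) 1
  simp only [Matrix.mul_apply, Fin.sum_univ_two, Matrix.transpose_apply, Matrix.one_apply_eq]
    at h00 h11
  have hs : ((g : Mat2) 0 0 - (g : Mat2) 1 1) ^ 2 + ((g : Mat2) 0 1 + (g : Mat2) 1 0) ^ 2 = 0 := by
    nlinarith
  have h1 : (g : Mat2) 0 0 - (g : Mat2) 1 1 = 0 := by
    have : ((g : Mat2) 0 0 - (g : Mat2) 1 1) ^ 2 = 0 := by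
      nlinarith [sq_nonneg ((g : Mat2) 0 0 - (g : Mat2) 1 1),
        sq_nonneg ((g : Mat2) 0 1 + (g : Mat2) 1 0)]
    exact pow_eq_zero_iff (two_ne_zero) |>.1 this
  have h2 : (g : Mat2) 0 1 + (g : Mat2) 1 0 = 0 := by
    have : ((g : Mat2) 0 1 + (g : Mat2) 1 0) ^ 2 = 0 := by
      nlinarith [sq_nonneg ((g : Mat2) 0 0 - (g : Mat2) 1 1),
        sq_nonneg ((g : Mat2) 0 1 + (g : Mat2) 1 0)]
    exact pow_eq_zero_iff (two_ne_zero) |>.1 this
  have h3 : (g : Mat2) 0 1 = -(g : Mat2) 1 0 := by linarith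
  refine ⟨by linarith, h3, ?_⟩
  rw [h3] at h00
  nlinarith

lemma kb_be (g : SLR) (h : (g : Mat2) * (g : Mat2)ᵀ = 1) : be g = 0 := by
  obtain ⟨h1, h2, -⟩ := kb_aux g h
  apply Complex.ext
  · simp [be, h1]
  · simp [be, h2]

lemma kb_al (g : SLR) (h : (g : Mat2) * (g : Mat2)ᵀ = 1) :
    al g = ((g : Mat2) 0 0 : ℂ) + ((g : Mat2) 1 0 : ℂ) * I := by
  obtain ⟨h1, h2, -⟩ := kb_aux g h
  apply Complex.ext
  · simp [al, h1]
  · simp [al, h2]

lemma kb_norm (g : SLR) (h : (g : Mat2) * (g : Mat2)ᵀ = 1) : ‖al g‖ = 1 := by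
  have h1 := normSq_al_sub g
  rw [kb_be g h] at h1
  simp only [norm_zero] at h1
  have h2 := norm_nonneg (al g)
  nlinarith

/-- Elements of `K` in the coordinates `al`, `be`. -/
lemma be_KK (k : KK) : be (k : GG).1 = 0 ∧ be (k : GG).2 = 0 :=
  ⟨kb_be _ k.2.1, kb_be _ k.2.2⟩

lemma norm_al_KK (k : KK) : ‖al (k : GG).1‖ = 1 ∧ ‖al (k : GG).2‖ = 1 :=
  ⟨kb_norm _ k.2.1, kb_norm _ k.2.2⟩

lemma chi_eq (m n : ℤ) (k : KK) : chi m n k = al (k : GG).1 ^ m * al (k : GG).2 ^ n := by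
  rw [kb_al _ k.2.1, kb_al _ k.2.2, chi]

lemma kb_rot (s : ℝ) : ((rot s : SLR) : Mat2) * ((rot s : SLR) : Mat2)ᵀ = 1 := by
  have h := Real.sin_sq_add_cos_sq s
  ext i j
  fin_cases i <;> fin_cases j <;>
    simp [rot, Matrix.mul_apply, Fin.sum_univ_two, Matrix.transpose_apply] <;> nlinarith

lemma rot_mem (s t : ℝ) : ((rot s, rot t) : GG) ∈ KK := ⟨kb_rot s, kb_rot t⟩

lemma kb_eval (q f : Polynomial ℂ) (z : ℂ) :
    Polynomial.eval z (Polynomial.aeval q f) = Polynomial.eval (Polynomial.eval z q) f := by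
  rw [Polynomial.aeval_def, Polynomial.algebraMap_eq, ← Polynomial.comp, Polynomial.eval_comp]

/-- On `K` the action on `AA` is the polynomial action. -/
theorem TT_inc (k : KK) (f : VV) : TT (k : GG) (inc f) = inc (kactV (k : GG) f) := by
  obtain ⟨hb1, hb2⟩ := be_KK k
  obtain ⟨hn1, hn2⟩ := norm_al_KK k
  have hinv : (al (k : GG).1)⁻¹ = conj (al (k : GG).1) := by
    rw [Complex.inv_def, Complex.normSq_eq_norm_sq, hn1]
    simp
  apply AA_ext
  intro z hz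
  rw [TT_apply _ _ hz, inc_apply _ (norm_mob_le _ hz), inc_apply _ hz]
  have hj : jf (k : GG).1 z = al (k : GG).1 := by simp [jf, hb1]
  have hm : mob (k : GG).1 z = conj (al (k : GG).1) ^ 2 * z := by
    rw [mob, hj, hb1, sub_zero, div_eq_mul_inv, hinv]
    ring
  rw [hj, hm, hinv]
  ext
  · simp [m2, evV, kactV_apply, scV_apply, hb2, kb_eval]
    ring
  · simp [m2, evV, kactV_apply, scV_apply, hb2, kb_eval]
    ring

end Pool.SG
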