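import Pool.Agent.Helper71.SG.GRO
import Pool.Agent.Helper71.SG.HAT
import Pool.Agent.Helper71.SG.INT2
import Pool.Agent.Helper71.SG.EX3
import Pool.Agent.Helper71.SG.KB

open Complex Set Filter Topology Matrix ComplexConjugate
open scoped ENNReal NNReal Nat

noncomputable section

namespace Pool.SG

/-- The elements that intertwine. -/
def interGroup {B : Type} [NormedAddCommGroup B] [NormedSpace ℂ B] (π : GG →* (B →L[ℂ] B))
    (J : AA →ₗ[ℂ] B) : Subgroup GG where
  carrier := {g | ∀ F, π g (J F) = J (TT g F)}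
  one_mem' := by
    intro F
    rw [map_one, TT_one]
    rfl
  mul_mem' := by
    intro g h hg hh F
    rw [map_mul, TT_mul, ← hg, ← hh]
    rfl
  inv_mem' := by
    intro g hg F
    have h1 : J F = π g (J (TT g⁻¹ F)) := by
      rw [hg, ← TT_mul, mul_inv_cancel, TT_one]
    have h2 : π g⁻¹ (π g (J (TT g⁻¹ F))) = J (TT g⁻¹ F) := by
      have : π g⁻¹ * π g = 1 := by rw [← map_mul, inv_mul_cancel, map_one]
      calc π g⁻¹ (π g (J (TT g⁻¹ F))) = (π g⁻¹ * π g) (J (TT g⁻¹ F)) := rfl
        _ = _ := by rw [this]; rfl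
    rw [← h1] at h2
    exact h2

/-- Every norm in `Norm (V, w)` is the restriction of a critical seminorm. -/
theorem isNorm_crit {w : GG → ℝ} (hw : IsWeight w) {p : Seminorm ℂ VV} (hp : MM.IsNorm w p) :
    ∃ P, Crit w P ∧ ∀ f, P (inc f) = p f := by
  obtain ⟨hpos, B, i1, i2, i3, ι, π, hnorm, hdense, hcont, hk, hder, -, c, hc, hgr⟩ := hp
  have hR : Rlz w ι π := by
    refine ⟨hdense, hcont, hk, hder, c, hc, fun g b => ?_⟩
    have hcl : IsClosed {b : B | ‖π g b‖ ≤ c * w g * ‖b‖} :=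
      isClosed_le ((π g).continuous.norm) (continuous_const.mul continuous_norm)
    refine hdense.induction_on (p := fun b => ‖π g b‖ ≤ c * w g * ‖b‖) b hcl ?_
    intro v
    rw [hnorm]
    exact hgr g v
  obtain ⟨J, hJ, hT⟩ := exists_hat (rlz_growth hw hR)
  have htop : interGroup π J = ⊤ := by
    refine closure_unip _ ?_ ?_ ?_ ?_
    · exact fun x F => inter_exp hw hR hJ hT isExp_upp.1 x F
    · exact fun x F => inter_exp hw hR hJ hT isExp_low.1 x F
    · exact fun x F => inter_exp hw hR hJ hT isExp_upp.2 x F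
    · exact fun x F => inter_exp hw hR hJ hT isExp_low.2 x F
  have hint : ∀ g F, π g (J F) = J (TT g F) := by
    intro g F
    have : g ∈ interGroup π J := by rw [htop]; trivial
    exact this F
  obtain ⟨c', hc', hgr'⟩ := hR.grow
  refine ⟨(normSeminorm ℂ B).comp J, ⟨hT, ⟨c', hc', fun g F => ?_⟩, fun f hf => ?_⟩, fun f => ?_⟩
  · show ‖J (TT g F)‖ ≤ c' * w g * ‖J F‖
    rw [← hint]
    exact hgr' g _
  · have : ‖J (inc f)‖ = 0 := hf
    rw [hJ, hnorm] at this
    exact hpos f this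
  · show ‖J (inc f)‖ = p f
    rw [hJ, hnorm]

end Pool.SG
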