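import Pool.Agent.Helper71.SG.QN

open Complex Set Filter Topology Matrix ComplexConjugate
open scoped ENNReal NNReal Nat

noncomputable section

namespace Pool.SG

variable {B : Type} [NormedAddCommGroup B] [NormedSpace ℂ B] [CompleteSpace B]

lemma kf_decomp (v : VV) : ∃ N, v = ∑ n ∈ Finset.range N, mono n (v.1.coeff n, v.2.coeff n) := by
  refine ⟨max (v.1.natDegree + 1) (v.2.natDegree + 1), ?_⟩
  apply Prod.ext
  · rw [Prod.fst_sum]
    simp only [mono_apply]
    exact Polynomial.as_sum_range' v.1 _ (by omega)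
  · rw [Prod.snd_sum]
    simp only [mono_apply]
    exact Polynomial.as_sum_range' v.2 _ (by omega)

section
variable {w : GG → ℝ} {ι : VV →ₗ[ℂ] B} {π : GG →* (B →L[ℂ] B)}

omit [CompleteSpace B] in
/-- the operator `Qi` as a continuous linear map -/
lemma kf_clm (hw : IsWeight w) (h : Rlz w ι π) (l : ℤ) :
    ∃ Q : B →L[ℂ] B, ∀ b, Q b = Qi π l b := by
  obtain ⟨W, hW1, hW⟩ := weight_bdd_K hw
  obtain ⟨c, hc0, hc⟩ := h.grow
  let L : B →ₗ[ℂ] B :=
    { toFun := Qi π l
      map_add' := qi_add h _
      map_smul' := fun c b => qi_smul _ c b }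
  exact ⟨L.mkContinuous (c * W) (fun b => qi_norm hc0 hc hW _ b), fun b => rfl⟩

/-- the space of `ι (mono m u)` -/
def kfE (ι : VV →ₗ[ℂ] B) (m : ℕ) : Submodule ℂ B := LinearMap.range (ι ∘ₗ mono m)

/-- the range of the projection -/
lemma kf_range (hw : IsWeight w) (h : Rlz w ι π) (m : ℕ) (b : B) :
    ∃ u, Qi π (2 * m + 1) b = ι (mono m u) := by
  obtain ⟨Q, hQ⟩ := kf_clm hw h (2 * m + 1)
  have : FiniteDimensional ℂ (kfE ι m) := by
    unfold kfE
    infer_instance
  have hcl : IsClosed (kfE ι m : Set B) := Submodule.closed_of_finiteDimensional _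
  have hmem : ∀ b, Q b ∈ (kfE ι m : Set B) := by
    intro b
    have hc : IsClosed {b | Q b ∈ (kfE ι m : Set B)} := hcl.preimage Q.continuous
    refine h.dense.induction_on b hc ?_
    intro v
    obtain ⟨N, hN⟩ := kf_decomp v
    rw [hN, map_sum, map_sum]
    refine Submodule.sum_mem _ fun n _ => ?_
    rw [hQ, qi_mono h]
    split_ifs with hn
    · have : n = m := by omega
      subst this
      exact ⟨_, rfl⟩
    · exact Submodule.zero_mem _
  obtain ⟨u, hu⟩ := hmem b
  exact ⟨u, by rw [← hQ, ← hu]; rfl⟩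

/-- the other integral operators vanish -/
lemma kf_zero (hw : IsWeight w) (h : Rlz w ι π) (l : ℤ) (hl : ∀ m : ℕ, 2 * (m : ℤ) + 1 ≠ l)
    (b : B) : Qi π l b = 0 := by
  obtain ⟨Q, hQ⟩ := kf_clm hw h l
  rw [← hQ]
  have hc : IsClosed {b | Q b = 0} := isClosed_eq Q.continuous continuous_const
  refine h.dense.induction_on b hc ?_
  intro v
  obtain ⟨N, hN⟩ := kf_decomp v
  rw [hN, map_sum, map_sum]
  refine Finset.sum_eq_zero fun n _ => ?_
  rw [hQ, qi_mono h, if_neg (hl n)]

/-- the integral operators preserve closed invariant subspaces -/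
lemma kf_invariant (h : Rlz w ι π) (E : Submodule ℂ B) [FiniteDimensional ℂ E] (l : ℤ) (b : B)
    (hb : ∀ k : KK, π (k : GG) b ∈ E) : Qi π l b ∈ E := by
  have hco : CompleteSpace E := FiniteDimensional.complete ℂ E
  let g : ℝ → E := fun θ => exp (l * θ * I) • ⟨π (rot θ, 1) b, hb ⟨_, qn_mem θ⟩⟩
  have hg : Continuous g := by
    refine Continuous.subtype_mk ?_ _
    exact qn_int_cont h l b
  have h1 := ContinuousLinearMap.intervalIntegral_comp_comm (𝕜 := ℂ) E.subtypeL
    (hg.intervalIntegrable (μ := MeasureTheory.volume) 0 (2 * Real.pi))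
  have h2 : Qi π l b = (((2 * Real.pi : ℝ) : ℂ))⁻¹ • E.subtypeL (∫ θ in (0 : ℝ)..(2 * Real.pi), g θ) := by
    rw [← h1]
    rfl
  rw [h2]
  exact Submodule.smul_mem _ _ (Subtype.mem _)

/-- Fourier uniqueness -/
lemma kf_unique (h : Rlz w ι π) (b : B) (hb : ∀ l : ℤ, Qi π l b = 0) : b = 0 := by
  refine SeparatingDual.eq_zero_of_forall_dual_eq_zero (R := ℂ) fun f => ?_
  have hpos : Fact (0 < 2 * Real.pi) := ⟨by positivity⟩
  let F : ℝ → ℂ := fun θ => f (π (rot θ, 1) b)
  have hFc : Continuous F := f.continuous.comp (qn_orbit_cont h b)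
  have hFp : F 0 = F (0 + 2 * Real.pi) := by
    show f (π (rot 0, 1) b) = f (π (rot (0 + 2 * Real.pi), 1) b)
    rw [qn_rot_per]
  have hcont : Continuous (AddCircle.liftIco (2 * Real.pi) 0 F) :=
    AddCircle.liftIco_continuous hFp hFc.continuousOn
  let G : C(AddCircle (2 * Real.pi), ℂ) := ⟨_, hcont⟩
  have hcoef : fourierCoeff G = 0 := by
    funext n
    show fourierCoeff (AddCircle.liftIco (2 * Real.pi) 0 F) n = 0
    rw [fourierCoeff_liftIco_eq, fourierCoeffOn_eq_integral]
    have h3 := ContinuousLinearMap.intervalIntegral_comp_comm (𝕜 := ℂ) f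
      ((qn_int_cont h (-n) b).intervalIntegrable (μ := MeasureTheory.volume) 0 (2 * Real.pi))
    have h4 : ∫ θ in (0 : ℝ)..(2 * Real.pi), exp ((-n : ℤ) * θ * I) • π (rot θ, 1) b = 0 := by
      have := hb (-n)
      rw [Qi, smul_eq_zero] at this
      rcases this with h5 | h5
      · exfalso
        rw [inv_eq_zero] at h5
        have h6 : (0 : ℝ) < 2 * Real.pi := by positivity
        exact h6.ne' (by exact_mod_cast h5)
      · exact h5
    rw [h4, map_zero] at h3
    have h7 : (fun x : ℝ => (fourier (-n)) (x : AddCircle (0 + 2 * Real.pi - 0)) • F x) =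
        fun x : ℝ => f (exp ((-n : ℤ) * x * I) • π (rot x, 1) b) := by
      funext x
      rw [map_smul, fourier_coe_apply]
      congr 2
      have h6 : ((Real.pi : ℝ) : ℂ) ≠ 0 := by exact_mod_cast Real.pi_ne_zero
      push_cast
      field_simp
      ring
    rw [h7]
    have h8 : (0 : ℝ) + 2 * Real.pi = 2 * Real.pi := zero_add _
    simp only [h8]
    rw [h3, smul_zero]
  have hsum := has_pointwise_sum_fourier_series_of_summable (f := G)
    (by rw [hcoef]; exact summable_zero) 0
  have h9 : G 0 = 0 := by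
    refine hsum.unique ?_
    simp only [hcoef, Pi.zero_apply, zero_smul]
    exact hasSum_zero
  have h10 : G 0 = F 0 := by
    show AddCircle.liftIco (2 * Real.pi) 0 F ((0 : ℝ) : AddCircle (2 * Real.pi)) = F 0
    exact AddCircle.liftIco_coe_apply ⟨le_refl _, by rw [zero_add]; positivity⟩
  have h11 : F 0 = f b := by
    show f (π (rot 0, 1) b) = f b
    rw [qn_rot_zero]
    have : ((1, 1) : GG) = 1 := rfl
    rw [this, map_one]
    rfl
  rw [← h11, ← h10, h9]

end

/-- A vector is determined by its isotypic components, and a `K`-finite vector has finitely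
many non-zero ones. -/
theorem kfinite_iff {w : GG → ℝ} (hw : IsWeight w) {ι : VV →ₗ[ℂ] B} {π : GG →* (B →L[ℂ] B)}
    (h : Rlz w ι π) (b : B) : KFinite π b ↔ b ∈ Set.range ι := by
  constructor
  · intro hb
    set E : Submodule ℂ B := Submodule.span ℂ (Set.range fun k : KK => π (k : GG) b) with hE
    have hfin : FiniteDimensional ℂ E := hb
    have hmem : ∀ l : ℤ, Qi π l b ∈ E := fun l =>
      kf_invariant h E l b fun k => Submodule.subset_span ⟨k, rfl⟩
    -- composition of the projections
    have hcomp : ∀ l l' : ℤ, Qi π l' (Qi π l b) = if l = l' then Qi π l b else 0 := by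
      intro l l'
      by_cases hl : ∃ m : ℕ, 2 * (m : ℤ) + 1 = l
      · obtain ⟨m, rfl⟩ := hl
        obtain ⟨u, hu⟩ := kf_range hw h m b
        rw [hu, qi_mono h]
      · push Not at hl
        have h0 := kf_zero hw h l hl b
        rw [h0]
        have : Qi π l' (0 : B) = 0 := by
          have := qi_smul (π := π) l' 0 (0 : B)
          rw [zero_smul, zero_smul] at this
          exact this
        rw [this]
        split_ifs <;> rfl
    have hind : LinearIndependent ℂ
        (fun l : {l : ℤ // Qi π l b ≠ 0} => (⟨Qi π l b, hmem l⟩ : E)) := by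
      rw [linearIndependent_iff']
      intro s g hg i hi
      obtain ⟨Q, hQ⟩ := kf_clm hw h (i : ℤ)
      have h1 := congrArg (fun x : E => Q (x : B)) hg
      simp only [Submodule.coe_sum, Submodule.coe_smul, Submodule.coe_zero] at h1
      rw [map_sum, map_zero] at h1
      simp only [map_smul] at h1
      simp only [hQ, hcomp] at h1
      rw [Finset.sum_eq_single i] at h1
      · rw [if_pos rfl] at h1
        rcases smul_eq_zero.1 h1 with h3 | h3
        · exact h3
        · exact absurd h3 i.2
      · intro j _ hj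
        rw [if_neg (fun h4 => hj (Subtype.ext h4)), smul_zero]
      · intro h4
        exact absurd hi h4
    have hfin2 : Finite {l : ℤ // Qi π l b ≠ 0} := hind.finite
    have hfs : Set.Finite {l : ℤ | Qi π l b ≠ 0} := hfin2
    have hrange : ∀ l : ℤ, Qi π l b ∈ LinearMap.range ι := by
      intro l
      by_cases hl : ∃ m : ℕ, 2 * (m : ℤ) + 1 = l
      · obtain ⟨m, rfl⟩ := hl
        obtain ⟨u, hu⟩ := kf_range hw h m b
        exact ⟨_, hu.symm⟩
      · push Not at hl
        rw [kf_zero hw h l hl b]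
        exact Submodule.zero_mem _
    have hz : b - ∑ l ∈ hfs.toFinset, Qi π l b = 0 := by
      apply kf_unique h
      intro l
      obtain ⟨Q, hQ⟩ := kf_clm hw h l
      rw [← hQ, map_sub, map_sum]
      simp only [hQ, hcomp]
      by_cases hl : Qi π l b = 0
      · rw [hl]
        simp [hl]
      · rw [Finset.sum_ite_eq' hfs.toFinset l, if_pos (by simpa using hl), sub_self]
    have hb2 : b = ∑ l ∈ hfs.toFinset, Qi π l b := sub_eq_zero.1 hz
    have : b ∈ LinearMap.range ι := by
      rw [hb2]
      exact Submodule.sum_mem _ fun l _ => hrange l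
    exact this
  · rintro ⟨v, rfl⟩
    obtain ⟨W, hW, hk⟩ := kactV_locFinite v
    have : FiniteDimensional ℂ (W.map ι) := inferInstance
    refine Submodule.finiteDimensional_of_le (S₂ := W.map ι) ?_
    rw [Submodule.span_le]
    rintro _ ⟨k, rfl⟩
    show π (k : GG) (ι v) ∈ W.map ι
    rw [h.keq]
    exact ⟨_, hk k, rfl⟩

end Pool.SG
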