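import Pool.Agent.Helper71.SG.TRC

open Complex Set Filter Topology Matrix ComplexConjugate
open scoped ENNReal NNReal Nat

noncomputable section

namespace Pool.SG

variable {B : Type} [NormedAddCommGroup B] [NormedSpace ℂ B]

/-- Polynomials are dense. -/
theorem rep_dense {P : Seminorm ℂ AA} (hP : Tame P) {j : AA →ₗ[ℂ] B} (hj : ∀ F, ‖j F‖ = P F)
    (hd : DenseRange j) : DenseRange fun f : VV => j (inc f) := by
  have hsub : Set.range j ⊆ closure (Set.range fun f : VV => j (inc f)) := by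
    rintro _ ⟨F, rfl⟩
    refine mem_closure_of_tendsto (b := atTop) (f := fun N : ℕ => j (inc (trunc N F))) ?_
      (Eventually.of_forall fun N => ⟨trunc N F, rfl⟩)
    rw [tendsto_iff_norm_sub_tendsto_zero]
    refine (tame_tendsto hP F).congr fun N => ?_
    rw [← map_sub, hj, map_sub_rev]
  exact dense_closure.1 (Dense.mono hsub hd)

/-- Joint continuity of the action. -/
theorem rep_cont {w : GG → ℝ} (hw : IsWeight w) {P : Seminorm ℂ AA} (hP : Tame P)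
    {j : AA →ₗ[ℂ] B} {π : GG →* (B →L[ℂ] B)} (hj : ∀ F, ‖j F‖ = P F) (hd : DenseRange j)
    (hπ : ∀ g F, π g (j F) = j (TT g F)) (hc : ∃ c, 0 < c ∧ ∀ g b, ‖π g b‖ ≤ c * w g * ‖b‖) :
    Continuous fun x : GG × B => π x.1 x.2 := by
  obtain ⟨c, hc0, hcb⟩ := hc
  rw [continuous_iff_continuousAt]
  rintro ⟨g₀, b₀⟩
  obtain ⟨C, hC⟩ := hw.locBdd g₀
  have hC0 : w g₀ ≤ C := hC.self_of_nhds
  have hCpos : 0 < C := lt_of_lt_of_le (hw.pos g₀) hC0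
  rw [ContinuousAt, Metric.tendsto_nhds]
  intro ε hε
  set δ : ℝ := ε / (4 * (c * C)) with hδ
  have hM : 0 < c * C := mul_pos hc0 hCpos
  have hδ0 : 0 < δ := by positivity
  have hMδ : c * C * δ = ε / 4 := by
    rw [hδ]
    field_simp
  obtain ⟨F, hF⟩ := hd.exists_dist_lt b₀ hδ0
  have e1 : ∀ᶠ x : GG × B in 𝓝 (g₀, b₀), w x.1 ≤ C :=
    (continuous_fst.tendsto (g₀, b₀)).eventually hC
  have e2 : ∀ᶠ x : GG × B in 𝓝 (g₀, b₀), P (TT x.1 F - TT g₀ F) < ε / 4 :=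
    (continuous_fst.tendsto (g₀, b₀)).eventually
      ((tame_cont hP F g₀).eventually (gt_mem_nhds (by positivity)))
  have e3 : ∀ᶠ x : GG × B in 𝓝 (g₀, b₀), dist x.2 b₀ < δ :=
    (continuous_snd.tendsto (g₀, b₀)).eventually (Metric.ball_mem_nhds b₀ hδ0)
  filter_upwards [e1, e2, e3] with x h1 h2 h3
  have key : ∀ (g : GG) (b : B), w g ≤ C → ‖b‖ < δ → ‖π g b‖ ≤ ε / 4 := by
    intro g b hg hb
    calc ‖π g b‖ ≤ c * w g * ‖b‖ := hcb g b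
      _ ≤ c * C * δ := by
        have := hw.pos g
        gcongr
      _ = ε / 4 := hMδ
  rw [dist_eq_norm]
  have hdec : π x.1 x.2 - π g₀ b₀ = π x.1 (x.2 - b₀) + π x.1 (b₀ - j F) +
      (j (TT x.1 F - TT g₀ F)) - π g₀ (b₀ - j F) := by
    rw [map_sub, map_sub, map_sub, map_sub, hπ, hπ]
    abel
  have n1 : ‖π x.1 (x.2 - b₀)‖ ≤ ε / 4 := key _ _ h1 (by rwa [← dist_eq_norm])
  have n2 : ‖π x.1 (b₀ - j F)‖ ≤ ε / 4 := key _ _ h1 (by rwa [← dist_eq_norm])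
  have n3 : ‖π g₀ (b₀ - j F)‖ ≤ ε / 4 := key _ _ hC0 (by rwa [← dist_eq_norm])
  have n4 : ‖j (TT x.1 F - TT g₀ F)‖ < ε / 4 := by rwa [hj]
  rw [hdec]
  calc ‖π x.1 (x.2 - b₀) + π x.1 (b₀ - j F) + (j (TT x.1 F - TT g₀ F)) - π g₀ (b₀ - j F)‖
      ≤ ‖π x.1 (x.2 - b₀) + π x.1 (b₀ - j F) + (j (TT x.1 F - TT g₀ F))‖ +
        ‖π g₀ (b₀ - j F)‖ := norm_sub_le _ _
    _ ≤ (‖π x.1 (x.2 - b₀)‖ + ‖π x.1 (b₀ - j F)‖ + ‖j (TT x.1 F - TT g₀ F)‖) +
        ‖π g₀ (b₀ - j F)‖ := by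
        gcongr
        exact norm_add₃_le
    _ < ε := by linarith

end Pool.SG
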