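import Pool.Agent.Helper71.SG.TRD

open Complex Set Filter Topology Matrix ComplexConjugate
open scoped ENNReal NNReal Nat

noncomputable section

namespace Pool.SG

variable {B : Type} [NormedAddCommGroup B] [NormedSpace ℂ B]

/-- The derivative of the action of one-parameter subgroups. -/
theorem rep_deriv {P : Seminorm ℂ AA} (hP : Tame P) {j : AA →ₗ[ℂ] B}
    {π : GG →* (B →L[ℂ] B)} (hj : ∀ F, ‖j F‖ = P F) (hπ : ∀ g F, π g (j F) = j (TT g F))
    (X : gg) (γ : ℝ → GG) (v : VV) (h : IsExp X γ) :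
    HasDerivAt (fun t => π (γ t) (j (inc v))) (j (inc (actV X v))) 0 := by
  rw [hasDerivAt_iff_tendsto_slope, tendsto_iff_norm_sub_tendsto_zero]
  refine (tame_deriv hP v X γ h).congr' ?_
  filter_upwards [self_mem_nhdsWithin] with t _
  rw [← hj]
  congr 1
  rw [map_sub, map_smul, map_sub, slope_def_module, sub_zero]
  have h0 : γ 0 = 1 := isExp_zero h
  have h1 : π (γ 0) (j (inc v)) = j (inc v) := by
    rw [h0, map_one]
    rfl
  rw [h1, hπ]
  congr 1
  rw [← Complex.ofReal_inv]
  exact Complex.coe_smul _ _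

end Pool.SG
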