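import Pool.Agent.Helper71.SG.REP
import Pool.Agent.Helper71.SG.REPC
import Pool.Agent.Helper71.SG.REPD
import Pool.Agent.Helper71.SG.KF
import Pool.Agent.Helper71.SG.KB

open Complex Set Filter Topology Matrix ComplexConjugate
open scoped ENNReal NNReal Nat

noncomputable section

namespace Pool.SG

/-- A critical seminorm restricts to a norm in `Norm (V, w)`. -/
theorem crit_isNorm {w : GG → ℝ} (hw : IsWeight w) {P : Seminorm ℂ AA} (hP : Crit w P) :
    MM.IsNorm w (P.comp inc) := by
  obtain ⟨B, i1, i2, i3, j, π, hj, hd, hπ, hc⟩ := exists_rep hw hP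
  have hdense : DenseRange fun f : VV => j (inc f) := rep_dense hP.tame hj hd
  have hcont : Continuous fun x : GG × B => π x.1 x.2 := rep_cont hw hP.tame hj hd hπ hc
  have hkeq : ∀ (k : KK) (v : VV), π (k : GG) (j (inc v)) = j (inc (kactV (k : GG) v)) := by
    intro k v
    rw [hπ, TT_inc]
  have hder : ∀ (X : gg) (γ : ℝ → GG) (v : VV), IsExp X γ →
      HasDerivAt (fun t => π (γ t) (j (inc v))) (j (inc (actV X v))) 0 := by
    intro X γ v h
    exact rep_deriv hP.tame hj hπ X γ v h
  have hR : Rlz w (j ∘ₗ inc) π := ⟨hdense, hcont, hkeq, hder, hc⟩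
  refine ⟨fun v hv => hP.pos v hv, B, i1, i2, i3, j ∘ₗ inc, π, fun v => hj _, hdense, hcont,
    hkeq, fun X γ v h => hder X γ v h, fun b => kfinite_iff hw hR b, ?_⟩
  obtain ⟨c, hc0, hc1⟩ := hc
  refine ⟨c, hc0, fun g v => ?_⟩
  have := hc1 g (j (inc v))
  rw [hj (inc v)] at this
  exact this

end Pool.SG
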