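import Pool.Agent.Helper71.SG.Model0

open Complex Set Filter Topology Matrix ComplexConjugate
open scoped ENNReal NNReal Nat

noncomputable section

namespace Pool.SG

/-- `cf` in terms of an extension. -/
private lemma cf_eq_ext {R : ℝ} {F : AA} {E : ℂ → ℂ × ℂ} (hE : IsExt R E F) (n : ℕ) :
    cf n F = ((n ! : ℕ) : ℂ)⁻¹ • iteratedDeriv n E 0 := by
  rw [cf_apply]
  congr 1
  apply Filter.EventuallyEq.iteratedDeriv_eq
  filter_upwards [Metric.ball_mem_nhds (0 : ℂ) one_pos] with z hz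
  have : ‖z‖ < 1 := by simpa using hz
  exact hE.2 z this.le

theorem cf_ext_hasSum {R : ℝ} {F : AA} {E : ℂ → ℂ × ℂ} (hE : IsExt R E F) (hR : 0 < R)
    {z : ℂ} (hz : ‖z‖ < R) : HasSum (fun n => z ^ n • cf n F) (E z) := by
  have h := Complex.hasSum_taylorSeries_on_ball hE.1 (z := z) (by simpa using hz)
  have h2 : (fun n : ℕ => z ^ n • cf n F) =
      fun n : ℕ => ((n ! : ℕ) : ℂ)⁻¹ • (z - 0) ^ n • iteratedDeriv n E 0 := by
    funext n
    rw [cf_eq_ext hE, sub_zero, smul_comm]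
  rw [h2]
  exact h

theorem cf_hasSum (F : AA) {z : ℂ} (hz : ‖z‖ ≤ 1) :
    HasSum (fun n => z ^ n • cf n F) ((F : ℂ → ℂ × ℂ) z) := by
  obtain ⟨-, R, hR, E, hE⟩ := F.2
  rw [hE.2 z hz]
  exact cf_ext_hasSum hE (by linarith) (by linarith)

theorem cf_bound {R K : ℝ} (hR : 0 < R) {F : AA} {E : ℂ → ℂ × ℂ} (hE : IsExt R E F)
    (hK : ∀ z : ℂ, ‖z‖ < R → ‖E z‖ ≤ K) (n : ℕ) : ‖cf n F‖ * R ^ n ≤ K := by
  have key : ∀ r : ℝ, 0 < r → r < R → ‖cf n F‖ * r ^ n ≤ K := by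
    intro r hr hrR
    have h1 : DiffContOnCl ℂ E (Metric.ball 0 r) :=
      hE.1.diffContOnCl_ball (Metric.closedBall_subset_ball hrR)
    have h2 := Complex.norm_iteratedDeriv_le_of_forall_mem_sphere_norm_le n hr h1 (C := K)
      (fun z hz => hK z (by
        rw [mem_sphere_zero_iff_norm] at hz
        linarith))
    rw [cf_eq_ext hE, norm_smul, norm_inv, Complex.norm_natCast]
    have hn : (0 : ℝ) < (n ! : ℕ) := by exact_mod_cast Nat.factorial_pos n
    have hrn : 0 < r ^ n := by positivity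
    calc (((n ! : ℕ) : ℝ))⁻¹ * ‖iteratedDeriv n E 0‖ * r ^ n
        ≤ (((n ! : ℕ) : ℝ))⁻¹ * (((n ! : ℕ) : ℝ) * K / r ^ n) * r ^ n := by gcongr
      _ = K := by field_simp
  have hlim : Tendsto (fun r : ℝ => ‖cf n F‖ * r ^ n) (𝓝[<] R) (𝓝 (‖cf n F‖ * R ^ n)) :=
    ((continuous_const.mul (continuous_pow n)).tendsto R).mono_left nhdsWithin_le_nhds
  refine le_of_tendsto hlim ?_
  filter_upwards [Ioo_mem_nhdsLT hR] with r hr
  exact key r hr.1 hr.2

theorem exists_bdd_ext (F : AA) : ∃ R > 1, ∃ (E : ℂ → ℂ × ℂ) (K : ℝ), IsExt R E F ∧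
    0 ≤ K ∧ ∀ z : ℂ, ‖z‖ < R → ‖E z‖ ≤ K := by
  obtain ⟨-, R, hR, E, hE⟩ := F.2
  obtain ⟨r, h1r, hrR⟩ := exists_between hR
  have hsub : Metric.closedBall (0 : ℂ) r ⊆ Metric.ball 0 R := Metric.closedBall_subset_ball hrR
  obtain ⟨K, hK⟩ := (isCompact_closedBall (0 : ℂ) r).exists_bound_of_continuousOn
    (hE.1.continuousOn.mono hsub)
  refine ⟨r, h1r, E, K, ⟨hE.1.mono (Metric.ball_subset_ball hrR.le), hE.2⟩, ?_, ?_⟩
  · exact (norm_nonneg _).trans (hK 0 (by simp; linarith))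
  · intro z hz
    exact hK z (by simpa using hz.le)

theorem cf_decay (F : AA) : ∃ R > 1, ∃ K, 0 ≤ K ∧ ∀ n, ‖cf n F‖ * R ^ n ≤ K := by
  obtain ⟨R, hR, E, K, hE, hK0, hK⟩ := exists_bdd_ext F
  exact ⟨R, hR, K, hK0, fun n => cf_bound (by linarith) hE hK n⟩

theorem cf_zero (F : AA) : cf 0 F = (F : ℂ → ℂ × ℂ) 0 := by
  simp [cf_apply]

theorem AA_eq_of_cf {F H : AA} (h : ∀ n, cf n F = cf n H) : F = H := by
  apply AA_ext
  intro z hz
  have h1 := cf_hasSum F hz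
  have h2 := cf_hasSum H hz
  simp only [h] at h1
  exact h1.unique h2

private lemma series_unique (c d : ℕ → ℂ × ℂ) (f : ℂ → ℂ × ℂ)
    (h1 : ∀ z : ℂ, ‖z‖ < 1 → HasSum (fun n => z ^ n • c n) (f z))
    (h2 : ∀ z : ℂ, ‖z‖ < 1 → HasSum (fun n => z ^ n • d n) (f z)) : c = d := by
  let p : (ℕ → ℂ × ℂ) → FormalMultilinearSeries ℂ ℂ (ℂ × ℂ) := fun c n =>
    ContinuousMultilinearMap.mkPiRing ℂ (Fin n) (c n)
  have hp : ∀ c n, (p c).coeff n = c n := by
    intro c n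
    simp [p, FormalMultilinearSeries.coeff]
  have key : ∀ c : ℕ → ℂ × ℂ, (∀ z : ℂ, ‖z‖ < 1 → HasSum (fun n => z ^ n • c n) (f z)) →
      HasFPowerSeriesAt f (p c) 0 := by
    intro c hc
    rw [hasFPowerSeriesAt_iff]
    filter_upwards [Metric.ball_mem_nhds (0 : ℂ) one_pos] with z hz
    have : ‖z‖ < 1 := by simpa using hz
    simpa only [hp, zero_add] using hc z this
  have := (key c h1).eq_formalMultilinearSeries (key d h2)
  funext n
  rw [← hp c n, this, hp]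

/-- Uniqueness of Taylor coefficients: an expansion on the closed disc determines `cf`. -/
theorem cf_unique (F : AA) (c : ℕ → ℂ × ℂ)
    (h : ∀ z : ℂ, ‖z‖ < 1 → HasSum (fun n => z ^ n • c n) ((F : ℂ → ℂ × ℂ) z)) (n : ℕ) :
    cf n F = c n := by
  have := series_unique (fun n => cf n F) c F (fun z hz => cf_hasSum F hz.le) h
  exact congrFun this n

theorem cf_inc (n : ℕ) (f : VV) : cf n (inc f) = (f.1.coeff n, f.2.coeff n) := by
  apply cf_unique
  intro z hz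
  rw [inc_apply f hz.le]
  have key : ∀ p : Polynomial ℂ, HasSum (fun n => p.coeff n * z ^ n) (p.eval z) := by
    intro p
    rw [Polynomial.eval_eq_sum_range]
    apply hasSum_sum_of_ne_finset_zero
    intro b hb
    rw [Finset.mem_range, not_lt] at hb
    rw [Polynomial.coeff_eq_zero_of_natDegree_lt (by omega), zero_mul]
  have := (key f.1).prodMk (key f.2)
  have h2 : (fun n : ℕ => z ^ n • (f.1.coeff n, f.2.coeff n)) =
      fun n : ℕ => (f.1.coeff n * z ^ n, f.2.coeff n * z ^ n) := by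
    funext m
    ext <;> simp [mul_comm]
  rw [h2]
  exact this

end Pool.SG
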