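import Pool.Agent.Helper71.SG.LX

open Complex Set Filter Topology Matrix ComplexConjugate
open scoped ENNReal NNReal Nat

noncomputable section

namespace Pool.SG

lemma exp_entry (A : Mat2) (i j : Fin 2) (t : ℝ) :
    HasDerivAt (fun t : ℝ => (NormedSpace.exp (t • A) : Mat2) i j)
      ((NormedSpace.exp (t • A) * A : Mat2) i j) t := by
  let _ : NormedRing Mat2 := Matrix.linftyOpNormedRing
  let _ : NormedAlgebra ℝ Mat2 := Matrix.linftyOpNormedAlgebra
  have h := hasDerivAt_exp_smul_const (𝕂 := ℝ) A t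
  exact ((Matrix.entryLinearMap ℝ ℝ i j).toContinuousLinearMap.hasFDerivAt.comp_hasDerivAt t h)

theorem isExp_zero {X : gg} {γ : ℝ → GG} (h : IsExp X γ) : γ 0 = 1 := by
  have h0 := h 0
  simp only [zero_smul, NormedSpace.exp_zero] at h0
  apply Prod.ext
  · exact Subtype.ext h0.1
  · exact Subtype.ext h0.2

theorem isExp_add {X : gg} {γ : ℝ → GG} (h : IsExp X γ) (s t : ℝ) :
    γ (s + t) = γ s * γ t := by
  have key : ∀ A : Mat2, (NormedSpace.exp ((s + t) • A) : Mat2) =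
      NormedSpace.exp (s • A) * NormedSpace.exp (t • A) := by
    intro A
    rw [add_smul]
    exact Matrix.exp_add_of_commute _ _ (((Commute.refl A).smul_left s).smul_right t)
  apply Prod.ext
  · apply Subtype.ext
    rw [Prod.fst_mul, Matrix.SpecialLinearGroup.coe_mul, (h (s + t)).1, (h s).1, (h t).1, key]
  · apply Subtype.ext
    rw [Prod.snd_mul, Matrix.SpecialLinearGroup.coe_mul, (h (s + t)).2, (h s).2, (h t).2, key]

lemma isExp_entry {X : gg} {γ : ℝ → GG} (h : IsExp X γ) (i j : Fin 2) (t : ℝ) :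
    HasDerivAt (fun t => ((γ t).1 : Mat2) i j) ((((γ t).1 : Mat2) * (X.1 : Mat2)) i j) t ∧
    HasDerivAt (fun t => ((γ t).2 : Mat2) i j) ((((γ t).2 : Mat2) * (X.2 : Mat2)) i j) t := by
  have h1 := exp_entry (X.1 : Mat2) i j t
  have h2 := exp_entry (X.2 : Mat2) i j t
  rw [← (h t).1] at h1
  rw [← (h t).2] at h2
  constructor
  · have : (fun t => ((γ t).1 : Mat2) i j) =
        fun t : ℝ => (NormedSpace.exp (t • (X.1 : Mat2)) : Mat2) i j := by
      funext s
      rw [(h s).1]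
    rw [this]
    exact h1
  · have : (fun t => ((γ t).2 : Mat2) i j) =
        fun t : ℝ => (NormedSpace.exp (t • (X.2 : Mat2)) : Mat2) i j := by
      funext s
      rw [(h s).2]
    rw [this]
    exact h2

lemma isExp_entry0 {X : gg} {γ : ℝ → GG} (h : IsExp X γ) (i j : Fin 2) :
    HasDerivAt (fun t => ((γ t).1 : Mat2) i j) ((X.1 : Mat2) i j) 0 ∧
    HasDerivAt (fun t => ((γ t).2 : Mat2) i j) ((X.2 : Mat2) i j) 0 := by
  have h1 := isExp_entry h i j 0
  rw [isExp_zero h] at h1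
  simpa using h1

theorem isExp_cont {X : gg} {γ : ℝ → GG} (h : IsExp X γ) : Continuous γ := by
  refine Continuous.prodMk ?_ ?_
  · refine Continuous.subtype_mk ?_ _
    refine continuous_pi fun i => continuous_pi fun j => ?_
    exact continuous_iff_continuousAt.2 fun t => (isExp_entry h i j t).1.continuousAt
  · refine Continuous.subtype_mk ?_ _
    refine continuous_pi fun i => continuous_pi fun j => ?_
    exact continuous_iff_continuousAt.2 fun t => (isExp_entry h i j t).2.continuousAt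

lemma tr0 (X : slR) : (X : Mat2) 0 0 + (X : Mat2) 1 1 = 0 := by
  have hX : Matrix.trace (X : Mat2) = 0 := LinearMap.mem_ker.1 X.2
  rwa [Matrix.trace_fin_two] at hX

lemma al_deriv {g : ℝ → SLR} {X : slR}
    (h : ∀ i j, HasDerivAt (fun t => (g t : Mat2) i j) ((X : Mat2) i j) 0) :
    HasDerivAt (fun t => al (g t)) (I * (th X : ℂ)) 0 := by
  have e : (fun t => al (g t)) = fun t => ((((g t : Mat2) 0 0 + (g t : Mat2) 1 1) / 2 : ℝ) : ℂ) +
      ((((g t : Mat2) 1 0 - (g t : Mat2) 0 1) / 2 : ℝ) : ℂ) * I := funext fun t => al_eq (g t)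
  rw [e]
  have h1 := (((h 0 0).add (h 1 1)).div_const 2).ofReal_comp
  have h2 := (((h 1 0).sub (h 0 1)).div_const 2).ofReal_comp.mul_const I
  have h3 := h1.add h2
  have e2 : I * (th X : ℂ) = ((((X : Mat2) 0 0 + (X : Mat2) 1 1) / 2 : ℝ) : ℂ) +
      ((((X : Mat2) 1 0 - (X : Mat2) 0 1) / 2 : ℝ) : ℂ) * I := by
    rw [tr0 X, th]
    push_cast
    ring
  rw [e2]
  exact h3

lemma be_deriv {g : ℝ → SLR} {X : slR}
    (h : ∀ i j, HasDerivAt (fun t => (g t : Mat2) i j) ((X : Mat2) i j) 0) :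
    HasDerivAt (fun t => be (g t)) (bb X) 0 := by
  have e : (fun t => be (g t)) = fun t => ((((g t : Mat2) 0 0 - (g t : Mat2) 1 1) / 2 : ℝ) : ℂ) +
      ((((g t : Mat2) 0 1 + (g t : Mat2) 1 0) / 2 : ℝ) : ℂ) * I := funext fun t => be_eq (g t)
  rw [e]
  have h1 := (((h 0 0).sub (h 1 1)).div_const 2).ofReal_comp
  have h2 := (((h 0 1).add (h 1 0)).div_const 2).ofReal_comp.mul_const I
  have h3 := h1.add h2
  have e2 : bb X = ((((X : Mat2) 0 0 - (X : Mat2) 1 1) / 2 : ℝ) : ℂ) +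
      ((((X : Mat2) 0 1 + (X : Mat2) 1 0) / 2 : ℝ) : ℂ) * I := by
    apply Complex.ext <;> simp [bb]
  rw [e2]
  exact h3

theorem isExp_al {X : gg} {γ : ℝ → GG} (h : IsExp X γ) :
    HasDerivAt (fun t => al (γ t).1) (I * (th X.1 : ℂ)) 0 ∧
    HasDerivAt (fun t => al (γ t).2) (I * (th X.2 : ℂ)) 0 :=
  ⟨al_deriv fun i j => (isExp_entry0 h i j).1, al_deriv fun i j => (isExp_entry0 h i j).2⟩

theorem isExp_be {X : gg} {γ : ℝ → GG} (h : IsExp X γ) :
    HasDerivAt (fun t => be (γ t).1) (bb X.1) 0 ∧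
    HasDerivAt (fun t => be (γ t).2) (bb X.2) 0 :=
  ⟨be_deriv fun i j => (isExp_entry0 h i j).1, be_deriv fun i j => (isExp_entry0 h i j).2⟩

end Pool.SG
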