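import Pool.Agent.Helper71.SG.TRB
import Pool.Agent.Helper71.SG.EX

open Complex Set Filter Topology Matrix ComplexConjugate
open scoped ENNReal NNReal Nat

noncomputable section

namespace Pool.SG

/-- The closed disc of radius two. -/
abbrev TrdK : Type := (Metric.closedBall (0 : ℂ) 2 : Set ℂ)

instance : CompactSpace TrdK := isCompact_iff_compactSpace.1 (isCompact_closedBall (0 : ℂ) 2)

/-- The Banach algebra of continuous functions on the disc of radius two. -/
abbrev CK : Type := C(TrdK, ℂ)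

/-- The coordinate function. -/
def trdZ : CK := ⟨fun z => z.1, continuous_subtype_val⟩

@[simp] lemma trdZ_apply (z : TrdK) : trdZ z = z.1 := rfl

lemma trd_conj {u : ℝ → ℂ} {u' : ℂ} (h : HasDerivAt u u' 0) :
    HasDerivAt (fun t => conj (u t)) (conj u') 0 := h.star

/-- The factor `jf` as a curve in the Banach algebra. -/
def trdJ (a b : ℂ) : CK := a • (1 : CK) - conj b • trdZ

lemma trdJ_apply (a b : ℂ) (z : TrdK) : trdJ a b z = a - conj b * z.1 := by
  simp [trdJ]

lemma trdJ_deriv {a b : ℝ → ℂ} {a' b' : ℂ} (ha : HasDerivAt a a' 0) (hb : HasDerivAt b b' 0) :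
    HasDerivAt (fun t => trdJ (a t) (b t)) (trdJ a' b') 0 :=
  (ha.smul_const (1 : CK)).sub ((trd_conj hb).smul_const trdZ)

lemma trdJ_one : trdJ 1 0 = 1 := by
  ext z
  simp [trdJ_apply]

lemma trdInv_deriv {a b : ℝ → ℂ} {a' b' : ℂ} (ha : HasDerivAt a a' 0) (hb : HasDerivAt b b' 0)
    (ha0 : a 0 = 1) (hb0 : b 0 = 0) :
    HasDerivAt (fun t => Ring.inverse (trdJ (a t) (b t))) (-trdJ a' b') 0 := by
  have h1 : HasFDerivAt (𝕜 := ℝ) (Ring.inverse (M₀ := CK))
      (-ContinuousLinearMap.mulLeftRight ℝ CK ((1 : CKˣ)⁻¹ : CKˣ) ((1 : CKˣ)⁻¹ : CKˣ))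
      (trdJ (a 0) (b 0)) := by
    rw [ha0, hb0, trdJ_one]
    exact hasFDerivAt_ringInverse (𝕜 := ℝ) (1 : CKˣ)
  have h2 := h1.comp_hasDerivAt (0 : ℝ) (trdJ_deriv ha hb)
  refine h2.congr_deriv ?_
  simp

/-- The function `mob` as a curve in the Banach algebra. -/
def trdM (a b : ℂ) : CK := (conj a • trdZ - b • (1 : CK)) * Ring.inverse (trdJ a b)

lemma trdM_deriv {a b : ℝ → ℂ} {a' b' : ℂ} (ha : HasDerivAt a a' 0) (hb : HasDerivAt b b' 0)
    (ha0 : a 0 = 1) (hb0 : b 0 = 0) :
    HasDerivAt (fun t => trdM (a t) (b t))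
      ((conj a' • trdZ - b' • (1 : CK)) - trdZ * trdJ a' b') 0 := by
  have h1 : HasDerivAt (fun t => conj (a t) • trdZ - b t • (1 : CK))
      (conj a' • trdZ - b' • (1 : CK)) 0 :=
    ((trd_conj ha).smul_const trdZ).sub (hb.smul_const (1 : CK))
  have h2 := h1.mul (trdInv_deriv ha hb ha0 hb0)
  refine h2.congr_deriv ?_
  rw [ha0, hb0, trdJ_one, Ring.inverse_one]
  simp
  ring

lemma trdM_zero : trdM 1 0 = trdZ := by
  rw [trdM, trdJ_one, Ring.inverse_one]
  simp

/-- Polynomials of a differentiable curve. -/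
lemma trdP_deriv {g : ℝ → CK} {g' : CK} (hg : HasDerivAt g g' 0) (q : Polynomial ℂ) :
    HasDerivAt (fun t => Polynomial.aeval (g t) q)
      (Polynomial.aeval (g 0) (Polynomial.derivative q) * g') 0 := by
  induction q using Polynomial.induction_on' with
  | add p q hp hq =>
    simp only [map_add, add_mul]
    exact hp.add hq
  | monomial n c =>
    induction n with
    | zero =>
      simp only [Polynomial.monomial_zero_left, Polynomial.aeval_C, Polynomial.derivative_C,
        map_zero, zero_mul]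
      exact hasDerivAt_const 0 _
    | succ n ih =>
      have e1 : ∀ x : CK, Polynomial.aeval x (Polynomial.monomial (n + 1) c) =
          Polynomial.aeval x (Polynomial.monomial n c) * x := by
        intro x
        simp only [Polynomial.aeval_monomial, pow_succ]
        ring
      simp only [e1]
      refine (ih.mul hg).congr_deriv ?_
      simp only [Polynomial.derivative_monomial, Polynomial.aeval_monomial, map_mul,
        map_natCast, map_add, map_one]
      rcases n with _ | n
      · simp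
      · simp only [Nat.add_sub_cancel, pow_succ]
        push_cast
        ring

lemma trd_eval (q : Polynomial ℂ) (g : CK) (z : TrdK) :
    (Polynomial.aeval g q) z = q.eval (g z) := by
  rw [Polynomial.aeval_continuousMap_apply]

/-- Evaluation of the inverse. -/
lemma trdInv_apply {a b : ℂ} (h : IsUnit (trdJ a b)) (z : TrdK) :
    trdJ a b z ≠ 0 ∧ (Ring.inverse (trdJ a b)) z = (trdJ a b z)⁻¹ := by
  have h1 := congrArg (fun f : CK => f z) (Ring.mul_inverse_cancel _ h)
  simp only [ContinuousMap.mul_apply, ContinuousMap.one_apply] at h1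
  exact ⟨left_ne_zero_of_mul_eq_one h1, eq_inv_of_mul_eq_one_right h1⟩

/-- The derivative at the identity of the two components. -/
lemma trd_comp_deriv {a b c d : ℝ → ℂ} {a' b' c' d' : ℂ} (ha : HasDerivAt a a' 0)
    (hb : HasDerivAt b b' 0) (hc : HasDerivAt c c' 0) (hd : HasDerivAt d d' 0)
    (ha0 : a 0 = 1) (hb0 : b 0 = 0) (p q : Polynomial ℂ) :
    HasDerivAt (fun t => Ring.inverse (trdJ (a t) (b t)) *
      (c t • Polynomial.aeval (trdM (a t) (b t)) p +
        d t • Polynomial.aeval (trdM (a t) (b t)) q))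
      (-trdJ a' b' * (c 0 • Polynomial.aeval trdZ p + d 0 • Polynomial.aeval trdZ q) +
        (c' • Polynomial.aeval trdZ p +
          c 0 • (Polynomial.aeval trdZ (Polynomial.derivative p) *
            ((conj a' • trdZ - b' • (1 : CK)) - trdZ * trdJ a' b')) +
        (d' • Polynomial.aeval trdZ q +
          d 0 • (Polynomial.aeval trdZ (Polynomial.derivative q) *
            ((conj a' • trdZ - b' • (1 : CK)) - trdZ * trdJ a' b'))))) 0 := by
  have hM := trdM_deriv ha hb ha0 hb0
  have hp := trdP_deriv hM p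
  have hq := trdP_deriv hM q
  rw [ha0, hb0, trdM_zero] at hp hq
  have h1 := (trdInv_deriv ha hb ha0 hb0).mul ((hc.smul hp).add (hd.smul hq))
  refine h1.congr_deriv ?_
  have e1 : ((c • fun t => (Polynomial.aeval (trdM (a t) (b t))) p) +
      d • fun t => (Polynomial.aeval (trdM (a t) (b t))) q) 0 =
      c 0 • Polynomial.aeval trdZ p + d 0 • Polynomial.aeval trdZ q := by
    show c 0 • Polynomial.aeval (trdM (a 0) (b 0)) p +
      d 0 • Polynomial.aeval (trdM (a 0) (b 0)) q = _
    rw [ha0, hb0, trdM_zero]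
  rw [e1]
  simp only [ha0, hb0, trdM_zero, trdJ_one, Ring.inverse_one, one_mul]
  congr 1
  rw [add_comm (c 0 • _) (c' • _), add_comm (d 0 • _) (d' • _)]

/-- Differentiability of the action of one-parameter subgroups on `inc f`. -/
theorem tame_deriv {P : Seminorm ℂ AA} (hP : Tame P) (f : VV) (X : gg) (γ : ℝ → GG)
    (h : IsExp X γ) :
    Tendsto (fun t : ℝ => P ((t : ℂ)⁻¹ • (TT (γ t) (inc f) - inc f) - inc (actV X f)))
      (𝓝[≠] 0) (𝓝 0) := by
  obtain ⟨ha, hc⟩ := isExp_al h
  obtain ⟨hb, hd⟩ := isExp_be h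
  have h0 := isExp_zero h
  have ha0 : al (γ 0).1 = 1 := by rw [h0]; simp
  have hb0 : be (γ 0).1 = 0 := by rw [h0]; simp
  have hc0 : al (γ 0).2 = 1 := by rw [h0]; simp
  have hd0 : be (γ 0).2 = 0 := by rw [h0]; simp
  -- the two components
  set F1 : ℝ → CK := fun t => Ring.inverse (trdJ (al (γ t).1) (be (γ t).1)) *
      (al (γ t).2 • Polynomial.aeval (trdM (al (γ t).1) (be (γ t).1)) f.1 +
        be (γ t).2 • Polynomial.aeval (trdM (al (γ t).1) (be (γ t).1)) f.2) with hF1
  set F2 : ℝ → CK := fun t => Ring.inverse (trdJ (al (γ t).1) (be (γ t).1)) *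
      (conj (be (γ t).2) • Polynomial.aeval (trdM (al (γ t).1) (be (γ t).1)) f.1 +
        conj (al (γ t).2) • Polynomial.aeval (trdM (al (γ t).1) (be (γ t).1)) f.2) with hF2
  have d1 : HasDerivAt F1 (Polynomial.aeval trdZ (actV X f).1) 0 := by
    refine (trd_comp_deriv ha hb hc hd ha0 hb0 f.1 f.2).congr_deriv ?_
    rw [hc0, hd0]
    ext z
    simp only [ContinuousMap.add_apply, ContinuousMap.mul_apply, ContinuousMap.neg_apply,
      ContinuousMap.smul_apply, ContinuousMap.sub_apply, ContinuousMap.one_apply, trdJ_apply,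
      trd_eval, trdZ_apply, actV_apply, D1_apply, c0, c1, Polynomial.eval_add,
      Polynomial.eval_mul, Polynomial.eval_smul, Polynomial.eval_C, Polynomial.eval_X,
      Polynomial.eval_sub, Polynomial.eval_pow, smul_eq_mul, map_mul, Complex.conj_I,
      Complex.conj_ofReal]
    ring
  have d2 : HasDerivAt F2 (Polynomial.aeval trdZ (actV X f).2) 0 := by
    refine (trd_comp_deriv ha hb (trd_conj hd) (trd_conj hc) ha0 hb0 f.1 f.2).congr_deriv ?_
    rw [hc0, hd0]
    ext z
    simp only [ContinuousMap.add_apply, ContinuousMap.mul_apply, ContinuousMap.neg_apply,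
      ContinuousMap.smul_apply, ContinuousMap.sub_apply, ContinuousMap.one_apply, trdJ_apply,
      trd_eval, trdZ_apply, actV_apply, D1_apply, c0, c1, Polynomial.eval_add,
      Polynomial.eval_mul, Polynomial.eval_smul, Polynomial.eval_C, Polynomial.eval_X,
      Polynomial.eval_sub, Polynomial.eval_pow, smul_eq_mul, map_mul, Complex.conj_I,
      Complex.conj_ofReal, map_zero, map_one]
    ring
  have F1z : ∀ z : TrdK, F1 0 z = f.1.eval z.1 := by
    intro z
    simp only [hF1, ha0, hb0, hc0, hd0, trdJ_one, Ring.inverse_one, trdM_zero]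
    simp
  have F2z : ∀ z : TrdK, F2 0 z = f.2.eval z.1 := by
    intro z
    simp only [hF2, ha0, hb0, hc0, hd0, trdJ_one, Ring.inverse_one, trdM_zero]
    simp
  -- units
  have hunit : ∀ᶠ t in 𝓝 (0 : ℝ), IsUnit (trdJ (al (γ t).1) (be (γ t).1)) := by
    have hcont := (trdJ_deriv ha hb).continuousAt
    have hopen : IsOpen {x : CK | IsUnit x} := Units.isOpen
    refine hcont.eventually (hopen.mem_nhds ?_)
    show IsUnit (trdJ (al (γ 0).1) (be (γ 0).1))
    rw [ha0, hb0, trdJ_one]
    exact isUnit_one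
  -- the bound
  set err : ℝ → ℝ := fun t =>
    max ‖t⁻¹ • (F1 t - F1 0) - Polynomial.aeval trdZ (actV X f).1‖
      ‖t⁻¹ • (F2 t - F2 0) - Polynomial.aeval trdZ (actV X f).2‖ with herr
  have herr0 : Tendsto err (𝓝[≠] 0) (𝓝 0) := by
    have t1 := d1.tendsto_slope_zero
    have t2 := d2.tendsto_slope_zero
    simp only [zero_add] at t1 t2
    have n1 := (t1.sub_const (Polynomial.aeval trdZ (actV X f).1)).norm
    have n2 := (t2.sub_const (Polynomial.aeval trdZ (actV X f).2)).norm
    rw [sub_self, norm_zero] at n1 n2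
    have := n1.max n2
    rwa [max_self] at this
  obtain ⟨C, hC, hCP⟩ := hP 2 (by norm_num)
  have hbound : ∀ᶠ t : ℝ in 𝓝[≠] (0 : ℝ),
      P ((t : ℂ)⁻¹ • (TT (γ t) (inc f) - inc f) - inc (actV X f)) ≤ C * err t := by
    filter_upwards [hunit.filter_mono nhdsWithin_le_nhds] with t hu
    set g := γ t with hg
    have hz2 : ∀ z : ℂ, ‖z‖ < 2 → ∃ z' : TrdK, z'.1 = z := by
      intro z hz
      exact ⟨⟨z, by simpa using hz.le⟩, rfl⟩
    have hj : ∀ z : TrdK, jf g.1 z.1 ≠ 0 ∧
        (Ring.inverse (trdJ (al g.1) (be g.1))) z = (jf g.1 z.1)⁻¹ := by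
      intro z
      have := trdInv_apply hu z
      rw [trdJ_apply] at this
      exact this
    have hm : ∀ z : TrdK, (trdM (al g.1) (be g.1)) z = mob g.1 z.1 := by
      intro z
      rw [trdM, ContinuousMap.mul_apply, (hj z).2]
      simp only [ContinuousMap.sub_apply, ContinuousMap.smul_apply, trdZ_apply,
        ContinuousMap.one_apply, smul_eq_mul, mul_one]
      rw [mob, div_eq_mul_inv]
    have hE : ∀ z : TrdK, ext g (evV f) z.1 = (F1 t z, F2 t z) := by
      intro z
      simp only [hF1, hF2, ContinuousMap.mul_apply, ContinuousMap.add_apply,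
        ContinuousMap.smul_apply, ← hg, (hj z).2, trd_eval, hm, smul_eq_mul]
      rfl
    have hI : IsExt 2 (ext g (evV f)) (TT g (inc f)) := by
      refine isExt_ext g (isExt_inc (‖trdM (al g.1) (be g.1)‖ + 1) f) fun z hz => ?_
      obtain ⟨z', rfl⟩ := hz2 z hz
      refine ⟨(hj z').1, ?_⟩
      rw [← hm]
      have := (trdM (al g.1) (be g.1)).norm_coe_le_norm z'
      linarith
    have hI2 : IsExt 2 (evV f) (inc f) := isExt_inc 2 f
    have hI3 : IsExt 2 (evV (actV X f)) (inc (actV X f)) := isExt_inc 2 _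
    refine hCP _ (fun z => (t : ℂ)⁻¹ • (ext g (evV f) z - evV f z) - evV (actV X f) z) (err t)
      ?_ ?_
    · constructor
      · exact ((hI.1.sub hI2.1).const_smul ((t : ℂ)⁻¹)).sub hI3.1
      · intro z hz
        have e1 := hI.2 z hz
        have e2 := hI2.2 z hz
        have e3 := hI3.2 z hz
        show (t : ℂ)⁻¹ • ((TT g (inc f) : ℂ → ℂ × ℂ) z - (inc f : ℂ → ℂ × ℂ) z) -
          (inc (actV X f) : ℂ → ℂ × ℂ) z = _
        rw [e1, e2, e3]
    · intro z hz
      obtain ⟨z', rfl⟩ := hz2 z hz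
      have k1 : (t⁻¹ • (F1 t - F1 0) - Polynomial.aeval trdZ (actV X f).1) z' =
          (t : ℂ)⁻¹ * (F1 t z' - f.1.eval z'.1) - (actV X f).1.eval z'.1 := by
        rw [ContinuousMap.sub_apply, ContinuousMap.smul_apply, ContinuousMap.sub_apply, F1z,
          trd_eval, trdZ_apply, Complex.real_smul, Complex.ofReal_inv]
      have k2 : (t⁻¹ • (F2 t - F2 0) - Polynomial.aeval trdZ (actV X f).2) z' =
          (t : ℂ)⁻¹ * (F2 t z' - f.2.eval z'.1) - (actV X f).2.eval z'.1 := by
        rw [ContinuousMap.sub_apply, ContinuousMap.smul_apply, ContinuousMap.sub_apply, F2z,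
          trd_eval, trdZ_apply, Complex.real_smul, Complex.ofReal_inv]
      have k3 : (t : ℂ)⁻¹ • (ext g (evV f) z'.1 - evV f z'.1) - evV (actV X f) z'.1 =
          ((t⁻¹ • (F1 t - F1 0) - Polynomial.aeval trdZ (actV X f).1) z',
            (t⁻¹ • (F2 t - F2 0) - Polynomial.aeval trdZ (actV X f).2) z') := by
        rw [k1, k2, hE z']
        rfl
      rw [k3, Prod.norm_def]
      exact max_le_max (ContinuousMap.norm_coe_le_norm _ z')
        (ContinuousMap.norm_coe_le_norm _ z')
  refine squeeze_zero' (Eventually.of_forall fun t => apply_nonneg P _) hbound ?_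
  have := herr0.const_mul C
  rwa [mul_zero] at this

end Pool.SG
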