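import Pool.Agent.Helper71.SG.INT
import Pool.Agent.Helper71.SG.EX
import Pool.Agent.Helper71.SG.TRD

open Complex Set Filter Topology Matrix ComplexConjugate
open scoped ENNReal NNReal Nat

noncomputable section

namespace Pool.SG

variable {B : Type} [NormedAddCommGroup B] [NormedSpace ℂ B] [CompleteSpace B]

/-- The difference of the two sides is differentiable. -/
theorem diff_deriv {w : GG → ℝ} {ι : VV →ₗ[ℂ] B} {π : GG →* (B →L[ℂ] B)}
    (h : Rlz w ι π) {J : AA →ₗ[ℂ] B} (hJ : ∀ f, J (inc f) = ι f)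
    (hT : Tame ((normSeminorm ℂ B).comp J)) {X : gg} {γ : ℝ → GG} (hγ : IsExp X γ) (f : VV)
    (t : ℝ) : HasDerivAt (fun t => π (γ t) (ι f) - J (TT (γ t) (inc f)))
      (π (γ t) (ι (actV X f)) - J (TT (γ t) (inc (actV X f)))) t := by
  have h0 : γ 0 = 1 := isExp_zero hγ
  -- first term
  have h1 : HasDerivAt (fun s => π (γ t) (π (γ s) (ι f))) (π (γ t) (ι (actV X f))) 0 := by
    have h2 := h.deriv X γ f hγ
    have h3 : HasFDerivAt (fun b : B => π (γ t) b)
        ((π (γ t)).restrictScalars ℝ) (π (γ 0) (ι f)) :=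
      ((π (γ t)).restrictScalars ℝ).hasFDerivAt
    exact h3.comp_hasDerivAt (0 : ℝ) h2
  -- second term
  have h4 : HasDerivAt (fun s => J (TT (γ t) (TT (γ s) (inc f))))
      (J (TT (γ t) (inc (actV X f)))) 0 := by
    rw [hasDerivAt_iff_tendsto_slope_zero, tendsto_iff_norm_sub_tendsto_zero]
    have h5 := tame_deriv (tame_comp hT (γ t)) f X γ hγ
    refine h5.congr fun s => ?_
    show ‖J (TT (γ t) ((s : ℂ)⁻¹ • (TT (γ s) (inc f) - inc f) - inc (actV X f)))‖ = _
    congr 1
    rw [map_sub (TT (γ t)), map_sub J, map_smul (TT (γ t)), map_smul J, map_sub (TT (γ t)),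
      map_sub J, zero_add, h0, TT_one, ← Complex.coe_smul, Complex.ofReal_inv]
  have h6 : HasDerivAt (fun s => π (γ (t + s)) (ι f) - J (TT (γ (t + s)) (inc f)))
      (π (γ t) (ι (actV X f)) - J (TT (γ t) (inc (actV X f)))) 0 := by
    refine (h1.sub h4).congr_of_eventuallyEq (Eventually.of_forall fun s => ?_)
    show π (γ (t + s)) (ι f) - J (TT (γ (t + s)) (inc f)) =
      π (γ t) (π (γ s) (ι f)) - J (TT (γ t) (TT (γ s) (inc f)))
    rw [isExp_add hγ, TT_mul, map_mul]
    rfl
  have h6' : HasDerivAt (fun s => π (γ (t + s)) (ι f) - J (TT (γ (t + s)) (inc f)))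
      (π (γ t) (ι (actV X f)) - J (TT (γ t) (inc (actV X f)))) (t - t) := by
    rw [sub_self]
    exact h6
  have h7 := HasDerivAt.comp_sub_const t t h6'
  refine h7.congr_of_eventuallyEq (Eventually.of_forall fun x => ?_)
  show _ = π (γ (t + (x - t))) (ι f) - J (TT (γ (t + (x - t))) (inc f))
  rw [add_sub_cancel]

end Pool.SG
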