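import Mathlib

/-!
Harish-Chandra modules, weights, continuous norms and Sobolev distances for the real reductive
group `G = SL(2, R) x SL(2, R)`.
-/

open Complex Set Filter Topology Matrix
open scoped ENNReal NNReal

noncomputable section

namespace Pool.SG

/-- Real two by two matrices. -/
abbrev Mat2 : Type := Matrix (Fin 2) (Fin 2) ℝ

/-- The group `SL(2, R)`. -/
abbrev SLR : Type := Matrix.SpecialLinearGroup (Fin 2) ℝ

/-- The real reductive group `G = SL(2, R) x SL(2, R)`. -/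
abbrev GG : Type := SLR × SLR

/-- The Lie algebra `sl(2, R)` of traceless matrices, with the commutator bracket. -/
abbrev slR : Type := LieAlgebra.SpecialLinear.sl (Fin 2) ℝ

/-- The Lie algebra `sl(2, R) x sl(2, R)` of `G`. -/
abbrev gg : Type := slR × slR

/-- The maximal compact subgroup `K = SO(2) x SO(2)` of `G`. -/
def KK : Subgroup GG where
  carrier := {g | (g.1 : Mat2) * (g.1 : Mat2)ᵀ = 1 ∧ (g.2 : Mat2) * (g.2 : Mat2)ᵀ = 1}
  one_mem' := by simp
  mul_mem' := by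
    rintro g h ⟨hg1, hg2⟩ ⟨hh1, hh2⟩
    constructor
    · show ((g * h).1 : Mat2) * ((g * h).1 : Mat2)ᵀ = 1
      rw [Prod.fst_mul, Matrix.SpecialLinearGroup.coe_mul, Matrix.transpose_mul,
        Matrix.mul_assoc, ← Matrix.mul_assoc (h.1 : Mat2), hh1, Matrix.one_mul, hg1]
    · show ((g * h).2 : Mat2) * ((g * h).2 : Mat2)ᵀ = 1
      rw [Prod.snd_mul, Matrix.SpecialLinearGroup.coe_mul, Matrix.transpose_mul,
        Matrix.mul_assoc, ← Matrix.mul_assoc (h.2 : Mat2), hh2, Matrix.one_mul, hg2]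
  inv_mem' := by
    have key : ∀ g : SLR, (g : Mat2) * (g : Mat2)ᵀ = 1 →
        ((g⁻¹ : SLR) : Mat2) * ((g⁻¹ : SLR) : Mat2)ᵀ = 1 := by
      intro g hg
      have h1 : ((g⁻¹ : SLR) : Mat2) * (g : Mat2) = 1 := by
        rw [← Matrix.SpecialLinearGroup.coe_mul, inv_mul_cancel,
          Matrix.SpecialLinearGroup.coe_one]
      have h2 : ((g⁻¹ : SLR) : Mat2) = (g : Mat2)ᵀ := by
        calc ((g⁻¹ : SLR) : Mat2) = ((g⁻¹ : SLR) : Mat2) * ((g : Mat2) * (g : Mat2)ᵀ) := by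
              rw [hg, Matrix.mul_one]
          _ = (g : Mat2)ᵀ := by rw [← Matrix.mul_assoc, h1, Matrix.one_mul]
      rw [h2, Matrix.transpose_transpose]
      rw [h2] at h1
      exact h1
    rintro g ⟨h1, h2⟩
    exact ⟨key g.1 h1, key g.2 h2⟩

/-- The adjoint action of `SL(2, R)` on its Lie algebra: `X ↦ g X g⁻¹`. -/
def AdS (g : SLR) (X : slR) : slR :=
  ⟨(g : Mat2) * (X : Mat2) * ((g⁻¹ : SLR) : Mat2), by
    have hX : Matrix.trace (X : Mat2) = 0 := LinearMap.mem_ker.1 X.2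
    have h1 : ((g⁻¹ : SLR) : Mat2) * (g : Mat2) = 1 := by
      rw [← Matrix.SpecialLinearGroup.coe_mul, inv_mul_cancel,
        Matrix.SpecialLinearGroup.coe_one]
    have : Matrix.trace ((g : Mat2) * (X : Mat2) * ((g⁻¹ : SLR) : Mat2)) = 0 := by
      rw [Matrix.trace_mul_comm, ← Matrix.mul_assoc, h1, Matrix.one_mul, hX]
    exact LinearMap.mem_ker.2 this⟩

/-- The adjoint action of `G` on its Lie algebra. -/
def Ad (g : GG) (X : gg) : gg := (AdS g.1 X.1, AdS g.2 X.2)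

/-- `γ` is the one-parameter subgroup `t ↦ exp (t X)` of `G`. -/
def IsExp (X : gg) (γ : ℝ → GG) : Prop :=
  ∀ t, ((γ t).1 : Mat2) = NormedSpace.exp (t • (X.1 : Mat2)) ∧
    ((γ t).2 : Mat2) = NormedSpace.exp (t • (X.2 : Mat2))

/-- The norm on the Lie algebra for the `Ad K`-invariant inner product `tr (X Yᵀ)`. -/
def lieNorm (X : gg) : ℝ :=
  Real.sqrt (Matrix.trace ((X.1 : Mat2) * (X.1 : Mat2)ᵀ) +
    Matrix.trace ((X.2 : Mat2) * (X.2 : Mat2)ᵀ))

/-- The operator norm of `Ad g`. -/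
def adNorm (g : GG) : ℝ := sSup {r | ∃ X : gg, lieNorm X ≤ 1 ∧ r = lieNorm (Ad g X)}

/-- A weight on `G`: positive, submultiplicative, locally bounded. -/
structure IsWeight (w : GG → ℝ) : Prop where
  pos : ∀ g, 0 < w g
  mul_le : ∀ g h, w (g * h) ≤ w g * w h
  locBdd : ∀ g, ∃ C, ∀ᶠ h in 𝓝 g, w h ≤ C

/-- The weight `w_t (g) = w (g) ‖Ad g‖ ^ t`. -/
def wt (w : GG → ℝ) (t : ℝ) : GG → ℝ := fun g => w g * adNorm g ^ t

/-- The character `(m, n)` of `K = SO(2) x SO(2)`: a pair of rotations by the angles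
`θ₁, θ₂` goes to `exp (i (m θ₁ + n θ₂))`. These are all irreducible representations of `K`. -/
def chi (m n : ℤ) (k : KK) : ℂ :=
  ((((k : GG).1 : Mat2) 0 0 : ℂ) + (((k : GG).1 : Mat2) 1 0 : ℂ) * I) ^ m *
    ((((k : GG).2 : Mat2) 0 0 : ℂ) + (((k : GG).2 : Mat2) 1 0 : ℂ) * I) ^ n

/-- A `(g, K)`-module: compatible actions of the Lie algebra and of `K`, the action of `K` being
locally finite, continuous, and with differential the action of the Lie algebra of `K`. -/
structure GKModule (V : Type) [AddCommGroup V] [Module ℂ V] where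
  /-- the action of the Lie algebra -/
  act : gg → V →ₗ[ℂ] V
  act_add : ∀ X Y v, act (X + Y) v = act X v + act Y v
  act_smul : ∀ (r : ℝ) X v, act (r • X) v = (r : ℂ) • act X v
  act_lie : ∀ X Y v, act ⁅X, Y⁆ v = act X (act Y v) - act Y (act X v)
  /-- the action of `K` -/
  kact : KK →* (V →ₗ[ℂ] V)
  kact_act : ∀ (k : KK) X v, kact k (act X v) = act (Ad (k : GG) X) (kact k v)
  locFinite : ∀ v, ∃ W : Submodule ℂ V, FiniteDimensional ℂ W ∧ ∀ k, kact k v ∈ W
  kcont : ∀ (f : V →ₗ[ℂ] ℂ) v, Continuous fun k => f (kact k v)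
  kderiv : ∀ (f : V →ₗ[ℂ] ℂ) v (X : gg) (γ : ℝ → KK), IsExp X (fun t => (γ t : GG)) →
    HasDerivAt (fun t => f (kact (γ t) v)) (f (act X v)) 0

variable {V : Type} [AddCommGroup V] [Module ℂ V]

/-- The isotypic component of the character `(m, n)` of `K`. -/
def GKModule.iso (M : GKModule V) (m n : ℤ) : Submodule ℂ V where
  carrier := {v | ∀ k, M.kact k v = chi m n k • v}
  add_mem' := by
    intro a b ha hb k
    rw [map_add, ha k, hb k, smul_add]
  zero_mem' := by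
    intro k
    simp
  smul_mem' := by
    intro c a ha k
    rw [map_smul, ha k, smul_comm]

/-- A Harish-Chandra module: finitely generated over the enveloping algebra, and admissible,
that is all `K`-isotypic components are finite-dimensional. -/
structure GKModule.IsHC (M : GKModule V) : Prop where
  fg : ∃ S : Finset V, ∀ W : Submodule ℂ V, (∀ v ∈ S, v ∈ W) →
    (∀ (X : gg), ∀ v ∈ W, M.act X v ∈ W) → W = ⊤
  admissible : ∀ m n : ℤ, FiniteDimensional ℂ (M.iso m n)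

/-- A vector is `K`-finite if its `K`-orbit spans a finite-dimensional space. -/
def KFinite {B : Type} [NormedAddCommGroup B] [NormedSpace ℂ B] (π : GG →* (B →L[ℂ] B))
    (b : B) : Prop :=
  FiniteDimensional ℂ (Submodule.span ℂ (Set.range fun k : KK => π (k : GG) b))

/-- `p` is a `G`-continuous norm on the `(g, K)`-module `V`, with growth at most `w`: there is a
completion `B` of `(V, p)` with a continuous representation `π` of `G` whose `K`-finite vectors
are `V`, with the given actions of `K` and of the Lie algebra, and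
`p (g v) ≤ c w (g) p (v)` for all `g` in `G` and `v` in `V`. -/
def GKModule.IsNorm (M : GKModule V) (w : GG → ℝ) (p : Seminorm ℂ V) : Prop :=
  (∀ v, p v = 0 → v = 0) ∧
  ∃ (B : Type) (_ : NormedAddCommGroup B) (_ : NormedSpace ℂ B) (_ : CompleteSpace B)
    (ι : V →ₗ[ℂ] B) (π : GG →* (B →L[ℂ] B)),
    (∀ v, ‖ι v‖ = p v) ∧ DenseRange ι ∧
    (Continuous fun x : GG × B => π x.1 x.2) ∧
    (∀ (k : KK) v, π (k : GG) (ι v) = ι (M.kact k v)) ∧
    (∀ (X : gg) (γ : ℝ → GG) v, IsExp X γ →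
      HasDerivAt (fun t => π (γ t) (ι v)) (ι (M.act X v)) 0) ∧
    (∀ b, KFinite π b ↔ b ∈ Set.range ι) ∧
    ∃ c : ℝ, 0 < c ∧ ∀ g v, ‖π g (ι v)‖ ≤ c * w g * p v

/-- `p` is in the minimal class of `Norm (V, w)`. -/
def GKModule.IsMin (M : GKModule V) (w : GG → ℝ) (p : Seminorm ℂ V) : Prop :=
  M.IsNorm w p ∧ ∀ q, M.IsNorm w q → ∃ C : ℝ, ∀ v, p v ≤ C * q v

/-- `p` is in the maximal class of `Norm (V, w)`. -/
def GKModule.IsMax (M : GKModule V) (w : GG → ℝ) (p : Seminorm ℂ V) : Prop :=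
  M.IsNorm w p ∧ ∀ q, M.IsNorm w q → ∃ C : ℝ, ∀ v, q v ≤ C * p v

/-- The scalar by which the Sobolev operator `D_s` acts on the isotypic component `(m, n)`:
`K` is abelian, so `ρ_k = 0`, and the Cartan-Killing form gives the character `(m, n)` the square
norm `(m ^ 2 + n ^ 2) / 8`. -/
def sobScalar (s : ℝ) (m n : ℤ) : ℝ := (1 + ((m : ℝ) ^ 2 + (n : ℝ) ^ 2) / 8) ^ (s / 2)

/-- `D` is the Sobolev operator `D_s`. -/
def GKModule.IsSob (M : GKModule V) (s : ℝ) (D : V →ₗ[ℂ] V) : Prop :=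
  ∀ m n : ℤ, ∀ v ∈ M.iso m n, D v = (sobScalar s m n : ℂ) • v

/-- `p ≲ q_s`, where `q_s (v) = q (D_s v)`. -/
def GKModule.LeSob (M : GKModule V) (s : ℝ) (p q : Seminorm ℂ V) : Prop :=
  ∃ D : V →ₗ[ℂ] V, M.IsSob s D ∧ ∃ C : ℝ, ∀ v, p v ≤ C * q (D v)

/-- The one-sided distance `inf {s ≥ 0 : p ≲ q_s}`. -/
def GKModule.dTo (M : GKModule V) (p q : Seminorm ℂ V) : ℝ≥0∞ :=
  ⨅ (s : ℝ≥0) (_ : M.LeSob (s : ℝ) p q), (s : ℝ≥0∞)

/-- The distance of two classes of norms. -/
def GKModule.dist (M : GKModule V) (p q : Seminorm ℂ V) : ℝ≥0∞ := max (M.dTo p q) (M.dTo q p)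

/-- `s` is the Sobolev gap of `V` for the weight `w`: the distance between the minimal and the
maximal class of `Norm (V, w)`. -/
def GKModule.IsGap (M : GKModule V) (w : GG → ℝ) (s : ℝ≥0∞) : Prop :=
  ∃ p q : Seminorm ℂ V, M.IsMin w p ∧ M.IsMax w q ∧ s = M.dist p q

end Pool.SG
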