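import Pool.Agent.Helper71.SG.Model0

open Complex Set Filter Topology Matrix ComplexConjugate
open scoped ENNReal NNReal Nat

noncomputable section

namespace Pool.SG

/-- The generator of rotations. -/
def XW : slR := ⟨!![0, -1; 1, 0], LinearMap.mem_ker.2 (by
  simp [Matrix.traceLinearMap_apply, Matrix.trace_fin_two_of])⟩

/-- The generator of `hyp`. -/
def XA : slR := ⟨!![1, 0; 0, -1], LinearMap.mem_ker.2 (by
  simp [Matrix.traceLinearMap_apply, Matrix.trace_fin_two_of])⟩

/-- The third generator. -/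
def XY : slR := ⟨!![0, 1; 1, 0], LinearMap.mem_ker.2 (by
  simp [Matrix.traceLinearMap_apply, Matrix.trace_fin_two_of])⟩

/-- The upper unipotent generator. -/
def XE : slR := ⟨!![0, 1; 0, 0], LinearMap.mem_ker.2 (by
  simp [Matrix.traceLinearMap_apply, Matrix.trace_fin_two_of])⟩

/-- The lower unipotent generator. -/
def XF : slR := ⟨!![0, 0; 1, 0], LinearMap.mem_ker.2 (by
  simp [Matrix.traceLinearMap_apply, Matrix.trace_fin_two_of])⟩

/-- Upper unipotent matrices. -/
def upp (x : ℝ) : SLR := ⟨!![1, x; 0, 1], by rw [Matrix.det_fin_two_of]; ring⟩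

/-- Lower unipotent matrices. -/
def low (x : ℝ) : SLR := ⟨!![1, 0; x, 1], by rw [Matrix.det_fin_two_of]; ring⟩

section aux

attribute [local instance] Matrix.linftyOpNormedRing Matrix.linftyOpNormedAlgebra

private lemma exp_entry_deriv (X : Mat2) (t : ℝ) (i j : Fin 2) :
    HasDerivAt (fun t : ℝ => NormedSpace.exp (t • X) i j)
      ((X * NormedSpace.exp (t • X)) i j) t := by
  have h := hasDerivAt_exp_smul_const' (𝕂 := ℝ) X t
  let L : Mat2 →L[ℝ] ℝ := LinearMap.toContinuousLinearMap (Matrix.entryLinearMap ℝ ℝ i j)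
  exact L.hasFDerivAt.comp_hasDerivAt t h

private lemma exp_neg_mul (X : Mat2) (t : ℝ) :
    NormedSpace.exp (t • (-X)) * NormedSpace.exp (t • X) = 1 := by
  have hc : Commute (t • (-X)) (t • X) := by
    rw [smul_neg]
    exact (Commute.refl _).neg_left
  have h := Matrix.exp_add_of_commute (t • (-X)) (t • X) hc
  refine h.symm.trans ?_
  have h0 : t • (-X) + t • X = 0 := by
    rw [smul_neg, neg_add_cancel]
  rw [h0]
  exact NormedSpace.exp_zero

private lemma exp_conj_aux (g : SLR) (X : Mat2) (t : ℝ) :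
    NormedSpace.exp (t • ((g : Mat2) * X * ((g⁻¹ : SLR) : Mat2))) =
      (g : Mat2) * NormedSpace.exp (t • X) * ((g⁻¹ : SLR) : Mat2) := by
  have h1 : (g : Mat2) * ((g⁻¹ : SLR) : Mat2) = 1 := by
    rw [← Matrix.SpecialLinearGroup.coe_mul, mul_inv_cancel, Matrix.SpecialLinearGroup.coe_one]
  have h2 : ((g⁻¹ : SLR) : Mat2) * (g : Mat2) = 1 := by
    rw [← Matrix.SpecialLinearGroup.coe_mul, inv_mul_cancel, Matrix.SpecialLinearGroup.coe_one]
  let y : Mat2ˣ := ⟨g, ((g⁻¹ : SLR) : Mat2), h1, h2⟩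
  have h3 := NormedSpace.exp_units_conj y (t • X)
  have h4 : t • ((g : Mat2) * X * ((g⁻¹ : SLR) : Mat2)) = (y : Mat2) * (t • X) * (↑y⁻¹ : Mat2) := by
    show _ = (g : Mat2) * (t • X) * ((g⁻¹ : SLR) : Mat2)
    rw [Matrix.mul_smul, Matrix.smul_mul]
  exact (congrArg NormedSpace.exp h4).trans h3

end aux

private lemma exp_of_deriv (γ : ℝ → Mat2) (X : Mat2) (h0 : γ 0 = 1)
    (hd : ∀ t i j, HasDerivAt (fun t => γ t i j) ((γ t * X) i j) t) (t : ℝ) :
    γ t = NormedSpace.exp (t • X) := by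
  have hP : ∀ i j, ∀ t, (γ t * NormedSpace.exp (t • (-X))) i j = (1 : Mat2) i j := by
    intro i j
    have hder : ∀ t, HasDerivAt (fun t => (γ t * NormedSpace.exp (t • (-X))) i j) 0 t := by
      intro t
      have h1 : HasDerivAt (fun t => ∑ k, γ t i k * NormedSpace.exp (t • (-X)) k j)
          (∑ k, ((γ t * X) i k * NormedSpace.exp (t • (-X)) k j +
            γ t i k * ((-X) * NormedSpace.exp (t • (-X))) k j)) t :=
        HasDerivAt.fun_sum fun k _ => (hd t i k).mul (exp_entry_deriv (-X) t k j)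
      have h2 : (∑ k, ((γ t * X) i k * NormedSpace.exp (t • (-X)) k j +
            γ t i k * ((-X) * NormedSpace.exp (t • (-X))) k j)) = 0 := by
        rw [Finset.sum_add_distrib, ← Matrix.mul_apply, ← Matrix.mul_apply, ← Matrix.mul_assoc,
          Matrix.mul_neg, Matrix.neg_mul, Matrix.neg_apply, add_neg_cancel]
      rw [h2] at h1
      exact h1
    intro t
    have h3 := is_const_of_deriv_eq_zero (f := fun t => (γ t * NormedSpace.exp (t • (-X))) i j)
      (fun t => (hder t).differentiableAt) (fun t => (hder t).deriv) t 0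
    simp only [h0] at h3
    rw [h3]
    simp
  have hP' : γ t * NormedSpace.exp (t • (-X)) = 1 := by
    ext i j
    exact hP i j t
  calc γ t = γ t * (NormedSpace.exp (t • (-X)) * NormedSpace.exp (t • X)) := by
        rw [exp_neg_mul, Matrix.mul_one]
    _ = NormedSpace.exp (t • X) := by rw [← Matrix.mul_assoc, hP', Matrix.one_mul]

private lemma exp_zero_aux (t : ℝ) : ((1 : SLR) : Mat2) = NormedSpace.exp (t • ((0 : slR) : Mat2)) := by
  simp

private lemma hyp_exp (t : ℝ) : ((hyp t : SLR) : Mat2) = NormedSpace.exp (t • (XA : Mat2)) := by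
  refine exp_of_deriv (fun t => (hyp t : Mat2)) XA ?_ ?_ t
  · ext i j
    fin_cases i <;> fin_cases j <;> simp [hyp]
  · intro t i j
    have h1 : HasDerivAt (fun t : ℝ => Real.exp t) (Real.exp t) t := Real.hasDerivAt_exp t
    have h2 : HasDerivAt (fun t : ℝ => Real.exp (-t)) (-Real.exp (-t)) t := by
      have h := (hasDerivAt_neg t).exp
      have e : Real.exp (-t) * (-1) = -Real.exp (-t) := by ring
      rw [e] at h
      exact h
    fin_cases i <;> fin_cases j
    · simpa [hyp, XA, Matrix.mul_apply, Fin.sum_univ_two] using h1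
    · simpa [hyp, XA, Matrix.mul_apply, Fin.sum_univ_two] using hasDerivAt_const t (0 : ℝ)
    · simpa [hyp, XA, Matrix.mul_apply, Fin.sum_univ_two] using hasDerivAt_const t (0 : ℝ)
    · simpa [hyp, XA, Matrix.mul_apply, Fin.sum_univ_two] using h2

private lemma rot_exp (t : ℝ) : ((rot t : SLR) : Mat2) = NormedSpace.exp (t • (XW : Mat2)) := by
  refine exp_of_deriv (fun t => (rot t : Mat2)) XW ?_ ?_ t
  · ext i j
    fin_cases i <;> fin_cases j <;> simp [rot]
  · intro t i j
    have h1 := Real.hasDerivAt_cos t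
    have h2 := Real.hasDerivAt_sin t
    fin_cases i <;> fin_cases j
    · simpa [rot, XW, Matrix.mul_apply, Fin.sum_univ_two] using h1
    · have h3 : HasDerivAt (fun t : ℝ => -Real.sin t) (-Real.cos t) t := h2.neg
      simpa [rot, XW, Matrix.mul_apply, Fin.sum_univ_two] using h3
    · simpa [rot, XW, Matrix.mul_apply, Fin.sum_univ_two] using h2
    · simpa [rot, XW, Matrix.mul_apply, Fin.sum_univ_two] using h1

private lemma upp_exp (t : ℝ) : ((upp t : SLR) : Mat2) = NormedSpace.exp (t • (XE : Mat2)) := by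
  refine exp_of_deriv (fun t => (upp t : Mat2)) XE ?_ ?_ t
  · ext i j
    fin_cases i <;> fin_cases j <;> simp [upp]
  · intro t i j
    fin_cases i <;> fin_cases j
    · simpa [upp, XE, Matrix.mul_apply, Fin.sum_univ_two] using hasDerivAt_const t (1 : ℝ)
    · simpa [upp, XE, Matrix.mul_apply, Fin.sum_univ_two] using hasDerivAt_id' t
    · simpa [upp, XE, Matrix.mul_apply, Fin.sum_univ_two] using hasDerivAt_const t (0 : ℝ)
    · simpa [upp, XE, Matrix.mul_apply, Fin.sum_univ_two] using hasDerivAt_const t (1 : ℝ)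

private lemma low_exp (t : ℝ) : ((low t : SLR) : Mat2) = NormedSpace.exp (t • (XF : Mat2)) := by
  refine exp_of_deriv (fun t => (low t : Mat2)) XF ?_ ?_ t
  · ext i j
    fin_cases i <;> fin_cases j <;> simp [low]
  · intro t i j
    fin_cases i <;> fin_cases j
    · simpa [low, XF, Matrix.mul_apply, Fin.sum_univ_two] using hasDerivAt_const t (1 : ℝ)
    · simpa [low, XF, Matrix.mul_apply, Fin.sum_univ_two] using hasDerivAt_const t (0 : ℝ)
    · simpa [low, XF, Matrix.mul_apply, Fin.sum_univ_two] using hasDerivAt_id' t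
    · simpa [low, XF, Matrix.mul_apply, Fin.sum_univ_two] using hasDerivAt_const t (1 : ℝ)

theorem isExp_hyp : IsExp (XA, 0) (fun t => (hyp t, 1)) :=
  fun t => ⟨hyp_exp t, exp_zero_aux t⟩

theorem isExp_rot : IsExp (XW, 0) (fun t => (rot t, 1)) :=
  fun t => ⟨rot_exp t, exp_zero_aux t⟩

theorem isExp_upp : IsExp (XE, 0) (fun t => (upp t, 1)) ∧ IsExp (0, XE) (fun t => (1, upp t)) :=
  ⟨fun t => ⟨upp_exp t, exp_zero_aux t⟩, fun t => ⟨exp_zero_aux t, upp_exp t⟩⟩

theorem isExp_low : IsExp (XF, 0) (fun t => (low t, 1)) ∧ IsExp (0, XF) (fun t => (1, low t)) :=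
  ⟨fun t => ⟨low_exp t, exp_zero_aux t⟩, fun t => ⟨exp_zero_aux t, low_exp t⟩⟩

theorem isExp_conj {X : gg} {γ : ℝ → GG} (h : IsExp X γ) (g : GG) :
    IsExp (Ad g X) (fun t => g * γ t * g⁻¹) := by
  intro t
  obtain ⟨h1, h2⟩ := h t
  constructor
  · show (((g.1 * (γ t).1 * (g.1)⁻¹ : SLR)) : Mat2) =
      NormedSpace.exp (t • ((g.1 : Mat2) * (X.1 : Mat2) * (((g.1)⁻¹ : SLR) : Mat2)))
    rw [exp_conj_aux, ← h1, Matrix.SpecialLinearGroup.coe_mul, Matrix.SpecialLinearGroup.coe_mul]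
  · show (((g.2 * (γ t).2 * (g.2)⁻¹ : SLR)) : Mat2) =
      NormedSpace.exp (t • ((g.2 : Mat2) * (X.2 : Mat2) * (((g.2)⁻¹ : SLR) : Mat2)))
    rw [exp_conj_aux, ← h2, Matrix.SpecialLinearGroup.coe_mul, Matrix.SpecialLinearGroup.coe_mul]

/-- `hyp (-t) * W * hyp t = cosh (2t) W + sinh (2t) Y`. -/
theorem Ad_hyp_XW (t : ℝ) : Ad ((hyp (-t), 1) : GG) (XW, 0) =
    Real.cosh (2 * t) • ((XW, 0) : gg) + Real.sinh (2 * t) • ((XY, 0) : gg) := by
  have hinv : (((hyp (-t))⁻¹ : SLR) : Mat2) = !![Real.exp t, 0; 0, Real.exp (-t)] := by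
    rw [Matrix.SpecialLinearGroup.coe_inv]
    simp [hyp, Matrix.adjugate_fin_two]
  have e1 : Real.exp (-t) * Real.exp (-t) = Real.cosh (2 * t) - Real.sinh (2 * t) := by
    rw [Real.cosh_sub_sinh, ← Real.exp_add]
    congr 1
    ring
  have e2 : Real.exp t * Real.exp t = Real.cosh (2 * t) + Real.sinh (2 * t) := by
    rw [Real.cosh_add_sinh, ← Real.exp_add]
    congr 1
    ring
  apply Prod.ext
  · apply Subtype.ext
    show (hyp (-t) : Mat2) * (XW : Mat2) * (((hyp (-t))⁻¹ : SLR) : Mat2) =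
      Real.cosh (2 * t) • (XW : Mat2) + Real.sinh (2 * t) • (XY : Mat2)
    rw [hinv]
    ext i j
    fin_cases i <;> fin_cases j <;> simp [hyp, XW, XY, Matrix.mul_apply, Fin.sum_univ_two,
      -Real.cosh_add_sinh, -Real.sinh_add_cosh]
    · linarith
    · linarith
  · apply Subtype.ext
    show ((1 : SLR) : Mat2) * ((0 : slR) : Mat2) * (((1 : SLR)⁻¹ : SLR) : Mat2) =
      Real.cosh (2 * t) • ((0 : slR) : Mat2) + Real.sinh (2 * t) • ((0 : slR) : Mat2)
    simp

theorem hyp_add (s t : ℝ) : hyp (s + t) = hyp s * hyp t := by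
  apply Subtype.ext
  rw [Matrix.SpecialLinearGroup.coe_mul]
  ext i j
  fin_cases i <;> fin_cases j <;>
    simp [hyp, Matrix.mul_apply, Fin.sum_univ_two, Real.exp_add, mul_comm]

end Pool.SG
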