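import Pool.Agent.Helper71.SG.MM

open Complex Set Filter Topology Matrix ComplexConjugate
open scoped ENNReal NNReal Nat

noncomputable section

namespace Pool.SG

lemma m3_scV_coeff (a : ℂ) (f : Polynomial ℂ) (n : ℕ) :
    (scV a f).coeff n = conj a ^ (2 * n + 1) * f.coeff n := by
  have h : Polynomial.aeval (Polynomial.C (conj a ^ 2) * Polynomial.X : Polynomial ℂ) f
      = f.comp (Polynomial.C (conj a ^ 2) * Polynomial.X) := by
    rw [Polynomial.comp, Polynomial.aeval_def]
    rfl
  rw [scV_apply, h, Polynomial.coeff_smul, Polynomial.comp_C_mul_X_coeff, smul_eq_mul, ← pow_mul]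
  ring

lemma m3_kactV_coeff (k : GG) (v : VV) (n : ℕ) :
    (kactV k v).1.coeff n = al k.2 * conj (al k.1) ^ (2 * n + 1) * v.1.coeff n ∧
    (kactV k v).2.coeff n = conj (al k.2) * conj (al k.1) ^ (2 * n + 1) * v.2.coeff n := by
  rw [kactV_apply]
  constructor
  · rw [Polynomial.coeff_smul, m3_scV_coeff, smul_eq_mul]; ring
  · rw [Polynomial.coeff_smul, m3_scV_coeff, smul_eq_mul]; ring

lemma m3_conj {a : ℂ} (ha : ‖a‖ = 1) : conj a = a⁻¹ := by
  rw [Complex.inv_def, Complex.normSq_eq_norm_sq, ha]
  simp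

lemma m3_conj_pow {a : ℂ} (ha : ‖a‖ = 1) (n : ℕ) :
    conj a ^ (2 * n + 1) = a ^ (-(2 * (n : ℤ) + 1)) := by
  rw [m3_conj ha, inv_pow, _root_.zpow_neg]
  have : (2 * (n : ℤ) + 1) = ((2 * n + 1 : ℕ) : ℤ) := by push_cast; ring
  rw [this, zpow_natCast]

/-- The isotypic components. -/
theorem mono_mem_iso (n : ℕ) (c : ℂ) :
    mono n (c, 0) ∈ MM.iso (-(2 * n + 1)) 1 ∧ mono n (0, c) ∈ MM.iso (-(2 * n + 1)) (-1) := by
  have key : ∀ (k : KK) (j : ℕ) (x : ℂ), conj (al (k : GG).1) ^ (2 * j + 1) *
      (Polynomial.monomial n x).coeff j = al (k : GG).1 ^ (-(2 * (n : ℤ) + 1)) *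
        (Polynomial.monomial n x).coeff j := by
    intro k j x
    rw [Polynomial.coeff_monomial]
    by_cases hj : n = j
    · subst hj
      rw [m3_conj_pow (norm_al_KK k).1]
    · simp [hj]
  constructor
  · intro k
    rw [MM_kact, chi_eq]
    apply Prod.ext
    · apply Polynomial.ext
      intro j
      rw [(m3_kactV_coeff _ _ _).1, Prod.smul_fst, Polynomial.coeff_smul, smul_eq_mul, mono_apply,
        mul_assoc, key k j, zpow_one]
      ring
    · apply Polynomial.ext
      intro j
      rw [(m3_kactV_coeff _ _ _).2, Prod.smul_snd, Polynomial.coeff_smul, smul_eq_mul, mono_apply]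
      simp
  · intro k
    rw [MM_kact, chi_eq]
    apply Prod.ext
    · apply Polynomial.ext
      intro j
      rw [(m3_kactV_coeff _ _ _).1, Prod.smul_fst, Polynomial.coeff_smul, smul_eq_mul, mono_apply]
      simp
    · apply Polynomial.ext
      intro j
      rw [(m3_kactV_coeff _ _ _).2, Prod.smul_snd, Polynomial.coeff_smul, smul_eq_mul, mono_apply,
        mul_assoc, key k j, _root_.zpow_neg_one, m3_conj (norm_al_KK k).2]
      ring

lemma m3_exp {p q : ℤ} (h : ∀ θ : ℝ, exp (θ * I) ^ p = exp (θ * I) ^ q) : p = q := by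
  by_contra hne
  have hpq : ((p - q : ℤ) : ℝ) ≠ 0 := by
    exact_mod_cast sub_ne_zero.2 hne
  have h1 := h (Real.pi / ((p - q : ℤ) : ℝ))
  have h2 : exp (((Real.pi / ((p - q : ℤ) : ℝ) : ℝ) : ℂ) * I) ^ (p - q) = 1 := by
    rw [zpow_sub₀ (Complex.exp_ne_zero _), h1, div_self]
    exact zpow_ne_zero _ (Complex.exp_ne_zero _)
  rw [← Complex.exp_int_mul] at h2
  have h3 : ((p - q : ℤ) : ℂ) * (((Real.pi / ((p - q : ℤ) : ℝ) : ℝ) : ℂ) * I) = Real.pi * I := by
    have h4 : ((p - q : ℤ) : ℂ) ≠ 0 := by exact_mod_cast sub_ne_zero.2 hne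
    rw [Complex.ofReal_div, Complex.ofReal_intCast]
    field_simp
  rw [h3, Complex.exp_pi_mul_I] at h2
  norm_num at h2

/-- Vectors of an isotypic component. -/
theorem iso_coeff {m k : ℤ} {v : VV} (hv : v ∈ MM.iso m k) (n : ℕ) :
    (v.1.coeff n ≠ 0 → m = -(2 * n + 1) ∧ k = 1) ∧
    (v.2.coeff n ≠ 0 → m = -(2 * n + 1) ∧ k = -1) := by
  have hrot : ∀ θ : ℝ, ‖exp ((θ : ℂ) * I)‖ = 1 := fun θ => Complex.norm_exp_ofReal_mul_I θ
  have hk : ∀ s t : ℝ, kactV ((rot s, rot t) : GG) v
      = (exp (s * I) ^ m * exp (t * I) ^ k) • v := by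
    intro s t
    have h := hv ⟨(rot s, rot t), rot_mem s t⟩
    rw [MM_kact, chi_eq] at h
    simpa only [al_rot] using h
  have hz : exp (((0 : ℝ) : ℂ) * I) = 1 := by simp
  constructor
  · intro hne
    have hc : ∀ s t : ℝ, exp (t * I) * exp (s * I) ^ (-(2 * (n : ℤ) + 1))
        = exp (s * I) ^ m * exp (t * I) ^ k := by
      intro s t
      have h := congrArg (fun w : VV => w.1.coeff n) (hk s t)
      simp only [Prod.smul_fst, Polynomial.coeff_smul, smul_eq_mul] at h
      rw [(m3_kactV_coeff _ _ _).1] at h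
      simp only [al_rot] at h
      rw [m3_conj_pow (hrot s)] at h
      exact mul_right_cancel₀ hne h
    constructor
    · apply m3_exp
      intro θ
      have h := hc θ 0
      rw [hz, _root_.one_zpow, mul_one, one_mul] at h
      exact h.symm
    · apply m3_exp
      intro θ
      have h := hc 0 θ
      rw [hz, _root_.one_zpow, _root_.one_zpow, mul_one, one_mul] at h
      rw [zpow_one]
      exact h.symm
  · intro hne
    have hc : ∀ s t : ℝ, (exp (t * I))⁻¹ * exp (s * I) ^ (-(2 * (n : ℤ) + 1))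
        = exp (s * I) ^ m * exp (t * I) ^ k := by
      intro s t
      have h := congrArg (fun w : VV => w.2.coeff n) (hk s t)
      simp only [Prod.smul_snd, Polynomial.coeff_smul, smul_eq_mul] at h
      rw [(m3_kactV_coeff _ _ _).2] at h
      simp only [al_rot] at h
      rw [m3_conj_pow (hrot s), m3_conj (hrot t)] at h
      exact mul_right_cancel₀ hne h
    constructor
    · apply m3_exp
      intro θ
      have h := hc θ 0
      rw [hz, _root_.one_zpow, mul_one, inv_one, one_mul] at h
      exact h.symm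
    · apply m3_exp
      intro θ
      have h := hc 0 θ
      rw [hz, _root_.one_zpow, _root_.one_zpow, mul_one, one_mul] at h
      rw [_root_.zpow_neg_one]
      exact h.symm

lemma m3_D1_zero (f : Polynomial ℂ) : D1 0 f = 0 := by
  rw [D1_apply]
  simp [c0, c1, th, bb]
  have h0 : (⟨0, 0⟩ : ℂ) = 0 := rfl
  simp [h0]

lemma m3_D1_A {X : slR} (h1 : th X = 0) (h2 : bb X = 1) (n : ℕ) (c : ℂ) :
    D1 X (Polynomial.monomial n c) =
      Polynomial.monomial (n + 1) ((n + 1 : ℂ) * c) - Polynomial.monomial (n - 1) ((n : ℂ) * c) := by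
  rw [D1_apply]
  simp only [c0, c1, h1, h2, Polynomial.derivative_monomial]
  rcases n with _ | n
  · simp [← Polynomial.C_mul_X_eq_monomial]
  · simp only [Nat.add_sub_cancel]
    simp [add_mul, Polynomial.X_mul_monomial, Polynomial.X_pow_mul_monomial]
    have e : Polynomial.monomial (n + 2) (c * ((n : ℂ) + 1)) =
        (Polynomial.monomial (n + 1 + 1) ((n : ℂ) * c + c)) := by
      congr 1; ring
    rw [e]
    simp [mul_add, mul_comm]
    ring

theorem MM_isHC : MM.IsHC := by
  constructor
  · refine ⟨{mono 0 (1, 0)}, ?_⟩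
    intro W hS hW
    have h0 : mono 0 (1, 0) ∈ W := hS _ (by simp)
    obtain ⟨A, hA1, hA2⟩ := exists_slR 0 1
    have hswap : ∀ v : VV, v ∈ W → ((v.2, v.1) : VV) ∈ W := by
      intro v hv
      have := hW (0, A) v hv
      rw [MM_act, actV_apply] at this
      simpa [hA1, hA2, m3_D1_zero] using this
    have hth0 : th (0 : slR) = 0 := by simp [th]
    have hbb0 : bb (0 : slR) = 0 := by
      simp [bb]; rfl
    have hstep : ∀ n : ℕ, mono n (1, 0) ∈ W → mono (n - 1) (1, 0) ∈ W →
        mono (n + 1) (1, 0) ∈ W := by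
      intro n h1 h2
      have h3 := hW (A, 0) _ h1
      rw [MM_act, actV_apply] at h3
      have h4 : ((D1 A (mono n (1, 0)).1 + (I * (th (0 : slR) : ℂ)) • (mono n (1, 0)).1
          + bb (0 : slR) • (mono n (1, 0)).2,
          D1 A (mono n (1, 0)).2 + conj (bb (0 : slR)) • (mono n (1, 0)).1
          - (I * (th (0 : slR) : ℂ)) • (mono n (1, 0)).2) : VV)
          = ((n : ℂ) + 1) • mono (n + 1) (1, 0) - (n : ℂ) • mono (n - 1) (1, 0) := by
        rw [hth0, hbb0, mono_apply, mono_apply, mono_apply]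
        apply Prod.ext
        · simp [m3_D1_A hA1 hA2]
          simp [Polynomial.smul_monomial]
        · simp
      have h3' : ((n : ℂ) + 1) • mono (n + 1) (1, 0) - (n : ℂ) • mono (n - 1) (1, 0) ∈ W := by
        rw [← h4]; exact h3
      have h5 := W.add_mem h3' (W.smul_mem (n : ℂ) h2)
      rw [sub_add_cancel] at h5
      have hn : ((n : ℂ) + 1) ≠ 0 := by exact_mod_cast Nat.succ_ne_zero n
      have h6 := W.smul_mem ((n : ℂ) + 1)⁻¹ h5
      rwa [smul_smul, inv_mul_cancel₀ hn, one_smul] at h6
    have hmono : ∀ n : ℕ, mono n (1, 0) ∈ W ∧ mono (n + 1) (1, 0) ∈ W := by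
      intro n
      induction n with
      | zero => exact ⟨h0, hstep 0 h0 h0⟩
      | succ n ih => exact ⟨ih.2, hstep (n + 1) ih.2 ih.1⟩
    have hp : ∀ f : Polynomial ℂ, ((f, 0) : VV) ∈ W := by
      intro f
      induction f using Polynomial.induction_on' with
      | add p q hp hq =>
        have := W.add_mem hp hq
        simpa using this
      | monomial n a =>
        have := W.smul_mem a (hmono n).1
        rw [mono_apply] at this
        simpa [Polynomial.smul_monomial] using this
    rw [eq_top_iff]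
    intro v _
    have h1 := hp v.1
    have h2 := hswap _ (hp v.2)
    have h3 := W.add_mem h1 h2
    simpa using h3
  · intro m k
    set n0 : ℕ := ((-m - 1) / 2).toNat with hn0
    have hle : MM.iso m k ≤ LinearMap.range (mono n0) := by
      intro v hv
      have hc := iso_coeff hv
      have hn : ∀ n : ℕ, n ≠ n0 → v.1.coeff n = 0 ∧ v.2.coeff n = 0 := by
        intro n hne
        have hm : m ≠ -(2 * (n : ℤ) + 1) := by
          intro hm
          apply hne
          rw [hn0, hm]
          have : (-(-(2 * (n : ℤ) + 1)) - 1) / 2 = n := by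
            have e : (-(-(2 * (n : ℤ) + 1)) - 1) = 2 * (n : ℤ) := by ring
            rw [e, Int.mul_ediv_cancel_left _ (by norm_num)]
          rw [this, Int.toNat_natCast]
        constructor
        · by_contra h
          exact hm ((hc n).1 h).1
        · by_contra h
          exact hm ((hc n).2 h).1
      refine ⟨(v.1.coeff n0, v.2.coeff n0), ?_⟩
      rw [mono_apply]
      apply Prod.ext
      · apply Polynomial.ext
        intro n
        rw [Polynomial.coeff_monomial]
        by_cases h : n0 = n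
        · subst h; simp
        · rw [if_neg h, (hn n (Ne.symm h)).1]
      · apply Polynomial.ext
        intro n
        rw [Polynomial.coeff_monomial]
        by_cases h : n0 = n
        · subst h; simp
        · rw [if_neg h, (hn n (Ne.symm h)).2]
    exact Submodule.finiteDimensional_of_le hle

end Pool.SG
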