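import Pool.Agent.Helper71.SG.WG1

open Complex Set Filter Topology Matrix ComplexConjugate
open scoped ENNReal NNReal Nat

noncomputable section

namespace Pool.SG

lemma wg2_AdS_smul (g : SLR) (r : ℝ) (X : slR) : AdS g (r • X) = r • AdS g X := by
  apply Subtype.ext
  show (g : Mat2) * (r • (X : Mat2)) * ((g⁻¹ : SLR) : Mat2)
    = r • ((g : Mat2) * (X : Mat2) * ((g⁻¹ : SLR) : Mat2))
  rw [Matrix.mul_smul, Matrix.smul_mul]

lemma wg2_Ad_smul (g : GG) (r : ℝ) (X : gg) : Ad g (r • X) = r • Ad g X := by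
  apply Prod.ext
  · exact wg2_AdS_smul _ _ _
  · exact wg2_AdS_smul _ _ _

lemma wg2_AdS_mul (g h : SLR) (X : slR) : AdS (g * h) X = AdS g (AdS h X) := by
  apply Subtype.ext
  show ((g * h : SLR) : Mat2) * (X : Mat2) * (((g * h)⁻¹ : SLR) : Mat2)
    = (g : Mat2) * ((h : Mat2) * (X : Mat2) * ((h⁻¹ : SLR) : Mat2)) * ((g⁻¹ : SLR) : Mat2)
  rw [_root_.mul_inv_rev, Matrix.SpecialLinearGroup.coe_mul, Matrix.SpecialLinearGroup.coe_mul]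
  simp only [Matrix.mul_assoc]

lemma wg2_Ad_mul (g h : GG) (X : gg) : Ad (g * h) X = Ad g (Ad h X) := by
  apply Prod.ext
  · exact wg2_AdS_mul _ _ _
  · exact wg2_AdS_mul _ _ _

lemma wg2_lieNorm_nonneg (X : gg) : 0 ≤ lieNorm X := Real.sqrt_nonneg _

lemma wg2_lieNorm_smul (r : ℝ) (X : gg) : lieNorm (r • X) = |r| * lieNorm X := by
  rw [lieNorm_eq, lieNorm_eq]
  have e : 2 * (th (r • X).1 ^ 2 + ‖bb (r • X).1‖ ^ 2 + th (r • X).2 ^ 2 + ‖bb (r • X).2‖ ^ 2)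
      = r ^ 2 * (2 * (th X.1 ^ 2 + ‖bb X.1‖ ^ 2 + th X.2 ^ 2 + ‖bb X.2‖ ^ 2)) := by
    have h1 : th (r • X).1 = r * th X.1 := th_smul r X.1
    have h2 : bb (r • X).1 = (r : ℂ) * bb X.1 := bb_smul r X.1
    have h3 : th (r • X).2 = r * th X.2 := th_smul r X.2
    have h4 : bb (r • X).2 = (r : ℂ) * bb X.2 := bb_smul r X.2
    rw [h1, h2, h3, h4, norm_mul, norm_mul, Complex.norm_real, Real.norm_eq_abs, mul_pow, mul_pow,
      mul_pow, mul_pow, sq_abs]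
    ring
  rw [e, Real.sqrt_mul (sq_nonneg r), Real.sqrt_sq_eq_abs]

/-- Bound of one factor. -/
lemma wg2_factor (g : SLR) (X : slR) :
    th (AdS g X) ^ 2 + ‖bb (AdS g X)‖ ^ 2 ≤ 2 * NN g ^ 4 * (th X ^ 2 + ‖bb X‖ ^ 2) := by
  set T := |th X| with hT
  set B := ‖bb X‖ with hB
  have ha := norm_nonneg (al g)
  have hb := norm_nonneg (be g)
  have hT0 : 0 ≤ T := abs_nonneg _
  have hB0 : 0 ≤ B := norm_nonneg _
  have h1 : |th (AdS g X)| ≤ T * (‖al g‖ ^ 2 + ‖be g‖ ^ 2) + 2 * (‖al g‖ * ‖be g‖ * B) := by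
    rw [th_AdS]
    refine (abs_add_le _ _).trans ?_
    rw [abs_mul, abs_mul, abs_of_nonneg (by positivity : (0:ℝ) ≤ ‖al g‖ ^ 2 + ‖be g‖ ^ 2),
      abs_of_nonneg (by norm_num : (0:ℝ) ≤ 2)]
    have : |(conj (al g) * be g * conj (bb X)).im| ≤ ‖al g‖ * ‖be g‖ * B := by
      refine (Complex.abs_im_le_norm _).trans ?_
      rw [norm_mul, norm_mul, RCLike.norm_conj, RCLike.norm_conj]
    gcongr
  have h2 : ‖bb (AdS g X)‖ ≤ 2 * T * ‖al g‖ * ‖be g‖ + ‖al g‖ ^ 2 * B + ‖be g‖ ^ 2 * B := by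
    rw [bb_AdS]
    refine (norm_sub_le _ _).trans ?_
    have e1 : ‖be g ^ 2 * conj (bb X)‖ = ‖be g‖ ^ 2 * B := by
      rw [norm_mul, norm_pow, RCLike.norm_conj]
    have e2 : ‖-(2 * I * (th X : ℂ) * al g * be g) + al g ^ 2 * bb X‖
        ≤ 2 * T * ‖al g‖ * ‖be g‖ + ‖al g‖ ^ 2 * B := by
      refine (norm_add_le _ _).trans ?_
      rw [norm_neg, norm_mul, norm_mul, norm_mul, norm_mul, norm_mul, norm_pow, Complex.norm_I,
        Complex.norm_real, Real.norm_eq_abs]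
      simp [hT, hB]
    rw [e1]
    linarith
  have h3 : |th (AdS g X)| + ‖bb (AdS g X)‖ ≤ NN g ^ 2 * (T + B) := by
    rw [NN]
    nlinarith
  have h4 : th (AdS g X) ^ 2 + ‖bb (AdS g X)‖ ^ 2 ≤ (|th (AdS g X)| + ‖bb (AdS g X)‖) ^ 2 := by
    rw [← sq_abs (th (AdS g X))]
    nlinarith [abs_nonneg (th (AdS g X)), norm_nonneg (bb (AdS g X))]
  have h5 : (|th (AdS g X)| + ‖bb (AdS g X)‖) ^ 2 ≤ (NN g ^ 2 * (T + B)) ^ 2 := by
    gcongr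
  have h6 : (T + B) ^ 2 ≤ 2 * (T ^ 2 + B ^ 2) := by nlinarith [sq_nonneg (T - B)]
  have h7 : (NN g ^ 2 * (T + B)) ^ 2 = NN g ^ 4 * (T + B) ^ 2 := by ring
  have h8 : NN g ^ 4 * (T + B) ^ 2 ≤ NN g ^ 4 * (2 * (T ^ 2 + B ^ 2)) := by gcongr
  have h9 : T ^ 2 = th X ^ 2 := sq_abs _
  rw [h9] at h8
  calc _ ≤ _ := h4
    _ ≤ _ := h5
    _ = _ := h7
    _ ≤ _ := h8
    _ = _ := by ring

lemma wg2_bound (g : GG) (X : gg) :
    lieNorm (Ad g X) ≤ 2 * (NN g.1 ^ 2 + NN g.2 ^ 2) * lieNorm X := by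
  have h1 := wg2_factor g.1 X.1
  have h2 := wg2_factor g.2 X.2
  rw [lieNorm_eq, lieNorm_eq]
  set S := 2 * (th X.1 ^ 2 + ‖bb X.1‖ ^ 2 + th X.2 ^ 2 + ‖bb X.2‖ ^ 2) with hS
  have hS0 : 0 ≤ S := by positivity
  have hc : 0 ≤ 2 * (NN g.1 ^ 2 + NN g.2 ^ 2) := by positivity
  apply Real.sqrt_le_iff.2
  constructor
  · positivity
  · rw [mul_pow, Real.sq_sqrt hS0]
    show 2 * (th (AdS g.1 X.1) ^ 2 + ‖bb (AdS g.1 X.1)‖ ^ 2 + th (AdS g.2 X.2) ^ 2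
      + ‖bb (AdS g.2 X.2)‖ ^ 2) ≤ _
    have p1 : 0 ≤ th X.1 ^ 2 + ‖bb X.1‖ ^ 2 := by positivity
    have p2 : 0 ≤ th X.2 ^ 2 + ‖bb X.2‖ ^ 2 := by positivity
    have q1 : 2 * NN g.1 ^ 4 ≤ 2 * (NN g.1 ^ 2 + NN g.2 ^ 2) ^ 2 := by
      nlinarith [sq_nonneg (NN g.1), sq_nonneg (NN g.2), mul_nonneg (sq_nonneg (NN g.1))
        (sq_nonneg (NN g.2)), sq_nonneg (NN g.2 ^ 2)]
    have q2 : 2 * NN g.2 ^ 4 ≤ 2 * (NN g.1 ^ 2 + NN g.2 ^ 2) ^ 2 := by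
      nlinarith [sq_nonneg (NN g.1), sq_nonneg (NN g.2), mul_nonneg (sq_nonneg (NN g.1))
        (sq_nonneg (NN g.2)), sq_nonneg (NN g.1 ^ 2)]
    have r1 := mul_le_mul_of_nonneg_right q1 p1
    have r2 := mul_le_mul_of_nonneg_right q2 p2
    have r3 : 0 ≤ (NN g.1 ^ 2 + NN g.2 ^ 2) ^ 2 * S := by positivity
    calc _ ≤ 2 * (2 * (NN g.1 ^ 2 + NN g.2 ^ 2) ^ 2 * (th X.1 ^ 2 + ‖bb X.1‖ ^ 2)
          + 2 * (NN g.1 ^ 2 + NN g.2 ^ 2) ^ 2 * (th X.2 ^ 2 + ‖bb X.2‖ ^ 2)) := by linarith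
      _ = 2 * ((NN g.1 ^ 2 + NN g.2 ^ 2) ^ 2 * S) := by rw [hS]; ring
      _ ≤ _ := by linarith

theorem ad_bdd (g : GG) : BddAbove {r | ∃ X : gg, lieNorm X ≤ 1 ∧ r = lieNorm (Ad g X)} := by
  refine ⟨2 * (NN g.1 ^ 2 + NN g.2 ^ 2), ?_⟩
  rintro r ⟨X, hX, rfl⟩
  refine (wg2_bound g X).trans ?_
  have hc : 0 ≤ 2 * (NN g.1 ^ 2 + NN g.2 ^ 2) := by positivity
  nlinarith

lemma wg2_nonempty (g : GG) :
    {r | ∃ X : gg, lieNorm X ≤ 1 ∧ r = lieNorm (Ad g X)}.Nonempty := by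
  refine ⟨_, 0, ?_, rfl⟩
  have : lieNorm 0 = 0 := by
    have h := wg2_lieNorm_smul 0 0
    rwa [zero_smul, abs_zero, zero_mul] at h
  rw [this]
  norm_num

lemma wg2_adNorm_le (g : GG) : adNorm g ≤ 2 * (NN g.1 ^ 2 + NN g.2 ^ 2) := by
  apply csSup_le (wg2_nonempty g)
  rintro r ⟨X, hX, rfl⟩
  refine (wg2_bound g X).trans ?_
  have hc : 0 ≤ 2 * (NN g.1 ^ 2 + NN g.2 ^ 2) := by positivity
  nlinarith

lemma wg2_le_adNorm (g : GG) (X : gg) : lieNorm (Ad g X) ≤ adNorm g * lieNorm X := by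
  rcases (wg2_lieNorm_nonneg X).eq_or_lt with h | h
  · have := wg2_bound g X
    rw [← h, mul_zero] at this
    rw [← h, mul_zero]
    exact this
  · have h1 : lieNorm (Ad g ((lieNorm X)⁻¹ • X)) ≤ adNorm g := by
      apply le_csSup (ad_bdd g)
      refine ⟨(lieNorm X)⁻¹ • X, ?_, rfl⟩
      rw [wg2_lieNorm_smul, abs_of_pos (inv_pos.2 h), inv_mul_cancel₀ h.ne']
    rw [wg2_Ad_smul, wg2_lieNorm_smul, abs_of_pos (inv_pos.2 h), inv_mul_le_iff₀ h] at h1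
    linarith

theorem adNorm_lower (g : GG) : NN g.2 ^ 2 / 2 ≤ adNorm g := by
  obtain ⟨X, hX1, hX2⟩ := exists_slR (1 / Real.sqrt 2) 0
  obtain ⟨Z, hZ1, hZ2⟩ := exists_slR 0 0
  have hs : (Real.sqrt 2) ^ 2 = 2 := Real.sq_sqrt (by norm_num)
  have hs0 : 0 < Real.sqrt 2 := Real.sqrt_pos.2 (by norm_num)
  have hn : lieNorm (Z, X) = 1 := by
    rw [lieNorm_eq]
    simp only [hX1, hX2, hZ1, hZ2, norm_zero]
    rw [div_pow, hs]
    norm_num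
  have h1 := wg2_le_adNorm g (Z, X)
  rw [hn, mul_one] at h1
  refine le_trans ?_ h1
  rw [lieNorm_eq]
  apply Real.le_sqrt_of_sq_le
  show _ ≤ 2 * (th (AdS g.1 Z) ^ 2 + ‖bb (AdS g.1 Z)‖ ^ 2 + th (AdS g.2 X) ^ 2
      + ‖bb (AdS g.2 X)‖ ^ 2)
  have e1 : th (AdS g.2 X) = 1 / Real.sqrt 2 * (‖al g.2‖ ^ 2 + ‖be g.2‖ ^ 2) := by
    rw [th_AdS, hX1, hX2]
    simp
  have e2 : ‖bb (AdS g.2 X)‖ = 1 / Real.sqrt 2 * (2 * ‖al g.2‖ * ‖be g.2‖) := by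
    rw [bb_AdS, hX1, hX2]
    simp only [map_zero, mul_zero, sub_zero, add_zero, norm_neg, norm_mul, Complex.norm_I,
      Complex.norm_real, Real.norm_eq_abs]
    rw [abs_of_pos (by positivity)]
    simp
    ring
  have e3 : th (AdS g.2 X) ^ 2 = (‖al g.2‖ ^ 2 + ‖be g.2‖ ^ 2) ^ 2 / 2 := by
    rw [e1, mul_pow, div_pow, hs]; ring
  have e4 : ‖bb (AdS g.2 X)‖ ^ 2 = (2 * ‖al g.2‖ * ‖be g.2‖) ^ 2 / 2 := by
    rw [e2, mul_pow, div_pow, hs]; ring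
  rw [e3, e4, NN]
  have p1 : 0 ≤ th (AdS g.1 Z) ^ 2 + ‖bb (AdS g.1 Z)‖ ^ 2 := by positivity
  have ha := norm_nonneg (al g.2)
  have hb := norm_nonneg (be g.2)
  nlinarith [sq_nonneg ((‖al g.2‖ ^ 2 + ‖be g.2‖ ^ 2) - 2 * ‖al g.2‖ * ‖be g.2‖),
    sq_nonneg ((‖al g.2‖ ^ 2 + ‖be g.2‖ ^ 2) + 2 * ‖al g.2‖ * ‖be g.2‖)]

lemma wg2_adNorm_pos (g : GG) : 0 < adNorm g := by
  have h1 := adNorm_lower g
  have h2 := one_le_NN g.2
  nlinarith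

lemma wg2_adNorm_mul (g h : GG) : adNorm (g * h) ≤ adNorm g * adNorm h := by
  apply csSup_le (wg2_nonempty _)
  rintro r ⟨X, hX, rfl⟩
  rw [wg2_Ad_mul]
  have h1 := wg2_le_adNorm g (Ad h X)
  have h2 := wg2_le_adNorm h X
  have h3 := (wg2_adNorm_pos g).le
  have h4 := (wg2_adNorm_pos h).le
  calc _ ≤ _ := h1
    _ ≤ adNorm g * (adNorm h * lieNorm X) := by gcongr
    _ ≤ adNorm g * (adNorm h * 1) := by gcongr
    _ = _ := by ring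

/-- `w_t` is a weight. -/
theorem wt_isWeight {w : GG → ℝ} (hw : IsWeight w) {t : ℝ} (ht : 0 ≤ t) : IsWeight (wt w t) := by
  constructor
  · intro g
    exact mul_pos (hw.pos g) (Real.rpow_pos_of_pos (wg2_adNorm_pos g) t)
  · intro g h
    unfold wt
    have h1 : adNorm (g * h) ^ t ≤ adNorm g ^ t * adNorm h ^ t := by
      rw [← Real.mul_rpow (wg2_adNorm_pos g).le (wg2_adNorm_pos h).le]
      exact Real.rpow_le_rpow (wg2_adNorm_pos _).le (wg2_adNorm_mul g h) ht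
    have h2 := hw.mul_le g h
    have h3 : 0 ≤ adNorm (g * h) ^ t := (Real.rpow_pos_of_pos (wg2_adNorm_pos _) t).le
    have h4 : 0 ≤ w g * w h := (mul_pos (hw.pos g) (hw.pos h)).le
    calc w (g * h) * adNorm (g * h) ^ t ≤ (w g * w h) * (adNorm g ^ t * adNorm h ^ t) :=
          mul_le_mul h2 h1 h3 h4
      _ = _ := by ring
  · intro g
    obtain ⟨C, hC⟩ := hw.locBdd g
    have hN : Continuous NN := by
      unfold NN
      exact continuous_al.norm.add continuous_be.norm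
    have hc : Continuous fun h : GG => 2 * (NN h.1 ^ 2 + NN h.2 ^ 2) := by
      have h1 : Continuous fun h : GG => NN h.1 := hN.comp continuous_fst
      have h2 : Continuous fun h : GG => NN h.2 := hN.comp continuous_snd
      fun_prop
    have h1 : ∀ᶠ h in 𝓝 g, 2 * (NN h.1 ^ 2 + NN h.2 ^ 2) < 2 * (NN g.1 ^ 2 + NN g.2 ^ 2) + 1 :=
      hc.continuousAt.eventually_lt continuousAt_const (by linarith)
    refine ⟨max C 0 * (2 * (NN g.1 ^ 2 + NN g.2 ^ 2) + 1) ^ t, ?_⟩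
    filter_upwards [hC, h1] with h hh1 hh2
    unfold wt
    have h3 : adNorm h ≤ 2 * (NN g.1 ^ 2 + NN g.2 ^ 2) + 1 := (wg2_adNorm_le h).trans hh2.le
    have h4 : adNorm h ^ t ≤ (2 * (NN g.1 ^ 2 + NN g.2 ^ 2) + 1) ^ t :=
      Real.rpow_le_rpow (wg2_adNorm_pos h).le h3 ht
    exact mul_le_mul (hh1.trans (le_max_left _ _)) h4
      (Real.rpow_pos_of_pos (wg2_adNorm_pos h) t).le (le_max_right _ _)

/-- The key lower bound for `w_{1/2}`. -/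
theorem wt_lower (M : ℕ) (g : GG) : NN g.1 ^ M * NN g.2 ≤ 2 * wt (ww M) (1 / 2) g := by
  have h1 := adNorm_lower g
  have h2 := one_le_NN g.2
  have h3 := one_le_NN g.1
  have h4 : NN g.2 / 2 ≤ adNorm g ^ (1 / 2 : ℝ) := by
    rw [← Real.sqrt_eq_rpow]
    apply Real.le_sqrt_of_sq_le
    nlinarith
  have h5 : NN g.1 ^ M ≤ ww M g := le_max_right _ _
  have h6 : 0 ≤ NN g.1 ^ M := by positivity
  unfold wt
  have h7 : NN g.1 ^ M * (NN g.2 / 2) ≤ ww M g * adNorm g ^ (1 / 2 : ℝ) :=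
    mul_le_mul h5 h4 (by linarith) (h6.trans h5)
  linarith

end Pool.SG
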