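import Pool.Agent.Helper71.SG.GAP
import Pool.Agent.Helper71.SG.WG2
import Pool.Agent.Helper71.SG.M3

open Complex Set Filter Topology Matrix ComplexConjugate
open scoped ENNReal NNReal Nat

noncomputable section

namespace Pool.SG

lemma ww_pos (M : ℕ) (g : GG) : 0 < ww M g := (ww_isWeight M).pos g

lemma crit_ww (M : ℕ) {P : Seminorm ℂ AA} (h1 : Tame P)
    (h2 : ∀ g F, P (TT g F) ≤ NN g.1 ^ (2 * (1 / 2 : ℝ) - 1) * NN g.2 * P F)
    (h3 : ∀ f : VV, P (inc f) = 0 → f = 0) : Crit (ww M) P := by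
  refine ⟨h1, ⟨1, one_pos, fun g F => (h2 g F).trans ?_⟩, h3⟩
  have h4 : NN g.1 ^ (2 * (1 / 2 : ℝ) - 1) = 1 := by norm_num
  rw [h4, one_mul, one_mul]
  have : NN g.2 ≤ ww M g := le_max_left _ _
  have h5 : 0 ≤ P F := apply_nonneg P F
  gcongr

lemma crit_wt (M : ℕ) {β : ℝ} (hβ : 1 / 2 ≤ β) (hM : 2 * β - 1 ≤ M) {P : Seminorm ℂ AA}
    (h1 : Tame P) (h2 : ∀ g F, P (TT g F) ≤ NN g.1 ^ (2 * β - 1) * NN g.2 * P F)
    (h3 : ∀ f : VV, P (inc f) = 0 → f = 0) : Crit (wt (ww M) (1 / 2)) P := by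
  refine ⟨h1, ⟨2, two_pos, fun g F => (h2 g F).trans ?_⟩, h3⟩
  have h4 : NN g.1 ^ (2 * β - 1) ≤ NN g.1 ^ M := by
    rw [← Real.rpow_natCast]
    exact Real.rpow_le_rpow_of_exponent_le (one_le_NN _) hM
  have h5 : 0 ≤ P F := apply_nonneg P F
  have h6 : 0 ≤ NN g.2 := zero_le_one.trans (one_le_NN _)
  calc NN g.1 ^ (2 * β - 1) * NN g.2 * P F ≤ (NN g.1 ^ M * NN g.2) * P F := by gcongr
    _ ≤ (2 * wt (ww M) (1 / 2) g) * P F := mul_le_mul_of_nonneg_right (wt_lower M g) h5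

/-- The main theorem. -/
theorem main (C : ℝ) : ∃ w : GG → ℝ, IsWeight w ∧
    (∃ s, MM.IsGap w s) ∧ (∃ s, MM.IsGap (wt w (1 / 2)) s) ∧
    ∀ s s', MM.IsGap w s → MM.IsGap (wt w (1 / 2)) s' → s + ENNReal.ofReal (C * (1 / 2)) < s' := by
  obtain ⟨M, hM⟩ := exists_nat_gt (2 * (3 + |C|))
  have hC := abs_nonneg C
  have hw := ww_isWeight M
  have hw' := wt_isWeight hw (t := 1 / 2) (by norm_num)
  obtain ⟨P0, hT0, hg0, hp0, ⟨C0, hC0, hu0⟩, c0, hc0, hl0⟩ := exists_beta (1 / 2) le_rfl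
  have hβ : (1 / 2 : ℝ) ≤ ((M : ℝ) + 1) / 2 := by linarith
  obtain ⟨P1, hT1, hg1, hp1, ⟨C1, hC1, hu1⟩, c1, hc1, hl1⟩ := exists_beta (((M : ℝ) + 1) / 2) hβ
  have hcrit0 : Crit (ww M) P0 := crit_ww M hT0 hg0 hp0
  have hcrit0' : Crit (wt (ww M) (1 / 2)) P0 := by
    refine crit_wt M le_rfl ?_ hT0 hg0 hp0
    have : (0 : ℝ) ≤ M := Nat.cast_nonneg M
    linarith
  have hcrit1 : Crit (wt (ww M) (1 / 2)) P1 :=
    crit_wt M hβ (by linarith) hT1 hg1 hp1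
  have hn0 := crit_isNorm hw' hcrit0'
  have hn1 := crit_isNorm hw' hcrit1
  refine ⟨ww M, hw, ?_, ?_, ?_⟩
  · obtain ⟨p, q, hp, hq⟩ := exists_minmax hw hcrit0
    exact ⟨_, p, q, hp, hq, rfl⟩
  · obtain ⟨p, q, hp, hq⟩ := exists_minmax hw' hcrit0'
    exact ⟨_, p, q, hp, hq, rfl⟩
  · rintro s s' ⟨p, q, hp, hq, rfl⟩ ⟨p', q', hp', hq', rfl⟩
    have hup : MM.dist p q ≤ 3 := by
      refine max_le ?_ ?_
      · have := leSob_three M hp.1 hq.1
        exact iInf₂_le_of_le (3 : ℝ≥0) (by simpa using this) (by norm_num)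
      · have := leSob_three M hq.1 hp.1
        exact iInf₂_le_of_le (3 : ℝ≥0) (by simpa using this) (by norm_num)
    have hlow : ENNReal.ofReal ((M : ℝ) / 2) ≤ MM.dist p' q' := by
      refine le_max_of_le_right ?_
      refine le_iInf₂ fun s hs => ?_
      have h := le_of_leSob (s := (s : ℝ)) (β := ((M : ℝ) + 1) / 2) (NNReal.coe_nonneg s) ⟨c0, hc0, hl0⟩ ⟨C1, hC1, hu1⟩
        (hq'.2 _ hn0) (hp'.2 _ hn1) hs
      rw [ENNReal.ofReal_le_iff_le_toReal ENNReal.coe_ne_top]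
      have : ((s : ℝ≥0∞)).toReal = (s : ℝ) := rfl
      rw [this]
      linarith
    calc MM.dist p q + ENNReal.ofReal (C * (1 / 2))
        ≤ 3 + ENNReal.ofReal (|C| * (1 / 2)) := by
          gcongr
          exact le_abs_self C
      _ = ENNReal.ofReal (3 + |C| * (1 / 2)) := by
          rw [ENNReal.ofReal_add (by norm_num) (by positivity)]
          norm_num
      _ < ENNReal.ofReal ((M : ℝ) / 2) := by
          rw [ENNReal.ofReal_lt_ofReal_iff]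
          · linarith
          · linarith
      _ ≤ _ := hlow

end Pool.SG
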