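import Pool.Agent.Helper71.SG.SOB

open Complex Set Filter Topology Matrix ComplexConjugate
open scoped ENNReal NNReal Nat

noncomputable section

namespace Pool.SG

/-- The Sobolev distance of the sup norms. -/
theorem le_of_leSob {s : ℝ} (hs : 0 ≤ s) {β : ℝ} {P Q : Seminorm ℂ AA}
    (hP : ∃ c, 0 < c ∧ ∀ (n : ℕ) (u : ℂ × ℂ), c * ((n : ℝ) + 1) ^ (-(1 / 2 : ℝ)) * ‖u‖ ≤ P (inc (mono n u)))
    (hQ : ∃ C, 0 < C ∧ ∀ (n : ℕ) (u : ℂ × ℂ), Q (inc (mono n u)) ≤ C * ((n : ℝ) + 1) ^ (-β) * ‖u‖)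
    {p q : Seminorm ℂ VV} (hp : ∃ C, ∀ f, P (inc f) ≤ C * p f) (hq : ∃ C, ∀ f, q f ≤ C * Q (inc f))
    (h : MM.LeSob s p q) : β - 1 / 2 ≤ s := by
  obtain ⟨c, hc, hP⟩ := hP
  obtain ⟨C4, hC4, hQ⟩ := hQ
  obtain ⟨C1, hp⟩ := hp
  obtain ⟨C3, hq⟩ := hq
  obtain ⟨D, hD, C2, h⟩ := h
  obtain ⟨C5, hC5, hsg⟩ := sg_upper s hs
  obtain ⟨c6, hc6, hsl⟩ := sg_lower s hs
  by_contra hlt
  push Not at hlt
  set K : ℝ := |C1| * |C2| * |C3| * C4 * C5 with hK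
  have hK0 : 0 ≤ K := by positivity
  have hu : ‖((1, 0) : ℂ × ℂ)‖ = 1 := by simp [Prod.norm_def]
  have key : ∀ n : ℕ, c ≤ K * ((n : ℝ) + 1) ^ (-(β - 1 / 2 - s)) := by
    intro n
    have hn : (0 : ℝ) < (n : ℝ) + 1 := by positivity
    set v := mono n ((1, 0) : ℂ × ℂ) with hv
    have hsg0 : 0 ≤ sg s n := le_trans (by positivity) (hsl n)
    have e1 := hP n (1, 0)
    rw [hu, mul_one] at e1
    have e2 : P (inc v) ≤ |C1| * p v :=
      (hp v).trans (mul_le_mul_of_nonneg_right (le_abs_self C1) (apply_nonneg p v))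
    have e3 : p v ≤ |C2| * q (D v) :=
      (h v).trans (mul_le_mul_of_nonneg_right (le_abs_self C2) (apply_nonneg q _))
    have e4 : q (D v) = sg s n * q v := by
      rw [sob_mono hD n (1, 0), map_smul_eq_mul, Complex.norm_real, Real.norm_of_nonneg hsg0]
    have e5 : q v ≤ |C3| * Q (inc v) :=
      (hq v).trans (mul_le_mul_of_nonneg_right (le_abs_self C3) (apply_nonneg Q _))
    have e6 := hQ n (1, 0)
    rw [hu, mul_one] at e6
    have e7 : P (inc v) ≤ |C1| * (|C2| * (sg s n * (|C3| * (C4 * ((n : ℝ) + 1) ^ (-β))))) := by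
      refine e2.trans (mul_le_mul_of_nonneg_left ?_ (abs_nonneg _))
      refine e3.trans (mul_le_mul_of_nonneg_left ?_ (abs_nonneg _))
      rw [e4]
      refine mul_le_mul_of_nonneg_left ?_ hsg0
      exact e5.trans (mul_le_mul_of_nonneg_left e6 (abs_nonneg _))
    have e8 : |C1| * (|C2| * (sg s n * (|C3| * (C4 * ((n : ℝ) + 1) ^ (-β))))) ≤
        K * (((n : ℝ) + 1) ^ s * ((n : ℝ) + 1) ^ (-β)) := by
      have e9 : |C1| * (|C2| * (sg s n * (|C3| * (C4 * ((n : ℝ) + 1) ^ (-β))))) =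
          (|C1| * |C2| * |C3| * C4 * ((n : ℝ) + 1) ^ (-β)) * sg s n := by ring
      have e10 : K * (((n : ℝ) + 1) ^ s * ((n : ℝ) + 1) ^ (-β)) =
          (|C1| * |C2| * |C3| * C4 * ((n : ℝ) + 1) ^ (-β)) * (C5 * ((n : ℝ) + 1) ^ s) := by
        rw [hK]; ring
      rw [e9, e10]
      exact mul_le_mul_of_nonneg_left (hsg n) (by positivity)
    have e11 : c * ((n : ℝ) + 1) ^ (-(1 / 2 : ℝ)) ≤
        K * (((n : ℝ) + 1) ^ s * ((n : ℝ) + 1) ^ (-β)) := (e1.trans e7).trans e8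
    have e12 := mul_le_mul_of_nonneg_right e11 (Real.rpow_nonneg hn.le (1 / 2 : ℝ))
    have e13 : c * ((n : ℝ) + 1) ^ (-(1 / 2 : ℝ)) * ((n : ℝ) + 1) ^ (1 / 2 : ℝ) = c := by
      rw [mul_assoc, ← Real.rpow_add hn]
      norm_num
    have e14 : K * (((n : ℝ) + 1) ^ s * ((n : ℝ) + 1) ^ (-β)) * ((n : ℝ) + 1) ^ (1 / 2 : ℝ) =
        K * ((n : ℝ) + 1) ^ (-(β - 1 / 2 - s)) := by
      rw [mul_assoc, ← Real.rpow_add hn, ← Real.rpow_add hn]
      congr 2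
      ring
    rw [e13, e14] at e12
    exact e12
  have hlim : Tendsto (fun n : ℕ => K * ((n : ℝ) + 1) ^ (-(β - 1 / 2 - s))) atTop (𝓝 (K * 0)) := by
    refine Tendsto.const_mul K ?_
    refine (tendsto_rpow_neg_atTop (show 0 < β - 1 / 2 - s by linarith)).comp ?_
    exact tendsto_atTop_add_const_right _ _ tendsto_natCast_atTop_atTop
  rw [mul_zero] at hlim
  have := ge_of_tendsto' hlim key
  linarith

end Pool.SG
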