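import Pool.Agent.Helper71.SG.TAME

open Complex Set Filter Topology Matrix ComplexConjugate
open scoped ENNReal NNReal Nat

noncomputable section

namespace Pool.SG

theorem tr_bound (A R : ℝ) (hA : 1 ≤ A) (hR : 1 < R) :
    ∃ r, 1 < r ∧ r ≤ R ∧ ∀ g : GG, ‖al g.1‖ ≤ A → ‖al g.2‖ ≤ A →
      ∀ (F : AA) (E : ℂ → ℂ × ℂ) (K : ℝ), IsExt R E F → (∀ z : ℂ, ‖z‖ < R → ‖E z‖ ≤ K) →
        IsExt r (ext g E) (TT g F) ∧ ∀ z : ℂ, ‖z‖ < r → ‖ext g E z‖ ≤ 8 * A ^ 2 * K := by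
  obtain ⟨r, hr1, hrR, hr⟩ := mob_unif A R hA hR
  refine ⟨r, hr1, hrR, ?_⟩
  intro g hg1 hg2 F E K hE hK
  have hA0 : 0 < A := by linarith
  have h4A : 0 < 1 / (4 * A) := by positivity
  refine ⟨?_, ?_⟩
  · have := isExt_ext g hE (r := r) fun z hz => by
      obtain ⟨h1, h2⟩ := hr g.1 hg1 z hz
      refine ⟨fun h => ?_, h2⟩
      rw [h, norm_zero] at h1
      linarith
    exact this
  · intro z hz
    obtain ⟨h1, h2⟩ := hr g.1 hg1 z hz
    have h3 := hK _ h2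
    have hK0 : 0 ≤ K := (norm_nonneg _).trans h3
    have h4 : ‖(jf g.1 z)⁻¹‖ ≤ 4 * A := by
      rw [norm_inv]
      have h5 : (1 / (4 * A))⁻¹ = 4 * A := by field_simp
      rw [← h5]
      exact inv_anti₀ h4A h1
    have h6 : ‖m2 g.2 (E (mob g.1 z))‖ ≤ 2 * A * K := by
      refine (norm_m2_le _ _).trans ?_
      have h7 := (be_lt_al g.2).le
      have h8 : ‖al g.2‖ + ‖be g.2‖ ≤ 2 * A := by linarith
      exact mul_le_mul h8 h3 (norm_nonneg _) (by positivity)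
    calc ‖ext g E z‖ = ‖(jf g.1 z)⁻¹‖ * ‖m2 g.2 (E (mob g.1 z))‖ := by rw [ext, norm_smul]
      _ ≤ (4 * A) * (2 * A * K) := mul_le_mul h4 h6 (norm_nonneg _) (by positivity)
      _ = _ := by ring

theorem tame_comp {P : Seminorm ℂ AA} (hP : Tame P) (g : GG) : Tame (P.comp (TT g)) := by
  intro R hR
  obtain ⟨r, hr1, -, hr⟩ := tr_bound (max ‖al g.1‖ ‖al g.2‖) R
    ((one_le_al g.1).trans (le_max_left _ _)) hR
  obtain ⟨C, hC, hCP⟩ := hP r hr1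
  refine ⟨C * (8 * (max ‖al g.1‖ ‖al g.2‖) ^ 2), by positivity, ?_⟩
  intro F E K hE hK
  obtain ⟨h1, h2⟩ := hr g (le_max_left _ _) (le_max_right _ _) F E K hE hK
  have h3 := hCP (TT g F) (ext g E) _ h1 h2
  calc (P.comp (TT g)) F = P (TT g F) := rfl
    _ ≤ _ := h3
    _ = _ := by ring

end Pool.SG
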