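import Pool.Agent.Helper71.SG.PROJ
import Pool.Agent.Helper71.SG.TRB
import Pool.Agent.Helper71.SG.LOW

open Complex Set Filter Topology Matrix ComplexConjugate
open scoped ENNReal NNReal Nat

noncomputable section

namespace Pool.SG

/-- Supremum of a pointwise bounded family of seminorms. -/
lemma max_exists_sup {ι : Type*} [Nonempty ι] (p : ι → Seminorm ℂ AA) (B : AA → ℝ)
    (h : ∀ i x, p i x ≤ B x) : ∃ S : Seminorm ℂ AA, (∀ i x, p i x ≤ S x) ∧
      ∀ x c, (∀ i, p i x ≤ c) → S x ≤ c := by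
  have hb : BddAbove ((fun q : Seminorm ℂ AA => (q : AA → ℝ)) '' range p) := by
    refine ⟨B, ?_⟩
    rintro _ ⟨_, ⟨i, rfl⟩, rfl⟩
    exact fun x => h i x
  have hS := Seminorm.coe_sSup_eq' hb
  have hb' : ∀ x, BddAbove (range fun q : range p => ((q : Seminorm ℂ AA) : AA → ℝ) x) := by
    intro x
    refine ⟨B x, ?_⟩
    rintro _ ⟨⟨_, i, rfl⟩, rfl⟩
    exact h i x
  refine ⟨sSup (range p), ?_, ?_⟩
  · intro i x
    rw [hS, iSup_apply]
    exact le_ciSup (hb' x) ⟨p i, i, rfl⟩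
  · intro x c hc
    rw [hS, iSup_apply]
    have : Nonempty (range p) := ⟨⟨p (Classical.arbitrary ι), _, rfl⟩⟩
    refine ciSup_le ?_
    rintro ⟨_, i, rfl⟩
    exact hc i

/-- A nonnegative multiple of a seminorm. -/
def maxScale (a : ℝ) (ha : 0 ≤ a) (Q : Seminorm ℂ AA) : Seminorm ℂ AA :=
  let b : ℝ≥0 := ⟨a, ha⟩
  b • Q

lemma maxScale_apply (a : ℝ) (ha : 0 ≤ a) (Q : Seminorm ℂ AA) (F : AA) :
    maxScale a ha Q F = a * Q F := rfl

/-- The family of the normalised tame seminorms with growth exactly `w`. -/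
def maxFam (w : GG → ℝ) : Set (Seminorm ℂ AA) :=
  {P | Tame P ∧ Grow w 1 P ∧ P (inc (mono 0 (1, 0))) ≤ 1 ∧ P (inc (mono 0 (0, 1))) ≤ 1}

lemma max_zero_mem (w : GG → ℝ) : (0 : Seminorm ℂ AA) ∈ maxFam w := by
  refine ⟨?_, ?_, ?_, ?_⟩
  · intro R hR
    exact ⟨0, le_rfl, fun F E K _ _ => by simp⟩
  · intro g F
    simp
  · simp
  · simp

lemma max_rot_mem (θ : ℝ) : ((rot θ, 1) : GG) ∈ KK := by
  constructor
  · show (rot θ : Mat2) * (rot θ : Mat2)ᵀ = 1
    ext i j
    have := Real.sin_sq_add_cos_sq θ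
    fin_cases i <;> fin_cases j <;>
      simp [rot, Matrix.mul_apply, Fin.sum_univ_two] <;> nlinarith
  · simp

lemma max_exists_t {R : ℝ} (hR : 1 < R) : ∃ t : ℝ, 0 < t ∧ Real.cosh t ≤ R * Real.sinh t := by
  -- take exp (2 t) = (R + 1) / (R - 1)
  have hq : 1 < (R + 1) / (R - 1) := by
    rw [lt_div_iff₀ (by linarith)]
    linarith
  refine ⟨Real.log ((R + 1) / (R - 1)), Real.log_pos hq, ?_⟩
  set t := Real.log ((R + 1) / (R - 1)) with ht
  have he : Real.exp t = (R + 1) / (R - 1) := Real.exp_log (by linarith)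
  have hR' : 0 < R - 1 := by linarith
  have h1 : Real.exp t * (R - 1) = R + 1 := by
    rw [he]
    field_simp
  rw [Real.cosh_eq, Real.sinh_eq, Real.exp_neg]
  have h2 : 0 < Real.exp t := Real.exp_pos t
  have h3 : 1 < Real.exp t := by rw [he]; exact hq
  have h4 : (Real.exp t)⁻¹ ≤ 1 := inv_le_one_of_one_le₀ h3.le
  have h5 : 0 < (Real.exp t)⁻¹ := inv_pos.2 h2
  nlinarith

/-- The uniform bound on monomials. -/
lemma max_bound {w : GG → ℝ} (hw : IsWeight w) : ∀ R > 1, ∃ C, 0 ≤ C ∧ ∀ P ∈ maxFam w,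
    ∀ (n : ℕ) (u : ℂ × ℂ), P (inc (mono n u)) ≤ C * R ^ n * ‖u‖ := by
  intro R hR
  obtain ⟨W, hW1, hW⟩ := weight_bdd_K hw
  obtain ⟨t, ht, hct⟩ := max_exists_t hR
  have hs : 0 < Real.sinh t := Real.sinh_pos_iff.2 ht
  have hc : 0 < Real.cosh t := Real.cosh_pos t
  have hwp := hw.pos ((hyp t, 1) : GG)
  refine ⟨2 * (W * w (hyp t, 1) * Real.cosh t), by positivity, ?_⟩
  intro P hP n u
  obtain ⟨hT, hG, hP1, hP2⟩ := hP
  have hrot : ∀ θ F, P (TT (rot θ, 1) F) ≤ W * P F := by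
    intro θ F
    refine (hG (rot θ, 1) F).trans ?_
    rw [one_mul]
    exact mul_le_mul_of_nonneg_right (hW ⟨_, max_rot_mem θ⟩) (apply_nonneg P F)
  have key : ∀ e : ℂ × ℂ, P (inc (mono 0 e)) ≤ 1 →
      P (inc (mono n e)) ≤ W * w (hyp t, 1) * Real.cosh t * R ^ n := by
    intro e he
    have h1 := proj_le hT hrot n (TT ((hyp t, 1) : GG) (inc (mono 0 e)))
    rw [cf_TT_mono_zero, map_smul, map_smul, map_smul_eq_mul] at h1
    simp only [al_hyp, be_hyp, m2_one, Complex.conj_ofReal] at h1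
    have h2 : ‖((Real.sinh t : ℂ) ^ n / (Real.cosh t : ℂ) ^ (n + 1))‖ =
        Real.sinh t ^ n / Real.cosh t ^ (n + 1) := by
      rw [norm_div, norm_pow, norm_pow, Complex.norm_real, Complex.norm_real,
        Real.norm_of_nonneg hs.le, Real.norm_of_nonneg hc.le]
    rw [h2] at h1
    have h3 : P (TT ((hyp t, 1) : GG) (inc (mono 0 e))) ≤ w (hyp t, 1) := by
      refine (hG _ _).trans ?_
      rw [one_mul]
      exact mul_le_of_le_one_right hwp.le he
    have h4 : Real.sinh t ^ n / Real.cosh t ^ (n + 1) * P (inc (mono n e)) ≤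
        W * w (hyp t, 1) :=
      h1.trans (mul_le_mul_of_nonneg_left h3 (by linarith))
    have h5 : P (inc (mono n e)) ≤
        W * w (hyp t, 1) * (Real.cosh t ^ (n + 1) / Real.sinh t ^ n) := by
      rw [div_mul_eq_mul_div, div_le_iff₀ (by positivity)] at h4
      rw [← mul_div_assoc, le_div_iff₀ (by positivity)]
      linarith
    refine h5.trans ?_
    have h6 : Real.cosh t ^ (n + 1) / Real.sinh t ^ n ≤ Real.cosh t * R ^ n := by
      rw [div_le_iff₀ (by positivity), pow_succ]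
      have h7 : Real.cosh t ^ n ≤ (R * Real.sinh t) ^ n := by gcongr
      rw [mul_pow] at h7
      nlinarith
    calc W * w (hyp t, 1) * (Real.cosh t ^ (n + 1) / Real.sinh t ^ n)
        ≤ W * w (hyp t, 1) * (Real.cosh t * R ^ n) := by gcongr
      _ = _ := by ring
  have hu : inc (mono n u) = u.1 • inc (mono n ((1 : ℂ), (0 : ℂ))) +
      u.2 • inc (mono n ((0 : ℂ), (1 : ℂ))) := by
    rw [← map_smul, ← map_smul, ← map_smul, ← map_smul, ← map_add, ← map_add]
    congr 2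
    ext <;> simp
  rw [hu]
  refine (map_add_le_add P _ _).trans ?_
  rw [map_smul_eq_mul, map_smul_eq_mul]
  have k1 := key _ hP1
  have k2 := key _ hP2
  have n1 : ‖u.1‖ ≤ ‖u‖ := norm_fst_le u
  have n2 : ‖u.2‖ ≤ ‖u‖ := norm_snd_le u
  have hpos : 0 ≤ W * w (hyp t, 1) * Real.cosh t * R ^ n := by positivity
  calc ‖u.1‖ * P (inc (mono n ((1 : ℂ), (0 : ℂ)))) + ‖u.2‖ * P (inc (mono n ((0 : ℂ), (1 : ℂ))))
      ≤ ‖u‖ * (W * w (hyp t, 1) * Real.cosh t * R ^ n) +
        ‖u‖ * (W * w (hyp t, 1) * Real.cosh t * R ^ n) := by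
        gcongr
    _ = _ := by ring

/-- Existence of the maximal class. -/
theorem exists_max {w : GG → ℝ} (hw : IsWeight w) {P₀ : Seminorm ℂ AA} (h₀ : Crit w P₀) :
    ∃ P, Crit w P ∧ ∀ Q, Crit w Q → ∃ C, ∀ F, Q F ≤ C * P F := by
  classical
  -- summability
  have hsum : ∀ F : AA, ∃ B : ℕ → ℝ, Summable B ∧ ∀ P ∈ maxFam w, ∀ n,
      P (inc (mono n (cf n F))) ≤ B n := by
    intro F
    obtain ⟨R, hR, K, hK, hdec⟩ := cf_decay F
    have hR1 : 1 < (1 + R) / 2 := by linarith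
    obtain ⟨C, hC, hb⟩ := max_bound hw ((1 + R) / 2) hR1
    refine ⟨fun n => C * K * (((1 + R) / 2) / R) ^ n, ?_, ?_⟩
    · refine Summable.mul_left _ (summable_geometric_of_lt_one (by positivity) ?_)
      rw [div_lt_one (by linarith)]
      linarith
    · intro P hP n
      refine (hb P hP n _).trans ?_
      have h1 := hdec n
      have h2 : ‖cf n F‖ ≤ K / R ^ n := by
        rw [le_div_iff₀ (by positivity)]
        exact h1
      calc C * ((1 + R) / 2) ^ n * ‖cf n F‖ ≤ C * ((1 + R) / 2) ^ n * (K / R ^ n) := by gcongr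
        _ = C * K * (((1 + R) / 2) / R) ^ n := by
          rw [div_pow ((1 + R) / 2) R]
          ring
  choose B hB1 hB2 using hsum
  have : Nonempty (maxFam w) := ⟨⟨0, max_zero_mem w⟩⟩
  obtain ⟨S, hS1, hS2⟩ := max_exists_sup (fun i : maxFam w => (i : Seminorm ℂ AA))
    (fun F => ∑' n, B F n) (by
      rintro ⟨P, hP⟩ F
      refine (tame_le_tsum hP.1 F).trans ?_
      exact (tame_summable hP.1 F).tsum_le_tsum (hB2 F P hP) (hB1 F))
  have hS1' : ∀ P ∈ maxFam w, ∀ F, P F ≤ S F := fun P hP F => hS1 ⟨P, hP⟩ F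
  have hS2' : ∀ F c, (∀ P ∈ maxFam w, P F ≤ c) → S F ≤ c :=
    fun F c h => hS2 F c (fun i => h i.1 i.2)
  have hTame : Tame S := by
    refine tame_of ?_ ?_
    · intro R hR
      obtain ⟨C, hC, hb⟩ := max_bound hw R hR
      exact ⟨C, hC, fun n u => hS2' _ _ fun P hP => hb P hP n u⟩
    · intro F
      refine hS2' _ _ fun P hP => ?_
      refine (tame_le_tsum hP.1 F).trans ?_
      refine (tame_summable hP.1 F).tsum_le_tsum (fun n => hS1' P hP _) ?_
      exact Summable.of_nonneg_of_le (fun n => apply_nonneg S _)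
        (fun n => hS2' _ _ fun P hP => hB2 F P hP n) (hB1 F)
  have hgrow : Grow w 1 S := by
    intro g F
    refine hS2' _ _ fun P hP => ?_
    refine (hP.2.1 g F).trans ?_
    have := hw.pos g
    exact mul_le_mul_of_nonneg_left (hS1' P hP F) (by linarith)
  have hmax : ∀ Q, Crit w Q → ∃ C, ∀ F, Q F ≤ C * S F := by
    intro Q hQ
    obtain ⟨c, hc, hg⟩ := hQ.grow
    -- the equivalent norm with growth constant one
    obtain ⟨Q', hQ1, hQ2⟩ := max_exists_sup
      (fun g : GG => maxScale (w g)⁻¹ (inv_pos.2 (hw.pos g)).le (Q.comp (TT g)))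
      (fun F => c * Q F) (by
        intro g F
        have hwg := hw.pos g
        show (w g)⁻¹ * Q (TT g F) ≤ c * Q F
        rw [inv_mul_le_iff₀ hwg]
        calc Q (TT g F) ≤ c * w g * Q F := hg g F
          _ = w g * (c * Q F) := by ring)
    have hQ1' : ∀ g F, (w g)⁻¹ * Q (TT g F) ≤ Q' F := fun g F => hQ1 g F
    have hQ2' : ∀ F x, (∀ g, (w g)⁻¹ * Q (TT g F) ≤ x) → Q' F ≤ x := fun F x h => hQ2 F x h
    have hle : ∀ F, Q' F ≤ c * Q F := by
      intro F
      refine hQ2' F _ fun g => ?_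
      have hwg := hw.pos g
      rw [inv_mul_le_iff₀ hwg]
      calc Q (TT g F) ≤ c * w g * Q F := hg g F
        _ = w g * (c * Q F) := by ring
    have hQ'T : Tame Q' := by
      intro R hR
      obtain ⟨C, hC, h⟩ := hQ.tame R hR
      refine ⟨c * C, by positivity, fun F E K hE hK => ?_⟩
      refine (hle F).trans ?_
      have := h F E K hE hK
      nlinarith
    have hQ'G : Grow w 1 Q' := by
      intro h F
      refine hQ2' _ _ fun g => ?_
      have hwg := hw.pos g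
      have hwh := hw.pos h
      have hwgh := hw.pos (g * h)
      rw [← TT_mul]
      have h1 := hQ1' (g * h) F
      rw [inv_mul_le_iff₀ hwgh] at h1
      rw [inv_mul_le_iff₀ hwg]
      have h2 := hw.mul_le g h
      have h3 : 0 ≤ Q' F := apply_nonneg _ _
      calc Q (TT (g * h) F) ≤ w (g * h) * Q' F := h1
        _ ≤ (w g * w h) * Q' F := by gcongr
        _ = _ := by ring
    obtain ⟨a, ha, ha1, ha2⟩ : ∃ a : ℝ, 0 < a ∧ Q' (inc (mono 0 (1, 0))) ≤ a ∧
        Q' (inc (mono 0 (0, 1))) ≤ a := by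
      refine ⟨max 1 (max (Q' (inc (mono 0 (1, 0)))) (Q' (inc (mono 0 (0, 1))))),
        by positivity, ?_, ?_⟩
      · exact (le_max_left _ _).trans (le_max_right _ _)
      · exact (le_max_right _ _).trans (le_max_right _ _)
    have hmem : (maxScale a⁻¹ (inv_pos.2 ha).le Q') ∈ maxFam w := by
      refine ⟨?_, ?_, ?_, ?_⟩
      · intro R hR
        obtain ⟨C, hC, h⟩ := hQ'T R hR
        refine ⟨a⁻¹ * C, by positivity, fun F E K hE hK => ?_⟩
        show a⁻¹ * Q' F ≤ _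
        have := h F E K hE hK
        have ha' : 0 < a⁻¹ := inv_pos.2 ha
        nlinarith
      · intro g F
        show a⁻¹ * Q' (TT g F) ≤ 1 * w g * (a⁻¹ * Q' F)
        have := hQ'G g F
        have ha' : 0 < a⁻¹ := inv_pos.2 ha
        nlinarith
      · show a⁻¹ * Q' _ ≤ 1
        rw [inv_mul_le_iff₀ ha, mul_one]
        exact ha1
      · show a⁻¹ * Q' _ ≤ 1
        rw [inv_mul_le_iff₀ ha, mul_one]
        exact ha2
    refine ⟨w 1 * a, fun F => ?_⟩
    have h1 : a⁻¹ * Q' F ≤ S F := hS1' _ hmem F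
    rw [inv_mul_le_iff₀ ha] at h1
    have h2 := hQ1' 1 F
    rw [inv_mul_le_iff₀ (hw.pos 1), TT_one] at h2
    have h3 := hw.pos 1
    calc Q F ≤ w 1 * Q' F := h2
      _ ≤ w 1 * (a * S F) := by gcongr
      _ = _ := by ring
  refine ⟨S, ⟨hTame, ⟨1, one_pos, hgrow⟩, ?_⟩, hmax⟩
  intro f hf
  obtain ⟨C, hC⟩ := hmax P₀ h₀
  refine h₀.pos f ?_
  have h1 := hC (inc f)
  rw [hf, mul_zero] at h1
  exact le_antisymm h1 (apply_nonneg _ _)

end Pool.SG
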