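import Pool.Agent.Helper71.SG.PROJ
import Pool.Agent.Helper71.SG.TRB
import Pool.Agent.Helper71.SG.KB

open Complex Set Filter Topology Matrix ComplexConjugate
open scoped ENNReal NNReal Nat

noncomputable section

namespace Pool.SG

lemma min_rot_zero : rot 0 = 1 := by
  apply Subtype.ext
  ext i j
  fin_cases i <;> fin_cases j <;> simp [rot]

lemma min_rot_mem (θ : ℝ) : ((rot θ, 1) : GG) ∈ KK := by
  have := rot_mem θ 0
  rwa [min_rot_zero] at this

lemma min_rot_mem' (θ : ℝ) : ((1, rot θ) : GG) ∈ KK := by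
  have := rot_mem 0 θ
  rwa [min_rot_zero] at this

lemma min_mono_smul (P : Seminorm ℂ AA) (a : ℂ) (v : ℂ × ℂ) :
    P (inc (mono 0 (a • v))) = ‖a‖ * P (inc (mono 0 v)) := by
  rw [map_smul, map_smul, map_smul_eq_mul]

lemma min_mono_pos {w : GG → ℝ} {P : Seminorm ℂ AA} (hP : Crit w P) (v : ℂ × ℂ) (hv : v ≠ 0) :
    0 < P (inc (mono 0 v)) := by
  apply lt_of_le_of_ne (apply_nonneg P _)
  intro h
  have h1 := hP.pos _ h.symm
  apply hv
  have h2 := congrArg (fun f => evV f 0) h1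
  simp only [evV_mono, pow_zero, one_smul] at h2
  rw [h2]
  simp [evV]

/-- A critical seminorm controls the value at the origin. -/
theorem value_zero_le {w : GG → ℝ} (hw : IsWeight w) {P : Seminorm ℂ AA} (hP : Crit w P) :
    ∃ C, 0 ≤ C ∧ ∀ F : AA, ‖(F : ℂ → ℂ × ℂ) 0‖ ≤ C * P F := by
  obtain ⟨c, hc, hg⟩ := hP.grow
  obtain ⟨W, hW1, hW⟩ := weight_bdd_K hw
  have hb1 : ∀ θ F, P (TT (rot θ, 1) F) ≤ (c * W) * P F := by
    intro θ F
    refine (hg _ F).trans ?_
    have := hW ⟨_, min_rot_mem θ⟩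
    have h0 := apply_nonneg P F
    gcongr
  have hb2 : ∀ F, P (TT (1, rot (Real.pi / 2)) F) ≤ (c * W) * P F := by
    intro F
    refine (hg _ F).trans ?_
    have := hW ⟨_, min_rot_mem' (Real.pi / 2)⟩
    have h0 := apply_nonneg P F
    gcongr
  have hp1 : 0 < P (inc (mono 0 (1, 0))) := min_mono_pos hP _ (by simp)
  have hp2 : 0 < P (inc (mono 0 (0, 1))) := min_mono_pos hP _ (by simp)
  set p1 := P (inc (mono 0 (1, 0))) with hp1d
  set p2 := P (inc (mono 0 (0, 1))) with hp2d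
  have hcW : 0 ≤ c * W := by positivity
  refine ⟨(1 + c * W) / 2 * (c * W) * (1 / p1 + 1 / p2), by positivity, ?_⟩
  intro F
  have h1 := proj_le hP.tame hb1 0 F
  rw [cf_zero] at h1
  set u := (F : ℂ → ℂ × ℂ) 0 with hu
  obtain ⟨h2, h3⟩ := split_le hb2 0 u
  have e1 : (u.1, (0:ℂ)) = u.1 • ((1, 0) : ℂ × ℂ) := by simp
  have e2 : ((0:ℂ), u.2) = u.2 • ((0, 1) : ℂ × ℂ) := by simp
  rw [e1, min_mono_smul] at h2
  rw [e2, min_mono_smul] at h3
  have h0 := apply_nonneg P F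
  have h4 : ‖u.1‖ * p1 ≤ (1 + c * W) / 2 * (c * W) * P F := by
    refine h2.trans ?_
    rw [mul_assoc]
    gcongr
  have h5 : ‖u.2‖ * p2 ≤ (1 + c * W) / 2 * (c * W) * P F := by
    refine h3.trans ?_
    rw [mul_assoc]
    gcongr
  have hK : 0 ≤ (1 + c * W) / 2 * (c * W) * P F := by positivity
  rw [Prod.norm_def]
  apply max_le
  · calc ‖u.1‖ ≤ (1 + c * W) / 2 * (c * W) * P F * (1 / p1) := by
          rw [mul_one_div, le_div_iff₀ hp1]; exact h4
      _ ≤ (1 + c * W) / 2 * (c * W) * P F * (1 / p1 + 1 / p2) := by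
          gcongr
          have : 0 ≤ 1 / p2 := by positivity
          linarith
      _ = _ := by ring
  · calc ‖u.2‖ ≤ (1 + c * W) / 2 * (c * W) * P F * (1 / p2) := by
          rw [mul_one_div, le_div_iff₀ hp2]; exact h5
      _ ≤ (1 + c * W) / 2 * (c * W) * P F * (1 / p1 + 1 / p2) := by
          gcongr
          have : 0 ≤ 1 / p1 := by positivity
          linarith
      _ = _ := by ring

/-- Orbit values at the origin are controlled by a critical seminorm. -/
lemma min_orbit {w : GG → ℝ} (hw : IsWeight w) {Q : Seminorm ℂ AA} (hQ : Crit w Q) :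
    ∃ C, 0 ≤ C ∧ ∀ (F : AA) (g : GG), ‖(TT g F : ℂ → ℂ × ℂ) 0‖ / w g ≤ C * Q F := by
  obtain ⟨C, hC, h⟩ := value_zero_le hw hQ
  obtain ⟨c, hc, hg⟩ := hQ.grow
  refine ⟨C * c, by positivity, fun F g => ?_⟩
  rw [div_le_iff₀ (hw.pos g)]
  calc ‖(TT g F : ℂ → ℂ × ℂ) 0‖ ≤ C * Q (TT g F) := h _
    _ ≤ C * (c * w g * Q F) := by
        have := hg g F
        gcongr
    _ = C * c * Q F * w g := by ring

/-- Existence of the minimal class. -/
theorem exists_min {w : GG → ℝ} (hw : IsWeight w) {P₀ : Seminorm ℂ AA} (h₀ : Crit w P₀) :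
    ∃ P, Crit w P ∧ ∀ Q, Crit w Q → ∃ C, ∀ F, P F ≤ C * Q F := by
  obtain ⟨C₀, hC₀, hb⟩ := min_orbit hw h₀
  have hbdd : ∀ F : AA, BddAbove (Set.range fun g : GG => ‖(TT g F : ℂ → ℂ × ℂ) 0‖ / w g) :=
    fun F => ⟨C₀ * P₀ F, by rintro _ ⟨g, rfl⟩; exact hb F g⟩
  have hnn : ∀ (F : AA), 0 ≤ ⨆ g : GG, ‖(TT g F : ℂ → ℂ × ℂ) 0‖ / w g := fun F =>
    Real.iSup_nonneg fun g => div_nonneg (norm_nonneg _) (hw.pos g).le
  let P : Seminorm ℂ AA := Seminorm.ofSMulLE (fun F => ⨆ g : GG, ‖(TT g F : ℂ → ℂ × ℂ) 0‖ / w g)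
    (by simp)
    (by
      intro F H
      apply ciSup_le
      intro g
      have h1 := le_ciSup (hbdd F) g
      have h2 := le_ciSup (hbdd H) g
      refine le_trans ?_ (add_le_add h1 h2)
      rw [← add_div]
      apply div_le_div_of_nonneg_right _ (hw.pos g).le
      rw [map_add]
      exact norm_add_le _ _)
    (by
      intro r F
      apply ciSup_le
      intro g
      have h1 := le_ciSup (hbdd F) g
      rw [map_smul]
      calc ‖((r • TT g F : AA) : ℂ → ℂ × ℂ) 0‖ / w g = ‖r‖ * (‖(TT g F : ℂ → ℂ × ℂ) 0‖ / w g) := by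
            rw [← mul_div_assoc, ← norm_smul]; rfl
        _ ≤ _ := by gcongr)
  have hP : ∀ F, P F = ⨆ g : GG, ‖(TT g F : ℂ → ℂ × ℂ) 0‖ / w g := fun _ => rfl
  refine ⟨P, ⟨?_, ?_, ?_⟩, ?_⟩
  · -- tame
    intro R hR
    obtain ⟨C, hC, h⟩ := h₀.tame R hR
    refine ⟨C₀ * C, by positivity, fun F E K hE hK => ?_⟩
    rw [hP]
    apply ciSup_le
    intro g
    calc ‖(TT g F : ℂ → ℂ × ℂ) 0‖ / w g ≤ C₀ * P₀ F := hb F g
      _ ≤ C₀ * (C * K) := by
          have := h F E K hE hK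
          gcongr
      _ = _ := by ring
  · -- growth
    refine ⟨1, one_pos, fun g F => ?_⟩
    rw [hP, hP]
    apply ciSup_le
    intro h
    have h1 := le_ciSup (hbdd F) (h * g)
    rw [← TT_mul]
    have hh := hw.pos h
    have hgp := hw.pos g
    have hhg := hw.pos (h * g)
    have h2 := hw.mul_le h g
    rw [div_le_iff₀ hh]
    have h3 : ‖(TT (h * g) F : ℂ → ℂ × ℂ) 0‖ ≤
        (⨆ g : GG, ‖(TT g F : ℂ → ℂ × ℂ) 0‖ / w g) * w (h * g) := by
      rwa [div_le_iff₀ hhg] at h1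
    calc ‖(TT (h * g) F : ℂ → ℂ × ℂ) 0‖ ≤ _ := h3
      _ ≤ (⨆ g : GG, ‖(TT g F : ℂ → ℂ × ℂ) 0‖ / w g) * (w h * w g) := by
          have := hnn F
          gcongr
      _ = _ := by ring
  · -- positivity
    intro f hf
    rw [hP] at hf
    have hz : ∀ g : GG, (TT g (inc f) : ℂ → ℂ × ℂ) 0 = 0 := by
      intro g
      have h1 := le_ciSup (hbdd (inc f)) g
      rw [hf] at h1
      have h2 : 0 ≤ ‖(TT g (inc f) : ℂ → ℂ × ℂ) 0‖ / w g :=
        div_nonneg (norm_nonneg _) (hw.pos g).le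
      have h3 : ‖(TT g (inc f) : ℂ → ℂ × ℂ) 0‖ / w g = 0 := le_antisymm h1 h2
      rcases div_eq_zero_iff.1 h3 with h | h
      · exact norm_eq_zero.1 h
      · exact absurd h (hw.pos g).ne'
    have hev : ∀ t : ℝ, evV f (-(Real.tanh t : ℂ)) = 0 := by
      intro t
      have h1 := hz (hyp t, 1)
      rw [TT_apply _ _ (by simp)] at h1
      have hch : (Real.cosh t : ℂ) ≠ 0 := by exact_mod_cast (Real.cosh_pos t).ne'
      have hm : mob (hyp t) 0 = -(Real.tanh t : ℂ) := by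
        unfold mob jf
        rw [al_hyp, be_hyp, Real.tanh_eq_sinh_div_cosh]
        push_cast
        simp
        ring
      have hj : jf (hyp t) 0 = (Real.cosh t : ℂ) := by
        unfold jf
        rw [al_hyp]; simp
      simp only [m2_one] at h1
      rw [hj, hm] at h1
      have h2 := (smul_eq_zero.1 h1).resolve_left (inv_ne_zero hch)
      rwa [inc_apply] at h2
      have := norm_mob_le (hyp t) (z := 0) (by simp)
      rwa [hm] at this
    have hinf : (Set.range fun t : ℝ => -(Real.tanh t : ℂ)).Infinite := by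
      apply Set.infinite_range_of_injective
      intro s t hst
      have h1 : (Real.tanh s : ℂ) = Real.tanh t := neg_injective hst
      have h2 : Real.tanh s = Real.tanh t := by exact_mod_cast h1
      exact Real.tanh_injective h2
    refine Prod.ext ?_ ?_
    · apply Polynomial.eq_zero_of_infinite_isRoot
      refine hinf.mono ?_
      rintro _ ⟨t, rfl⟩
      exact congrArg Prod.fst (hev t)
    · apply Polynomial.eq_zero_of_infinite_isRoot
      refine hinf.mono ?_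
      rintro _ ⟨t, rfl⟩
      exact congrArg Prod.snd (hev t)
  · intro Q hQ
    obtain ⟨C, hC, h⟩ := min_orbit hw hQ
    refine ⟨C, fun F => ?_⟩
    rw [hP]
    exact ciSup_le fun g => h F g

end Pool.SG
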