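import Pool.Agent.Helper71.SG.CN
import Pool.Agent.Helper71.SG.MIN
import Pool.Agent.Helper71.SG.MAX

open Complex Set Filter Topology Matrix ComplexConjugate
open scoped ENNReal NNReal Nat

noncomputable section

namespace Pool.SG

/-- Existence of the minimal and the maximal class. -/
theorem exists_minmax {w : GG → ℝ} (hw : IsWeight w) {P₀ : Seminorm ℂ AA} (h₀ : Crit w P₀) :
    ∃ p q, MM.IsMin w p ∧ MM.IsMax w q := by
  obtain ⟨P, hP, hmin⟩ := exists_min hw h₀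
  obtain ⟨Q, hQ, hmax⟩ := exists_max hw h₀
  refine ⟨P.comp inc, Q.comp inc, ⟨crit_isNorm hw hP, ?_⟩, ⟨crit_isNorm hw hQ, ?_⟩⟩
  · intro q hq
    obtain ⟨P', hP', h⟩ := isNorm_crit hw hq
    obtain ⟨C, hC⟩ := hmin P' hP'
    refine ⟨C, fun v => ?_⟩
    rw [← h v]
    exact hC (inc v)
  · intro q hq
    obtain ⟨P', hP', h⟩ := isNorm_crit hw hq
    obtain ⟨C, hC⟩ := hmax P' hP'
    refine ⟨C, fun v => ?_⟩
    rw [← h v]
    exact hC (inc v)

end Pool.SG
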