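import Pool.Agent.Helper71.SG.GP1
import Pool.Agent.Helper71.SG.GP2
import Pool.Agent.Helper71.SG.GP3
import Pool.Agent.Helper71.SG.BETA

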