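import Pool.Agent.Helper71.SG.SOB
import Pool.Agent.Helper71.SG.BND
import Pool.Agent.Helper71.SG.CN

open Complex Set Filter Topology Matrix ComplexConjugate
open scoped ENNReal NNReal Nat

noncomputable section

namespace Pool.SG

/-- A polynomial is the finite sum of its homogeneous parts. -/
lemma VV_eq_sum (f : VV) (N : ℕ) (h1 : f.1.natDegree < N) (h2 : f.2.natDegree < N) :
    f = ∑ n ∈ Finset.range N, mono n (f.1.coeff n, f.2.coeff n) := by
  ext1
  · rw [Prod.fst_sum]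
    simp only [mono_apply]
    exact Polynomial.as_sum_range' f.1 N h1
  · rw [Prod.snd_sum]
    simp only [mono_apply]
    exact Polynomial.as_sum_range' f.2 N h2

lemma seminorm_sum_le' (P : Seminorm ℂ VV) (N : ℕ) (f : ℕ → VV) :
    P (∑ i ∈ Finset.range N, f i) ≤ ∑ i ∈ Finset.range N, P (f i) := by
  induction N with
  | zero => simp
  | succ n ih =>
    rw [Finset.sum_range_succ, Finset.sum_range_succ]
    exact (map_add_le_add P _ _).trans (by gcongr)

/-- For the weight `ww M` the gap is at most `3`. -/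
theorem leSob_three (M : ℕ) {p q : Seminorm ℂ VV} (hp : MM.IsNorm (ww M) p)
    (hq : MM.IsNorm (ww M) q) : MM.LeSob 3 p q := by
  have hw := ww_isWeight M
  obtain ⟨P, hP, hPp⟩ := isNorm_crit hw hp
  obtain ⟨Q, hQ, hQq⟩ := isNorm_crit hw hq
  obtain ⟨C1, hC1, hb1⟩ := mono_bounds M hP
  obtain ⟨C2, hC2, hb2⟩ := mono_bounds M hQ
  obtain ⟨c, hc, hgr⟩ := hQ.grow
  obtain ⟨W, hW1, hW⟩ := weight_bdd_K hw
  obtain ⟨D, hD⟩ := exists_sob 3
  obtain ⟨a, ha, hsg⟩ := sg_lower 3 (by norm_num)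
  have hWQ : ∀ θ F, Q (TT (rot θ, 1) F) ≤ (c * W) * Q F := by
    intro θ F
    have h1 : ((rot θ, 1) : GG) ∈ KK := by
      have := rot_mem θ 0
      rwa [show rot 0 = 1 by
        apply Subtype.ext
        show !![Real.cos 0, -Real.sin 0; Real.sin 0, Real.cos 0] = (1 : Mat2)
        rw [Real.cos_zero, Real.sin_zero, neg_zero]
        exact (Matrix.one_fin_two).symm] at this
    have h2 := hW ⟨_, h1⟩
    refine (hgr (rot θ, 1) F).trans ?_
    have h3 := apply_nonneg Q F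
    gcongr
  refine ⟨D, hD, C1 * C2 * (c * W) / a * ∑' n : ℕ, 1 / ((n : ℝ) + 1) ^ 2, fun f => ?_⟩
  -- the coefficients of `f`
  have hcoef : ∀ n, ‖((f.1.coeff n, f.2.coeff n) : ℂ × ℂ)‖ * (a * ((n : ℝ) + 1) ^ 3) ≤
      C2 * Real.sqrt (n + 1) * ((c * W) * q (D f)) := by
    intro n
    have h1 := proj_le hQ.tame hWQ n (inc (D f))
    rw [hQq (D f), cf_inc] at h1
    have h2 := (hb2 n ((D f).1.coeff n, (D f).2.coeff n)).2
    have h3 : ((D f).1.coeff n, (D f).2.coeff n) =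
        ((sg 3 n : ℝ) : ℂ) • ((f.1.coeff n, f.2.coeff n) : ℂ × ℂ) := by
      rw [(sob_coeff hD f n).1, (sob_coeff hD f n).2]
      rfl
    have h4 : a * ((n : ℝ) + 1) ^ 3 ≤ sg 3 n := by
      have := hsg n
      rwa [show ((n : ℝ) + 1) ^ (3 : ℝ) = ((n : ℝ) + 1) ^ (3 : ℕ) by
        rw [← Real.rpow_natCast]; norm_num] at this
    have h5 : ‖((f.1.coeff n, f.2.coeff n) : ℂ × ℂ)‖ * sg 3 n ≤
        C2 * Real.sqrt (n + 1) * Q (inc (mono n ((D f).1.coeff n, (D f).2.coeff n))) := by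
      have h6 : ‖((D f).1.coeff n, (D f).2.coeff n)‖ =
          ‖((f.1.coeff n, f.2.coeff n) : ℂ × ℂ)‖ * sg 3 n := by
        rw [h3, norm_smul, Complex.norm_real, Real.norm_of_nonneg (le_trans (by positivity) h4),
          mul_comm]
      rw [← h6]
      exact h2
    calc ‖((f.1.coeff n, f.2.coeff n) : ℂ × ℂ)‖ * (a * ((n : ℝ) + 1) ^ 3)
        ≤ ‖((f.1.coeff n, f.2.coeff n) : ℂ × ℂ)‖ * sg 3 n := by gcongr
      _ ≤ _ := h5
      _ ≤ _ := by gcongr
  set N := max f.1.natDegree f.2.natDegree + 1 with hN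
  have hf := VV_eq_sum f N (by omega) (by omega)
  have hq0 : 0 ≤ q (D f) := apply_nonneg q _
  have hs : Summable fun n : ℕ => 1 / ((n : ℝ) + 1) ^ 2 := by
    have := (summable_nat_add_iff 1).2 (Real.summable_one_div_nat_pow.2 (show 1 < 2 by norm_num))
    simpa using this
  have hterm : ∀ n, P (inc (mono n (f.1.coeff n, f.2.coeff n))) ≤
      C1 * C2 * (c * W) / a * q (D f) * (1 / ((n : ℝ) + 1) ^ 2) := by
    intro n
    have h1 := (hb1 n (f.1.coeff n, f.2.coeff n)).1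
    have h2 := hcoef n
    have hn : (0 : ℝ) < (n : ℝ) + 1 := by positivity
    have h3 : ‖((f.1.coeff n, f.2.coeff n) : ℂ × ℂ)‖ ≤
        C2 * Real.sqrt (n + 1) * ((c * W) * q (D f)) / (a * ((n : ℝ) + 1) ^ 3) := by
      rw [le_div_iff₀ (by positivity)]
      exact h2
    have hsq : Real.sqrt (n + 1) * Real.sqrt (n + 1) = n + 1 := Real.mul_self_sqrt hn.le
    calc P (inc (mono n (f.1.coeff n, f.2.coeff n)))
        ≤ C1 * Real.sqrt (n + 1) * ‖((f.1.coeff n, f.2.coeff n) : ℂ × ℂ)‖ := h1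
      _ ≤ C1 * Real.sqrt (n + 1) *
          (C2 * Real.sqrt (n + 1) * ((c * W) * q (D f)) / (a * ((n : ℝ) + 1) ^ 3)) := by gcongr
      _ = C1 * C2 * (c * W) / a * q (D f) *
          ((Real.sqrt (n + 1) * Real.sqrt (n + 1)) / ((n : ℝ) + 1) ^ 3) := by
        generalize Real.sqrt ((n : ℝ) + 1) = r
        field_simp
      _ = C1 * C2 * (c * W) / a * q (D f) * (1 / ((n : ℝ) + 1) ^ 2) := by
        rw [hsq]
        congr 1
        field_simp
  calc p f = P (inc f) := (hPp f).symm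
    _ = (P.comp inc) (∑ n ∈ Finset.range N, mono n (f.1.coeff n, f.2.coeff n)) := by
      rw [← hf]; rfl
    _ ≤ ∑ n ∈ Finset.range N, (P.comp inc) (mono n (f.1.coeff n, f.2.coeff n)) :=
      seminorm_sum_le' _ _ _
    _ ≤ ∑ n ∈ Finset.range N, C1 * C2 * (c * W) / a * q (D f) * (1 / ((n : ℝ) + 1) ^ 2) :=
      Finset.sum_le_sum fun n _ => hterm n
    _ = C1 * C2 * (c * W) / a * q (D f) * ∑ n ∈ Finset.range N, (1 / ((n : ℝ) + 1) ^ 2) := by
      rw [Finset.mul_sum]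
    _ ≤ C1 * C2 * (c * W) / a * q (D f) * ∑' n : ℕ, 1 / ((n : ℝ) + 1) ^ 2 := by
      gcongr
      exact hs.sum_le_tsum _ fun n _ => by positivity
    _ = _ := by ring

end Pool.SG
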