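import Pool.Agent.Helper71.SG.ODE
import Pool.Agent.Helper71.SG.ITB

open Complex Set Filter Topology Matrix ComplexConjugate
open scoped ENNReal NNReal Nat

noncomputable section

namespace Pool.SG

variable {B : Type} [NormedAddCommGroup B] [NormedSpace ℂ B] [CompleteSpace B]

namespace TAYx

lemma hasDerivAt_pow_div (n : ℕ) (x : ℝ) :
    HasDerivAt (fun s : ℝ => s ^ (n + 1) / ((n + 1)! : ℕ)) (x ^ n / (n ! : ℕ)) x := by
  have h1 := (hasDerivAt_pow (n + 1) x).div_const (((n + 1)! : ℕ) : ℝ)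
  refine h1.congr_deriv ?_
  rw [Nat.factorial_succ]
  have hn : ((n ! : ℕ) : ℝ) ≠ 0 := by exact_mod_cast Nat.factorial_ne_zero n
  have hn1 : ((n : ℝ) + 1) ≠ 0 := by positivity
  push_cast
  field_simp

omit [CompleteSpace B] in
lemma claim (n : ℕ) : ∀ (G : ℕ → ℝ → B), (∀ j t, HasDerivAt (G j) (G (j + 1) t) t) →
    (∀ j < n, G j 0 = 0) → ∀ ε > 0, ∃ δ > 0, ∀ s : ℝ, 0 ≤ s → s ≤ δ →
      ‖G 0 s - (s ^ n / (n ! : ℕ) : ℝ) • G n 0‖ ≤ ε * (s ^ n / (n ! : ℕ)) := by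
  induction n with
  | zero =>
    intro G hG _ ε hε
    have hc : ContinuousAt (G 0) 0 := (hG 0 0).continuousAt
    obtain ⟨δ, hδ, h⟩ := Metric.continuousAt_iff.1 hc ε hε
    refine ⟨δ / 2, by positivity, fun s hs0 hs => ?_⟩
    have h1 : dist s 0 < δ := by
      rw [Real.dist_eq, sub_zero, abs_of_nonneg hs0]; linarith
    have h2 := (h h1).le
    rw [dist_eq_norm] at h2
    simpa using h2
  | succ n ih =>
    intro G hG h0 ε hε
    obtain ⟨δ, hδ, h⟩ := ih (fun j => G (j + 1)) (fun j t => hG (j + 1) t)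
      (fun j hj => h0 (j + 1) (by omega)) ε hε
    refine ⟨δ, hδ, fun s hs0 hs => ?_⟩
    have hd : ∀ x : ℝ, HasDerivAt (fun s : ℝ => G 0 s - (s ^ (n + 1) / ((n + 1)! : ℕ) : ℝ) •
        G (n + 1) 0) (G 1 x - (x ^ n / (n ! : ℕ) : ℝ) • G (n + 1) 0) x := by
      intro x
      exact (hG 0 x).sub ((hasDerivAt_pow_div n x).smul_const _)
    have hB : ∀ x : ℝ, HasDerivAt (fun s : ℝ => ε * (s ^ (n + 1) / ((n + 1)! : ℕ)))
        (ε * (x ^ n / (n ! : ℕ))) x := fun x => (hasDerivAt_pow_div n x).const_mul ε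
    have key := image_norm_le_of_norm_deriv_right_le_deriv_boundary' (a := 0) (b := δ)
      (f := fun s : ℝ => G 0 s - (s ^ (n + 1) / ((n + 1)! : ℕ) : ℝ) • G (n + 1) 0)
      (f' := fun x : ℝ => G 1 x - (x ^ n / (n ! : ℕ) : ℝ) • G (n + 1) 0)
      (B := fun s : ℝ => ε * (s ^ (n + 1) / ((n + 1)! : ℕ)))
      (B' := fun x : ℝ => ε * (x ^ n / (n ! : ℕ)))
      (fun x _ => (hd x).continuousAt.continuousWithinAt)
      (fun x _ => (hd x).hasDerivWithinAt)
      (by simp [h0 0 (Nat.succ_pos n)])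
      (fun x _ => (hB x).continuousAt.continuousWithinAt)
      (fun x _ => (hB x).hasDerivWithinAt)
      (fun x hx => h x hx.1 hx.2.le)
    exact key (Set.mem_Icc.2 ⟨hs0, hs⟩)

lemma th_XA : th XA = 0 := by
  simp [th, XA]

lemma bb_XA : bb XA = 1 := by
  apply Complex.ext <;> simp [bb, XA]

lemma D1_XA (f : Polynomial ℂ) : D1 XA f = Polynomial.X * f +
    (Polynomial.X ^ 2 * Polynomial.derivative f - Polynomial.derivative f) := by
  rw [D1_apply, c0, c1, th_XA, bb_XA]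
  simp
  ring

lemma coeff_D1 (f : Polynomial ℂ) (m : ℕ) : (D1 XA f).coeff (m + 1) =
    (m + 1) * f.coeff m - (m + 2) * f.coeff (m + 2) := by
  rw [D1_XA, Polynomial.coeff_add, Polynomial.coeff_sub, Polynomial.coeff_X_mul,
    Polynomial.coeff_derivative]
  have h1 : (Polynomial.X ^ 2 * Polynomial.derivative f).coeff (m + 1) = m * f.coeff m := by
    cases m with
    | zero =>
      rw [Polynomial.coeff_X_pow_mul']
      simp
    | succ k =>
      have : k + 1 + 1 = k + 2 := rfl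
      rw [this, Polynomial.coeff_X_pow_mul, Polynomial.coeff_derivative]
      push_cast
      ring
  rw [h1]
  push_cast
  ring

lemma actV_XA (f : VV) : actV (XA, 0) f = (D1 XA f.1, D1 XA f.2) := by
  rw [actV_apply]
  have h1 : th (0 : slR) = 0 := by simp [th]
  have h2 : bb (0 : slR) = 0 := by apply Complex.ext <;> simp [bb]
  simp only [h1, h2]
  simp

end TAYx

open TAYx

/-- A Taylor expansion at `0`: if `G j` has derivative `G (j + 1)` and `G j 0 = 0` for `j < n`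
then `G 0 t / t ^ n` tends to `G n 0 / n!`. -/
theorem taylor_lim (G : ℕ → ℝ → B) (hG : ∀ j t, HasDerivAt (G j) (G (j + 1) t) t) (n : ℕ)
    (h0 : ∀ j < n, G j 0 = 0) :
    Tendsto (fun t : ℝ => ((t ^ n : ℝ) : ℂ)⁻¹ • G 0 t) (𝓝[>] 0)
      (𝓝 (((n ! : ℕ) : ℂ)⁻¹ • G n 0)) := by
  rw [Metric.tendsto_nhdsWithin_nhds]
  intro ε hε
  obtain ⟨δ, hδ, h⟩ := claim n G hG h0 (ε / 2) (by positivity)
  refine ⟨δ, hδ, fun {t} ht htd => ?_⟩
  have ht0 : 0 < t := ht
  rw [Real.dist_eq, sub_zero, abs_of_pos ht0] at htd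
  have h1 := h t ht0.le htd.le
  have htn : 0 < t ^ n := by positivity
  have hf : (0:ℝ) < (n ! : ℕ) := by exact_mod_cast Nat.factorial_pos n
  have hf1 : (1:ℝ) ≤ (n ! : ℕ) := by exact_mod_cast Nat.factorial_pos n
  have e1 : ((t ^ n : ℝ) : ℂ)⁻¹ • G 0 t - ((n ! : ℕ) : ℂ)⁻¹ • G n 0 =
      ((t ^ n : ℝ) : ℂ)⁻¹ • (G 0 t - (t ^ n / (n ! : ℕ) : ℝ) • G n 0) := by
    rw [smul_sub]
    congr 1
    rw [← Complex.coe_smul, smul_smul]
    congr 1
    have h2 : ((t ^ n : ℝ) : ℂ) ≠ 0 := by exact_mod_cast htn.ne'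
    push_cast at h2 ⊢
    field_simp
  rw [dist_eq_norm, e1, norm_smul, norm_inv, Complex.norm_real, Real.norm_of_nonneg htn.le]
  calc (t ^ n)⁻¹ * ‖G 0 t - (t ^ n / (n ! : ℕ) : ℝ) • G n 0‖
      ≤ (t ^ n)⁻¹ * (ε / 2 * (t ^ n / (n ! : ℕ))) := by gcongr
    _ = ε / 2 / (n ! : ℕ) := by field_simp
    _ ≤ ε / 2 := div_le_self (by positivity) hf1
    _ < ε := by linarith

/-- The coefficients of `X_A ^ j 1`. -/
theorem XA_pow (j : ℕ) (u : ℂ × ℂ) :
    (∀ m, m > j → (((actV (XA, 0))^[j] (mono 0 u)).1.coeff m = 0 ∧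
      ((actV (XA, 0))^[j] (mono 0 u)).2.coeff m = 0)) ∧
    ((actV (XA, 0))^[j] (mono 0 u)).1.coeff j = (j ! : ℕ) * u.1 ∧
    ((actV (XA, 0))^[j] (mono 0 u)).2.coeff j = (j ! : ℕ) * u.2 := by
  induction j with
  | zero =>
    simp only [Function.iterate_zero, id_eq, mono_apply]
    refine ⟨fun m hm => ?_, ?_, ?_⟩
    · simp only [Polynomial.coeff_monomial]
      rw [if_neg (by omega), if_neg (by omega)]
      exact ⟨rfl, rfl⟩
    · simp
    · simp
  | succ j ih =>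
    obtain ⟨h1, h2, h3⟩ := ih
    rw [Function.iterate_succ_apply', actV_XA]
    refine ⟨fun m hm => ?_, ?_, ?_⟩
    · obtain ⟨k, rfl⟩ : ∃ k, m = k + 1 := ⟨m - 1, by omega⟩
      simp only [coeff_D1]
      rw [(h1 k (by omega)).1, (h1 k (by omega)).2, (h1 (k + 2) (by omega)).1,
        (h1 (k + 2) (by omega)).2]
      simp
    · simp only [coeff_D1]
      rw [h2, (h1 (j + 2) (by omega)).1, Nat.factorial_succ]
      push_cast
      ring
    · simp only [coeff_D1]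
      rw [h3, (h1 (j + 2) (by omega)).2, Nat.factorial_succ]
      push_cast
      ring

namespace TAYx

lemma hyp_zero : hyp 0 = 1 := by
  apply Subtype.ext
  ext i j
  fin_cases i <;> fin_cases j <;> simp [hyp]

lemma tanh_lim (n : ℕ) : Tendsto (fun t : ℝ => (t ^ n)⁻¹ * (Real.tanh t ^ n / Real.cosh t))
    (𝓝[>] 0) (𝓝 1) := by
  have h1 : Tendsto (fun t : ℝ => t⁻¹ * Real.sinh t) (𝓝[>] 0) (𝓝 1) := by
    have h2 := hasDerivAt_iff_tendsto_slope_zero.1 (Real.hasDerivAt_sinh 0)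
    rw [Real.cosh_zero] at h2
    have h3 := h2.mono_left (nhdsWithin_mono (0:ℝ) (fun x (hx : 0 < x) => hx.ne'))
    refine h3.congr fun t => ?_
    simp
  have h4 : Tendsto (fun t : ℝ => Real.cosh t) (𝓝[>] 0) (𝓝 1) := by
    have := Real.continuous_cosh.tendsto 0
    rw [Real.cosh_zero] at this
    exact this.mono_left nhdsWithin_le_nhds
  have h5 := ((h1.div h4 one_ne_zero).pow n).div h4 one_ne_zero
  simp only [div_one, one_pow] at h5
  refine h5.congr fun t => ?_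
  have hc : Real.cosh t ≠ 0 := (Real.cosh_pos t).ne'
  rw [Real.tanh_eq_sinh_div_cosh]
  simp only [Pi.div_apply]
  rw [div_pow, mul_pow, inv_pow, div_pow]
  field_simp

omit [CompleteSpace B] in
lemma Q_eval {ι : VV →ₗ[ℂ] B} (n : ℕ) (Q : B →L[ℂ] B)
    (hQ1 : ∀ m u, Q (ι (mono m u)) = if m = n then ι (mono m u) else 0) (v : VV) (j : ℕ)
    (hv : ∀ m, m > j → ITBx.vc m v = 0) :
    Q (ι v) = if n ≤ j then ι (mono n (ITBx.vc n v)) else 0 := by
  conv_lhs => rw [ITBx.rep v (j + 1) (fun m hm => hv m (by omega))]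
  rw [map_sum, map_sum]
  simp only [hQ1]
  rw [Finset.sum_ite_eq' (Finset.range (j + 1)) n (fun m => ι (mono m (ITBx.vc m v)))]
  simp only [Finset.mem_range, Nat.lt_succ_iff]

end TAYx

/-- The matrix coefficients of the lowest weight vectors. -/
theorem coef_hyp {w : GG → ℝ} {ι : VV →ₗ[ℂ] B} {π : GG →* (B →L[ℂ] B)}
    (h : Rlz w ι π) (n : ℕ) (Q : B →L[ℂ] B)
    (hQ1 : ∀ m u, Q (ι (mono m u)) = if m = n then ι (mono m u) else 0)
    (hQ : ∀ (s : ℝ) b, Q (π (rot s, 1) b) = exp (-((2 * n + 1) * s * I)) • Q b)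
    (u : ℂ × ℂ) {t : ℝ} (ht : 0 < t) : Q (π (hyp t, 1) (ι (mono 0 u))) =
      ((Real.tanh t ^ n / Real.cosh t : ℝ) : ℂ) • ι (mono n u) := by
  obtain ⟨c, hc⟩ := coef_ode h n Q hQ u
  suffices hcu : c = ι (mono n u) by rw [← hcu]; exact hc t ht
  set G : ℕ → ℝ → B := fun j t => Q (π (hyp t, 1) (ι ((actV (XA, 0))^[j] (mono 0 u)))) with hG
  have hG' : ∀ j t, HasDerivAt (G j) (G (j + 1) t) t := by
    intro j t
    have := deriv_hyp h Q ((actV (XA, 0))^[j] (mono 0 u)) t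
    simp only [hG]
    rw [Function.iterate_succ_apply']
    exact this
  have hval : ∀ j, G j 0 = if n ≤ j then
      ι (mono n (ITBx.vc n ((actV (XA, 0))^[j] (mono 0 u)))) else 0 := by
    intro j
    simp only [hG]
    rw [hyp_zero]
    have h1 : ((1 : SLR), (1 : SLR)) = (1 : GG) := rfl
    rw [h1, map_one]
    show Q (ι _) = _
    apply Q_eval n Q hQ1 _ j
    intro m hm
    have h2 := (XA_pow j u).1 m hm
    rw [ITBx.vc_apply, h2.1, h2.2]
    rfl
  have h0 : ∀ j < n, G j 0 = 0 := by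
    intro j hj
    rw [hval, if_neg (by omega)]
  have hn : G n 0 = ((n ! : ℕ) : ℂ) • ι (mono n u) := by
    rw [hval, if_pos le_rfl, ITBx.vc_apply, (XA_pow n u).2.1, (XA_pow n u).2.2]
    rw [← map_smul, ← map_smul]
    rfl
  have hlim := taylor_lim G hG' n h0
  have hf : ((n ! : ℕ) : ℂ) ≠ 0 := by exact_mod_cast Nat.factorial_ne_zero n
  rw [hn, smul_smul, inv_mul_cancel₀ hf, one_smul] at hlim
  have hlim2 : Tendsto (fun t : ℝ => ((t ^ n : ℝ) : ℂ)⁻¹ • G 0 t) (𝓝[>] 0) (𝓝 c) := by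
    have h3 : Tendsto (fun t : ℝ => (((t ^ n)⁻¹ * (Real.tanh t ^ n / Real.cosh t) : ℝ) : ℂ) • c)
        (𝓝[>] 0) (𝓝 ((1 : ℂ) • c)) := by
      have h4 : Tendsto (fun t : ℝ => (((t ^ n)⁻¹ * (Real.tanh t ^ n / Real.cosh t) : ℝ) : ℂ))
          (𝓝[>] 0) (𝓝 ((1 : ℝ) : ℂ)) :=
        (Complex.continuous_ofReal.tendsto _).comp (tanh_lim n)
      rw [Complex.ofReal_one] at h4
      exact h4.smul_const c
    rw [one_smul] at h3
    refine h3.congr' ?_
    filter_upwards [self_mem_nhdsWithin] with t ht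
    have h5 : G 0 t = ((Real.tanh t ^ n / Real.cosh t : ℝ) : ℂ) • c := hc t ht
    rw [h5, smul_smul]
    congr 1
    push_cast
    ring
  exact tendsto_nhds_unique hlim2 hlim

end Pool.SG
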