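import Pool.Agent.Helper71.SG.QN
import Pool.Agent.Helper71.SG.TAY

open Complex Set Filter Topology Matrix ComplexConjugate
open scoped ENNReal NNReal Nat

noncomputable section

namespace Pool.SG

variable {B : Type} [NormedAddCommGroup B] [NormedSpace ℂ B] [CompleteSpace B]

/-- Growth of the norms of the vectors `z ^ n ⊗ u`. -/
theorem rlz_growth {w : GG → ℝ} (hw : IsWeight w) {ι : VV →ₗ[ℂ] B} {π : GG →* (B →L[ℂ] B)}
    (h : Rlz w ι π) : ∀ R > 1, ∃ C, 0 ≤ C ∧ ∀ (n : ℕ) (u : ℂ × ℂ), ‖ι (mono n u)‖ ≤ C * R ^ n * ‖u‖ := by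
  intro R hR
  obtain ⟨C0, hC0, hQ⟩ := exists_Q hw h
  have hR0 : 0 < R := lt_trans one_pos hR
  have hRi : R⁻¹ ∈ Set.Ioo (0 : ℝ) 1 := ⟨inv_pos.2 hR0, inv_lt_one_of_one_lt₀ hR⟩
  have ht : 0 < Real.artanh R⁻¹ := Real.artanh_pos hRi
  have htanh : Real.tanh (Real.artanh R⁻¹) = R⁻¹ :=
    Real.tanh_artanh ⟨by linarith [hRi.1], hRi.2⟩
  set t := Real.artanh R⁻¹ with htdef
  have hcosh : 0 < Real.cosh t := Real.cosh_pos t
  let L : ℂ × ℂ →L[ℂ] B := LinearMap.toContinuousLinearMap (ι ∘ₗ mono 0)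
  have hL : ∀ u, ι (mono 0 u) = L u := fun u => rfl
  refine ⟨C0 * ‖π (hyp t, 1)‖ * ‖L‖ * Real.cosh t, by positivity, ?_⟩
  intro n u
  obtain ⟨Q, hQn, hQ1, hQ2⟩ := hQ n
  have h1 := coef_hyp h n Q hQ1 hQ2 u ht
  have h2 : ‖Q (π (hyp t, 1) (ι (mono 0 u)))‖ ≤ C0 * (‖π (hyp t, 1)‖ * (‖L‖ * ‖u‖)) := by
    refine (Q.le_opNorm _).trans ?_
    refine mul_le_mul hQn ?_ (norm_nonneg _) hC0
    refine ((π (hyp t, 1)).le_opNorm _).trans ?_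
    refine mul_le_mul_of_nonneg_left ?_ (norm_nonneg _)
    rw [hL]
    exact L.le_opNorm u
  rw [h1, norm_smul, Complex.norm_real, htanh, Real.norm_eq_abs,
    abs_of_pos (by positivity)] at h2
  have h3 : ‖ι (mono n u)‖ =
      (R⁻¹ ^ n / Real.cosh t * ‖ι (mono n u)‖) * (R ^ n * Real.cosh t) := by
    have h4 : R⁻¹ ^ n * R ^ n = 1 := by
      rw [← mul_pow, inv_mul_cancel₀ hR0.ne', one_pow]
    have h5 : (Real.cosh t)⁻¹ * Real.cosh t = 1 := inv_mul_cancel₀ hcosh.ne'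
    calc ‖ι (mono n u)‖ = (R⁻¹ ^ n * R ^ n) * ((Real.cosh t)⁻¹ * Real.cosh t) *
          ‖ι (mono n u)‖ := by rw [h4, h5]; ring
      _ = _ := by rw [div_eq_mul_inv]; ring
  rw [h3]
  calc (R⁻¹ ^ n / Real.cosh t * ‖ι (mono n u)‖) * (R ^ n * Real.cosh t)
      ≤ (C0 * (‖π (hyp t, 1)‖ * (‖L‖ * ‖u‖))) * (R ^ n * Real.cosh t) :=
        mul_le_mul_of_nonneg_right h2 (by positivity)
    _ = C0 * ‖π (hyp t, 1)‖ * ‖L‖ * Real.cosh t * R ^ n * ‖u‖ := by ring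

end Pool.SG
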