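import Pool.Agent.Helper71.SG.RLZ
import Pool.Agent.Helper71.SG.TRB

open Complex Set Filter Topology Matrix ComplexConjugate
open scoped ENNReal NNReal Nat

noncomputable section

namespace Pool.SG

variable {B : Type} [NormedAddCommGroup B] [NormedSpace ℂ B] [CompleteSpace B]

/-- If `g` intertwines on polynomials then it does so on `AA`. -/
theorem inter_all {w : GG → ℝ} {ι : VV →ₗ[ℂ] B} {π : GG →* (B →L[ℂ] B)}
    (h : Rlz w ι π) {J : AA →ₗ[ℂ] B} (hJ : ∀ f, J (inc f) = ι f)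
    (hT : Tame ((normSeminorm ℂ B).comp J)) (g : GG)
    (hg : ∀ f, π g (ι f) = J (TT g (inc f))) (F : AA) : π g (J F) = J (TT g F) := by
  have h1 : Tendsto (fun N => ‖J (F - inc (trunc N F))‖) atTop (𝓝 0) := tame_tendsto hT F
  have h2 : Tendsto (fun N => ‖J (TT g (F - inc (trunc N F)))‖) atTop (𝓝 0) :=
    tame_tendsto (tame_comp hT g) F
  have h3 : Tendsto (fun N => ‖π g‖ * ‖J (F - inc (trunc N F))‖ +
      ‖J (TT g (F - inc (trunc N F)))‖) atTop (𝓝 (‖π g‖ * 0 + 0)) :=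
    (h1.const_mul _).add h2
  have h4 : ∀ N, ‖π g (J F) - J (TT g F)‖ ≤ ‖π g‖ * ‖J (F - inc (trunc N F))‖ +
      ‖J (TT g (F - inc (trunc N F)))‖ := by
    intro N
    have h5 : π g (J F) - J (TT g F) =
        π g (J (F - inc (trunc N F))) - J (TT g (F - inc (trunc N F))) := by
      rw [map_sub J, map_sub (π g), map_sub (TT g), map_sub J, hJ, hg]
      abel
    rw [h5]
    exact (norm_sub_le _ _).trans (add_le_add_left ((π g).le_opNorm _) _)
  have h6 : ‖π g (J F) - J (TT g F)‖ ≤ ‖π g‖ * 0 + 0 := ge_of_tendsto' h3 h4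
  have h7 : ‖π g (J F) - J (TT g F)‖ ≤ 0 := by simpa using h6
  exact sub_eq_zero.1 (norm_le_zero_iff.1 h7)

end Pool.SG
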