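import Pool.Agent.Helper71.SG.Model0

open Complex Set Filter Topology Matrix ComplexConjugate
open scoped ENNReal NNReal Nat

noncomputable section

namespace Pool.SG

private lemma coe_add' (X Y : slR) : ((X + Y : slR) : Mat2) = (X : Mat2) + (Y : Mat2) := rfl

private lemma coe_smul' (r : ℝ) (X : slR) : ((r • X : slR) : Mat2) = r • (X : Mat2) := rfl

private lemma coe_lie' (X Y : slR) :
    ((⁅X, Y⁆ : slR) : Mat2) = (X : Mat2) * (Y : Mat2) - (Y : Mat2) * (X : Mat2) := rfl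

private lemma ent11 (X : slR) : (X : Mat2) 1 1 = -(X : Mat2) 0 0 := by
  have h : Matrix.trace (X : Mat2) = 0 := LinearMap.mem_ker.1 X.2
  rw [Matrix.trace_fin_two] at h
  linarith

lemma th_add (X Y : slR) : th (X + Y) = th X + th Y := by
  simp only [th, coe_add', Matrix.add_apply]
  ring

lemma bb_add (X Y : slR) : bb (X + Y) = bb X + bb Y := by
  apply Complex.ext
  · simp only [bb, coe_add', Matrix.add_apply, Complex.add_re]
    ring
  · simp only [bb, coe_add', Matrix.add_apply, Complex.add_im]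
    ring

lemma th_smul (r : ℝ) (X : slR) : th (r • X) = r * th X := by
  simp only [th, coe_smul', Matrix.smul_apply, smul_eq_mul]
  ring

lemma bb_smul (r : ℝ) (X : slR) : bb (r • X) = (r : ℂ) * bb X := by
  apply Complex.ext
  · simp only [bb, coe_smul', Matrix.smul_apply, smul_eq_mul, Complex.mul_re, Complex.ofReal_re,
      Complex.ofReal_im]
    ring
  · simp only [bb, coe_smul', Matrix.smul_apply, smul_eq_mul, Complex.mul_im, Complex.ofReal_re,
      Complex.ofReal_im]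
    ring

lemma th_lie (X Y : slR) : th ⁅X, Y⁆ = 2 * (bb X * conj (bb Y)).im := by
  simp only [th, bb, coe_lie', Matrix.sub_apply, Matrix.mul_apply, Fin.sum_univ_two,
    Complex.mul_im, Complex.conj_re, Complex.conj_im, ent11]
  ring

private lemma lie_ent (X Y : slR) (i j : Fin 2) : ((⁅X, Y⁆ : slR) : Mat2) i j =
    ((X : Mat2) i 0 * (Y : Mat2) 0 j + (X : Mat2) i 1 * (Y : Mat2) 1 j) -
      ((Y : Mat2) i 0 * (X : Mat2) 0 j + (Y : Mat2) i 1 * (X : Mat2) 1 j) := by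
  rw [coe_lie', Matrix.sub_apply, Matrix.mul_apply, Matrix.mul_apply, Fin.sum_univ_two,
    Fin.sum_univ_two]

lemma bb_lie (X Y : slR) : bb ⁅X, Y⁆ = 2 * I * ((th X : ℂ) * bb Y - (th Y : ℂ) * bb X) := by
  have hre : (bb ⁅X, Y⁆).re = (((⁅X, Y⁆ : slR) : Mat2) 0 0 - ((⁅X, Y⁆ : slR) : Mat2) 1 1) / 2 := rfl
  have him : (bb ⁅X, Y⁆).im = (((⁅X, Y⁆ : slR) : Mat2) 0 1 + ((⁅X, Y⁆ : slR) : Mat2) 1 0) / 2 := rfl
  apply Complex.ext
  · rw [hre, lie_ent, lie_ent]
    simp [th, bb, ent11]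
    ring
  · rw [him, lie_ent, lie_ent]
    simp [th, bb, ent11]
    ring

private lemma coe_AdS (g : SLR) (X : slR) :
    ((AdS g X : slR) : Mat2) = (g : Mat2) * (X : Mat2) * ((g⁻¹ : SLR) : Mat2) := rfl

private lemma coe_inv' (g : SLR) : ((g⁻¹ : SLR) : Mat2) =
    !![(g : Mat2) 1 1, -(g : Mat2) 0 1; -(g : Mat2) 1 0, (g : Mat2) 0 0] := by
  rw [Matrix.SpecialLinearGroup.coe_inv, Matrix.adjugate_fin_two]

lemma th_AdS (g : SLR) (X : slR) : th (AdS g X) =
    th X * (‖al g‖ ^ 2 + ‖be g‖ ^ 2) + 2 * (conj (al g) * be g * conj (bb X)).im := by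
  rw [← Complex.normSq_eq_norm_sq, ← Complex.normSq_eq_norm_sq]
  simp only [th, coe_AdS, coe_inv', Matrix.mul_apply, Fin.sum_univ_two, Complex.normSq_apply,
    al, be, bb, ent11, Complex.mul_im, Complex.mul_re, Complex.conj_re, Complex.conj_im,
    Matrix.cons_val_zero, Matrix.cons_val_one, Matrix.of_apply, Matrix.cons_val']
  simp
  ring

private lemma AdS_ent (g : SLR) (X : slR) (i j : Fin 2) : ((AdS g X : slR) : Mat2) i j =
    ((g : Mat2) i 0 * (X : Mat2) 0 0 + (g : Mat2) i 1 * (X : Mat2) 1 0) * ((g⁻¹ : SLR) : Mat2) 0 j +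
      ((g : Mat2) i 0 * (X : Mat2) 0 1 + (g : Mat2) i 1 * (X : Mat2) 1 1) *
        ((g⁻¹ : SLR) : Mat2) 1 j := by
  rw [coe_AdS, Matrix.mul_apply, Fin.sum_univ_two, Matrix.mul_apply, Matrix.mul_apply,
    Fin.sum_univ_two, Fin.sum_univ_two]

private lemma inv00 (g : SLR) : ((g⁻¹ : SLR) : Mat2) 0 0 = (g : Mat2) 1 1 := by
  rw [coe_inv']; rfl

private lemma inv01 (g : SLR) : ((g⁻¹ : SLR) : Mat2) 0 1 = -(g : Mat2) 0 1 := by
  rw [coe_inv']; rfl

private lemma inv10 (g : SLR) : ((g⁻¹ : SLR) : Mat2) 1 0 = -(g : Mat2) 1 0 := by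
  rw [coe_inv']; rfl

private lemma inv11 (g : SLR) : ((g⁻¹ : SLR) : Mat2) 1 1 = (g : Mat2) 0 0 := by
  rw [coe_inv']; rfl

lemma bb_AdS (g : SLR) (X : slR) : bb (AdS g X) =
    -(2 * I * (th X : ℂ) * al g * be g) + al g ^ 2 * bb X - be g ^ 2 * conj (bb X) := by
  have hre : (bb (AdS g X)).re =
      (((AdS g X : slR) : Mat2) 0 0 - ((AdS g X : slR) : Mat2) 1 1) / 2 := rfl
  have him : (bb (AdS g X)).im =
      (((AdS g X : slR) : Mat2) 0 1 + ((AdS g X : slR) : Mat2) 1 0) / 2 := rfl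
  apply Complex.ext
  · rw [hre, AdS_ent, AdS_ent, inv00, inv01, inv10, inv11]
    simp [th, al, be, bb, ent11, pow_two]
    ring
  · rw [him, AdS_ent, AdS_ent, inv00, inv01, inv10, inv11]
    simp [th, al, be, bb, ent11, pow_two]
    ring

lemma lieNorm_eq (X : gg) : lieNorm X =
    Real.sqrt (2 * (th X.1 ^ 2 + ‖bb X.1‖ ^ 2 + th X.2 ^ 2 + ‖bb X.2‖ ^ 2)) := by
  unfold lieNorm
  congr 1
  rw [← Complex.normSq_eq_norm_sq, ← Complex.normSq_eq_norm_sq]
  simp only [Matrix.trace_fin_two, Matrix.mul_apply, Fin.sum_univ_two, Matrix.transpose_apply,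
    Complex.normSq_apply, th, bb, ent11]
  ring

/-- An element with given coordinates. -/
lemma exists_slR (θ : ℝ) (b : ℂ) : ∃ X : slR, th X = θ ∧ bb X = b := by
  refine ⟨⟨!![b.re, b.im - θ; b.im + θ, -b.re], ?_⟩, ?_, ?_⟩
  · apply LinearMap.mem_ker.2
    show Matrix.trace (!![b.re, b.im - θ; b.im + θ, -b.re] : Mat2) = 0
    rw [Matrix.trace_fin_two]
    simp
  · simp [th]
  · apply Complex.ext
    · simp [bb]
    · simp [bb]

end Pool.SG
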