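import Pool.Agent.Helper71.SG.KB
import Pool.Agent.Helper71.SG.LX

open Complex Set Filter Topology Matrix ComplexConjugate
open scoped ENNReal NNReal Nat

noncomputable section

namespace Pool.SG

lemma M1_c0_add (X Y : slR) : c0 (X + Y) = c0 X + c0 Y := by
  simp only [c0, th_add, bb_add, Complex.ofReal_add, map_add, map_mul, map_neg]
  ring

lemma M1_c1_add (X Y : slR) : c1 (X + Y) = c1 X + c1 Y := by
  simp only [c1, th_add, bb_add, Complex.ofReal_add, map_add, map_mul, map_neg]
  ring

lemma M1_c0_smul (r : ℝ) (X : slR) : c0 (r • X) = Polynomial.C (r : ℂ) * c0 X := by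
  simp only [c0, th_smul, bb_smul, Complex.ofReal_mul, map_mul, map_neg, Complex.conj_ofReal]
  ring

lemma M1_c1_smul (r : ℝ) (X : slR) : c1 (r • X) = Polynomial.C (r : ℂ) * c1 X := by
  simp only [c1, th_smul, bb_smul, Complex.ofReal_mul, map_mul, map_neg, Complex.conj_ofReal]
  ring

lemma M1_D1_add (X Y : slR) (f : Polynomial ℂ) : D1 (X + Y) f = D1 X f + D1 Y f := by
  rw [D1_apply, D1_apply, D1_apply, M1_c0_add, M1_c1_add]
  ring

lemma M1_D1_smul (r : ℝ) (X : slR) (f : Polynomial ℂ) : D1 (r • X) f = (r : ℂ) • D1 X f := by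
  rw [D1_apply, D1_apply, M1_c0_smul, M1_c1_smul, Polynomial.smul_eq_C_mul]
  ring

lemma M1_Ith (X Y : slR) : I * (th ⁅X, Y⁆ : ℂ) =
    bb X * conj (bb Y) - conj (bb X) * bb Y := by
  rw [th_lie]
  apply Complex.ext
  · simp
  · simp
    ring

lemma M1_D1_lie (X Y : slR) (f : Polynomial ℂ) :
    D1 ⁅X, Y⁆ f = D1 X (D1 Y f) - D1 Y (D1 X f) := by
  have h0 : c0 ⁅X, Y⁆ = c1 X * Polynomial.derivative (c0 Y) -
      c1 Y * Polynomial.derivative (c0 X) := by
    have e : c0 ⁅X, Y⁆ = Polynomial.C (-(bb X * conj (bb Y) - conj (bb X) * bb Y)) +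
        Polynomial.C (conj (bb ⁅X, Y⁆)) * Polynomial.X := by
      rw [← M1_Ith]; rfl
    rw [e, bb_lie]
    simp only [c0, c1, map_add, map_sub, map_mul, map_neg, Complex.conj_ofReal, Complex.conj_I,
      Polynomial.derivative_add, Polynomial.derivative_mul, Polynomial.derivative_C,
      Polynomial.derivative_X, zero_mul, zero_add, mul_one, Complex.conj_conj,
      Polynomial.derivative_neg, neg_zero, Complex.conj_ofNat, mul_zero, add_zero]
    ring
  have h1 : c1 ⁅X, Y⁆ = c1 X * Polynomial.derivative (c1 Y) -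
      c1 Y * Polynomial.derivative (c1 X) := by
    have e : c1 ⁅X, Y⁆ = Polynomial.C (-(2 * (bb X * conj (bb Y) - conj (bb X) * bb Y))) *
        Polynomial.X - Polynomial.C (bb ⁅X, Y⁆) +
        Polynomial.C (conj (bb ⁅X, Y⁆)) * Polynomial.X ^ 2 := by
      rw [← M1_Ith, ← mul_assoc]; rfl
    have d : ∀ Z : slR, Polynomial.derivative (c1 Z) =
        Polynomial.C (-(2 * I * (th Z : ℂ))) +
          2 * Polynomial.C (conj (bb Z)) * Polynomial.X := by
      intro Z
      simp only [c1, Polynomial.derivative_add, Polynomial.derivative_sub,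
        Polynomial.derivative_C_mul, Polynomial.derivative_C, Polynomial.derivative_X,
        Polynomial.derivative_X_pow, mul_one, sub_zero]
      simp
      rw [show (Polynomial.C (2 : ℂ) : Polynomial ℂ) = 2 from rfl]
      ring
    have hI : (Polynomial.C I : Polynomial ℂ) * Polynomial.C I = -1 := by
      rw [← Polynomial.C_mul, Complex.I_mul_I]
      simp
    have h2 : (Polynomial.C (2 : ℂ) : Polynomial ℂ) = 2 := rfl
    rw [e, d X, d Y, bb_lie]
    simp only [c1, map_add, map_sub, map_mul, map_neg, Complex.conj_ofReal, Complex.conj_I,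
      Complex.conj_conj, Complex.conj_ofNat, h2]
    ring
  simp only [D1_apply, h0, h1, Polynomial.derivative_add, Polynomial.derivative_mul]
  ring

theorem actV_add (X Y : gg) (v : VV) : actV (X + Y) v = actV X v + actV Y v := by
  rw [actV_apply, actV_apply, actV_apply]
  refine Prod.ext ?_ ?_
  · simp only [Prod.fst_add, Prod.snd_add, M1_D1_add, th_add, bb_add, Complex.ofReal_add]
    module
  · simp only [Prod.fst_add, Prod.snd_add, M1_D1_add, th_add, bb_add, Complex.ofReal_add, map_add]
    module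

theorem actV_smul (r : ℝ) (X : gg) (v : VV) : actV (r • X) v = (r : ℂ) • actV X v := by
  rw [actV_apply, actV_apply]
  refine Prod.ext ?_ ?_
  · simp only [Prod.smul_fst, Prod.smul_snd, M1_D1_smul, th_smul, bb_smul, Complex.ofReal_mul]
    module
  · simp only [Prod.smul_fst, Prod.smul_snd, M1_D1_smul, th_smul, bb_smul, Complex.ofReal_mul,
      map_mul, Complex.conj_ofReal]
    module

theorem actV_lie (X Y : gg) (v : VV) :
    actV ⁅X, Y⁆ v = actV X (actV Y v) - actV Y (actV X v) := by
  rw [LieAlgebra.Prod.bracket_apply]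
  simp only [actV_apply]
  refine Prod.ext ?_ ?_
  · simp only [Prod.fst_sub, M1_D1_lie, M1_Ith, bb_lie, map_add, map_sub, map_smul]
    module
  · simp only [Prod.snd_sub, M1_D1_lie, M1_Ith, bb_lie, map_add, map_sub, map_smul, map_mul,
      Complex.conj_ofReal, Complex.conj_I, Complex.conj_ofNat]
    module

theorem kactV_one (v : VV) : kactV 1 v = v := by
  rw [kactV_apply]
  refine Prod.ext ?_ ?_
  · simp [scV_apply]
  · simp [scV_apply]

lemma M1_scV_mul (a b : ℂ) (f : Polynomial ℂ) : scV (a * b) f = scV a (scV b f) := by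
  rw [scV_apply, scV_apply, scV_apply, map_smul, smul_smul]
  congr 1
  · rw [map_mul]
  · have h : (Polynomial.aeval
        (Polynomial.C (conj (a * b) ^ 2) * Polynomial.X : Polynomial ℂ) :
          Polynomial ℂ →ₐ[ℂ] Polynomial ℂ) =
        (Polynomial.aeval (Polynomial.C (conj a ^ 2) * Polynomial.X : Polynomial ℂ)).comp
          (Polynomial.aeval (Polynomial.C (conj b ^ 2) * Polynomial.X : Polynomial ℂ)) := by
      apply Polynomial.algHom_ext
      simp only [Polynomial.aeval_X, AlgHom.comp_apply, map_mul, map_pow, Polynomial.aeval_C,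
        Polynomial.algebraMap_eq]
      ring
    rw [h]
    rfl

theorem kactV_mul (k l : KK) (v : VV) :
    kactV ((k * l : KK) : GG) v = kactV (k : GG) (kactV (l : GG) v) := by
  have h1 := (be_KK k).1
  have h2 := (be_KK k).2
  have e1 : al ((k * l : KK) : GG).1 = al (k : GG).1 * al (l : GG).1 := by
    rw [Subgroup.coe_mul, Prod.fst_mul, al_mul, h1, zero_mul, add_zero]
  have e2 : al ((k * l : KK) : GG).2 = al (k : GG).2 * al (l : GG).2 := by
    rw [Subgroup.coe_mul, Prod.snd_mul, al_mul, h2, zero_mul, add_zero]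
  simp only [kactV_apply, e1, e2, M1_scV_mul, map_mul, map_smul, smul_smul]

lemma M1_scV_D1 {a : ℂ} (ha : a * conj a = 1) {X X' : slR} (hth : th X' = th X)
    (hbb : bb X' = a ^ 2 * bb X) (f : Polynomial ℂ) : scV a (D1 X f) = D1 X' (scV a f) := by
  have hC : (Polynomial.C a : Polynomial ℂ) * Polynomial.C (conj a) = 1 := by
    rw [← Polynomial.C_mul, ha, Polynomial.C_1]
  rw [scV_apply, scV_apply, D1_apply, map_smul, D1_apply]
  congr 1
  rw [map_add, map_mul, map_mul]
  have hder : Polynomial.derivative (Polynomial.aeval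
      (Polynomial.C (conj a ^ 2) * Polynomial.X : Polynomial ℂ) f) =
      Polynomial.C (conj a ^ 2) * Polynomial.aeval
        (Polynomial.C (conj a ^ 2) * Polynomial.X : Polynomial ℂ) (Polynomial.derivative f) := by
    have h := Polynomial.derivative_eval₂_C f (Polynomial.C (conj a ^ 2) * Polynomial.X)
    rw [Polynomial.derivative_C_mul, Polynomial.derivative_X, mul_one] at h
    rw [Polynomial.aeval_def, Polynomial.aeval_def, Polynomial.algebraMap_eq, h, mul_comm]
  rw [hder]
  have g0 : Polynomial.aeval (Polynomial.C (conj a ^ 2) * Polynomial.X : Polynomial ℂ) (c0 X) =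
      c0 X' := by
    simp only [c0, hth, hbb, map_add, map_mul, map_pow, map_neg, Polynomial.aeval_X,
      Polynomial.aeval_C, Polynomial.algebraMap_eq]
    ring
  have g1 : Polynomial.aeval (Polynomial.C (conj a ^ 2) * Polynomial.X : Polynomial ℂ) (c1 X) =
      c1 X' * Polynomial.C (conj a ^ 2) := by
    simp only [c1, hth, hbb, map_add, map_sub, map_mul, map_pow, map_neg, Polynomial.aeval_X,
      Polynomial.aeval_C, Polynomial.algebraMap_eq]
    linear_combination (Polynomial.C (bb X)) *
      ((Polynomial.C a : Polynomial ℂ) * Polynomial.C (conj a) + 1) * hC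
  rw [g0, g1]
  ring

lemma M1_Ad_th (k : SLR) (hb : be k = 0) (ha : ‖al k‖ = 1) (X : slR) : th (AdS k X) = th X := by
  rw [th_AdS, hb, ha]
  simp

lemma M1_Ad_bb (k : SLR) (hb : be k = 0) (X : slR) : bb (AdS k X) = al k ^ 2 * bb X := by
  rw [bb_AdS, hb]
  simp

lemma M1_al_conj {a : ℂ} (ha : ‖a‖ = 1) : a * conj a = 1 := by
  rw [Complex.mul_conj, Complex.normSq_eq_norm_sq, ha]
  simp

theorem kactV_actV (k : KK) (X : gg) (v : VV) :
    kactV (k : GG) (actV X v) = actV (Ad (k : GG) X) (kactV (k : GG) v) := by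
  have hb := be_KK k
  have ha := norm_al_KK k
  have a1 := M1_al_conj ha.1
  have a2 := M1_al_conj ha.2
  have t1 := M1_Ad_th (k : GG).1 hb.1 ha.1 X.1
  have t2 := M1_Ad_th (k : GG).2 hb.2 ha.2 X.2
  have b1 := M1_Ad_bb (k : GG).1 hb.1 X.1
  have b2 := M1_Ad_bb (k : GG).2 hb.2 X.2
  have a2' : conj (al (k : GG).2) * al (k : GG).2 = 1 := by rw [mul_comm]; exact a2
  simp only [actV_apply, kactV_apply, Ad, t2, b2]
  refine Prod.ext ?_ ?_
  · simp only [map_add, map_smul, M1_scV_D1 a1 t1 b1, smul_add, smul_smul]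
    have : al (k : GG).2 ^ 2 * bb X.2 * conj (al (k : GG).2) = al (k : GG).2 * bb X.2 := by
      linear_combination (al (k : GG).2 * bb X.2) * a2
    rw [this, mul_comm (al (k : GG).2) (I * _)]
  · simp only [map_add, map_sub, map_smul, M1_scV_D1 a1 t1 b1, smul_add, smul_sub, smul_smul]
    have : conj (al (k : GG).2 ^ 2 * bb X.2) * al (k : GG).2 =
        conj (al (k : GG).2) * conj (bb X.2) := by
      rw [map_mul, map_pow]
      linear_combination (conj (al (k : GG).2) * conj (bb X.2)) * a2
    rw [this, mul_comm (conj (al (k : GG).2)) (I * _)]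

end Pool.SG
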