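import Pool.Agent.Helper71.SG.M1
import Pool.Agent.Helper71.SG.EX

open Complex Set Filter Topology Matrix ComplexConjugate
open scoped ENNReal NNReal Nat

noncomputable section

namespace Pool.SG

lemma M2_scV_mono (a : ℂ) (n : ℕ) (c : ℂ) : scV a (Polynomial.monomial n c) =
    Polynomial.monomial n (conj a ^ (2 * n + 1) * c) := by
  rw [scV_apply, Polynomial.aeval_monomial, mul_pow, Polynomial.algebraMap_eq,
    ← Polynomial.C_pow, ← mul_assoc, ← Polynomial.C_mul, Polynomial.C_mul_X_pow_eq_monomial,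
    Polynomial.smul_monomial]
  congr 1
  rw [smul_eq_mul]
  ring

lemma M2_kactV_mono (k : GG) (n : ℕ) (p q : ℂ) : kactV k (mono n (p, q)) =
    (conj (al k.1) ^ (2 * n + 1) * al k.2) • mono n (p, 0) +
    (conj (al k.1) ^ (2 * n + 1) * conj (al k.2)) • mono n (0, q) := by
  rw [kactV_apply, mono_apply, mono_apply, mono_apply]
  simp only [M2_scV_mono, Prod.smul_mk, Prod.mk_add_mk, Polynomial.smul_monomial, smul_eq_mul,
    Polynomial.monomial_zero_right, smul_zero, add_zero, zero_add]
  refine Prod.ext ?_ ?_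
  · simp only
    congr 1
    ring
  · simp only
    congr 1
    ring

/-- expansion of a vector -/
lemma M2_expand (v : VV) : ∃ N : ℕ, v = ∑ i ∈ Finset.range N, mono i (v.1.coeff i, v.2.coeff i) := by
  refine ⟨max v.1.natDegree v.2.natDegree + 1, ?_⟩
  have h1 := Polynomial.as_sum_range' v.1 (max v.1.natDegree v.2.natDegree + 1) (by omega)
  have h2 := Polynomial.as_sum_range' v.2 (max v.1.natDegree v.2.natDegree + 1) (by omega)
  refine Prod.ext ?_ ?_
  · rw [Prod.fst_sum]
    exact h1
  · rw [Prod.snd_sum]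
    exact h2

theorem kactV_locFinite (v : VV) : ∃ W : Submodule ℂ VV, FiniteDimensional ℂ W ∧
    ∀ k : KK, kactV (k : GG) v ∈ W := by
  obtain ⟨N, hN⟩ := M2_expand v
  refine ⟨Submodule.span ℂ (((Finset.range N).image (fun i => mono i (v.1.coeff i, 0)) ∪
    (Finset.range N).image (fun i => mono i (0, v.2.coeff i)) : Finset VV) : Set VV),
    FiniteDimensional.span_finset ℂ _, fun k => ?_⟩
  rw [hN, map_sum]
  refine Submodule.sum_mem _ fun i hi => ?_
  rw [M2_kactV_mono]
  refine Submodule.add_mem _ (Submodule.smul_mem _ _ (Submodule.subset_span ?_))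
    (Submodule.smul_mem _ _ (Submodule.subset_span ?_))
  · rw [Finset.coe_union]
    left
    rw [← hN]
    exact Finset.mem_coe.2 (Finset.mem_image_of_mem (fun i => mono i (v.1.coeff i, 0)) hi)
  · rw [Finset.coe_union]
    right
    rw [← hN]
    exact Finset.mem_coe.2 (Finset.mem_image_of_mem (fun i => mono i (0, v.2.coeff i)) hi)

lemma M2_formula (f : VV →ₗ[ℂ] ℂ) (v : VV) : ∃ (N : ℕ) (A B : ℕ → ℂ),
    (∀ k : GG, f (kactV k v) = ∑ i ∈ Finset.range N,
      ((conj (al k.1) ^ (2 * i + 1) * al k.2) * A i +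
        (conj (al k.1) ^ (2 * i + 1) * conj (al k.2)) * B i)) ∧
    (∀ X : gg, bb X.1 = 0 → bb X.2 = 0 → f (actV X v) = ∑ i ∈ Finset.range N,
      ((-((2 * i + 1 : ℕ) : ℂ) * (I * th X.1) + I * th X.2) * A i +
        (-((2 * i + 1 : ℕ) : ℂ) * (I * th X.1) - I * th X.2) * B i)) := by
  obtain ⟨N, hN⟩ := M2_expand v
  refine ⟨N, fun i => f (mono i (v.1.coeff i, 0)), fun i => f (mono i (0, v.2.coeff i)),
    fun k => ?_, fun X h1 h2 => ?_⟩
  · conv_lhs => rw [hN, map_sum, map_sum]
    refine Finset.sum_congr rfl fun i _ => ?_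
    rw [M2_kactV_mono, map_add, map_smul, map_smul, smul_eq_mul, smul_eq_mul]
  · conv_lhs => rw [hN, map_sum, map_sum]
    refine Finset.sum_congr rfl fun i _ => ?_
    have hD : ∀ c : ℂ, D1 X.1 (Polynomial.monomial i c) =
        Polynomial.monomial i (-((2 * i + 1 : ℕ) : ℂ) * (I * th X.1) * c) := by
      intro c
      rw [D1_apply, c0, c1, h1]
      simp only [map_zero, zero_mul, add_zero, sub_zero]
      rw [Polynomial.derivative_monomial, Polynomial.C_mul_monomial, mul_assoc]
      rcases Nat.eq_zero_or_pos i with h0 | h0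
      · subst h0
        simp
      · rw [Polynomial.X_mul_monomial, Nat.sub_add_cancel h0, Polynomial.C_mul_monomial,
          ← map_add]
        congr 1
        push_cast
        ring
    have e : actV X (mono i (v.1.coeff i, v.2.coeff i)) =
        (-((2 * i + 1 : ℕ) : ℂ) * (I * th X.1) + I * th X.2) • mono i (v.1.coeff i, 0) +
        (-((2 * i + 1 : ℕ) : ℂ) * (I * th X.1) - I * th X.2) • mono i (0, v.2.coeff i) := by
      rw [actV_apply, mono_apply, mono_apply, mono_apply]
      simp only [hD, h2, map_zero, zero_smul, add_zero, Prod.smul_mk, Prod.mk_add_mk,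
        Polynomial.smul_monomial, smul_eq_mul, Polynomial.monomial_zero_right, smul_zero,
        zero_add, ← map_add, ← map_sub]
      refine Prod.ext ?_ ?_
      · simp only
        congr 1
        ring
      · simp only
        congr 1
        ring
    rw [e, map_add, map_smul, map_smul, smul_eq_mul, smul_eq_mul]

theorem kactV_cont (f : VV →ₗ[ℂ] ℂ) (v : VV) : Continuous fun k : KK => f (kactV (k : GG) v) := by
  obtain ⟨N, A, B, h, -⟩ := M2_formula f v
  have e : (fun k : KK => f (kactV (k : GG) v)) = fun k : KK => ∑ i ∈ Finset.range N,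
      ((conj (al (k : GG).1) ^ (2 * i + 1) * al (k : GG).2) * A i +
        (conj (al (k : GG).1) ^ (2 * i + 1) * conj (al (k : GG).2)) * B i) :=
    funext fun k => h k
  rw [e]
  have c1 : Continuous fun k : KK => al (k : GG).1 :=
    continuous_al.comp (continuous_fst.comp continuous_subtype_val)
  have c2 : Continuous fun k : KK => al (k : GG).2 :=
    continuous_al.comp (continuous_snd.comp continuous_subtype_val)
  have c3 : Continuous fun k : KK => conj (al (k : GG).1) := Complex.continuous_conj.comp c1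
  have c4 : Continuous fun k : KK => conj (al (k : GG).2) := Complex.continuous_conj.comp c2
  fun_prop

theorem kactV_deriv (f : VV →ₗ[ℂ] ℂ) (v : VV) (X : gg) (γ : ℝ → KK)
    (h : IsExp X (fun t => (γ t : GG))) :
    HasDerivAt (fun t => f (kactV (γ t : GG) v)) (f (actV X v)) 0 := by
  obtain ⟨N, A, B, h1, h2⟩ := M2_formula f v
  have hbe := isExp_be h
  have hal := isExp_al h
  have b1 : bb X.1 = 0 := by
    have h3 : (fun t : ℝ => be ((fun t => (γ t : GG)) t).1) = fun _ => (0 : ℂ) :=
      funext fun t => (be_KK (γ t)).1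
    have h4 := hbe.1
    rw [h3] at h4
    exact h4.unique (hasDerivAt_const 0 (0 : ℂ))
  have b2 : bb X.2 = 0 := by
    have h3 : (fun t : ℝ => be ((fun t => (γ t : GG)) t).2) = fun _ => (0 : ℂ) :=
      funext fun t => (be_KK (γ t)).2
    have h4 := hbe.2
    rw [h3] at h4
    exact h4.unique (hasDerivAt_const 0 (0 : ℂ))
  have hz := isExp_zero h
  have z1 : al (γ 0 : GG).1 = 1 := by
    rw [show (γ 0 : GG) = 1 from hz]
    exact al_one
  have z2 : al (γ 0 : GG).2 = 1 := by
    rw [show (γ 0 : GG) = 1 from hz]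
    exact al_one
  have d1 : HasDerivAt (fun t : ℝ => al (γ t : GG).1) (I * (th X.1 : ℂ)) 0 := hal.1
  have d2 : HasDerivAt (fun t : ℝ => al (γ t : GG).2) (I * (th X.2 : ℂ)) 0 := hal.2
  have d3 : HasDerivAt (fun t : ℝ => conj (al (γ t : GG).1)) (-(I * (th X.1 : ℂ))) 0 := by
    refine d1.star.congr_deriv ?_
    show conj (I * (th X.1 : ℂ)) = _
    simp
  have d4 : HasDerivAt (fun t : ℝ => conj (al (γ t : GG).2)) (-(I * (th X.2 : ℂ))) 0 := by
    refine d2.star.congr_deriv ?_
    show conj (I * (th X.2 : ℂ)) = _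
    simp
  have e : (fun t : ℝ => f (kactV (γ t : GG) v)) = fun t : ℝ => ∑ i ∈ Finset.range N,
      ((conj (al (γ t : GG).1) ^ (2 * i + 1) * al (γ t : GG).2) * A i +
        (conj (al (γ t : GG).1) ^ (2 * i + 1) * conj (al (γ t : GG).2)) * B i) :=
    funext fun t => h1 (γ t : GG)
  rw [e, h2 X b1 b2]
  refine HasDerivAt.fun_sum fun i _ => ?_
  have p1 := d3.fun_pow (2 * i + 1)
  have q1 := ((p1.fun_mul d2).mul_const (A i)).fun_add ((p1.fun_mul d4).mul_const (B i))
  refine q1.congr_deriv ?_
  simp only [z1, z2, map_one, one_pow, mul_one, one_mul]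
  ring

end Pool.SG
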