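import Pool.Agent.Helper71.SG.M2

open Complex Set Filter Topology Matrix ComplexConjugate
open scoped ENNReal NNReal Nat

noncomputable section

namespace Pool.SG

/-- The `(g, K)`-module `V`: the limit of the holomorphic discrete series of the first factor
tensored with the standard representation `ℂ²` of the second factor. -/
def MM : GKModule VV where
  act := actV
  act_add := actV_add
  act_smul := actV_smul
  act_lie := actV_lie
  kact :=
    { toFun := fun k => kactV (k : GG)
      map_one' := LinearMap.ext kactV_one
      map_mul' := fun k l => LinearMap.ext (kactV_mul k l) }
  kact_act := kactV_actV
  locFinite := kactV_locFinite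
  kcont := kactV_cont
  kderiv := kactV_deriv

lemma MM_act (X : gg) : MM.act X = actV X := rfl

lemma MM_kact (k : KK) : MM.kact k = kactV (k : GG) := rfl

end Pool.SG
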