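import Pool.Agent.Helper71.SG.Base

/-!
The module `V = ℂ[z] ⊗ ℂ²`, its embedding in `AA`, Taylor coefficients, admissible seminorms.
-/

open Complex Set Filter Topology Matrix ComplexConjugate
open scoped ENNReal NNReal Nat

noncomputable section

namespace Pool.SG

/-- The underlying space of the module: pairs of polynomials. -/
abbrev VV : Type := Polynomial ℂ × Polynomial ℂ

/-- The rotation coordinate of `X`. -/
def th (X : slR) : ℝ := ((X : Mat2) 1 0 - (X : Mat2) 0 1) / 2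

/-- The noncompact coordinate of `X`. -/
def bb (X : slR) : ℂ :=
  ⟨((X : Mat2) 0 0 - (X : Mat2) 1 1) / 2, ((X : Mat2) 0 1 + (X : Mat2) 1 0) / 2⟩

/-- The zero order coefficient of the differential operator of `X`. -/
def c0 (X : slR) : Polynomial ℂ :=
  Polynomial.C (-(I * (th X : ℂ))) + Polynomial.C (conj (bb X)) * Polynomial.X

/-- The first order coefficient of the differential operator of `X`. -/
def c1 (X : slR) : Polynomial ℂ :=
  Polynomial.C (-(2 * I * (th X : ℂ))) * Polynomial.X - Polynomial.C (bb X) +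
    Polynomial.C (conj (bb X)) * Polynomial.X ^ 2

/-- The differential operator of `X` on polynomials. -/
def D1 (X : slR) : Polynomial ℂ →ₗ[ℂ] Polynomial ℂ :=
  LinearMap.mulLeft ℂ (c0 X) + LinearMap.mulLeft ℂ (c1 X) ∘ₗ Polynomial.derivative

lemma D1_apply (X : slR) (f : Polynomial ℂ) :
    D1 X f = c0 X * f + c1 X * Polynomial.derivative f := rfl

/-- The action of the Lie algebra on `VV`. -/
def actV (X : gg) : VV →ₗ[ℂ] VV :=
  LinearMap.prod
    (D1 X.1 ∘ₗ LinearMap.fst ℂ _ _ + (I * (th X.2 : ℂ)) • LinearMap.fst ℂ _ _ +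
      bb X.2 • LinearMap.snd ℂ _ _)
    (D1 X.1 ∘ₗ LinearMap.snd ℂ _ _ + conj (bb X.2) • LinearMap.fst ℂ _ _ -
      (I * (th X.2 : ℂ)) • LinearMap.snd ℂ _ _)

lemma actV_apply (X : gg) (f : VV) : actV X f =
    (D1 X.1 f.1 + (I * (th X.2 : ℂ)) • f.1 + bb X.2 • f.2,
      D1 X.1 f.2 + conj (bb X.2) • f.1 - (I * (th X.2 : ℂ)) • f.2) := rfl

/-- The action of a rotation with first coordinate `a`. -/
def scV (a : ℂ) : Polynomial ℂ →ₗ[ℂ] Polynomial ℂ :=
  conj a • (Polynomial.aeval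
    (Polynomial.C (conj a ^ 2) * Polynomial.X : Polynomial ℂ)).toLinearMap

lemma scV_apply (a : ℂ) (f : Polynomial ℂ) : scV a f =
    conj a • Polynomial.aeval (Polynomial.C (conj a ^ 2) * Polynomial.X : Polynomial ℂ) f := rfl

/-- The action of `K` on `VV`. -/
def kactV (k : GG) : VV →ₗ[ℂ] VV :=
  LinearMap.prod (al k.2 • scV (al k.1) ∘ₗ LinearMap.fst ℂ _ _)
    (conj (al k.2) • scV (al k.1) ∘ₗ LinearMap.snd ℂ _ _)

lemma kactV_apply (k : GG) (f : VV) :
    kactV k f = (al k.2 • scV (al k.1) f.1, conj (al k.2) • scV (al k.1) f.2) := rfl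

/-- Evaluation. -/
def evV (f : VV) (z : ℂ) : ℂ × ℂ := (f.1.eval z, f.2.eval z)

lemma differentiable_evV (f : VV) : Differentiable ℂ (evV f) := by
  unfold evV
  exact (Polynomial.differentiable f.1).prodMk (Polynomial.differentiable f.2)

lemma isExt_evV (R : ℝ) (f : VV) : IsExt R (evV f) (fun z => if ‖z‖ ≤ 1 then evV f z else 0) :=
  ⟨(differentiable_evV f).differentiableOn, fun z hz => by simp [hz]⟩

/-- The embedding of `VV` in `AA`. -/
def inc : VV →ₗ[ℂ] AA where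
  toFun f := ⟨fun z => if ‖z‖ ≤ 1 then evV f z else 0,
    fun z hz => by simp [not_le.2 hz], 2, by norm_num, evV f, isExt_evV 2 f⟩
  map_add' f g := by
    apply AA_ext
    intro z hz
    simp [hz, evV]
  map_smul' c f := by
    apply AA_ext
    intro z hz
    simp [hz, evV]

lemma inc_apply (f : VV) {z : ℂ} (hz : ‖z‖ ≤ 1) : (inc f : ℂ → ℂ × ℂ) z = evV f z := by
  show (if ‖z‖ ≤ 1 then evV f z else 0) = _
  rw [if_pos hz]

lemma isExt_inc (R : ℝ) (f : VV) : IsExt R (evV f) (inc f : ℂ → ℂ × ℂ) := isExt_evV R f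

/-- The vector `z ^ n ⊗ u`. -/
def mono (n : ℕ) : ℂ × ℂ →ₗ[ℂ] VV :=
  LinearMap.prod (Polynomial.monomial n ∘ₗ LinearMap.fst ℂ _ _)
    (Polynomial.monomial n ∘ₗ LinearMap.snd ℂ _ _)

lemma mono_apply (n : ℕ) (u : ℂ × ℂ) :
    mono n u = (Polynomial.monomial n u.1, Polynomial.monomial n u.2) := rfl

lemma evV_mono (n : ℕ) (u : ℂ × ℂ) (z : ℂ) : evV (mono n u) z = z ^ n • u := by
  ext <;> simp [evV, mono_apply, Polynomial.eval_monomial, mul_comm]

/-- Functions in `AA` are analytic at the origin. -/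
lemma AA_analyticAt (F : AA) : AnalyticAt ℂ (F : ℂ → ℂ × ℂ) 0 := by
  obtain ⟨-, R, hR, E, hE⟩ := F.2
  have h1 : AnalyticAt ℂ E 0 :=
    hE.1.analyticAt (Metric.ball_mem_nhds 0 (by linarith))
  refine h1.congr ?_
  filter_upwards [Metric.ball_mem_nhds (0 : ℂ) one_pos] with z hz
  have : ‖z‖ < 1 := by simpa using hz
  exact (hE.2 z this.le).symm

/-- The Taylor coefficients of a function in `AA`. -/
def cf (n : ℕ) : AA →ₗ[ℂ] ℂ × ℂ where
  toFun F := ((n ! : ℕ) : ℂ)⁻¹ • iteratedDeriv n (F : ℂ → ℂ × ℂ) 0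
  map_add' F H := by
    rw [← smul_add]
    congr 1
    have h1 : ContDiffAt ℂ n (F : ℂ → ℂ × ℂ) 0 := (AA_analyticAt F).contDiffAt
    have h2 : ContDiffAt ℂ n (H : ℂ → ℂ × ℂ) 0 := (AA_analyticAt H).contDiffAt
    exact iteratedDeriv_add h1 h2
  map_smul' c F := by
    have h1 : ContDiffAt ℂ n (F : ℂ → ℂ × ℂ) 0 := (AA_analyticAt F).contDiffAt
    rw [RingHom.id_apply, smul_comm]
    congr 1
    exact iteratedDeriv_const_smul h1 c

lemma cf_apply (n : ℕ) (F : AA) :
    cf n F = ((n ! : ℕ) : ℂ)⁻¹ • iteratedDeriv n (F : ℂ → ℂ × ℂ) 0 := rfl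

/-- The Taylor polynomials of a function in `AA`. -/
def trunc (N : ℕ) (F : AA) : VV := ∑ n ∈ Finset.range N, mono n (cf n F)

/-- A seminorm on `AA` that is continuous for the topology of uniform convergence near the
closed disc. -/
def Tame (P : Seminorm ℂ AA) : Prop :=
  ∀ R > 1, ∃ C, 0 ≤ C ∧ ∀ (F : AA) (E : ℂ → ℂ × ℂ) (K : ℝ), IsExt R E F →
    (∀ z : ℂ, ‖z‖ < R → ‖E z‖ ≤ K) → P F ≤ C * K

/-- Growth of a seminorm under the action of `G`. -/
def Grow (w : GG → ℝ) (c : ℝ) (P : Seminorm ℂ AA) : Prop :=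
  ∀ g F, P (TT g F) ≤ c * w g * P F

/-- Seminorms on `AA` that restrict to norms in `Norm (V, w)`. -/
structure Crit (w : GG → ℝ) (P : Seminorm ℂ AA) : Prop where
  tame : Tame P
  grow : ∃ c, 0 < c ∧ Grow w c P
  pos : ∀ f : VV, P (inc f) = 0 → f = 0

/-- The rotation by the angle `θ`. -/
def rot (θ : ℝ) : SLR :=
  ⟨!![Real.cos θ, -Real.sin θ; Real.sin θ, Real.cos θ], by
    rw [Matrix.det_fin_two_of]
    nlinarith [Real.sin_sq_add_cos_sq θ]⟩

/-- The hyperbolic one-parameter subgroup. -/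
def hyp (t : ℝ) : SLR :=
  ⟨!![Real.exp t, 0; 0, Real.exp (-t)], by
    rw [Matrix.det_fin_two_of, ← Real.exp_add]
    simp⟩

lemma al_rot (θ : ℝ) : al (rot θ) = exp (θ * I) := by
  rw [Complex.exp_mul_I]
  apply Complex.ext <;> simp [al, rot, ← Complex.ofReal_cos, ← Complex.ofReal_sin]

lemma be_rot (θ : ℝ) : be (rot θ) = 0 := by
  apply Complex.ext <;> simp [be, rot]

lemma al_hyp (t : ℝ) : al (hyp t) = (Real.cosh t : ℂ) := by
  apply Complex.ext
  · rw [Complex.ofReal_re, Real.cosh_eq]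
    simp [al, hyp]
  · rw [Complex.ofReal_im]
    simp [al, hyp]

lemma be_hyp (t : ℝ) : be (hyp t) = (Real.sinh t : ℂ) := by
  apply Complex.ext
  · rw [Complex.ofReal_re, Real.sinh_eq]
    simp [be, hyp]
  · rw [Complex.ofReal_im]
    simp [be, hyp]

end Pool.SG
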