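import Pool.Agent.Helper71.SG.TAME

open Complex Set Filter Topology Matrix ComplexConjugate
open scoped ENNReal NNReal Nat

noncomputable section

namespace Pool.SG

/-! ### Rotations on Taylor coefficients -/

lemma mob_rot (θ : ℝ) (z : ℂ) : mob (rot θ) z = exp (-(2 * θ * I)) * z := by
  have h1 : conj (al (rot θ)) = exp (-(θ * I)) := by
    rw [al_rot, ← Complex.exp_conj]
    congr 1
    simp
  have h2 : exp (-(2 * θ * I)) = exp (-(θ * I)) * exp (-(θ * I)) := by
    rw [← Complex.exp_add]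
    congr 1
    ring
  have h3 : exp (θ * I) * exp (-(θ * I)) = 1 := by
    rw [← Complex.exp_add]
    simp
  rw [mob, jf, be_rot, h1, al_rot, map_zero, zero_mul, sub_zero, sub_zero, h2,
    div_eq_iff (Complex.exp_ne_zero _)]
  linear_combination -(exp (-(θ * I)) * z) * h3

lemma jf_rot (θ : ℝ) (z : ℂ) : jf (rot θ) z = exp (θ * I) := by
  rw [jf, be_rot, al_rot, map_zero, zero_mul, sub_zero]

/-- Rotations act on the Taylor coefficients by characters. -/
lemma cf_TT_rot (θ : ℝ) (F : AA) (m : ℕ) :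
    cf m (TT (rot θ, 1) F) = exp (-((2 * m + 1) * θ * I)) • cf m F := by
  refine cf_unique _ (fun m => exp (-((2 * m + 1) * θ * I)) • cf m F) (fun z hz => ?_) m
  have h1 : ‖mob (rot θ) z‖ ≤ 1 := norm_mob_le _ hz.le
  have h2 := (cf_hasSum F h1).const_smul (jf (rot θ) z)⁻¹
  rw [TT_apply _ _ hz.le]
  simp only [m2_one]
  have h3 : (fun n : ℕ => z ^ n • exp (-((2 * n + 1) * θ * I)) • cf n F) =
      fun n : ℕ => (jf (rot θ) z)⁻¹ • mob (rot θ) z ^ n • cf n F := by
    funext n
    rw [smul_smul, smul_smul, jf_rot, mob_rot, mul_pow, ← Complex.exp_nat_mul,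
      ← Complex.exp_neg]
    congr 1
    have h4 : exp (-((2 * n + 1) * θ * I)) = exp (-(θ * I)) * exp (n * -(2 * θ * I)) := by
      rw [← Complex.exp_add]
      congr 1
      ring
    rw [h4]
    ring
  rw [h3]
  exact h2

/-- Sums over roots of unity. -/
lemma sum_roots (L : ℕ) (hL : 0 < L) (n m : ℕ) :
    ∑ j ∈ Finset.range L, exp ((2 * n + 1) * ((Real.pi * j / L : ℝ) : ℂ) * I) *
      exp (-((2 * m + 1) * ((Real.pi * j / L : ℝ) : ℂ) * I)) =
      if (L : ℤ) ∣ (n : ℤ) - m then (L : ℂ) else 0 := by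
  have hLc : (L : ℂ) ≠ 0 := by exact_mod_cast hL.ne'
  set ω : ℂ := exp (2 * Real.pi * I * (((n : ℤ) - m : ℤ) : ℂ) / L) with hω
  have h1 : ∀ j : ℕ, exp ((2 * n + 1) * ((Real.pi * j / L : ℝ) : ℂ) * I) *
      exp (-((2 * m + 1) * ((Real.pi * j / L : ℝ) : ℂ) * I)) = ω ^ j := by
    intro j
    rw [hω, ← Complex.exp_nat_mul, ← Complex.exp_add]
    congr 1
    push_cast
    field_simp
    ring
  rw [Finset.sum_congr rfl fun j _ => h1 j]
  have hωL : ω ^ L = 1 := by
    rw [hω, ← Complex.exp_nat_mul, Complex.exp_eq_one_iff]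
    refine ⟨(n : ℤ) - m, ?_⟩
    field_simp
  split_ifs with hd
  · obtain ⟨c, hc⟩ := hd
    have : ω = 1 := by
      rw [hω, Complex.exp_eq_one_iff]
      refine ⟨c, ?_⟩
      rw [hc]
      push_cast
      field_simp
    simp [this]
  · have hne : ω ≠ 1 := by
      intro h
      rw [hω, Complex.exp_eq_one_iff] at h
      obtain ⟨c, hc⟩ := h
      apply hd
      refine ⟨c, ?_⟩
      have hpi : (2 * Real.pi * I : ℂ) ≠ 0 := Complex.two_pi_I_ne_zero
      have h2 : (((n : ℤ) - m : ℤ) : ℂ) = L * c := by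
        field_simp at hc
        have h3 : (2 * Real.pi * I : ℂ) * (((n : ℤ) - m : ℤ) : ℂ) =
            (2 * Real.pi * I : ℂ) * (L * c) := by
          linear_combination (2 * Real.pi * I : ℂ) * hc
        exact mul_left_cancel₀ hpi h3
      exact_mod_cast h2
    rw [geom_sum_eq hne, hωL, sub_self, zero_div]

/-- The average over the rotations by the angles `π j / L`. -/
def avg (L n : ℕ) (F : AA) : AA :=
  (L : ℂ)⁻¹ • ∑ j ∈ Finset.range L,
    exp ((2 * n + 1) * ((Real.pi * j / L : ℝ) : ℂ) * I) • TT (rot (Real.pi * j / L), 1) F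

lemma cf_avg (L : ℕ) (hL : 0 < L) (n m : ℕ) (F : AA) :
    cf m (avg L n F) = if (L : ℤ) ∣ (n : ℤ) - m then cf m F else 0 := by
  have hLc : (L : ℂ) ≠ 0 := by exact_mod_cast hL.ne'
  rw [avg, map_smul, map_sum]
  simp only [map_smul, cf_TT_rot, smul_smul]
  rw [← Finset.sum_smul, smul_smul, sum_roots L hL n m]
  split_ifs
  · rw [inv_mul_cancel₀ hLc, one_smul]
  · simp

lemma seminorm_sum_le (P : Seminorm ℂ AA) {ι : Type} (s : Finset ι) (f : ι → AA) :
    P (∑ i ∈ s, f i) ≤ ∑ i ∈ s, P (f i) := by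
  classical
  induction s using Finset.induction_on with
  | empty => simp
  | insert a s ha ih =>
    rw [Finset.sum_insert ha, Finset.sum_insert ha]
    exact (map_add_le_add P _ _).trans (by gcongr)

lemma norm_exp_real (x : ℝ) : ‖exp ((x : ℂ) * I)‖ = 1 := Complex.norm_exp_ofReal_mul_I x

lemma avg_le {P : Seminorm ℂ AA} {W : ℝ}
    (hW : ∀ θ F, P (TT (rot θ, 1) F) ≤ W * P F) (L : ℕ) (hL : 0 < L) (n : ℕ) (F : AA) :
    P (avg L n F) ≤ W * P F := by
  have hLr : (0 : ℝ) < L := by exact_mod_cast hL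
  rw [avg, map_smul_eq_mul, norm_inv, Complex.norm_natCast]
  have h1 : P (∑ j ∈ Finset.range L, exp ((2 * n + 1) * ((Real.pi * j / L : ℝ) : ℂ) * I) •
      TT (rot (Real.pi * j / L), 1) F) ≤ ∑ j ∈ Finset.range L, W * P F := by
    refine (seminorm_sum_le P _ _).trans (Finset.sum_le_sum fun j _ => ?_)
    rw [map_smul_eq_mul]
    have h2 : ‖exp ((2 * n + 1) * ((Real.pi * j / L : ℝ) : ℂ) * I)‖ = 1 := by
      have := norm_exp_real ((2 * n + 1) * (Real.pi * j / L))
      rw [← this]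
      congr 2
      push_cast
      ring
    rw [h2, one_mul]
    exact hW _ _
  rw [Finset.sum_const, Finset.card_range, nsmul_eq_mul] at h1
  calc (L : ℝ)⁻¹ * _ ≤ (L : ℝ)⁻¹ * (L * (W * P F)) := by gcongr
    _ = W * P F := by field_simp

theorem proj_le {P : Seminorm ℂ AA} (hP : Tame P) {W : ℝ}
    (hW : ∀ θ F, P (TT (rot θ, 1) F) ≤ W * P F) (n : ℕ) (F : AA) :
    P (inc (mono n (cf n F))) ≤ W * P F := by
  have hs := tame_summable hP F
  -- the tails
  have htail : Tendsto (fun L : ℕ => ∑' m, P (inc (mono (m + L) (cf (m + L) F)))) atTop (𝓝 0) :=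
    tendsto_sum_nat_add fun m => P (inc (mono m (cf m F)))
  have hlim : Tendsto (fun L : ℕ => W * P F + ∑' m, P (inc (mono (m + L) (cf (m + L) F))))
      atTop (𝓝 (W * P F + 0)) := tendsto_const_nhds.add htail
  rw [add_zero] at hlim
  refine ge_of_tendsto hlim ?_
  filter_upwards [eventually_gt_atTop n] with L hLn
  have hL : 0 < L := lt_of_le_of_lt (Nat.zero_le _) hLn
  have h1 : inc (mono n (cf n F)) = avg L n F - (avg L n F - inc (mono n (cf n F))) := by abel
  have h2 : P (avg L n F - inc (mono n (cf n F))) ≤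
      ∑' m, P (inc (mono (m + L) (cf (m + L) F))) := by
    refine (tame_le_tsum hP _).trans ?_
    set D := avg L n F - inc (mono n (cf n F)) with hD
    have hcf : ∀ m, cf m D = if (L : ℤ) ∣ (n : ℤ) - m ∧ m ≠ n then cf m F else 0 := by
      intro m
      rw [hD, map_sub, cf_avg L hL, cf_inc]
      by_cases hmn : m = n
      · subst hmn
        simp [mono_apply]
      · simp [mono_apply, Polynomial.coeff_monomial, hmn, Ne.symm hmn]
    have hzero : ∀ m ∈ Finset.range L, P (inc (mono m (cf m D))) = 0 := by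
      intro m hm
      rw [Finset.mem_range] at hm
      rw [hcf, if_neg, map_zero, map_zero, map_zero]
      rintro ⟨hd, hmn⟩
      have h3 : (n : ℤ) - m = 0 := by
        apply Int.eq_zero_of_abs_lt_dvd hd
        rw [abs_lt]
        constructor <;> omega
      apply hmn
      omega
    have hsD := tame_summable hP D
    rw [← hsD.sum_add_tsum_nat_add L, Finset.sum_eq_zero hzero, zero_add]
    refine Summable.tsum_le_tsum (fun m => ?_) ((summable_nat_add_iff L).2 hsD)
      ((summable_nat_add_iff L).2 hs)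
    rw [hcf]
    split_ifs
    · exact le_rfl
    · rw [map_zero, map_zero, map_zero]
      exact apply_nonneg _ _
  calc P (inc (mono n (cf n F))) = P (avg L n F - (avg L n F - inc (mono n (cf n F)))) := by
        rw [← h1]
    _ ≤ P (avg L n F) + P (avg L n F - inc (mono n (cf n F))) := map_sub_le_add P _ _
    _ ≤ _ := add_le_add (avg_le hW L hL n F) h2

theorem split_le {P : Seminorm ℂ AA} {W : ℝ}
    (hW : ∀ F, P (TT (1, rot (Real.pi / 2)) F) ≤ W * P F) (n : ℕ) (u : ℂ × ℂ) :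
    P (inc (mono n (u.1, 0))) ≤ (1 + W) / 2 * P (inc (mono n u)) ∧
    P (inc (mono n (0, u.2))) ≤ (1 + W) / 2 * P (inc (mono n u)) := by
  have hal : al (rot (Real.pi / 2)) = I := by
    rw [al_rot]
    have : ((Real.pi / 2 : ℝ) : ℂ) * I = Real.pi / 2 * I := by push_cast; ring
    rw [this, Complex.exp_pi_div_two_mul_I]
  have hm : ∀ v : ℂ × ℂ, m2 (rot (Real.pi / 2)) v = (I * v.1, -I * v.2) := by
    intro v
    rw [m2, hal, be_rot]
    simp
  have hT : TT (1, rot (Real.pi / 2)) (inc (mono n u)) = inc (mono n (I * u.1, -I * u.2)) := by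
    apply AA_ext
    intro z hz
    rw [TT_apply _ _ hz, inc_apply _ hz]
    simp only [jf_one, mob_one]
    rw [inc_apply _ hz, evV_mono, evV_mono, inv_one, one_smul, m2_smul, hm]
  have hb : P (inc (mono n (I * u.1, -I * u.2))) ≤ W * P (inc (mono n u)) := by
    rw [← hT]
    exact hW _
  constructor
  · have h1 : inc (mono n (u.1, 0)) =
        (2 : ℂ)⁻¹ • (inc (mono n u) - I • inc (mono n (I * u.1, -I * u.2))) := by
      rw [← map_smul, ← map_sub, ← map_smul, ← map_smul, ← map_sub, ← map_smul]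
      congr 2
      ext
      · simp only [Prod.smul_fst, Prod.fst_sub, smul_eq_mul]
        linear_combination (u.1 / 2) * Complex.I_mul_I
      · simp only [Prod.smul_snd, Prod.snd_sub, smul_eq_mul]
        linear_combination -(u.2 / 2) * Complex.I_mul_I
    rw [h1, map_smul_eq_mul]
    have h2 := map_sub_le_add P (inc (mono n u)) (I • inc (mono n (I * u.1, -I * u.2)))
    rw [map_smul_eq_mul, Complex.norm_I, one_mul] at h2
    have h3 : ‖(2 : ℂ)⁻¹‖ = 1 / 2 := by norm_num
    rw [h3]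
    linarith
  · have h1 : inc (mono n (0, u.2)) =
        (2 : ℂ)⁻¹ • (inc (mono n u) + I • inc (mono n (I * u.1, -I * u.2))) := by
      rw [← map_smul, ← map_add, ← map_smul, ← map_smul, ← map_add, ← map_smul]
      congr 2
      ext
      · simp only [Prod.smul_fst, Prod.fst_add, smul_eq_mul]
        linear_combination -(u.1 / 2) * Complex.I_mul_I
      · simp only [Prod.smul_snd, Prod.snd_add, smul_eq_mul]
        linear_combination (u.2 / 2) * Complex.I_mul_I
    rw [h1, map_smul_eq_mul]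
    have h2 := map_add_le_add P (inc (mono n u)) (I • inc (mono n (I * u.1, -I * u.2)))
    rw [map_smul_eq_mul, Complex.norm_I, one_mul] at h2
    have h3 : ‖(2 : ℂ)⁻¹‖ = 1 / 2 := by norm_num
    rw [h3]
    linarith

lemma continuous_rot : Continuous rot := by
  refine Continuous.subtype_mk (continuous_matrix fun i j => ?_) _
  fin_cases i <;> fin_cases j <;> simp <;> fun_prop

/-- Orthogonal matrices of determinant one are rotations. -/
lemma exists_rot (g : SLR) (hg : (g : Mat2) * (g : Mat2)ᵀ = 1) :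
    ∃ θ ∈ Set.Icc (-Real.pi) Real.pi, g = rot θ := by
  have h00 := congrFun (congrFun hg 0) 0
  have h01 := congrFun (congrFun hg 0) 1
  have h11 := congrFun (congrFun hg 1) 1
  have hd : (g : Mat2) 0 0 * (g : Mat2) 1 1 - (g : Mat2) 0 1 * (g : Mat2) 1 0 = 1 := by
    have := g.2
    rwa [Matrix.det_fin_two] at this
  simp [Matrix.mul_apply, Fin.sum_univ_two] at h00 h01 h11
  have hsum : ((g : Mat2) 0 0 - (g : Mat2) 1 1) ^ 2 + ((g : Mat2) 0 1 + (g : Mat2) 1 0) ^ 2 = 0 := by
    nlinarith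
  have ha : (g : Mat2) 1 1 = (g : Mat2) 0 0 := by
    nlinarith [sq_nonneg ((g : Mat2) 0 0 - (g : Mat2) 1 1),
      sq_nonneg ((g : Mat2) 0 1 + (g : Mat2) 1 0)]
  have hb : (g : Mat2) 0 1 = -(g : Mat2) 1 0 := by
    nlinarith [sq_nonneg ((g : Mat2) 0 0 - (g : Mat2) 1 1),
      sq_nonneg ((g : Mat2) 0 1 + (g : Mat2) 1 0)]
  have hz : ‖(⟨(g : Mat2) 0 0, (g : Mat2) 1 0⟩ : ℂ)‖ = 1 := by
    rw [Complex.norm_def, Complex.normSq_apply]
    have : (g : Mat2) 0 0 * (g : Mat2) 0 0 + (g : Mat2) 1 0 * (g : Mat2) 1 0 = 1 := by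
      rw [ha, hb] at hd
      linarith
    rw [this, Real.sqrt_one]
  set z : ℂ := ⟨(g : Mat2) 0 0, (g : Mat2) 1 0⟩ with hzdef
  have hz0 : z ≠ 0 := by
    intro h
    rw [h, norm_zero] at hz
    norm_num at hz
  refine ⟨arg z, ⟨(Complex.neg_pi_lt_arg z).le, Complex.arg_le_pi z⟩, ?_⟩
  have hc : Real.cos (arg z) = (g : Mat2) 0 0 := by
    rw [Complex.cos_arg hz0, hz, div_one]
  have hsn : Real.sin (arg z) = (g : Mat2) 1 0 := by
    rw [Complex.sin_arg, hz, div_one]
  apply Subtype.ext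
  show (g : Mat2) = !![Real.cos (arg z), -Real.sin (arg z); Real.sin (arg z), Real.cos (arg z)]
  rw [hc, hsn]
  ext i j
  fin_cases i <;> fin_cases j <;> simp [ha, hb]

/-- A weight is bounded on `K`. -/
theorem weight_bdd_K {w : GG → ℝ} (hw : IsWeight w) :
    ∃ W, 1 ≤ W ∧ ∀ k : KK, w (k : GG) ≤ W := by
  have hcpt : IsCompact ((fun p : ℝ × ℝ => ((rot p.1, rot p.2) : GG)) ''
      (Set.Icc (-Real.pi) Real.pi ×ˢ Set.Icc (-Real.pi) Real.pi)) :=
    (isCompact_Icc.prod isCompact_Icc).image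
      ((continuous_rot.comp continuous_fst).prodMk (continuous_rot.comp continuous_snd))
  have hb : ∃ C, ∀ g ∈ (fun p : ℝ × ℝ => ((rot p.1, rot p.2) : GG)) ''
      (Set.Icc (-Real.pi) Real.pi ×ˢ Set.Icc (-Real.pi) Real.pi), w g ≤ C := by
    refine hcpt.induction_on (p := fun s => ∃ C, ∀ g ∈ s, w g ≤ C) ⟨0, by simp⟩ ?_ ?_ ?_
    · rintro s t hst ⟨C, hC⟩
      exact ⟨C, fun g hg => hC g (hst hg)⟩
    · rintro s t ⟨C, hC⟩ ⟨C', hC'⟩
      refine ⟨max C C', ?_⟩
      rintro g (hg | hg)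
      · exact (hC g hg).trans (le_max_left _ _)
      · exact (hC' g hg).trans (le_max_right _ _)
    · intro g _
      obtain ⟨C, hC⟩ := hw.locBdd g
      exact ⟨_, mem_nhdsWithin_of_mem_nhds hC, C, fun h hh => hh⟩
  obtain ⟨C, hC⟩ := hb
  refine ⟨max C 1, le_max_right _ _, ?_⟩
  rintro ⟨⟨g1, g2⟩, hg1, hg2⟩
  obtain ⟨s, hs, rfl⟩ := exists_rot g1 hg1
  obtain ⟨t, ht, rfl⟩ := exists_rot g2 hg2
  exact (hC _ ⟨(s, t), ⟨hs, ht⟩, rfl⟩).trans (le_max_left _ _)

/-- Weights are at least one at the identity. -/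
theorem weight_one {w : GG → ℝ} (hw : IsWeight w) : 1 ≤ w 1 := by
  have h1 := hw.mul_le 1 1
  rw [mul_one] at h1
  have h2 := hw.pos 1
  by_contra h
  push Not at h
  nlinarith

end Pool.SG
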