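import Pool.Agent.Helper71.SG.RLZ
import Pool.Agent.Helper71.SG.PROJ

open Complex Set Filter Topology Matrix ComplexConjugate
open scoped ENNReal NNReal Nat

noncomputable section

namespace Pool.SG

variable {B : Type} [NormedAddCommGroup B] [NormedSpace ℂ B] [CompleteSpace B]

/-! ### The action of the generators on the lowest vectors -/

namespace ODE

lemma th_zero : th 0 = 0 := by simp [th]

lemma bb_zero : bb 0 = 0 := by
  apply Complex.ext <;> simp [bb]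

lemma th_XW : th XW = 1 := by simp [th, XW]

lemma bb_XW : bb XW = 0 := by
  apply Complex.ext <;> simp [bb, XW]

lemma th_XY : th XY = 0 := by simp [th, XY]

lemma bb_XY : bb XY = I := by
  apply Complex.ext <;> simp [bb, XY]

lemma th_XA : th XA = 0 := by simp [th, XA]

lemma bb_XA : bb XA = 1 := by
  apply Complex.ext <;> simp [bb, XA]

lemma actV_XW (u : ℂ × ℂ) : actV (XW, 0) (mono 0 u) = -(I • mono 0 u) := by
  rw [actV_apply, mono_apply]
  simp only [D1_apply, c0, c1, th_XW, bb_XW, th_zero, bb_zero]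
  ext n <;> simp [Polynomial.coeff_C]

lemma actV_XY (u : ℂ × ℂ) : actV (XY, 0) (mono 0 u) = -(I • mono 1 u) := by
  rw [actV_apply, mono_apply, mono_apply]
  simp only [D1_apply, c0, c1, th_XY, bb_XY, th_zero, bb_zero]
  ext n <;> by_cases hn : 1 = n <;> simp [Polynomial.coeff_monomial, Polynomial.coeff_X, hn]

lemma actV_XA0 (u : ℂ × ℂ) : actV (XA, 0) (mono 0 u) = mono 1 u := by
  rw [actV_apply, mono_apply, mono_apply]
  simp only [D1_apply, c0, c1, th_XA, bb_XA, th_zero, bb_zero]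
  ext n <;> by_cases hn : 1 = n <;> simp [Polynomial.coeff_monomial, Polynomial.coeff_X, hn]

lemma hyp_zero : hyp 0 = 1 := by
  apply Subtype.ext
  show !![Real.exp 0, 0; 0, Real.exp (-0)] = (1 : Mat2)
  rw [neg_zero, Real.exp_zero]
  exact (Matrix.one_fin_two).symm

lemma hyp_neg_mul (t : ℝ) : hyp (-t) * hyp t = 1 := by
  rw [← hyp_add, neg_add_cancel, hyp_zero]

lemma hyp_mul_neg (t : ℝ) : hyp t * hyp (-t) = 1 := by
  rw [← hyp_add, add_neg_cancel, hyp_zero]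

lemma hyp_neg_inv (t : ℝ) : (hyp (-t))⁻¹ = hyp t := inv_eq_of_mul_eq_one_right (hyp_neg_mul t)

lemma alg0 (s c : ℝ) (hs : s ≠ 0) (hc : c ≠ 0) (h : c ^ 2 = s ^ 2 + 1) :
    s = -(c * ((1 - (c ^ 2 + s ^ 2)) / (2 * s * c))) := by
  rw [show 1 - (c ^ 2 + s ^ 2) = -(2 * s ^ 2) by rw [h]; ring]
  field_simp

lemma alg1 (s c : ℝ) (m : ℕ) (hs : s ≠ 0) (hc : c ≠ 0) (h : c ^ 2 = s ^ 2 + 1) :
    ((m + 1 + 1) * c ^ (m + 1) * s * s ^ (m + 1) - c ^ (m + 1 + 1) * ((m + 1) * s ^ m * c)) /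
      (s ^ (m + 1)) ^ 2 =
    -(c ^ (m + 1 + 1) / s ^ (m + 1) * ((2 * (m + 1) + 1 - (c ^ 2 + s ^ 2)) / (2 * s * c))) := by
  rw [show 2 * ((m : ℝ) + 1) + 1 - (c ^ 2 + s ^ 2) = 2 * (m + 1 - s ^ 2) by rw [h]; ring]
  rw [show ((m : ℝ) + 1 + 1) * c ^ (m + 1) * s * s ^ (m + 1) -
    c ^ (m + 1 + 1) * ((m + 1) * s ^ m * c) =
      c ^ (m + 1) * s ^ m * ((m + 2) * s ^ 2 - (m + 1) * c ^ 2) by ring, h]
  field_simp
  ring

/-- The inverse of the expected coefficient. -/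
def psi (n : ℕ) (t : ℝ) : ℝ := Real.cosh t ^ (n + 1) / Real.sinh t ^ n

lemma psi_deriv (n : ℕ) {t : ℝ} (ht : 0 < t) : HasDerivAt (psi n)
    (-(psi n t * ((2 * n + 1 - Real.cosh (2 * t)) / Real.sinh (2 * t)))) t := by
  have hs : 0 < Real.sinh t := Real.sinh_pos_iff.2 ht
  have hc : 0 < Real.cosh t := Real.cosh_pos t
  have hcs : Real.cosh t ^ 2 = Real.sinh t ^ 2 + 1 := Real.cosh_sq t
  have h1 : HasDerivAt (psi n) ((((n + 1 : ℕ) : ℝ) * Real.cosh t ^ n * Real.sinh t *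
      Real.sinh t ^ n - Real.cosh t ^ (n + 1) * (n * Real.sinh t ^ (n - 1) * Real.cosh t)) /
        (Real.sinh t ^ n) ^ 2) t :=
    ((Real.hasDerivAt_cosh t).pow (n + 1)).div ((Real.hasDerivAt_sinh t).pow n)
      (pow_ne_zero n hs.ne')
  refine h1.congr_deriv ?_
  rw [psi, Real.cosh_two_mul, Real.sinh_two_mul]
  rcases Nat.eq_zero_or_pos n with hn | hn
  · subst hn
    simpa using alg0 _ _ hs.ne' hc.ne' hcs
  · obtain ⟨m, rfl⟩ : ∃ m, n = m + 1 := ⟨n - 1, by omega⟩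
    have h2 := alg1 _ _ m hs.ne' hc.ne' hcs
    simp only [Nat.add_sub_cancel]
    push_cast
    exact h2

lemma psi_pos (n : ℕ) {t : ℝ} (ht : 0 < t) : 0 < psi n t :=
  div_pos (pow_pos (Real.cosh_pos t) _) (pow_pos (Real.sinh_pos_iff.2 ht) _)

lemma psi_inv (n : ℕ) {t : ℝ} : Real.tanh t ^ n / Real.cosh t = (psi n t)⁻¹ := by
  have hc : 0 < Real.cosh t := Real.cosh_pos t
  rw [psi, Real.tanh_eq_sinh_div_cosh, div_pow, inv_div, pow_succ]
  field_simp

end ODE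

open Pool.SG.ODE

/-- The recursion for the coefficients along `hyp t`. -/
theorem coef_rel {w : GG → ℝ} {ι : VV →ₗ[ℂ] B} {π : GG →* (B →L[ℂ] B)}
    (h : Rlz w ι π) (n : ℕ) (Q : B →L[ℂ] B)
    (hQ : ∀ (s : ℝ) b, Q (π (rot s, 1) b) = exp (-((2 * n + 1) * s * I)) • Q b)
    (u : ℂ × ℂ) (t : ℝ) :
    (Real.sinh (2 * t) : ℂ) • Q (π (hyp t, 1) (ι (mono 1 u))) =
      ((2 * n + 1 : ℂ) - Real.cosh (2 * t)) • Q (π (hyp t, 1) (ι (mono 0 u))) := by
  set g : GG := (hyp (-t), 1) with hg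
  set Φ := Q (π (hyp t, 1) (ι (mono 0 u))) with hΦ
  set Ψ := Q (π (hyp t, 1) (ι (mono 1 u))) with hΨ
  have hexp := isExp_conj isExp_rot g
  have hd := h.deriv _ _ (mono 0 u) hexp
  -- the left side
  have hL : HasDerivAt (fun s : ℝ => Q (π (hyp t, 1) (π (g * (rot s, 1) * g⁻¹) (ι (mono 0 u)))))
      (Q (π (hyp t, 1) (ι (actV (Ad g (XW, 0)) (mono 0 u))))) 0 := by
    have h1 := ((Q.comp (π (hyp t, 1))).restrictScalars ℝ).hasFDerivAt.comp_hasDerivAt (0 : ℝ) hd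
    exact h1
  have heq : (fun s : ℝ => Q (π (hyp t, 1) (π (g * (rot s, 1) * g⁻¹) (ι (mono 0 u))))) =
      fun s : ℝ => exp (-((2 * n + 1) * s * I)) • Φ := by
    funext s
    rw [hΦ, ← hQ]
    congr 1
    have h1 : ((hyp t, 1) : GG) * (g * (rot s, 1) * g⁻¹) = (rot s, 1) * (hyp t, 1) := by
      rw [hg]
      ext1
      · simp only [Prod.fst_mul, Prod.fst_inv]
        rw [hyp_neg_inv, mul_assoc, ← mul_assoc, hyp_mul_neg, one_mul]
      · simp
    have h2 : ∀ (a b : GG) (x : B), π a (π b x) = π (a * b) x := fun a b x => by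
      rw [map_mul]; rfl
    rw [h2, h2, h1]
  rw [heq] at hL
  -- the right side
  have hR : HasDerivAt (fun s : ℝ => exp (-((2 * n + 1) * s * I)) • Φ)
      ((-((2 * n + 1) * I) : ℂ) • Φ) 0 := by
    have h1 : HasDerivAt (fun s : ℝ => -((2 * n + 1) * (s : ℂ) * I)) (-((2 * n + 1) * I)) 0 := by
      have h2 : HasDerivAt (fun s : ℝ => (s : ℂ)) 1 0 := Complex.ofRealCLM.hasDerivAt
      have h3 : HasDerivAt (fun s : ℝ => -((2 * n + 1) * (s : ℂ) * I))
          (-((2 * n + 1) * 1 * I)) 0 := ((h2.const_mul (2 * n + 1 : ℂ)).mul_const I).neg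
      rwa [mul_one] at h3
    have h4 := h1.cexp
    have h5 := h4.smul_const Φ
    simpa using h5
  have hkey := hL.unique hR
  rw [hg, Ad_hyp_XW, actV_add, actV_smul, actV_smul, actV_XW, actV_XY] at hkey
  simp only [map_add, map_smul, map_neg] at hkey
  rw [← hΦ, ← hΨ] at hkey
  have h6 : (Real.sinh (2 * t) : ℂ) • Ψ = I • ((-((2 * n + 1) * I) : ℂ) • Φ) +
      (-Real.cosh (2 * t) : ℂ) • Φ := by
    rw [← hkey]
    simp only [smul_add, smul_neg, smul_smul, neg_smul]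
    have e1 : I * ((Real.cosh (2 * t) : ℂ) * I) = -(Real.cosh (2 * t) : ℂ) := by
      linear_combination (Real.cosh (2 * t) : ℂ) * Complex.I_mul_I
    have e2 : I * ((Real.sinh (2 * t) : ℂ) * I) = -(Real.sinh (2 * t) : ℂ) := by
      linear_combination (Real.sinh (2 * t) : ℂ) * Complex.I_mul_I
    rw [e1, e2]
    simp
  rw [h6, smul_smul, ← add_smul]
  congr 1
  linear_combination (-(2 * n + 1 : ℂ)) * Complex.I_mul_I

/-- The derivative along `hyp t`. -/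
theorem deriv_hyp {w : GG → ℝ} {ι : VV →ₗ[ℂ] B} {π : GG →* (B →L[ℂ] B)}
    (h : Rlz w ι π) (Q : B →L[ℂ] B) (v : VV) (t : ℝ) :
    HasDerivAt (fun t => Q (π (hyp t, 1) (ι v))) (Q (π (hyp t, 1) (ι (actV (XA, 0) v)))) t := by
  have hd := h.deriv _ _ v isExp_hyp
  have h1 : HasDerivAt (fun s : ℝ => Q (π (hyp t, 1) (π (hyp s, 1) (ι v))))
      (Q (π (hyp t, 1) (ι (actV (XA, 0) v)))) (t - t) := by
    rw [sub_self]
    exact ((Q.comp (π (hyp t, 1))).restrictScalars ℝ).hasFDerivAt.comp_hasDerivAt (0 : ℝ) hd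
  have h2 := h1.comp_sub_const t t
  have h3 : (fun x : ℝ => Q (π (hyp t, 1) (π (hyp (x - t), 1) (ι v)))) =
      fun x : ℝ => Q (π (hyp x, 1) (ι v)) := by
    funext x
    have h4 : ∀ (a b : GG) (x : B), π a (π b x) = π (a * b) x := fun a b x => by
      rw [map_mul]; rfl
    rw [h4]
    congr 3
    ext1
    · simp only [Prod.fst_mul]
      rw [← hyp_add]
      congr 1
      ring
    · simp
  rw [h3] at h2
  exact h2

/-- The coefficient along `hyp t` is known up to a constant vector. -/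
theorem coef_ode {w : GG → ℝ} {ι : VV →ₗ[ℂ] B} {π : GG →* (B →L[ℂ] B)}
    (h : Rlz w ι π) (n : ℕ) (Q : B →L[ℂ] B)
    (hQ : ∀ (s : ℝ) b, Q (π (rot s, 1) b) = exp (-((2 * n + 1) * s * I)) • Q b)
    (u : ℂ × ℂ) : ∃ c : B, ∀ t > 0, Q (π (hyp t, 1) (ι (mono 0 u))) =
      ((Real.tanh t ^ n / Real.cosh t : ℝ) : ℂ) • c := by
  set Φ : ℝ → B := fun t => Q (π (hyp t, 1) (ι (mono 0 u))) with hΦ
  have hd : ∀ t > 0, HasDerivAt (fun t => ((psi n t : ℝ) : ℂ) • Φ t) 0 t := by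
    intro t ht
    have hs : 0 < Real.sinh (2 * t) := Real.sinh_pos_iff.2 (by linarith)
    have h1 := deriv_hyp h Q (mono 0 u) t
    rw [actV_XA0] at h1
    have h2 := coef_rel h n Q hQ u t
    have hsc : (Real.sinh (2 * t) : ℂ) ≠ 0 := by exact_mod_cast hs.ne'
    have h3 : Q (π (hyp t, 1) (ι (mono 1 u))) =
        (((2 * n + 1 - Real.cosh (2 * t)) / Real.sinh (2 * t) : ℝ) : ℂ) • Φ t := by
      have h4 : Q (π (hyp t, 1) (ι (mono 1 u))) = (Real.sinh (2 * t) : ℂ)⁻¹ •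
          ((Real.sinh (2 * t) : ℂ) • Q (π (hyp t, 1) (ι (mono 1 u)))) := by
        rw [smul_smul, inv_mul_cancel₀ hsc, one_smul]
      rw [h4, h2, smul_smul]
      congr 1
      push_cast
      rw [div_eq_mul_inv, mul_comm]
    rw [h3] at h1
    have h5 : HasDerivAt (fun t => ((psi n t : ℝ) : ℂ)) _ t := (psi_deriv n ht).ofReal_comp
    have h6 := h5.smul h1
    refine h6.congr_deriv ?_
    rw [smul_smul, ← add_smul]
    have h7 : ((psi n t : ℝ) : ℂ) * (((2 * n + 1 - Real.cosh (2 * t)) / Real.sinh (2 * t) : ℝ) : ℂ) +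
        ((-(psi n t * ((2 * n + 1 - Real.cosh (2 * t)) / Real.sinh (2 * t))) : ℝ) : ℂ) = 0 := by
      rw [← Complex.ofReal_mul, ← Complex.ofReal_add, add_neg_cancel, Complex.ofReal_zero]
    rw [h7, zero_smul]
  refine ⟨((psi n 1 : ℝ) : ℂ) • Φ 1, fun t ht => ?_⟩
  have hconst : ((psi n t : ℝ) : ℂ) • Φ t = ((psi n 1 : ℝ) : ℂ) • Φ 1 :=
    isOpen_Ioi.is_const_of_deriv_eq_zero (isPreconnected_Ioi)
      (fun x hx => (hd x hx).differentiableAt.differentiableWithinAt)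
      (fun x hx => (hd x hx).deriv) (Set.mem_Ioi.2 ht) (Set.mem_Ioi.2 one_pos)
  rw [← hconst, smul_smul, psi_inv, ← Complex.ofReal_mul, inv_mul_cancel₀ (psi_pos n ht).ne',
    Complex.ofReal_one, one_smul]

end Pool.SG
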