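import Pool.Agent.Helper71.SG.RLZ
import Pool.Agent.Helper71.SG.PROJ

open Complex Set Filter Topology Matrix ComplexConjugate
open scoped ENNReal NNReal Nat

noncomputable section

namespace Pool.SG

variable {B : Type} [NormedAddCommGroup B] [NormedSpace ℂ B] [CompleteSpace B]

lemma qn_rot_cont : Continuous rot := by
  refine Continuous.subtype_mk ?_ _
  refine continuous_matrix ?_
  intro i j
  fin_cases i <;> fin_cases j <;> simp <;> fun_prop

lemma qn_rot_zero : rot 0 = 1 := by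
  ext i j
  fin_cases i <;> fin_cases j <;> simp [rot]

lemma qn_rot_add (s t : ℝ) : rot (s + t) = rot s * rot t := by
  ext i j
  rw [Matrix.SpecialLinearGroup.coe_mul]
  fin_cases i <;> fin_cases j <;>
    simp [rot, Real.cos_add, Real.sin_add] <;> ring

lemma qn_rot_per (s : ℝ) : rot (s + 2 * Real.pi) = rot s := by
  ext i j
  fin_cases i <;> fin_cases j <;> simp [rot]

lemma qn_mem (s : ℝ) : ((rot s, 1) : GG) ∈ KK := by
  have := rot_mem s 0
  rwa [qn_rot_zero] at this

lemma qn_kact (s : ℝ) (m : ℕ) (u : ℂ × ℂ) :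
    kactV ((rot s, 1) : GG) (mono m u) = exp (-((2 * m + 1) * s * I)) • mono m u := by
  have hsc : ∀ c : ℂ, scV (al (rot s)) (Polynomial.monomial m c) =
      exp (-((2 * m + 1) * s * I)) • Polynomial.monomial m c := by
    intro c
    have hc : conj (al (rot s)) = exp (-(s * I)) := by
      rw [al_rot, ← Complex.exp_conj]
      simp
    rw [scV_apply, hc, Polynomial.aeval_monomial, mul_pow, ← Polynomial.C_pow, ← pow_mul,
      ← Complex.exp_nat_mul]
    have h1 : (algebraMap ℂ (Polynomial ℂ)) c *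
        (Polynomial.C (exp (((2 * m : ℕ) : ℂ) * -(s * I))) * Polynomial.X ^ m) =
        exp (((2 * m : ℕ) : ℂ) * -(s * I)) • Polynomial.monomial m c := by
      rw [Polynomial.algebraMap_eq, Polynomial.smul_monomial,
        ← Polynomial.C_mul_X_pow_eq_monomial, smul_eq_mul, map_mul]
      ring
    rw [h1, smul_smul, ← Complex.exp_add]
    congr 2
    push_cast
    ring
  rw [kactV_apply, mono_apply]
  simp only [al_one, map_one, one_smul, hsc]
  rfl

/-- orthogonality -/
lemma qn_orth (k : ℤ) : ∫ θ in (0 : ℝ)..(2 * Real.pi), exp (k * θ * I) =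
    if k = 0 then ((2 * Real.pi : ℝ) : ℂ) else 0 := by
  split_ifs with h
  · subst h
    simp
  · have hk : (k : ℂ) * I ≠ 0 := mul_ne_zero (by exact_mod_cast h) I_ne_zero
    have := @integral_exp_mul_complex 0 (2 * Real.pi) ((k : ℂ) * I) hk
    have h2 : (fun θ : ℝ => exp (k * θ * I)) = fun θ : ℝ => exp ((k : ℂ) * I * θ) := by
      funext θ
      congr 1
      ring
    rw [h2, this]
    have h3 : exp ((k : ℂ) * I * ((2 * Real.pi : ℝ) : ℂ)) = 1 := by
      rw [← Complex.exp_int_mul_two_pi_mul_I k]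
      congr 1
      push_cast
      ring
    rw [h3]
    simp

/-- the integral operators -/
def Qi (π : GG →* (B →L[ℂ] B)) (l : ℤ) (b : B) : B :=
  (((2 * Real.pi : ℝ) : ℂ))⁻¹ • ∫ θ in (0 : ℝ)..(2 * Real.pi), exp (l * θ * I) • π (rot θ, 1) b

section
variable {w : GG → ℝ} {ι : VV →ₗ[ℂ] B} {π : GG →* (B →L[ℂ] B)}

omit [CompleteSpace B] in
lemma qn_orbit_cont (h : Rlz w ι π) (b : B) : Continuous fun θ : ℝ => π (rot θ, 1) b :=
  h.cont.comp (((qn_rot_cont.prodMk continuous_const)).prodMk continuous_const)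

omit [CompleteSpace B] in
lemma qn_int_cont (h : Rlz w ι π) (l : ℤ) (b : B) :
    Continuous fun θ : ℝ => exp (l * θ * I) • π (rot θ, 1) b :=
  Continuous.smul (by fun_prop) (qn_orbit_cont h b)

omit [CompleteSpace B] in
lemma qi_add (h : Rlz w ι π) (l : ℤ) (a b : B) : Qi π l (a + b) = Qi π l a + Qi π l b := by
  rw [Qi, Qi, Qi, ← smul_add, ← intervalIntegral.integral_add
    ((qn_int_cont h l a).intervalIntegrable _ _) ((qn_int_cont h l b).intervalIntegrable _ _)]
  congr 2
  funext θ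
  rw [map_add, smul_add]

omit [CompleteSpace B] in
lemma qi_smul (l : ℤ) (c : ℂ) (b : B) : Qi π l (c • b) = c • Qi π l b := by
  have h1 : (fun θ : ℝ => exp (l * θ * I) • π (rot θ, 1) (c • b)) =
      fun θ : ℝ => c • (exp (l * θ * I) • π (rot θ, 1) b) := by
    funext θ
    rw [map_smul, smul_comm]
  rw [Qi, Qi, h1, intervalIntegral.integral_smul, smul_comm]

omit [CompleteSpace B] in
lemma qi_norm {c W : ℝ} (hc0 : 0 < c)
    (hc : ∀ g b, ‖π g b‖ ≤ c * w g * ‖b‖)
    (hW : ∀ k : KK, w (k : GG) ≤ W) (l : ℤ) (b : B) : ‖Qi π l b‖ ≤ c * W * ‖b‖ := by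
  have h2 : (0 : ℝ) < 2 * Real.pi := by positivity
  rw [Qi, norm_smul, norm_inv, Complex.norm_real, Real.norm_eq_abs, abs_of_pos h2]
  have h3 : ‖∫ θ in (0 : ℝ)..(2 * Real.pi), exp (l * θ * I) • π (rot θ, 1) b‖ ≤
      c * W * ‖b‖ * |2 * Real.pi - 0| := by
    apply intervalIntegral.norm_integral_le_of_norm_le_const
    intro θ _
    rw [norm_smul]
    have h4 : ‖exp (l * θ * I)‖ = 1 := by
      have := Complex.norm_exp_ofReal_mul_I (l * θ)
      rw [← this]
      congr 2
      push_cast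
      ring
    rw [h4, one_mul]
    refine (hc _ _).trans ?_
    have := hW ⟨_, qn_mem θ⟩
    have h5 : w (rot θ, 1) ≤ W := this
    gcongr
  rw [sub_zero, abs_of_pos h2] at h3
  calc (2 * Real.pi)⁻¹ * _ ≤ (2 * Real.pi)⁻¹ * (c * W * ‖b‖ * (2 * Real.pi)) := by gcongr
    _ = c * W * ‖b‖ := by field_simp

lemma qi_mono (h : Rlz w ι π) (l : ℤ) (m : ℕ) (u : ℂ × ℂ) :
    Qi π l (ι (mono m u)) = if (2 * (m : ℤ) + 1) = l then ι (mono m u) else 0 := by
  have h1 : (fun θ : ℝ => exp (l * θ * I) • π (rot θ, 1) (ι (mono m u))) =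
      fun θ : ℝ => (exp (((l - (2 * m + 1) : ℤ) : ℂ) * θ * I)) • ι (mono m u) := by
    funext θ
    have h2 := h.keq ⟨_, qn_mem θ⟩ (mono m u)
    rw [show π (rot θ, 1) (ι (mono m u)) = ι (kactV ((rot θ, 1) : GG) (mono m u)) from h2,
      qn_kact, map_smul, smul_smul, ← Complex.exp_add]
    congr 2
    push_cast
    ring
  rw [Qi, h1, intervalIntegral.integral_smul_const, qn_orth]
  by_cases h3 : (2 * (m : ℤ) + 1) = l
  · rw [if_pos h3, if_pos (by omega), smul_smul, inv_mul_cancel₀, one_smul]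
    have : (0 : ℝ) < 2 * Real.pi := by positivity
    exact_mod_cast this.ne'
  · rw [if_neg h3, if_neg (by omega), zero_smul, smul_zero]

omit [CompleteSpace B] in
lemma qi_shift (l : ℤ) (s : ℝ) (b : B) :
    Qi π l (π (rot s, 1) b) = exp (-(l * s * I)) • Qi π l b := by
  have h1 : (fun θ : ℝ => exp (l * θ * I) • π (rot θ, 1) (π (rot s, 1) b)) =
      fun θ : ℝ => exp (-(l * s * I)) •
        (fun θ : ℝ => exp (l * θ * I) • π (rot θ, 1) b) (θ + s) := by
    funext θ
    have h2 : π (rot θ, 1) (π (rot s, 1) b) = π (rot (θ + s), 1) b := by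
      rw [qn_rot_add]
      have : ((rot θ * rot s, 1) : GG) = (rot θ, 1) * (rot s, 1) := by
        rw [Prod.mk_mul_mk, mul_one]
      rw [this, map_mul]
      rfl
    show _ = exp (-(l * s * I)) • (exp (l * ((θ + s : ℝ) : ℂ) * I) • π (rot (θ + s), 1) b)
    rw [h2, smul_smul, ← Complex.exp_add]
    congr 2
    push_cast
    ring
  have hper : Function.Periodic (fun θ : ℝ => exp (l * θ * I) • π (rot θ, 1) b)
      (2 * Real.pi) := by
    intro θ
    show exp (l * ((θ + 2 * Real.pi : ℝ) : ℂ) * I) • π (rot (θ + 2 * Real.pi), 1) b = _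
    rw [qn_rot_per]
    congr 1
    have : (l : ℂ) * ((θ + 2 * Real.pi : ℝ) : ℂ) * I =
        l * θ * I + l * (2 * Real.pi * I) := by
      push_cast
      ring
    rw [this, Complex.exp_add, Complex.exp_int_mul_two_pi_mul_I, mul_one]
  rw [Qi, h1, intervalIntegral.integral_smul, intervalIntegral.integral_comp_add_right
    (fun θ : ℝ => exp (l * θ * I) • π (rot θ, 1) b) s, Qi, smul_comm]
  have h5 := hper.intervalIntegral_add_eq s 0
  rw [zero_add] at h5
  rw [zero_add, add_comm (2 * Real.pi) s, h5]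

end

/-- The projections to the isotypic components of the rotations of the first factor. -/
theorem exists_Q {w : GG → ℝ} (hw : IsWeight w) {ι : VV →ₗ[ℂ] B} {π : GG →* (B →L[ℂ] B)}
    (h : Rlz w ι π) : ∃ C, 0 ≤ C ∧ ∀ n : ℕ, ∃ Q : B →L[ℂ] B, ‖Q‖ ≤ C ∧
      (∀ m u, Q (ι (mono m u)) = if m = n then ι (mono m u) else 0) ∧
      ∀ (s : ℝ) b, Q (π (rot s, 1) b) = exp (-((2 * n + 1) * s * I)) • Q b := by
  obtain ⟨W, hW1, hW⟩ := weight_bdd_K hw
  obtain ⟨c, hc0, hc⟩ := h.grow
  have hC : 0 ≤ c * W := by positivity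
  refine ⟨c * W, hC, fun n => ?_⟩
  let L : B →ₗ[ℂ] B :=
    { toFun := Qi π (2 * n + 1)
      map_add' := qi_add h _
      map_smul' := fun c b => qi_smul _ c b }
  refine ⟨L.mkContinuous (c * W) (fun b => qi_norm hc0 hc hW _ b),
    L.mkContinuous_norm_le hC _, ?_, ?_⟩
  · intro m u
    show Qi π (2 * n + 1) (ι (mono m u)) = _
    rw [qi_mono h]
    by_cases hmn : m = n
    · rw [if_pos hmn, if_pos (by omega)]
    · rw [if_neg hmn, if_neg (by omega)]
  · intro s b
    show Qi π (2 * n + 1) (π (rot s, 1) b) = exp (-((2 * n + 1) * s * I)) • Qi π (2 * n + 1) b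
    rw [qi_shift]
    push_cast
    rfl

end Pool.SG
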