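import Pool.Agent.Helper71.SG.TRB

open Complex Set Filter Topology Matrix ComplexConjugate
open scoped ENNReal NNReal Nat

noncomputable section

namespace Pool.SG

/-- The space `AA` with the seminorm `P`. -/
def AP (_P : Seminorm ℂ AA) : Type := AA

instance (P : Seminorm ℂ AA) : AddCommGroup (AP P) := inferInstanceAs (AddCommGroup AA)

instance (P : Seminorm ℂ AA) : Module ℂ (AP P) := inferInstanceAs (Module ℂ AA)

/-- The seminorm as an additive group seminorm on the type synonym. -/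
def apNorm (P : Seminorm ℂ AA) : AddGroupSeminorm (AP P) := P.toAddGroupSeminorm

instance (P : Seminorm ℂ AA) : SeminormedAddCommGroup (AP P) :=
  (apNorm P).toSeminormedAddCommGroup

lemma ap_norm (P : Seminorm ℂ AA) (F : AP P) : ‖F‖ = P (show AA from F) := rfl

instance (P : Seminorm ℂ AA) : NormedSpace ℂ (AP P) where
  norm_smul_le c F := by
    rw [ap_norm, ap_norm]
    exact (map_smul_eq_mul P c (show AA from F)).le

/-- The embedding in the completion. -/
def apJ (P : Seminorm ℂ AA) : AA →ₗ[ℂ] UniformSpace.Completion (AP P) :=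
  (UniformSpace.Completion.toComplₗᵢ (𝕜 := ℂ) (E := AP P)).toLinearMap

lemma norm_apJ (P : Seminorm ℂ AA) (F : AA) : ‖apJ P F‖ = P F :=
  UniformSpace.Completion.norm_coe (E := AP P) F

lemma dense_apJ (P : Seminorm ℂ AA) : DenseRange (apJ P) :=
  UniformSpace.Completion.denseRange_coe (α := AP P)

/-- The completion of `(AA, P)` carries an action of `G`. -/
theorem exists_rep {w : GG → ℝ} (hw : IsWeight w) {P : Seminorm ℂ AA} (hP : Crit w P) :
    ∃ (B : Type) (_ : NormedAddCommGroup B) (_ : NormedSpace ℂ B) (_ : CompleteSpace B)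
      (j : AA →ₗ[ℂ] B) (π : GG →* (B →L[ℂ] B)),
      (∀ F, ‖j F‖ = P F) ∧ DenseRange j ∧ (∀ g F, π g (j F) = j (TT g F)) ∧
      ∃ c, 0 < c ∧ ∀ g b, ‖π g b‖ ≤ c * w g * ‖b‖ := by
  obtain ⟨c, hc, hg⟩ := hP.grow
  have hnorm : ∀ g : GG, ∀ F : AA, ‖(apJ P ∘ₗ TT g) F‖ ≤ c * w g * ‖apJ P F‖ := by
    intro g F
    rw [LinearMap.comp_apply, norm_apJ, norm_apJ]
    exact hg g F
  have hd := dense_apJ P
  have heq : ∀ (g : GG) (F : AA),
      (apJ P ∘ₗ TT g).extendOfNorm (apJ P) (apJ P F) = apJ P (TT g F) := by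
    intro g F
    exact LinearMap.extendOfNorm_eq hd ⟨c * w g, hnorm g⟩ F
  have hext : ∀ f₁ f₂ : UniformSpace.Completion (AP P) →L[ℂ] UniformSpace.Completion (AP P),
      (∀ F : AA, f₁ (apJ P F) = f₂ (apJ P F)) → f₁ = f₂ := by
    intro f₁ f₂ h
    ext b
    have h2 := hd.equalizer f₁.continuous f₂.continuous (funext h)
    exact congrFun h2 b
  refine ⟨UniformSpace.Completion (AP P), inferInstance, inferInstance, inferInstance, apJ P,
    { toFun := fun g => (apJ P ∘ₗ TT g).extendOfNorm (apJ P)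
      map_one' := ?_
      map_mul' := ?_ }, norm_apJ P, hd, heq, c, hc, ?_⟩
  · apply hext
    intro F
    rw [heq, TT_one]
    rfl
  · intro g h
    apply hext
    intro F
    rw [heq, TT_mul]
    show _ = (apJ P ∘ₗ TT g).extendOfNorm (apJ P) ((apJ P ∘ₗ TT h).extendOfNorm (apJ P) (apJ P F))
    rw [heq, heq]
  · intro g b
    exact LinearMap.norm_extendOfNorm_apply_le hd (c * w g) (hnorm g) b

end Pool.SG
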