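import Pool.Agent.Helper71.SG.MM
import Pool.Agent.Helper71.SG.EX2

open Complex Set Filter Topology Matrix ComplexConjugate
open scoped ENNReal NNReal Nat

noncomputable section

namespace Pool.SG

/-- A realization of the module `MM` in a representation of `G` with growth at most `w`. -/
structure Rlz (w : GG → ℝ) {B : Type} [NormedAddCommGroup B] [NormedSpace ℂ B]
    (ι : VV →ₗ[ℂ] B) (π : GG →* (B →L[ℂ] B)) : Prop where
  dense : DenseRange ι
  cont : Continuous fun x : GG × B => π x.1 x.2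
  keq : ∀ (k : KK) v, π (k : GG) (ι v) = ι (kactV (k : GG) v)
  deriv : ∀ (X : gg) (γ : ℝ → GG) (v : VV), IsExp X γ →
    HasDerivAt (fun t => π (γ t) (ι v)) (ι (actV X v)) 0
  grow : ∃ c, 0 < c ∧ ∀ g b, ‖π g b‖ ≤ c * w g * ‖b‖

end Pool.SG
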