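import Pool.Agent.Helper71.SG.M3

open Complex Set Filter Topology Matrix ComplexConjugate
open scoped ENNReal NNReal Nat

noncomputable section

namespace Pool.SG

/-- The scalar of the Sobolev operator on `z ^ n ⊗ u`. -/
def sg (s : ℝ) (n : ℕ) : ℝ := sobScalar s (-(2 * n + 1)) 1

lemma sg_eq (s : ℝ) (n : ℕ) : sg s n = (1 + ((2 * (n : ℝ) + 1) ^ 2 + 1) / 8) ^ (s / 2) := by
  unfold sg sobScalar
  congr 1
  push_cast
  ring

lemma sobScalar_neg_one (s : ℝ) (m : ℤ) : sobScalar s m (-1) = sobScalar s m 1 := by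
  unfold sobScalar
  congr 1
  push_cast
  ring

lemma sq_rpow_half (s : ℝ) (n : ℕ) : (((n : ℝ) + 1) ^ 2) ^ (s / 2) = ((n : ℝ) + 1) ^ s := by
  rw [← Real.rpow_natCast, ← Real.rpow_mul (by positivity)]
  congr 1
  push_cast
  ring

lemma sg_lower (s : ℝ) (hs : 0 ≤ s) : ∃ c, 0 < c ∧ ∀ n : ℕ, c * ((n : ℝ) + 1) ^ s ≤ sg s n := by
  refine ⟨(1 / 4 : ℝ) ^ (s / 2), by positivity, fun n => ?_⟩
  rw [sg_eq, ← sq_rpow_half, ← Real.mul_rpow (by norm_num) (by positivity)]
  refine Real.rpow_le_rpow (by positivity) ?_ (by positivity)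
  nlinarith [sq_nonneg (n : ℝ)]

lemma sg_upper (s : ℝ) (hs : 0 ≤ s) : ∃ C, 0 < C ∧ ∀ n : ℕ, sg s n ≤ C * ((n : ℝ) + 1) ^ s := by
  refine ⟨(2 : ℝ) ^ (s / 2), by positivity, fun n => ?_⟩
  rw [sg_eq, ← sq_rpow_half, ← Real.mul_rpow (by norm_num) (by positivity)]
  refine Real.rpow_le_rpow (by positivity) ?_ (by positivity)
  nlinarith [sq_nonneg (n : ℝ), Nat.cast_nonneg (α := ℝ) n]

/-- The diagonal operator on polynomials with given eigenvalues. -/
def dg (c : ℕ → ℂ) : Polynomial ℂ →ₗ[ℂ] Polynomial ℂ :=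
  Polynomial.lsum fun n => c n • Polynomial.monomial n

lemma dg_coeff (c : ℕ → ℂ) (p : Polynomial ℂ) (n : ℕ) : (dg c p).coeff n = c n * p.coeff n := by
  unfold dg
  rw [Polynomial.lsum_apply, Polynomial.sum_def, Polynomial.finsetSum_coeff]
  simp only [LinearMap.smul_apply, Polynomial.coeff_smul, Polynomial.coeff_monomial, smul_eq_mul]
  rw [Finset.sum_eq_single n]
  · simp
  · intro b _ hb
    simp [hb]
  · intro hn
    have : p.coeff n = 0 := by simpa using hn
    simp [this]

/-- The diagonal operator on `VV` with given eigenvalues. -/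
def dgV (c : ℕ → ℂ) : VV →ₗ[ℂ] VV := LinearMap.prodMap (dg c) (dg c)

lemma dgV_apply (c : ℕ → ℂ) (f : VV) : dgV c f = (dg c f.1, dg c f.2) := rfl

/-- Existence of the Sobolev operators. -/
theorem exists_sob (s : ℝ) : ∃ D : VV →ₗ[ℂ] VV, MM.IsSob s D := by
  refine ⟨dgV fun n => (sg s n : ℂ), ?_⟩
  intro m k v hv
  rw [dgV_apply]
  have key : ∀ n : ℕ, (sg s n : ℂ) * v.1.coeff n = (sobScalar s m k : ℂ) * v.1.coeff n ∧
      (sg s n : ℂ) * v.2.coeff n = (sobScalar s m k : ℂ) * v.2.coeff n := by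
    intro n
    obtain ⟨h1, h2⟩ := iso_coeff hv n
    constructor
    · by_cases h : v.1.coeff n = 0
      · rw [h, mul_zero, mul_zero]
      · obtain ⟨rfl, rfl⟩ := h1 h
        rfl
    · by_cases h : v.2.coeff n = 0
      · rw [h, mul_zero, mul_zero]
      · obtain ⟨rfl, rfl⟩ := h2 h
        rw [sobScalar_neg_one]
        rfl
  apply Prod.ext
  · ext n
    rw [dg_coeff, Prod.smul_fst, Polynomial.coeff_smul, smul_eq_mul]
    exact (key n).1
  · ext n
    rw [dg_coeff, Prod.smul_snd, Polynomial.coeff_smul, smul_eq_mul]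
    exact (key n).2

/-- The Sobolev operators on `z ^ n ⊗ u`. -/
theorem sob_mono {s : ℝ} {D : VV →ₗ[ℂ] VV} (hD : MM.IsSob s D) (n : ℕ) (u : ℂ × ℂ) :
    D (mono n u) = (sg s n : ℂ) • mono n u := by
  have h1 := hD _ _ _ (mono_mem_iso n u.1).1
  have h2 := hD _ _ _ (mono_mem_iso n u.2).2
  rw [sobScalar_neg_one] at h2
  have hu : u = (u.1, 0) + (0, u.2) := by
    ext <;> simp
  rw [hu, map_add, map_add, h1, h2, smul_add]
  rfl

/-- The Sobolev operators in coefficients. -/
theorem sob_coeff {s : ℝ} {D : VV →ₗ[ℂ] VV} (hD : MM.IsSob s D) (f : VV) (n : ℕ) :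
    (D f).1.coeff n = sg s n * f.1.coeff n ∧ (D f).2.coeff n = sg s n * f.2.coeff n := by
  have hm : ∀ (n : ℕ) (u : ℂ × ℂ), D (mono n u) = dgV (fun n => (sg s n : ℂ)) (mono n u) := by
    intro n u
    rw [sob_mono hD, dgV_apply, mono_apply]
    apply Prod.ext
    · ext k
      simp only [Prod.smul_fst, Polynomial.coeff_smul, dg_coeff, smul_eq_mul,
        Polynomial.coeff_monomial]
      split_ifs with h
      · rw [h]
      · simp
    · ext k
      simp only [Prod.smul_snd, Polynomial.coeff_smul, dg_coeff, smul_eq_mul,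
        Polynomial.coeff_monomial]
      split_ifs with h
      · rw [h]
      · simp
  have h1 : ∀ p : Polynomial ℂ, D (p, 0) = dgV (fun n => (sg s n : ℂ)) (p, 0) := by
    intro p
    induction p using Polynomial.induction_on' with
    | add p q hp hq =>
      have : ((p + q, 0) : VV) = (p, 0) + (q, 0) := by simp
      rw [this, map_add, map_add, hp, hq]
    | monomial n a =>
      have : ((Polynomial.monomial n a, 0) : VV) = mono n (a, 0) := by
        rw [mono_apply, map_zero]
      rw [this, hm]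
  have h2 : ∀ p : Polynomial ℂ, D (0, p) = dgV (fun n => (sg s n : ℂ)) (0, p) := by
    intro p
    induction p using Polynomial.induction_on' with
    | add p q hp hq =>
      have : ((0, p + q) : VV) = (0, p) + (0, q) := by simp
      rw [this, map_add, map_add, hp, hq]
    | monomial n a =>
      have : ((0, Polynomial.monomial n a) : VV) = mono n (0, a) := by
        rw [mono_apply, map_zero]
      rw [this, hm]
  have hf : f = (f.1, 0) + (0, f.2) := by
    ext <;> simp
  have h3 : D f = dgV (fun n => (sg s n : ℂ)) f := by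
    rw [hf, map_add, map_add, h1, h2]
  rw [h3, dgV_apply]
  exact ⟨dg_coeff _ _ _, dg_coeff _ _ _⟩

end Pool.SG
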