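import Pool.Agent.Helper71.SG.Final

/-!
The definitions used by the hand-in, each one short: `(g, K)`-modules, Harish-Chandra modules,
`G`-continuous norms of growth at most `w`, minimal and maximal classes, Sobolev operators, the
Sobolev gap, for `G = SL(2, R) x SL(2, R)`. The group, its Lie algebra, its maximal compact
subgroup, weights and characters are in `Defs.lean`.
-/

open Complex Set Filter Topology Matrix
open scoped ENNReal NNReal

noncomputable section

namespace Pool.SGap

open Pool.SG (GG gg KK Ad IsExp IsWeight wt chi sobScalar)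

/-- The inclusion of `K` in `G`. -/
def inc (k : KK) : GG := k

section module

variable {V : Type} [AddCommGroup V] [Module ℂ V]

/-- The vector `k v`, for a linear action of `K`. -/
def kev (κ : KK →* (V →ₗ[ℂ] V)) (k : KK) (v : V) : V := κ k v

/-- The Lie algebra acts in a real linear way. -/
def RealLinear (act : gg → V →ₗ[ℂ] V) : Prop :=
  (∀ X Y v, act (X + Y) v = act X v + act Y v) ∧
    ∀ (r : ℝ) X v, act (r • X) v = (r : ℂ) • act X v

/-- The bracket acts as the commutator. -/
def Bracket (act : gg → V →ₗ[ℂ] V) : Prop :=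
  ∀ X Y v, act ⁅X, Y⁆ v = act X (act Y v) - act Y (act X v)

/-- `k X v = (Ad k X) k v`. -/
def Compat (act : gg → V →ₗ[ℂ] V) (κ : KK →* (V →ₗ[ℂ] V)) : Prop :=
  ∀ (k : KK) X v, kev κ k (act X v) = act (Ad (inc k) X) (kev κ k v)

/-- Every vector lies in a finite-dimensional space containing its `K`-orbit. -/
def LocFinite (κ : KK →* (V →ₗ[ℂ] V)) : Prop :=
  ∀ v, ∃ W : Submodule ℂ V, FiniteDimensional ℂ W ∧ ∀ k, kev κ k v ∈ W

/-- The matrix coefficients of `K` are continuous. -/
def KCont (κ : KK →* (V →ₗ[ℂ] V)) : Prop :=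
  ∀ (f : V →ₗ[ℂ] ℂ) v, Continuous fun k => f (kev κ k v)

/-- The differential of the action of `K` is the action of the Lie algebra of `K`. -/
def KDeriv (act : gg → V →ₗ[ℂ] V) (κ : KK →* (V →ₗ[ℂ] V)) : Prop :=
  ∀ (f : V →ₗ[ℂ] ℂ) v (X : gg) (γ : ℝ → KK), IsExp X (fun t => inc (γ t)) →
    HasDerivAt (fun t => f (kev κ (γ t) v)) (f (act X v)) 0

/-- A `(g, K)`-module: compatible actions of the Lie algebra and of `K`, the action of `K` being
locally finite, continuous, and with differential the action of the Lie algebra of `K`. -/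
structure GKModule (V : Type) [AddCommGroup V] [Module ℂ V] where
  /-- the action of the Lie algebra -/
  act : gg → V →ₗ[ℂ] V
  /-- the action of `K` -/
  kact : KK →* (V →ₗ[ℂ] V)
  lin : RealLinear act
  bracket : Bracket act
  compat : Compat act kact
  locFinite : LocFinite kact
  kcont : KCont kact
  kderiv : KDeriv act kact

/-- The vectors on which `K` acts by the character `(m, n)`. -/
def isoSet (M : GKModule V) (m n : ℤ) : Set V := {v | ∀ k, kev M.kact k v = chi m n k • v}

theorem isoSet_add (M : GKModule V) (m n : ℤ) {a b : V} (ha : a ∈ isoSet M m n)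
    (hb : b ∈ isoSet M m n) : a + b ∈ isoSet M m n := by
  intro k
  have h1 := ha k
  have h2 := hb k
  simp only [kev] at *
  rw [map_add, h1, h2, smul_add]

theorem isoSet_zero (M : GKModule V) (m n : ℤ) : (0 : V) ∈ isoSet M m n := by
  intro k
  simp [kev]

theorem isoSet_smul (M : GKModule V) (m n : ℤ) (c : ℂ) {a : V} (ha : a ∈ isoSet M m n) :
    c • a ∈ isoSet M m n := by
  intro k
  have h1 := ha k
  simp only [kev] at *
  rw [map_smul, h1, smul_comm]

/-- The isotypic component of the character `(m, n)` of `K`. -/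
def iso (M : GKModule V) (m n : ℤ) : Submodule ℂ V where
  carrier := isoSet M m n
  add_mem' := isoSet_add M m n
  zero_mem' := isoSet_zero M m n
  smul_mem' := isoSet_smul M m n

/-- Some finite set generates `V` over the enveloping algebra. -/
def FinGen (M : GKModule V) : Prop :=
  ∃ S : Finset V, ∀ W : Submodule ℂ V, (∀ v ∈ S, v ∈ W) →
    (∀ (X : gg), ∀ v ∈ W, M.act X v ∈ W) → W = ⊤

/-- All isotypic components are finite-dimensional. -/
def Admissible (M : GKModule V) : Prop := ∀ m n : ℤ, FiniteDimensional ℂ (iso M m n)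

/-- A Harish-Chandra module. -/
def IsHC (M : GKModule V) : Prop := FinGen M ∧ Admissible M

end module

section rep

variable {B : Type} [NormedAddCommGroup B] [NormedSpace ℂ B]

/-- The vector `g b`, for an action of `G` by bounded operators. -/
def gev (π : GG →* (B →L[ℂ] B)) (g : GG) (b : B) : B := π g b

/-- The action of `G` is jointly continuous. -/
def RCont (π : GG →* (B →L[ℂ] B)) : Prop := Continuous fun x : GG × B => gev π x.1 x.2

/-- The span of the `K`-orbit of `b`. -/
def orbitSpan (π : GG →* (B →L[ℂ] B)) (b : B) : Submodule ℂ B :=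
  Submodule.span ℂ (Set.range fun k : KK => gev π (inc k) b)

/-- `b` is a `K`-finite vector. -/
def KFinite (π : GG →* (B →L[ℂ] B)) (b : B) : Prop := FiniteDimensional ℂ (orbitSpan π b)

variable {V : Type} [AddCommGroup V] [Module ℂ V]

/-- `π` induces the action of `K` on `V`. -/
def KAgree (M : GKModule V) (ι : V →ₗ[ℂ] B) (π : GG →* (B →L[ℂ] B)) : Prop :=
  ∀ (k : KK) v, gev π (inc k) (ι v) = ι (kev M.kact k v)

/-- `π` induces the action of the Lie algebra on `V`. -/
def LieAgree (M : GKModule V) (ι : V →ₗ[ℂ] B) (π : GG →* (B →L[ℂ] B)) : Prop :=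
  ∀ (X : gg) (γ : ℝ → GG) v, IsExp X γ →
    HasDerivAt (fun t => gev π (γ t) (ι v)) (ι (M.act X v)) 0

/-- The `K`-finite vectors of `B` are the vectors of `V`. -/
def KVectors (ι : V →ₗ[ℂ] B) (π : GG →* (B →L[ℂ] B)) : Prop :=
  ∀ b, KFinite π b ↔ b ∈ Set.range ι

/-- `p (g v) ≤ c w (g) p (v)` for all `g` in `G` and `v` in `V`. -/
def Growth (w : GG → ℝ) (p : Seminorm ℂ V) (ι : V →ₗ[ℂ] B) (π : GG →* (B →L[ℂ] B)) : Prop :=
  ∃ c : ℝ, 0 < c ∧ ∀ g v, ‖gev π g (ι v)‖ ≤ c * w g * p v

/-- `B` is a completion of `(V, p)`, and `π` a continuous representation of `G` on `B` whose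
`K`-finite vectors are `V`, with the given actions of `K` and of the Lie algebra. -/
structure Globalizes (M : GKModule V) (p : Seminorm ℂ V) (ι : V →ₗ[ℂ] B)
    (π : GG →* (B →L[ℂ] B)) : Prop where
  norm_eq : ∀ v, ‖ι v‖ = p v
  dense : DenseRange ι
  cont : RCont π
  kagree : KAgree M ι π
  lieagree : LieAgree M ι π
  kvectors : KVectors ι π

end rep

section norms

variable {V : Type} [AddCommGroup V] [Module ℂ V]

/-- `p` is a `G`-continuous norm on `V` with growth at most `w`, that is an element of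
`Norm (V, w)`. -/
def IsNorm (M : GKModule V) (w : GG → ℝ) (p : Seminorm ℂ V) : Prop :=
  (∀ v, p v = 0 → v = 0) ∧
  ∃ (B : Type) (_ : NormedAddCommGroup B) (_ : NormedSpace ℂ B) (_ : CompleteSpace B)
    (ι : V →ₗ[ℂ] B) (π : GG →* (B →L[ℂ] B)), Globalizes M p ι π ∧ Growth w p ι π

/-- `p ≲ q`. -/
def Below (p q : Seminorm ℂ V) : Prop := ∃ C : ℝ, ∀ v, p v ≤ C * q v

/-- `p` is in the minimal class of `Norm (V, w)`. -/
def IsMin (M : GKModule V) (w : GG → ℝ) (p : Seminorm ℂ V) : Prop :=
  IsNorm M w p ∧ ∀ q, IsNorm M w q → Below p q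

/-- `p` is in the maximal class of `Norm (V, w)`. -/
def IsMax (M : GKModule V) (w : GG → ℝ) (p : Seminorm ℂ V) : Prop :=
  IsNorm M w p ∧ ∀ q, IsNorm M w q → Below q p

/-- `D` is the Sobolev operator `D_s`: it is the scalar `sobScalar s m n` on the isotypic
component `(m, n)`. -/
def IsSob (M : GKModule V) (s : ℝ) (D : V →ₗ[ℂ] V) : Prop :=
  ∀ m n : ℤ, ∀ v ∈ iso M m n, D v = (sobScalar s m n : ℂ) • v

/-- `p ≲ q_s`, where `q_s (v) = q (D_s v)`. -/
def LeSob (M : GKModule V) (s : ℝ) (p q : Seminorm ℂ V) : Prop :=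
  ∃ D : V →ₗ[ℂ] V, IsSob M s D ∧ ∃ C : ℝ, ∀ v, p v ≤ C * q (D v)

/-- The one-sided distance `inf {s ≥ 0 : p ≲ q_s}`. -/
def dTo (M : GKModule V) (p q : Seminorm ℂ V) : ℝ≥0∞ :=
  ⨅ (s : ℝ≥0) (_ : LeSob M (s : ℝ) p q), (s : ℝ≥0∞)

/-- The distance of two classes of norms. -/
def dist (M : GKModule V) (p q : Seminorm ℂ V) : ℝ≥0∞ := max (dTo M p q) (dTo M q p)

/-- `s` is the Sobolev gap of `V` for the weight `w`: the distance between the minimal and the
maximal class of `Norm (V, w)`. -/
def IsGap (M : GKModule V) (w : GG → ℝ) (s : ℝ≥0∞) : Prop :=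
  ∃ p q : Seminorm ℂ V, IsMin M w p ∧ IsMax M w q ∧ s = dist M p q

/-! ### Comparison with the definitions used in the proof -/

/-- The same module in the other format. -/
def of (M : Pool.SG.GKModule V) : GKModule V where
  act := M.act
  kact := M.kact
  lin := ⟨M.act_add, M.act_smul⟩
  bracket := M.act_lie
  compat := M.kact_act
  locFinite := M.locFinite
  kcont := M.kcont
  kderiv := M.kderiv

theorem iso_of (M : Pool.SG.GKModule V) (m n : ℤ) : iso (of M) m n = M.iso m n := rfl

theorem isHC_of (M : Pool.SG.GKModule V) (h : M.IsHC) : IsHC (of M) := ⟨h.fg, h.admissible⟩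

theorem isNorm_of (M : Pool.SG.GKModule V) (w : GG → ℝ) (p : Seminorm ℂ V) :
    IsNorm (of M) w p ↔ M.IsNorm w p := by
  constructor
  · rintro ⟨h0, B, i1, i2, i3, ι, π, ⟨h1, h2, h3, h4, h5, h6⟩, h7⟩
    exact ⟨h0, B, i1, i2, i3, ι, π, h1, h2, h3, h4, h5, h6, h7⟩
  · rintro ⟨h0, B, i1, i2, i3, ι, π, h1, h2, h3, h4, h5, h6, h7⟩
    exact ⟨h0, B, i1, i2, i3, ι, π, ⟨h1, h2, h3, h4, h5, h6⟩, h7⟩

theorem isMin_of (M : Pool.SG.GKModule V) (w : GG → ℝ) (p : Seminorm ℂ V) :
    IsMin (of M) w p ↔ M.IsMin w p := by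
  unfold IsMin Pool.SG.GKModule.IsMin
  simp only [isNorm_of]
  rfl

theorem isMax_of (M : Pool.SG.GKModule V) (w : GG → ℝ) (p : Seminorm ℂ V) :
    IsMax (of M) w p ↔ M.IsMax w p := by
  unfold IsMax Pool.SG.GKModule.IsMax
  simp only [isNorm_of]
  rfl

theorem dist_of (M : Pool.SG.GKModule V) (p q : Seminorm ℂ V) : dist (of M) p q = M.dist p q :=
  rfl

theorem isGap_of (M : Pool.SG.GKModule V) (w : GG → ℝ) (s : ℝ≥0∞) :
    IsGap (of M) w s ↔ M.IsGap w s := by
  unfold IsGap Pool.SG.GKModule.IsGap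
  simp only [isMin_of, isMax_of, dist_of]

end norms

end Pool.SGap
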