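import Pool.Agent.Helper71.SG.COEF

open Complex Set Filter Topology Matrix ComplexConjugate
open scoped ENNReal NNReal Nat

noncomputable section

namespace Pool.SG

theorem tame_mono {P : Seminorm ℂ AA} (hP : Tame P) {R : ℝ} (hR : 1 < R) :
    ∃ C, 0 ≤ C ∧ ∀ (n : ℕ) (u : ℂ × ℂ), P (inc (mono n u)) ≤ C * R ^ n * ‖u‖ := by
  obtain ⟨C, hC, h⟩ := hP R hR
  refine ⟨C, hC, fun n u => ?_⟩
  rw [mul_assoc]
  apply h _ _ _ (isExt_inc R (mono n u))
  intro z hz
  rw [evV_mono, norm_smul, norm_pow]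
  gcongr

private lemma evV_trunc (N : ℕ) (F : AA) (z : ℂ) :
    evV (trunc N F) z = ∑ n ∈ Finset.range N, z ^ n • cf n F := by
  have hadd : ∀ f g : VV, evV (f + g) z = evV f z + evV g z := by
    intro f g
    simp [evV]
  have h0 : evV (0 : VV) z = 0 := by simp [evV]
  rw [trunc]
  induction N with
  | zero => simp [h0]
  | succ N ih => rw [Finset.sum_range_succ, Finset.sum_range_succ, hadd, ih, evV_mono]

private lemma isExt_sub_trunc {R : ℝ} {F : AA} {E : ℂ → ℂ × ℂ} (hE : IsExt R E F) (N : ℕ) :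
    IsExt R (fun z => E z - evV (trunc N F) z) (F - inc (trunc N F) : AA) := by
  refine ⟨hE.1.sub (differentiable_evV _).differentiableOn, fun z hz => ?_⟩
  have : ((F - inc (trunc N F) : AA) : ℂ → ℂ × ℂ) z =
      (F : ℂ → ℂ × ℂ) z - (inc (trunc N F) : ℂ → ℂ × ℂ) z := rfl
  rw [this, inc_apply _ hz, hE.2 z hz]

theorem tame_tendsto {P : Seminorm ℂ AA} (hP : Tame P) (F : AA) :
    Tendsto (fun N => P (F - inc (trunc N F))) atTop (𝓝 0) := by
  obtain ⟨R, hR, E, K, hE, hK0, hK⟩ := exists_bdd_ext F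
  obtain ⟨r, h1r, hrR⟩ := exists_between hR
  obtain ⟨C, hC, h⟩ := hP r h1r
  have hr0 : 0 < r := by linarith
  have hR0 : 0 < R := by linarith
  have hq : r / R < 1 := (div_lt_one hR0).2 hrR
  have hq0 : 0 ≤ r / R := by positivity
  have hEr : IsExt r E F := ⟨hE.1.mono (Metric.ball_subset_ball hrR.le), hE.2⟩
  -- the tail
  have htail : ∀ N, ∀ z : ℂ, ‖z‖ < r → ‖E z - evV (trunc N F) z‖ ≤
      (r / R) ^ N * (K * (1 - r / R)⁻¹) := by
    intro N z hz
    have h1 := cf_ext_hasSum hE hR0 (z := z) (by linarith)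
    have h2 : HasSum (fun n => z ^ (n + N) • cf (n + N) F) (E z - evV (trunc N F) z) := by
      rw [evV_trunc]
      exact (hasSum_nat_add_iff' N).2 h1
    have hgeo : HasSum (fun n : ℕ => (r / R) ^ N * (K * (r / R) ^ n))
        ((r / R) ^ N * (K * (1 - r / R)⁻¹)) :=
      ((hasSum_geometric_of_lt_one hq0 hq).mul_left K).mul_left _
    refine h2.norm_le_of_bounded hgeo fun n => ?_
    have h3 := cf_bound hR0 hE hK (n + N)
    rw [norm_smul, norm_pow]
    calc ‖z‖ ^ (n + N) * ‖cf (n + N) F‖ ≤ r ^ (n + N) * ‖cf (n + N) F‖ := by gcongr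
      _ = (r / R) ^ (n + N) * (‖cf (n + N) F‖ * R ^ (n + N)) := by
          rw [div_pow]
          field_simp
      _ ≤ (r / R) ^ (n + N) * K := by gcongr
      _ = (r / R) ^ N * (K * (r / R) ^ n) := by
          rw [pow_add]
          ring
  have hb : ∀ N, P (F - inc (trunc N F)) ≤ C * ((r / R) ^ N * (K * (1 - r / R)⁻¹)) := by
    intro N
    exact h _ _ _ (isExt_sub_trunc hEr N) (htail N)
  have hlim : Tendsto (fun N : ℕ => C * ((r / R) ^ N * (K * (1 - r / R)⁻¹))) atTop (𝓝 0) := by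
    have := ((tendsto_pow_atTop_nhds_zero_of_lt_one hq0 hq).mul_const
      (K * (1 - r / R)⁻¹)).const_mul C
    simpa using this
  exact squeeze_zero (fun N => apply_nonneg P _) hb hlim

theorem tame_summable {P : Seminorm ℂ AA} (hP : Tame P) (F : AA) :
    Summable fun n => P (inc (mono n (cf n F))) := by
  obtain ⟨R, hR, K, hK0, hK⟩ := cf_decay F
  obtain ⟨r, h1r, hrR⟩ := exists_between hR
  obtain ⟨C, hC, h⟩ := tame_mono hP h1r
  have hr0 : 0 < r := by linarith
  have hR0 : 0 < R := by linarith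
  have hq : r / R < 1 := (div_lt_one hR0).2 hrR
  have hq0 : 0 ≤ r / R := by positivity
  refine Summable.of_nonneg_of_le (fun n => apply_nonneg P _) (fun n => ?_)
    ((summable_geometric_of_lt_one hq0 hq).mul_left (C * K))
  calc P (inc (mono n (cf n F))) ≤ C * r ^ n * ‖cf n F‖ := h n _
    _ = C * ((r / R) ^ n * (‖cf n F‖ * R ^ n)) := by
        rw [div_pow]
        field_simp
    _ ≤ C * ((r / R) ^ n * K) := by
        have := hK n
        gcongr
    _ = C * K * (r / R) ^ n := by ring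

theorem tame_le_tsum {P : Seminorm ℂ AA} (hP : Tame P) (F : AA) :
    P F ≤ ∑' n, P (inc (mono n (cf n F))) := by
  have hs := tame_summable hP F
  have h1 : ∀ N, P F ≤ P (F - inc (trunc N F)) + ∑' n, P (inc (mono n (cf n F))) := by
    intro N
    have h2 : P (inc (trunc N F)) ≤ ∑ n ∈ Finset.range N, P (inc (mono n (cf n F))) := by
      rw [trunc, map_sum]
      exact Finset.le_sum_of_subadditive P (map_zero P).le (map_add_le_add P) _ _
    have h3 : ∑ n ∈ Finset.range N, P (inc (mono n (cf n F))) ≤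
        ∑' n, P (inc (mono n (cf n F))) :=
      hs.sum_le_tsum _ fun n _ => apply_nonneg P _
    calc P F = P ((F - inc (trunc N F)) + inc (trunc N F)) := by rw [sub_add_cancel]
      _ ≤ P (F - inc (trunc N F)) + P (inc (trunc N F)) := map_add_le_add P _ _
      _ ≤ _ := by linarith
  have h4 := (tame_tendsto hP F).add_const (∑' n, P (inc (mono n (cf n F))))
  rw [zero_add] at h4
  exact ge_of_tendsto' h4 h1

/-- A criterion. -/
theorem tame_of {P : Seminorm ℂ AA}
    (h1 : ∀ R > 1, ∃ C, 0 ≤ C ∧ ∀ (n : ℕ) (u : ℂ × ℂ), P (inc (mono n u)) ≤ C * R ^ n * ‖u‖)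
    (h2 : ∀ F, P F ≤ ∑' n, P (inc (mono n (cf n F)))) : Tame P := by
  intro R hR
  obtain ⟨r, h1r, hrR⟩ := exists_between hR
  obtain ⟨C, hC, h⟩ := h1 r h1r
  have hr0 : 0 < r := by linarith
  have hR0 : 0 < R := by linarith
  have hq : r / R < 1 := (div_lt_one hR0).2 hrR
  have hq0 : 0 ≤ r / R := by positivity
  have hq1 : 0 < 1 - r / R := by linarith
  refine ⟨C * (1 - r / R)⁻¹, by positivity, fun F E K hE hK => ?_⟩
  have hgeo : HasSum (fun n : ℕ => C * K * (r / R) ^ n) (C * K * (1 - r / R)⁻¹) :=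
    (hasSum_geometric_of_lt_one hq0 hq).mul_left _
  have hle : ∀ n, P (inc (mono n (cf n F))) ≤ C * K * (r / R) ^ n := by
    intro n
    calc P (inc (mono n (cf n F))) ≤ C * r ^ n * ‖cf n F‖ := h n _
      _ = C * ((r / R) ^ n * (‖cf n F‖ * R ^ n)) := by
          rw [div_pow]
          field_simp
      _ ≤ C * ((r / R) ^ n * K) := by
          have := cf_bound hR0 hE hK n
          gcongr
      _ = C * K * (r / R) ^ n := by ring
  have hs : Summable fun n => P (inc (mono n (cf n F))) :=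
    Summable.of_nonneg_of_le (fun n => apply_nonneg P _) hle hgeo.summable
  calc P F ≤ ∑' n, P (inc (mono n (cf n F))) := h2 F
    _ ≤ ∑' n, C * K * (r / R) ^ n := hs.tsum_le_tsum hle hgeo.summable
    _ = C * K * (1 - r / R)⁻¹ := hgeo.tsum_eq
    _ = C * (1 - r / R)⁻¹ * K := by ring

end Pool.SG
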