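import Pool.Agent.Helper71.SG.TRB

open Complex Set Filter Topology Matrix ComplexConjugate
open scoped ENNReal NNReal Nat

noncomputable section

namespace Pool.SG

/-- Joint continuity of the extension of the action. -/
lemma continuousAt_ext {R : ℝ} {E : ℂ → ℂ × ℂ} (hE : DifferentiableOn ℂ E (Metric.ball 0 R))
    (g₀ : GG) (y : ℂ) (hj : jf g₀.1 y ≠ 0) (hm : ‖mob g₀.1 y‖ < R) :
    ContinuousAt (fun p : GG × ℂ => ext p.1 E p.2) (g₀, y) := by
  have ha1 : Continuous fun p : GG × ℂ => al p.1.1 :=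
    continuous_al.comp (continuous_fst.comp continuous_fst)
  have hb1 : Continuous fun p : GG × ℂ => be p.1.1 :=
    continuous_be.comp (continuous_fst.comp continuous_fst)
  have ha2 : Continuous fun p : GG × ℂ => al p.1.2 :=
    continuous_al.comp (continuous_snd.comp continuous_fst)
  have hb2 : Continuous fun p : GG × ℂ => be p.1.2 :=
    continuous_be.comp (continuous_snd.comp continuous_fst)
  have hjf : Continuous fun p : GG × ℂ => jf p.1.1 p.2 := by
    unfold jf
    exact ha1.sub ((continuous_conj.comp hb1).mul continuous_snd)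
  have hmob : ContinuousAt (fun p : GG × ℂ => mob p.1.1 p.2) (g₀, y) := by
    unfold mob
    refine ContinuousAt.div ?_ hjf.continuousAt hj
    exact (((continuous_conj.comp ha1).mul continuous_snd).sub hb1).continuousAt
  have hEc : ContinuousAt E (mob g₀.1 y) :=
    (hE.differentiableAt (Metric.isOpen_ball.mem_nhds (by simpa using hm))).continuousAt
  have hE2 : ContinuousAt (fun p : GG × ℂ => E (mob p.1.1 p.2)) (g₀, y) :=
    ContinuousAt.comp (g := E) (f := fun p : GG × ℂ => mob p.1.1 p.2) hEc hmob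
  have hm2 : ContinuousAt (fun p : GG × ℂ => m2 p.1.2 (E (mob p.1.1 p.2))) (g₀, y) := by
    unfold m2
    refine ContinuousAt.prodMk ?_ ?_
    · exact (ha2.continuousAt.mul hE2.fst).add (hb2.continuousAt.mul hE2.snd)
    · exact ((continuous_conj.comp hb2).continuousAt.mul hE2.fst).add
        ((continuous_conj.comp ha2).continuousAt.mul hE2.snd)
  exact (hjf.continuousAt.inv₀ hj).smul hm2

/-- Continuity of the action of `G` on `AA`. -/
theorem tame_cont {P : Seminorm ℂ AA} (hP : Tame P) (F : AA) (g₀ : GG) :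
    Tendsto (fun g => P (TT g F - TT g₀ F)) (𝓝 g₀) (𝓝 0) := by
  obtain ⟨-, R, hR, E, hE⟩ := F.2
  set A : ℝ := 1 + max ‖al g₀.1‖ ‖al g₀.2‖ with hA
  have hA1 : 1 ≤ A := by
    have : 0 ≤ max ‖al g₀.1‖ ‖al g₀.2‖ := (norm_nonneg _).trans (le_max_left _ _)
    linarith
  obtain ⟨r, hr1, hrR, hr⟩ := mob_unif A R hA1 hR
  have h4A : 0 < 1 / (4 * A) := by positivity
  have hext : ∀ g : GG, ‖al g.1‖ ≤ A → IsExt r (ext g E) (TT g F) := by
    intro g hg1
    have := isExt_ext g hE (r := r) fun z hz => by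
      obtain ⟨h1, h2⟩ := hr g.1 hg1 z hz
      refine ⟨fun h => ?_, h2⟩
      rw [h, norm_zero] at h1
      linarith
    exact this
  have hg0 : ‖al g₀.1‖ ≤ A := by
    have := le_max_left ‖al g₀.1‖ ‖al g₀.2‖
    linarith
  have hev : ∀ᶠ g : GG in 𝓝 g₀, ‖al g.1‖ ≤ A := by
    have hc : Continuous fun g : GG => ‖al g.1‖ := (continuous_al.comp continuous_fst).norm
    have h1 : ‖al g₀.1‖ < A := by
      have := le_max_left ‖al g₀.1‖ ‖al g₀.2‖
      linarith
    exact (hc.continuousAt.eventually (gt_mem_nhds h1)).mono fun g hg => hg.le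
  set r' : ℝ := (1 + r) / 2 with hr'
  have hr'1 : 1 < r' := by rw [hr']; linarith
  have hr'r : r' < r := by rw [hr']; linarith
  obtain ⟨C, hC, hCP⟩ := hP r' hr'1
  have hunif : ∀ ε > 0, ∀ᶠ g : GG in 𝓝 g₀, ∀ z ∈ Metric.closedBall (0 : ℂ) r',
      ‖ext g E z - ext g₀ E z‖ < ε := by
    intro ε hε
    apply IsCompact.eventually_forall_of_forall_eventually (isCompact_closedBall _ _)
    intro y hy
    have hy' : ‖y‖ < r := by
      have : ‖y‖ ≤ r' := by simpa using hy
      linarith
    obtain ⟨h1, h2⟩ := hr g₀.1 hg0 y hy'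
    have hj : jf g₀.1 y ≠ 0 := by
      intro h
      rw [h, norm_zero] at h1
      linarith
    have hc1 : ContinuousAt (fun p : GG × ℂ => ext p.1 E p.2) (g₀, y) :=
      continuousAt_ext hE.1 g₀ y hj h2
    have hc2 : ContinuousAt (fun p : GG × ℂ => ext g₀ E p.2) (g₀, y) := by
      have h3 : ContinuousAt (fun p : GG × ℂ => ((g₀, p.2) : GG × ℂ)) (g₀, y) := by
        fun_prop
      exact ContinuousAt.comp (g := fun p : GG × ℂ => ext p.1 E p.2)
        (f := fun p : GG × ℂ => ((g₀, p.2) : GG × ℂ)) hc1 h3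
    have hc3 : ContinuousAt (fun p : GG × ℂ => ‖ext p.1 E p.2 - ext g₀ E p.2‖) (g₀, y) :=
      (hc1.sub hc2).norm
    have h5 : (fun p : GG × ℂ => ‖ext p.1 E p.2 - ext g₀ E p.2‖) (g₀, y) < ε := by
      simpa using hε
    exact hc3.eventually (gt_mem_nhds h5)
  rw [Metric.tendsto_nhds]
  intro ε hε
  filter_upwards [hev, hunif (ε / (C + 1)) (by positivity)] with g hg hu
  have h1 : IsExt r' (ext g E - ext g₀ E) (TT g F - TT g₀ F : AA) := by
    refine ⟨?_, ?_⟩
    · have hs : Metric.ball (0 : ℂ) r' ⊆ Metric.ball 0 r := Metric.ball_subset_ball hr'r.le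
      exact ((hext g hg).1.mono hs).sub ((hext g₀ hg0).1.mono hs)
    · intro z hz
      have e1 := (hext g hg).2 z hz
      have e2 := (hext g₀ hg0).2 z hz
      simp [e1, e2]
  have h2 := hCP _ _ (ε / (C + 1)) h1 fun z hz =>
    (hu z (by simpa using hz.le)).le
  have h3 : 0 ≤ P (TT g F - TT g₀ F) := apply_nonneg P _
  rw [Real.dist_eq, sub_zero, abs_of_nonneg h3]
  refine h2.trans_lt ?_
  calc C * (ε / (C + 1)) = ε * (C / (C + 1)) := by ring
    _ < ε * 1 := by
      apply mul_lt_mul_of_pos_left _ hε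
      rw [div_lt_one (by positivity)]
      linarith
    _ = ε := mul_one _

end Pool.SG
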